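import Pool.Agent.Lib_helper92.PVF.Base
import Pool.Agent.Lib_helper23.BG4F.REC

set_option autoImplicit false

namespace Pool.Agent.PV

open Finset Complex Pool.Agent.Var35 Pool.Agent.Var73
open scoped ArithmeticFunction ArithmeticFunction.Moebius

theorem mep_factor {p : ℕ} (hp : 2 ≤ p) : (1 - 1 / (p : ℝ))⁻¹ ≤
    Real.exp (1 / (p : ℝ) + (1 / ((p : ℝ) - 1) - 1 / p)) := by
  have hp' : (2 : ℝ) ≤ p := by exact_mod_cast hp
  have h1 : (1 - 1 / (p : ℝ))⁻¹ = 1 / ((p : ℝ) - 1) + 1 := by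
    have h2 : (p : ℝ) - 1 ≠ 0 := by linarith
    have h3 : (p : ℝ) ≠ 0 := by linarith
    rw [inv_eq_one_div]
    field_simp
    ring
  rw [h1]
  refine (Real.add_one_le_exp _).trans (Real.exp_le_exp.2 ?_)
  linarith

theorem mep_tele (D : ℕ) : ∑ p ∈ (Icc 1 D).filter Nat.Prime, (1 / ((p : ℝ) - 1) - 1 / p) ≤ 1 := by
  have h1 : ∑ p ∈ (Icc 1 D).filter Nat.Prime, (1 / ((p : ℝ) - 1) - 1 / p) ≤
      ∑ n ∈ Icc 2 (D + 1), (1 / ((n : ℝ) - 1) - 1 / n) := by
    refine sum_le_sum_of_subset_of_nonneg ?_ ?_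
    · intro p hp
      rw [mem_filter, mem_Icc] at hp
      have := hp.2.two_le
      exact mem_Icc.2 ⟨this, by omega⟩
    · intro n hn _
      have hn' : (2 : ℝ) ≤ n := by exact_mod_cast (mem_Icc.1 hn).1
      have : 1 / (n : ℝ) ≤ 1 / ((n : ℝ) - 1) := one_div_le_one_div_of_le (by linarith) (by linarith)
      linarith
  have h2 : ∀ D : ℕ, ∑ n ∈ Icc 2 (D + 1), (1 / ((n : ℝ) - 1) - 1 / n) = 1 - 1 / ((D : ℝ) + 1) := by
    intro D
    induction D with
    | zero => simp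
    | succ D ih =>
      rw [sum_Icc_succ_top (by omega), ih]
      push_cast
      have : (D : ℝ) + 1 ≠ 0 := by positivity
      have : (D : ℝ) + 1 + 1 ≠ 0 := by positivity
      field_simp
      ring
  refine h1.trans ?_
  rw [h2]
  have : 0 ≤ 1 / ((D : ℝ) + 1) := by positivity
  linarith

/-- MEP : Mertens product, upper bound -/
theorem mert_pr : ∃ C : ℝ, 0 < C ∧ ∀ D : ℕ, 2 ≤ D →
    ∏ p ∈ (Icc 1 D).filter Nat.Prime, (1 - 1 / (p : ℝ))⁻¹ ≤ C * Real.log D := by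
  obtain ⟨C, hC⟩ := Pool.Agent.BG4.mertens_one
  set K : ℝ := 1 / 2 + (2 * C + 1) / Real.log (2 : ℕ) - Real.log (Real.log (2 : ℕ)) + 1 with hK
  refine ⟨Real.exp K, Real.exp_pos _, fun D hD => ?_⟩
  have h1 := Pool.Agent.BG4.REC_abel C hC 2 D le_rfl hD
  rw [abs_le] at h1
  have h2 : (Icc 1 D).filter Nat.Prime = insert 2 ((Ioc 2 D).filter Nat.Prime) := by
    ext p
    rw [mem_insert, mem_filter, mem_filter, mem_Icc, mem_Ioc]
    constructor
    · rintro ⟨h, hp⟩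
      have := hp.two_le
      rcases eq_or_ne p 2 with h' | h'
      · exact Or.inl h'
      · exact Or.inr ⟨by omega, hp⟩
    · rintro (rfl | ⟨h, hp⟩)
      · exact ⟨by omega, Nat.prime_two⟩
      · exact ⟨by omega, hp⟩
  have h3 : ∑ p ∈ (Icc 1 D).filter Nat.Prime, 1 / (p : ℝ) =
      1 / 2 + ∑ p ∈ (Ioc 2 D).filter Nat.Prime, 1 / (p : ℝ) := by
    rw [h2, sum_insert (by simp)]
    norm_num
  have h4 : ∏ p ∈ (Icc 1 D).filter Nat.Prime, (1 - 1 / (p : ℝ))⁻¹ ≤
      ∏ p ∈ (Icc 1 D).filter Nat.Prime, Real.exp (1 / (p : ℝ) + (1 / ((p : ℝ) - 1) - 1 / p)) := by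
    refine prod_le_prod ?_ ?_
    · intro p hp
      have hp' : (2 : ℝ) ≤ p := by exact_mod_cast (mem_filter.1 hp).2.two_le
      have : 1 / (p : ℝ) ≤ 1 := by
        rw [div_le_one (by linarith)]
        linarith
      exact inv_nonneg.2 (by linarith)
    · intro p hp
      exact mep_factor (mem_filter.1 hp).2.two_le
  refine h4.trans ?_
  rw [← Real.exp_sum, sum_add_distrib, h3]
  have hD' : (2 : ℝ) ≤ D := by exact_mod_cast hD
  have h5 : 0 < Real.log D := Real.log_pos (by linarith)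
  have h6 : Real.exp K * Real.log D = Real.exp (K + Real.log (Real.log D)) := by
    rw [Real.exp_add K, Real.exp_log h5]
  rw [h6]
  refine Real.exp_le_exp.2 ?_
  have h7 := mep_tele D
  have h8 := h1.2
  linarith

alias mert := mert_pr

end Pool.Agent.PV
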