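import Mathlib

/-! Block PS of FG: `∑_{r ≤ K} μ²(r)/φ(r) ≤ log K + C` (helper59). -/

set_option autoImplicit false

namespace Pool.Agent.PVPS

open Finset Filter Topology

/-- the Moebius function -/
abbrev mu (n : ℕ) : ℝ := ((ArithmeticFunction.moebius n : ℤ) : ℝ)

/-- Euler's function -/
abbrev phi (n : ℕ) : ℝ := ((Nat.totient n : ℕ) : ℝ)

namespace PSx

/-- sum of `1/v` over the `v ≤ U` composed of primes in `S` -/
noncomputable def rf (S : Finset ℕ) (U : ℝ) : ℝ :=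
  ∑ v ∈ (Icc 1 ⌊U⌋₊).filter (fun v => v.primeFactors ⊆ S), 1 / (v : ℝ)

/-- `p^(-1/4)` -/
noncomputable def tt (p : ℕ) : ℝ := (p : ℝ) ^ (-(1 / 4) : ℝ)

noncomputable def kk (S : Finset ℕ) : ℝ := ∏ p ∈ S, (1 - tt p ^ 3)⁻¹
noncomputable def PP (S : Finset ℕ) : ℝ := ∏ p ∈ S, (1 - 1 / (p : ℝ))⁻¹

lemma ALsum_divisors_swap (N : ℕ) (f : ℕ → ℕ → ℝ) :
    ∑ n ∈ Icc 1 N, ∑ d ∈ n.divisors, f d (n / d) = ∑ d ∈ Icc 1 N, ∑ m ∈ Icc 1 (N / d), f d m := by
  rw [sum_sigma', sum_sigma']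
  refine sum_nbij' (fun x => ⟨x.2, x.1 / x.2⟩) (fun x => ⟨x.1 * x.2, x.1⟩) ?_ ?_ ?_ ?_ ?_
  · rintro ⟨n, d⟩ h
    simp only [mem_sigma, mem_Icc, Nat.mem_divisors] at h ⊢
    obtain ⟨⟨h1, h2⟩, h3, h4⟩ := h
    have hd : 0 < d := Nat.pos_of_dvd_of_pos h3 (by omega)
    refine ⟨⟨hd, (Nat.le_of_dvd (by omega) h3).trans h2⟩, ?_, Nat.div_le_div_right h2⟩
    exact Nat.div_pos (Nat.le_of_dvd (by omega) h3) hd
  · rintro ⟨d, m⟩ h
    simp only [mem_sigma, mem_Icc, Nat.mem_divisors] at h ⊢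
    obtain ⟨⟨h1, h2⟩, h3, h4⟩ := h
    have h5 : d * m ≤ N := by
      rw [Nat.le_div_iff_mul_le (by omega)] at h4
      rw [mul_comm]; exact h4
    exact ⟨⟨Nat.mul_pos (by omega) (by omega), h5⟩, Dvd.intro _ rfl,
      (Nat.mul_pos (by omega) (by omega)).ne'⟩
  · rintro ⟨n, d⟩ h
    simp only [mem_sigma, mem_Icc, Nat.mem_divisors] at h
    simp only [Nat.mul_div_cancel' h.2.1]
  · rintro ⟨d, m⟩ h
    simp only [mem_sigma, mem_Icc] at h
    simp only [Nat.mul_div_cancel_left m (by omega : 0 < d)]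
  · rintro ⟨n, d⟩ _
    rfl

lemma tt_pos (p : ℕ) (hp : 1 ≤ p) : 0 < tt p := by
  unfold tt; have : (0:ℝ) < p := by exact_mod_cast hp
  positivity

lemma tt_pow4 (p : ℕ) (hp : 1 ≤ p) : tt p ^ 4 = 1 / p := by
  unfold tt
  have h0 : (0:ℝ) < p := by exact_mod_cast hp
  rw [← Real.rpow_natCast, ← Real.rpow_mul h0.le]
  norm_num
  rw [Real.rpow_neg_one]

lemma tt_lt_one (p : ℕ) (hp : 2 ≤ p) : tt p < 1 := by
  have h1 := tt_pow4 p (by omega)
  have h2 := tt_pos p (by omega)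
  by_contra h
  push Not at h
  have h3 : (1:ℝ) ≤ tt p ^ 4 := one_le_pow₀ h
  rw [h1] at h3
  have h4 : (2:ℝ) ≤ p := by exact_mod_cast hp
  rw [le_div_iff₀ (by linarith)] at h3
  linarith

lemma tt3_lt (p : ℕ) (hp : 2 ≤ p) : tt p ^ 3 < 1 :=
  pow_lt_one₀ (tt_pos p (by omega)).le (tt_lt_one p hp) (by norm_num)

lemma rf_lt_one (S : Finset ℕ) (U : ℝ) (hU : U < 1) : rf S U = 0 := by
  unfold rf
  have : ⌊U⌋₊ = 0 := by rw [Nat.floor_eq_zero]; exact hU
  rw [this]; simp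

lemma rf_empty (U : ℝ) (hU : 1 ≤ U) : rf ∅ U = 1 := by
  unfold rf
  have h : (Icc 1 ⌊U⌋₊).filter (fun v : ℕ => v.primeFactors ⊆ ∅) = {1} := by
    ext v
    simp only [mem_filter, mem_Icc, subset_empty, Nat.primeFactors_eq_empty, mem_singleton]
    constructor
    · rintro ⟨⟨h1, h2⟩, h3⟩
      omega
    · rintro rfl
      refine ⟨⟨le_rfl, ?_⟩, Or.inr rfl⟩
      rw [Nat.one_le_floor_iff]; exact hU
  rw [h]; simp

lemma rf_insert (S : Finset ℕ) (p : ℕ) (hp : p.Prime) (hpS : p ∉ S) (U : ℝ) :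
    rf (insert p S) U = rf S U + rf (insert p S) (U / p) / p := by
  unfold rf
  have hp0 : (0:ℝ) < p := by exact_mod_cast hp.pos
  rw [← sum_filter_add_sum_filter_not _ (fun v : ℕ => ¬ p ∣ v)]
  congr 1
  · refine sum_congr ?_ fun _ _ => rfl
    ext v
    simp only [mem_filter, mem_Icc]
    constructor
    · rintro ⟨⟨h1, h2⟩, h3⟩
      refine ⟨h1, fun q hq => ?_⟩
      have := h2 hq
      rw [mem_insert] at this
      rcases this with rfl | h
      · exact absurd (Nat.dvd_of_mem_primeFactors hq) h3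
      · exact h
    · rintro ⟨h1, h2⟩
      refine ⟨⟨h1, h2.trans (subset_insert _ _)⟩, fun h3 => ?_⟩
      exact hpS (h2 (Nat.mem_primeFactors.mpr ⟨hp, h3, by omega⟩))
  · rw [sum_div]
    refine sum_nbij' (fun v => v / p) (fun v => v * p) ?_ ?_ ?_ ?_ ?_
    · intro v
      simp only [mem_filter, mem_Icc, not_not]
      rintro ⟨⟨⟨h1, h2⟩, h3⟩, h4⟩
      obtain ⟨w, rfl⟩ := h4
      have hw : 0 < w := Nat.pos_of_ne_zero (by rintro rfl; simp at h1)
      rw [Nat.mul_div_cancel_left w hp.pos]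
      refine ⟨⟨hw, ?_⟩, ?_⟩
      · rw [Nat.floor_div_natCast, Nat.le_div_iff_mul_le hp.pos, mul_comm]; exact h2
      · exact (Nat.primeFactors_mono (Dvd.intro_left p rfl) (Nat.mul_pos hp.pos hw).ne').trans h3
    · intro w
      simp only [mem_filter, mem_Icc, not_not]
      rintro ⟨⟨h1, h2⟩, h3⟩
      rw [Nat.floor_div_natCast, Nat.le_div_iff_mul_le hp.pos] at h2
      refine ⟨⟨⟨Nat.mul_pos (by omega) hp.pos, h2⟩, ?_⟩, Dvd.intro_left w rfl⟩
      rw [Nat.primeFactors_mul (by omega) hp.ne_zero, hp.primeFactors]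
      exact union_subset h3 (by simp)
    · intro v
      simp only [mem_filter, mem_Icc, not_not]
      rintro ⟨_, h4⟩
      exact Nat.div_mul_cancel h4
    · intro w _
      exact Nat.mul_div_cancel w hp.pos
    · intro v
      simp only [mem_filter, mem_Icc, not_not]
      rintro ⟨_, h4⟩
      obtain ⟨w, rfl⟩ := h4
      rw [Nat.mul_div_cancel_left w hp.pos]
      push_cast
      rw [div_div, mul_comm (p:ℝ)]

lemma PP_insert (S : Finset ℕ) (p : ℕ) (hp : p.Prime) (hpS : p ∉ S) :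
    PP (insert p S) = PP S + PP (insert p S) / p := by
  unfold PP
  rw [prod_insert hpS]
  have hp1 : (1:ℝ) < p := by exact_mod_cast hp.one_lt
  have h1 : (1 - 1 / (p:ℝ)) ≠ 0 := by
    have : 1 / (p:ℝ) < 1 := by rw [div_lt_one (by linarith)]; exact hp1
    linarith
  have hp0 : (p:ℝ) ≠ 0 := by linarith
  have h2 : (p:ℝ) - 1 ≠ 0 := by linarith
  field_simp
  ring

lemma PP_nonneg (S : Finset ℕ) (hS : ∀ p ∈ S, p.Prime) : 0 ≤ PP S := by
  unfold PP
  refine prod_nonneg fun p hp => ?_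
  have hp1 : (1:ℝ) < p := by exact_mod_cast (hS p hp).one_lt
  have : 1 / (p:ℝ) < 1 := by rw [div_lt_one (by linarith)]; exact hp1
  exact inv_nonneg.mpr (by linarith)

lemma PP_le_kk (S : Finset ℕ) (hS : ∀ p ∈ S, p.Prime) : PP S ≤ kk S := by
  unfold PP kk
  refine prod_le_prod (fun p hp => ?_) fun p hp => ?_
  · have hp1 : (1:ℝ) < p := by exact_mod_cast (hS p hp).one_lt
    have : 1 / (p:ℝ) < 1 := by rw [div_lt_one (by linarith)]; exact hp1
    exact inv_nonneg.mpr (by linarith)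
  · have h2 := (hS p hp).two_le
    have h3 := tt3_lt p h2
    have h4 := tt_pow4 p (by omega)
    rw [← h4]
    have h5 : tt p ^ 4 ≤ tt p ^ 3 :=
      pow_le_pow_of_le_one (tt_pos p (by omega)).le (tt_lt_one p h2).le (by norm_num)
    exact inv_anti₀ (by linarith) (by linarith)

lemma kk_pos (S : Finset ℕ) (hS : ∀ p ∈ S, p.Prime) : 0 < kk S := by
  unfold kk
  refine prod_pos fun p hp => ?_
  have h3 := tt3_lt p (hS p hp).two_le
  exact inv_pos.mpr (by linarith)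

lemma kk_insert (S : Finset ℕ) (p : ℕ) (hp : p.Prime) (hpS : p ∉ S) :
    kk (insert p S) = kk S + kk (insert p S) * tt p ^ 3 := by
  unfold kk
  rw [prod_insert hpS]
  have h3 := tt3_lt p hp.two_le
  have h4 : (1 - tt p ^ 3) ≠ 0 := by linarith
  field_simp
  ring

lemma tail (S : Finset ℕ) : (∀ p ∈ S, p.Prime) → ∀ U : ℝ, 0 < U →
    PP S - rf S U ≤ kk S * U ^ (-(1 / 4) : ℝ) := by
  induction S using Finset.induction_on with
  | empty =>
    intro _ U hU
    have h1 : PP ∅ = 1 := by simp [PP]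
    have h2 : kk ∅ = 1 := by simp [kk]
    rw [h1, h2, one_mul]
    by_cases h : U < 1
    · rw [rf_lt_one _ _ h, sub_zero]
      exact Real.one_le_rpow_of_pos_of_le_one_of_nonpos hU h.le (by norm_num)
    · push Not at h
      rw [rf_empty U h, sub_self]
      positivity
  | insert p S hpS ih =>
    intro hS
    have hp : p.Prime := hS p (mem_insert_self _ _)
    have hS' : ∀ q ∈ S, q.Prime := fun q hq => hS q (mem_insert_of_mem hq)
    have ih' := ih hS'
    have hp0 : (0:ℝ) < p := by exact_mod_cast hp.pos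
    have key : ∀ n : ℕ, ∀ U : ℝ, 0 < U → U < 2 ^ n →
        PP (insert p S) - rf (insert p S) U ≤ kk (insert p S) * U ^ (-(1 / 4) : ℝ) := by
      intro n
      induction n with
      | zero =>
        intro U hU hU1
        rw [pow_zero] at hU1
        rw [rf_lt_one _ _ hU1, sub_zero]
        have h1 : (1:ℝ) ≤ U ^ (-(1 / 4) : ℝ) :=
          Real.one_le_rpow_of_pos_of_le_one_of_nonpos hU hU1.le (by norm_num)
        calc PP (insert p S) ≤ kk (insert p S) := PP_le_kk _ hS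
          _ = kk (insert p S) * 1 := (mul_one _).symm
          _ ≤ _ := mul_le_mul_of_nonneg_left h1 (kk_pos _ hS).le
      | succ n ihn =>
        intro U hU hU1
        have h1 : U / p < 2 ^ n := by
          rw [div_lt_iff₀ hp0]
          have : (2:ℝ) ≤ p := by exact_mod_cast hp.two_le
          calc U < 2 ^ (n + 1) := hU1
            _ = 2 ^ n * 2 := pow_succ _ _
            _ ≤ 2 ^ n * p := mul_le_mul_of_nonneg_left this (by positivity)
        have h2 := ihn (U / p) (by positivity) h1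
        have h3 := ih' U hU
        rw [rf_insert S p hp hpS, PP_insert S p hp hpS, kk_insert S p hp hpS]
        have h4 : (U / p) ^ (-(1 / 4) : ℝ) = U ^ (-(1 / 4) : ℝ) * (tt p)⁻¹ := by
          rw [Real.div_rpow hU.le hp0.le]; rfl
        rw [h4] at h2
        have h5 : (PP (insert p S) - rf (insert p S) (U / p)) / p
            ≤ kk (insert p S) * (U ^ (-(1 / 4) : ℝ) * (tt p)⁻¹) / p :=
          div_le_div_of_nonneg_right h2 hp0.le
        have h6 : kk (insert p S) * (U ^ (-(1 / 4) : ℝ) * (tt p)⁻¹) / p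
            = kk (insert p S) * tt p ^ 3 * U ^ (-(1 / 4) : ℝ) := by
          have h7 := tt_pow4 p hp.pos
          have h8 := (tt_pos p hp.pos).ne'
          have h9 : (p:ℝ)⁻¹ = tt p ^ 4 := by rw [h7, one_div]
          rw [div_eq_mul_inv, h9]
          field_simp
        rw [h6] at h5
        rw [sub_div] at h5
        nlinarith
    intro U hU
    obtain ⟨n, hn⟩ := pow_unbounded_of_one_lt U (one_lt_two)
    exact key n U hU hn

lemma PP_eq (r : ℕ) (hr : 1 ≤ r) : PP r.primeFactors = r / (Nat.totient r : ℝ) := by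
  have h := Nat.totient_eq_mul_prod_factors r
  have h2 : (Nat.totient r : ℝ) = r * ∏ p ∈ r.primeFactors, (1 - 1 / (p:ℝ)) := by
    have h3 := congrArg (fun x : ℚ => (x : ℝ)) h
    push_cast at h3
    rw [h3]
    congr 1
    exact prod_congr rfl fun p _ => by rw [one_div]
  unfold PP
  rw [prod_inv_distrib, h2]
  have hr0 : (r:ℝ) ≠ 0 := by positivity
  have h4 : (Nat.totient r : ℝ) ≠ 0 := by
    have := Nat.totient_pos.mpr hr
    positivity
  have h5 : ∏ p ∈ r.primeFactors, (1 - 1 / (p:ℝ)) ≠ 0 := by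
    intro h0; rw [h0, mul_zero] at h2; exact h4 h2
  field_simp

/-! ### the average of `kk` -/

lemma kk_factor (p : ℕ) (hp : p.Prime) :
    (1 - tt p ^ 3)⁻¹ ≤ (if p = 2 then 3 / 2 else if p = 3 then 6 / 5 else 1) * (1 + tt p ^ 2) := by
  have h2 := hp.two_le
  have ht0 := tt_pos p (by omega)
  have ht4 := tt_pow4 p (by omega)
  have h3 := tt3_lt p h2
  rw [inv_le_iff_one_le_mul₀ (by linarith)]
  by_cases hp2 : p = 2
  · subst hp2
    rw [if_pos rfl]
    push_cast at ht4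
    have a1 : tt 2 < 0.841 := by
      by_contra h; push Not at h
      have : (0.841:ℝ) ^ 4 ≤ tt 2 ^ 4 := pow_le_pow_left₀ (by norm_num) h 4
      rw [ht4] at this; norm_num at this
    have a2 : 0.84 < tt 2 := by
      by_contra h; push Not at h
      have : tt 2 ^ 4 ≤ (0.84:ℝ) ^ 4 := pow_le_pow_left₀ ht0.le h 4
      rw [ht4] at this; norm_num at this
    have a3 : tt 2 ^ 3 ≤ 0.841 ^ 3 := pow_le_pow_left₀ ht0.le a1.le 3
    have a4 : (0.84:ℝ) ^ 2 ≤ tt 2 ^ 2 := pow_le_pow_left₀ (by norm_num) a2.le 2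
    have a5 : (0.405:ℝ) ≤ 1 - tt 2 ^ 3 := by norm_num at a3 ⊢; linarith
    have a6 : (1.705:ℝ) ≤ 1 + tt 2 ^ 2 := by norm_num at a4 ⊢; linarith
    nlinarith
  by_cases hp3 : p = 3
  · subst hp3
    rw [if_neg (by norm_num), if_pos rfl]
    push_cast at ht4
    have a1 : tt 3 < 0.76 := by
      by_contra h; push Not at h
      have : (0.76:ℝ) ^ 4 ≤ tt 3 ^ 4 := pow_le_pow_left₀ (by norm_num) h 4
      rw [ht4] at this; norm_num at this
    have a2 : 0.759 < tt 3 := by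
      by_contra h; push Not at h
      have : tt 3 ^ 4 ≤ (0.759:ℝ) ^ 4 := pow_le_pow_left₀ ht0.le h 4
      rw [ht4] at this; norm_num at this
    have a3 : tt 3 ^ 3 ≤ 0.76 ^ 3 := pow_le_pow_left₀ ht0.le a1.le 3
    have a4 : (0.759:ℝ) ^ 2 ≤ tt 3 ^ 2 := pow_le_pow_left₀ (by norm_num) a2.le 2
    have a5 : (0.561:ℝ) ≤ 1 - tt 3 ^ 3 := by norm_num at a3 ⊢; linarith
    have a6 : (1.576:ℝ) ≤ 1 + tt 3 ^ 2 := by norm_num at a4 ⊢; linarith
    nlinarith
  · rw [if_neg hp2, if_neg hp3, one_mul]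
    have hp4 : p ≠ 4 := by rintro rfl; exact absurd hp (by norm_num)
    have hp5 : (5:ℝ) ≤ p := by exact_mod_cast (by omega : 5 ≤ p)
    have a1 : tt p < 0.67 := by
      by_contra h; push Not at h
      have h6 : (0.67:ℝ) ^ 4 ≤ tt p ^ 4 := pow_le_pow_left₀ (by norm_num) h 4
      rw [ht4] at h6
      have h7 : 1 / (p:ℝ) ≤ 1 / 5 := one_div_le_one_div_of_le (by norm_num) hp5
      norm_num at h6 h7
      linarith
    have a3 : tt p ^ 3 ≤ 0.67 ^ 3 := pow_le_pow_left₀ ht0.le a1.le 3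
    have a4 : tt p + tt p ^ 3 ≤ 1 := by norm_num at a3 ⊢; linarith
    have a5 : (1 - tt p ^ 3) * (1 + tt p ^ 2) = 1 + tt p ^ 2 * (1 - tt p - tt p ^ 3) := by ring
    have a6 : 0 ≤ tt p ^ 2 * (1 - tt p - tt p ^ 3) := mul_nonneg (by positivity) (by linarith)
    nlinarith

lemma kk_le (S : Finset ℕ) (hS : ∀ p ∈ S, p.Prime) : kk S ≤ 2 * ∏ p ∈ S, (1 + tt p ^ 2) := by
  have h1 : kk S ≤ (∏ p ∈ S, (if p = 2 then (3 / 2 : ℝ) else if p = 3 then 6 / 5 else 1)) *
      ∏ p ∈ S, (1 + tt p ^ 2) := by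
    rw [← prod_mul_distrib]
    refine prod_le_prod (fun p hp => ?_) fun p hp => kk_factor p (hS p hp)
    have h3 := tt3_lt p (hS p hp).two_le
    exact inv_nonneg.mpr (by linarith)
  refine h1.trans (mul_le_mul_of_nonneg_right ?_ (prod_nonneg fun p _ => by positivity))
  have h3 : ∏ p ∈ S, (if p = 2 then (3 / 2 : ℝ) else if p = 3 then 6 / 5 else 1)
      = ∏ p ∈ S.filter (fun p => p ∈ ({2, 3} : Finset ℕ)),
        (if p = 2 then (3 / 2 : ℝ) else if p = 3 then 6 / 5 else 1) := by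
    rw [prod_filter]
    refine prod_congr rfl fun p _ => ?_
    by_cases h : p ∈ ({2, 3} : Finset ℕ)
    · rw [if_pos h]
    · rw [if_neg h]
      simp only [mem_insert, mem_singleton, not_or] at h
      rw [if_neg h.1, if_neg h.2]
  rw [h3]
  have h4 : S.filter (fun p => p ∈ ({2, 3} : Finset ℕ)) ⊆ {2, 3} := by
    intro p hp
    rw [mem_filter] at hp
    exact hp.2
  calc ∏ p ∈ S.filter (fun p => p ∈ ({2, 3} : Finset ℕ)),
        (if p = 2 then (3 / 2 : ℝ) else if p = 3 then 6 / 5 else 1)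
      ≤ ∏ p ∈ ({2, 3} : Finset ℕ),
        (if p = 2 then (3 / 2 : ℝ) else if p = 3 then 6 / 5 else 1) := by
        refine Finset.prod_le_prod_of_subset_of_one_le h4 ?_ ?_
        · intro p _; split_ifs <;> norm_num
        · intro p _ _; split_ifs <;> norm_num
    _ ≤ 2 := by
        rw [prod_pair (by norm_num)]; norm_num

/-! ### elementary sums -/

lemma sum_34 (M : ℕ) : ∑ m ∈ Icc 1 M, tt m ^ 3 ≤ 4 * (M : ℝ) ^ ((1 / 4) : ℝ) := by
  induction M with
  | zero => simp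
  | succ M ih =>
    rw [sum_Icc_succ_top (by omega)]
    have hM : (0:ℝ) < ((M + 1 : ℕ) : ℝ) := by positivity
    obtain ⟨a, ha⟩ : ∃ a, a = (M : ℝ) ^ ((1 / 4) : ℝ) := ⟨_, rfl⟩
    obtain ⟨b, hb⟩ : ∃ b, b = ((M + 1 : ℕ) : ℝ) ^ ((1 / 4) : ℝ) := ⟨_, rfl⟩
    have ha0 : 0 ≤ a := by rw [ha]; positivity
    have hb0 : 0 < b := by rw [hb]; positivity
    have ha4 : a ^ 4 = M := by
      rw [ha, ← Real.rpow_natCast, ← Real.rpow_mul (Nat.cast_nonneg _)]; norm_num
    have hb4 : b ^ 4 = M + 1 := by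
      rw [hb, ← Real.rpow_natCast, ← Real.rpow_mul hM.le]; norm_num
    have hab : a ≤ b := by
      rw [ha, hb]
      refine Real.rpow_le_rpow (Nat.cast_nonneg _) ?_ (by norm_num)
      push_cast; linarith
    have ht : tt (M + 1) = b⁻¹ := by
      unfold tt; rw [hb, Real.rpow_neg hM.le]
    rw [ht, ← hb]
    rw [← ha] at ih
    have key : (b⁻¹) ^ 3 ≤ 4 * b - 4 * a := by
      rw [inv_pow, inv_le_iff_one_le_mul₀ (by positivity)]
      have e : (1:ℝ) = b ^ 4 - a ^ 4 := by rw [ha4, hb4]; ring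
      have e2 : b ^ 4 - a ^ 4 = (b - a) * (b ^ 3 + b ^ 2 * a + b * a ^ 2 + a ^ 3) := by ring
      have e3 : b ^ 3 + b ^ 2 * a + b * a ^ 2 + a ^ 3 ≤ 4 * b ^ 3 := by
        have g1 : b ^ 2 * a ≤ b ^ 3 := by
          calc b ^ 2 * a ≤ b ^ 2 * b := mul_le_mul_of_nonneg_left hab (by positivity)
            _ = b ^ 3 := by ring
        have g2 : b * a ^ 2 ≤ b ^ 3 := by
          calc b * a ^ 2 ≤ b * b ^ 2 := mul_le_mul_of_nonneg_left (pow_le_pow_left₀ ha0 hab 2) hb0.le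
            _ = b ^ 3 := by ring
        have g3 : a ^ 3 ≤ b ^ 3 := pow_le_pow_left₀ ha0 hab 3
        linarith
      calc (1:ℝ) = (b - a) * (b ^ 3 + b ^ 2 * a + b * a ^ 2 + a ^ 3) := by rw [e, e2]
        _ ≤ (b - a) * (4 * b ^ 3) := mul_le_mul_of_nonneg_left e3 (by linarith)
        _ = (4 * b - 4 * a) * b ^ 3 := by ring
    linarith

lemma sum_32 (M : ℕ) : ∑ m ∈ Icc 1 M, tt m ^ 6 ≤ 3 := by
  have key : ∀ M : ℕ, ∑ m ∈ Icc 1 (M + 1), tt m ^ 6 ≤ 3 - 2 * tt (M + 1) ^ 2 := by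
    intro M
    induction M with
    | zero => simp [tt]; norm_num
    | succ M ih =>
      rw [sum_Icc_succ_top (by omega)]
      obtain ⟨a, ha⟩ : ∃ a, a = tt (M + 1) ^ 2 := ⟨_, rfl⟩
      obtain ⟨b, hb⟩ : ∃ b, b = tt (M + 1 + 1) ^ 2 := ⟨_, rfl⟩
      have ha0 : 0 < a := by rw [ha]; exact pow_pos (tt_pos _ (by omega)) 2
      have hb0 : 0 < b := by rw [hb]; exact pow_pos (tt_pos _ (by omega)) 2
      have ha2 : a ^ 2 = 1 / (M + 1) := by
        rw [ha, ← pow_mul, tt_pow4 _ (by omega)]; push_cast; rfl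
      have hb2 : b ^ 2 = 1 / (M + 2) := by
        rw [hb, ← pow_mul, tt_pow4 _ (by omega)]; push_cast; ring_nf
      have e6 : tt (M + 1 + 1) ^ 6 = b ^ 3 := by rw [hb]; ring
      rw [e6, ← hb]
      rw [← ha] at ih
      have hba : b ≤ a := by
        have : b ^ 2 ≤ a ^ 2 := by
          rw [ha2, hb2]
          exact one_div_le_one_div_of_le (by positivity) (by linarith)
        exact le_of_sq_le_sq this ha0.le
      have key : b ^ 3 ≤ 2 * a - 2 * b := by
        have e : a ^ 2 - b ^ 2 = a ^ 2 * b ^ 2 := by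
          rw [ha2, hb2]; field_simp; ring
        have e2 : (a - b) * (a + b) = a ^ 2 * b ^ 2 := by rw [← e]; ring
        have e3 : (a - b) * (2 * a) ≥ a ^ 2 * b ^ 2 := by rw [← e2]; nlinarith
        have e4 : 2 * (a - b) ≥ a * b ^ 2 := by
          have : a * (2 * (a - b)) ≥ a * (a * b ^ 2) := by nlinarith
          exact le_of_mul_le_mul_left this ha0
        have e5 : b * b ^ 2 ≤ a * b ^ 2 := mul_le_mul_of_nonneg_right hba (by positivity)
        nlinarith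
      linarith
  rcases M with _ | M
  · simp
  · refine (key M).trans ?_
    have := pow_pos (tt_pos (M + 1) (by omega)) 2
    linarith

lemma tt_mul (a b : ℕ) : tt (a * b) = tt a * tt b := by
  unfold tt
  push_cast
  exact Real.mul_rpow (Nat.cast_nonneg _) (Nat.cast_nonneg _)

lemma prod_tt (r : ℕ) (hr : Squarefree r) :
    ∏ p ∈ r.primeFactors, (1 + tt p ^ 2) = ∑ u ∈ r.divisors, tt u ^ 2 := by
  have h := ArithmeticFunction.IsMultiplicative.prodPrimeFactors_one_add_of_squarefree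
    (R := ℝ) (f := ⟨fun n => tt n ^ 2, by simp [tt]⟩) ?_ hr
  · exact h
  · refine ⟨by simp [tt], fun {m n} _ => ?_⟩
    show tt (m * n) ^ 2 = tt m ^ 2 * tt n ^ 2
    rw [tt_mul]; ring

lemma sum_kk (K : ℕ) (hK : 1 ≤ K) :
    ∑ r ∈ (Icc 1 K).filter Squarefree, kk r.primeFactors * tt r ^ 3
      ≤ 24 * (K : ℝ) ^ ((1 / 4) : ℝ) := by
  have hK0 : (0:ℝ) < K := by exact_mod_cast hK
  calc ∑ r ∈ (Icc 1 K).filter Squarefree, kk r.primeFactors * tt r ^ 3
      ≤ ∑ r ∈ (Icc 1 K).filter Squarefree, 2 * ((∑ u ∈ r.divisors, tt u ^ 2) * tt r ^ 3) := by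
        refine sum_le_sum fun r hr => ?_
        rw [mem_filter, mem_Icc] at hr
        have h1 := kk_le r.primeFactors fun p hp => Nat.prime_of_mem_primeFactors hp
        rw [prod_tt r hr.2] at h1
        have h2 := (pow_pos (tt_pos r hr.1.1) 3).le
        nlinarith
    _ ≤ ∑ r ∈ Icc 1 K, 2 * ((∑ u ∈ r.divisors, tt u ^ 2) * tt r ^ 3) := by
        refine sum_le_sum_of_subset_of_nonneg (filter_subset _ _) fun r hr _ => ?_
        rw [mem_Icc] at hr
        have h2 := (pow_pos (tt_pos r hr.1) 3).le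
        have h3 : 0 ≤ ∑ u ∈ r.divisors, tt u ^ 2 := sum_nonneg fun _ _ => by positivity
        positivity
    _ = ∑ n ∈ Icc 1 K, ∑ d ∈ n.divisors, 2 * (tt d ^ 5 * tt (n / d) ^ 3) := by
        refine sum_congr rfl fun r hr => ?_
        rw [sum_mul, mul_sum]
        refine sum_congr rfl fun d hd => ?_
        have e : tt r = tt d * tt (r / d) := by
          rw [← tt_mul, Nat.mul_div_cancel' (Nat.dvd_of_mem_divisors hd)]
        rw [e]; ring
    _ = ∑ d ∈ Icc 1 K, ∑ m ∈ Icc 1 (K / d), 2 * (tt d ^ 5 * tt m ^ 3) :=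
        ALsum_divisors_swap K (fun d m => 2 * (tt d ^ 5 * tt m ^ 3))
    _ ≤ ∑ d ∈ Icc 1 K, 8 * (K : ℝ) ^ ((1 / 4) : ℝ) * tt d ^ 6 := by
        refine sum_le_sum fun d hd => ?_
        rw [mem_Icc] at hd
        have hd0 : (0:ℝ) < d := by exact_mod_cast (by omega : 0 < d)
        rw [← mul_sum, ← mul_sum]
        have h1 := sum_34 (K / d)
        have h2 : ((K / d : ℕ) : ℝ) ^ ((1 / 4) : ℝ) ≤ (K : ℝ) ^ ((1 / 4) : ℝ) * tt d := by
          calc ((K / d : ℕ) : ℝ) ^ ((1 / 4) : ℝ) ≤ ((K : ℝ) / d) ^ ((1 / 4) : ℝ) :=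
                Real.rpow_le_rpow (Nat.cast_nonneg _) Nat.cast_div_le (by norm_num)
            _ = _ := by
                rw [Real.div_rpow hK0.le hd0.le]
                unfold tt
                rw [Real.rpow_neg hd0.le]; rfl
        have h3 := (pow_pos (tt_pos d hd.1) 5).le
        calc 2 * (tt d ^ 5 * ∑ m ∈ Icc 1 (K / d), tt m ^ 3)
            ≤ 2 * (tt d ^ 5 * (4 * ((K : ℝ) ^ ((1 / 4) : ℝ) * tt d))) := by
              refine mul_le_mul_of_nonneg_left (mul_le_mul_of_nonneg_left ?_ h3) (by norm_num)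
              linarith
          _ = _ := by ring
    _ = 8 * (K : ℝ) ^ ((1 / 4) : ℝ) * ∑ d ∈ Icc 1 K, tt d ^ 6 := by rw [mul_sum]
    _ ≤ 8 * (K : ℝ) ^ ((1 / 4) : ℝ) * 3 := mul_le_mul_of_nonneg_left (sum_32 K) (by positivity)
    _ = _ := by ring

lemma first_part (K : ℕ) :
    ∑ r ∈ (Icc 1 K).filter Squarefree, 1 / (r:ℝ) * rf r.primeFactors ((K:ℝ) / r)
      ≤ ∑ n ∈ Icc 1 K, 1 / (n : ℝ) := by
  have e : ∑ r ∈ (Icc 1 K).filter Squarefree, 1 / (r:ℝ) * rf r.primeFactors ((K:ℝ) / r)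
      = ∑ x ∈ ((Icc 1 K).filter Squarefree).sigma
          (fun r => (Icc 1 (K / r)).filter (fun v => v.primeFactors ⊆ r.primeFactors)),
          1 / ((x.1 * x.2 : ℕ) : ℝ) := by
    rw [sum_sigma]
    refine sum_congr rfl fun r _ => ?_
    unfold rf
    rw [Nat.floor_div_natCast, Nat.floor_natCast, mul_sum]
    refine sum_congr rfl fun v _ => ?_
    push_cast
    rw [one_div_mul_one_div]
  rw [e]
  have hinj : Set.InjOn (fun x : (Σ _ : ℕ, ℕ) => x.1 * x.2)
      (((Icc 1 K).filter Squarefree).sigma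
          (fun r => (Icc 1 (K / r)).filter (fun v => v.primeFactors ⊆ r.primeFactors)) :
          Set (Σ _ : ℕ, ℕ)) := by
    rintro ⟨r, v⟩ h ⟨r', v'⟩ h' heq
    simp only [coe_sigma, Set.mem_sigma_iff, mem_coe, mem_filter, mem_Icc] at h h'
    simp only at heq
    have key : ∀ r v : ℕ, 1 ≤ r → Squarefree r → 1 ≤ v → v.primeFactors ⊆ r.primeFactors →
        r = ∏ p ∈ (r * v).primeFactors, p := by
      intro r v h1 h2 h3 h4
      have hr0 : r ≠ 0 := by omega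
      have hv0 : v ≠ 0 := by omega
      rw [Nat.primeFactors_mul hr0 hv0, union_eq_left.mpr h4,
        Nat.prod_primeFactors_of_squarefree h2]
    have e1 := key r v h.1.1.1 h.1.2 h.2.1.1 h.2.2
    have e2 := key r' v' h'.1.1.1 h'.1.2 h'.2.1.1 h'.2.2
    have e3 : r = r' := by rw [e1, e2, heq]
    subst e3
    have e4 : v = v' := Nat.eq_of_mul_eq_mul_left (by omega) heq
    rw [e4]
  rw [← sum_image (f := fun n : ℕ => 1 / (n:ℝ)) hinj]
  refine sum_le_sum_of_subset_of_nonneg ?_ fun _ _ _ => by positivity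
  intro n hn
  rw [mem_image] at hn
  obtain ⟨⟨r, v⟩, hx, rfl⟩ := hn
  simp only [mem_sigma, mem_filter, mem_Icc] at hx
  rw [mem_Icc]
  obtain ⟨⟨⟨h1, h2⟩, h3⟩, ⟨h4, h5⟩, h6⟩ := hx
  have hr0 : 0 < r := h1
  have hv0 : 0 < v := h4
  refine ⟨Nat.mul_pos hr0 hv0, ?_⟩
  rw [Nat.le_div_iff_mul_le hr0] at h5
  show r * v ≤ K
  rw [mul_comm]; exact h5

end PSx

open PSx in
theorem phi_sum_pr : ∃ C : ℝ, 0 ≤ C ∧ ∀ K : ℕ, 1 ≤ K →
    ∑ r ∈ Icc 1 K, mu r ^ 2 / phi r ≤ Real.log K + C := by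
  refine ⟨25, by norm_num, fun K hK => ?_⟩
  have hK0 : (0:ℝ) < K := by exact_mod_cast hK
  have h1 : ∑ r ∈ Icc 1 K, mu r ^ 2 / phi r
      = ∑ r ∈ (Icc 1 K).filter Squarefree, 1 / (r:ℝ) * PP r.primeFactors := by
    rw [sum_filter]
    refine sum_congr rfl fun r hr => ?_
    rw [mem_Icc] at hr
    have hr0 : (r:ℝ) ≠ 0 := by
      have : 0 < r := by omega
      positivity
    split_ifs with h
    · rw [PP_eq r hr.1]
      have h2 : mu r ^ 2 = 1 := by
        have := ArithmeticFunction.moebius_sq_eq_one_of_squarefree h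
        unfold mu
        exact_mod_cast this
      rw [h2]
      unfold phi
      field_simp
    · have h2 : mu r = 0 := by
        unfold mu
        rw [ArithmeticFunction.moebius_eq_zero_of_not_squarefree h]; simp
      rw [h2]; simp
  rw [h1]
  have h2 : ∑ r ∈ (Icc 1 K).filter Squarefree, 1 / (r:ℝ) * PP r.primeFactors
      ≤ ∑ r ∈ (Icc 1 K).filter Squarefree, (1 / (r:ℝ) * rf r.primeFactors ((K:ℝ) / r)
        + (K:ℝ) ^ (-(1 / 4) : ℝ) * (kk r.primeFactors * tt r ^ 3)) := by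
    refine sum_le_sum fun r hr => ?_
    rw [mem_filter, mem_Icc] at hr
    have hr0 : (0:ℝ) < r := by exact_mod_cast (by omega : 0 < r)
    have h3 := tail r.primeFactors (fun p hp => Nat.prime_of_mem_primeFactors hp) ((K:ℝ) / r)
      (by positivity)
    have h4 : ((K:ℝ) / r) ^ (-(1 / 4) : ℝ) = (K:ℝ) ^ (-(1 / 4) : ℝ) * (tt r)⁻¹ := by
      rw [Real.div_rpow hK0.le hr0.le]; rfl
    rw [h4] at h3
    have h5 : 1 / (r:ℝ) = tt r ^ 4 := (tt_pow4 r hr.1.1).symm
    have h6 := tt_pos r hr.1.1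
    have h7 : 1 / (r:ℝ) * PP r.primeFactors ≤ 1 / (r:ℝ) * (rf r.primeFactors ((K:ℝ) / r)
        + kk r.primeFactors * ((K:ℝ) ^ (-(1 / 4) : ℝ) * (tt r)⁻¹)) :=
      mul_le_mul_of_nonneg_left (by linarith) (by positivity)
    refine h7.trans (le_of_eq ?_)
    rw [mul_add]
    congr 1
    rw [h5]
    field_simp
  refine h2.trans ?_
  rw [sum_add_distrib, ← mul_sum]
  have h8 := first_part K
  have h9 := sum_kk K hK
  have h10 : ∑ n ∈ Icc 1 K, 1 / (n : ℝ) ≤ 1 + Real.log K := by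
    have := harmonic_le_one_add_log K
    rw [harmonic_eq_sum_Icc] at this
    push_cast at this
    simpa [one_div] using this
  have h11 : (K:ℝ) ^ (-(1 / 4) : ℝ) * ∑ r ∈ (Icc 1 K).filter Squarefree,
      kk r.primeFactors * tt r ^ 3 ≤ 24 := by
    calc (K:ℝ) ^ (-(1 / 4) : ℝ) * ∑ r ∈ (Icc 1 K).filter Squarefree, kk r.primeFactors * tt r ^ 3
        ≤ (K:ℝ) ^ (-(1 / 4) : ℝ) * (24 * (K : ℝ) ^ ((1 / 4) : ℝ)) :=
          mul_le_mul_of_nonneg_left h9 (by positivity)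
      _ = 24 * ((K:ℝ) ^ (-(1 / 4) : ℝ) * (K : ℝ) ^ ((1 / 4) : ℝ)) := by ring
      _ = 24 := by rw [← Real.rpow_add hK0]; norm_num
  linarith

alias phi_sum := phi_sum_pr

end Pool.Agent.PVPS
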