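import Pool.Agent.Lib_helper92.PVF.Base
import Pool.Agent.Lib_helper92.PVF.PSC

/-! PV : block LQB -/

set_option autoImplicit false

namespace Pool.Agent.PV

open Finset Complex Pool.Agent.Var35 Pool.Agent.Var73
open scoped ArithmeticFunction ArithmeticFunction.Moebius

theorem lq_one_upper_pr : ∃ C : ℝ, 0 < C ∧ ∀ z : ℕ, 1 ≤ z → Lq 1 z ≤ Real.log z + C := by
  obtain ⟨C, hC, h⟩ := Pool.Agent.PVPS.phi_sum
  refine ⟨C + 1, by linarith, fun z hz => ?_⟩
  have h1 : Lq 1 z = ∑ r ∈ Icc 1 z, Pool.Agent.PVPS.mu r ^ 2 / Pool.Agent.PVPS.phi r := by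
    unfold Lq
    rw [sum_filter]
    refine sum_congr rfl fun m _ => ?_
    by_cases hm : Squarefree m
    · rw [if_pos ⟨hm, Nat.coprime_one_right _⟩]
      have h2 : ((ArithmeticFunction.moebius m : ℤ) : ℝ) ^ 2 = 1 := by
        have h3 := ArithmeticFunction.abs_moebius_eq_one_of_squarefree hm
        have h4 : (ArithmeticFunction.moebius m) ^ 2 = 1 := by
          rw [← sq_abs, h3, one_pow]
        exact_mod_cast h4
      show 1 / (Nat.totient m : ℝ) = ((ArithmeticFunction.moebius m : ℤ) : ℝ) ^ 2 /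
        ((Nat.totient m : ℕ) : ℝ)
      rw [h2]
    · rw [if_neg (fun h => hm h.1)]
      show (0 : ℝ) = ((ArithmeticFunction.moebius m : ℤ) : ℝ) ^ 2 / ((Nat.totient m : ℕ) : ℝ)
      rw [ArithmeticFunction.moebius_eq_zero_of_not_squarefree hm]
      simp
  rw [h1]
  linarith [h z hz]

alias lq_one_upper := lq_one_upper_pr

end Pool.Agent.PV
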