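import Pool.Agent.Lib_helper92.PVF.Base

/-! PV block REM (helper28) -/

set_option autoImplicit false

namespace Pool.Agent.PV

open Finset Complex Pool.Agent.Var35 Pool.Agent.Var73
open scoped ArithmeticFunction ArithmeticFunction.Moebius

theorem rem_sum_pr : ∃ C : ℝ, 0 < C ∧ ∀ N : ℕ, 2 ≤ N → (∀ n, aS N n ≤ Λ n) ∧
    ∑ n ∈ Icc 1 N, (Λ n - aS N n) ≤ C * Real.sqrt N * (1 + Real.log N) ^ 2 := by
  refine ⟨4, by norm_num, ?_⟩
  intro N hN
  have hN1 : (1 : ℝ) ≤ N := by exact_mod_cast (by omega : 1 ≤ N)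
  refine ⟨?_, ?_⟩
  · intro n
    unfold aS
    split_ifs with h
    · rw [ArithmeticFunction.vonMangoldt_apply_prime h.1]
    · exact ArithmeticFunction.vonMangoldt_nonneg
  · have hI : Icc 1 N = Ioc 0 N := by
      ext x; simp only [mem_Icc, mem_Ioc]; omega
    have h1 : ∑ n ∈ Icc 1 N, Λ n = Chebyshev.psi (N : ℝ) := by
      rw [Chebyshev.psi, Nat.floor_natCast, hI]
    have h2 : ∑ n ∈ Icc 1 N, (if n.Prime then Real.log n else 0) = Chebyshev.theta (N : ℝ) := by
      rw [Chebyshev.theta, Nat.floor_natCast, hI, sum_filter]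
    have h3 : ∑ n ∈ Icc 1 N, (if n.Prime ∧ n ≤ Nat.sqrt N then Real.log n else 0)
        = Chebyshev.theta ((Nat.sqrt N : ℕ) : ℝ) := by
      rw [Chebyshev.theta, Nat.floor_natCast, ← sum_filter]
      apply sum_congr _ (fun _ _ => rfl)
      ext x
      have hs := Nat.sqrt_le_self N
      simp only [mem_filter, mem_Icc, mem_Ioc]
      constructor
      · rintro ⟨⟨a, b⟩, c, d⟩; exact ⟨⟨by omega, d⟩, c⟩
      · rintro ⟨⟨a, b⟩, c⟩; exact ⟨⟨by omega, by omega⟩, c, b⟩
    have h4 : ∑ n ∈ Icc 1 N, aS N n = Chebyshev.theta (N : ℝ) - Chebyshev.theta ((Nat.sqrt N : ℕ) : ℝ) := by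
      rw [← h2, ← h3, ← sum_sub_distrib]
      apply sum_congr rfl
      intro n _
      unfold aS
      by_cases hp : n.Prime
      · by_cases hs : Nat.sqrt N < n
        · simp [hp, hs, not_le.mpr hs]
        · simp [hp, not_lt.mp hs]
      · simp [hp]
    rw [sum_sub_distrib, h1, h4]
    have h5 := Chebyshev.psi_sub_theta_le hN1
    have h6 : Chebyshev.theta ((Nat.sqrt N : ℕ) : ℝ) ≤ Real.log 4 * ((Nat.sqrt N : ℕ) : ℝ) :=
      Chebyshev.theta_le_log4_mul_x (by positivity)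
    have h7 : ((Nat.sqrt N : ℕ) : ℝ) ≤ Real.sqrt N := by
      apply Real.le_sqrt_of_sq_le
      exact_mod_cast Nat.sqrt_le' N
    have h8 : Real.log 4 ≤ 2 := by
      have : Real.log 4 = 2 * Real.log 2 := by
        rw [show (4 : ℝ) = 2 ^ 2 by norm_num, Real.log_pow]; norm_num
      have := Real.log_two_lt_d9
      linarith
    have h9 : 0 ≤ Real.sqrt N := Real.sqrt_nonneg _
    have h10 : 0 ≤ Real.log N := Real.log_nonneg hN1
    have h11 : Real.log 4 * ((Nat.sqrt N : ℕ) : ℝ) ≤ 2 * Real.sqrt N := by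
      apply mul_le_mul h8 h7 (by positivity) (by norm_num)
    nlinarith [mul_nonneg h9 h10, mul_nonneg h9 (sq_nonneg (Real.log N))]

alias rem_sum := rem_sum_pr

end Pool.Agent.PV
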