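import Pool.Agent.Lib_helper92.PVF.Base
import Pool.Agent.Lib_helper73.Var.Pnt
import Pool.Agent.Lib_helper92.PVF.REM

/-! PV, block ASY (uses rem_sum) -/

set_option autoImplicit false

namespace Pool.Agent.PV

open Finset Complex Pool.Agent.Var35 Pool.Agent.Var73
open scoped ArithmeticFunction ArithmeticFunction.Moebius

open Filter in
lemma ASY_log (r : ℝ) (hr : 0 < r) : ∀ᶠ x : ℝ in atTop, 1 + Real.log x ≤ x ^ r := by
  have h1 := isLittleO_log_rpow_atTop hr
  have h2 : ∀ᶠ x : ℝ in atTop, ‖Real.log x‖ ≤ (1 / 2) * ‖x ^ r‖ := h1.bound (by norm_num)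
  have h3 := (tendsto_rpow_atTop hr).eventually_ge_atTop 2
  filter_upwards [h2, h3, eventually_ge_atTop 1] with x hx2 hx3 hx1
  have hpos : 0 ≤ x ^ r := by positivity
  rw [Real.norm_eq_abs, Real.norm_of_nonneg hpos, abs_of_nonneg (Real.log_nonneg hx1)] at hx2
  linarith

open Filter in
lemma ASY_ev2 (C δ : ℝ) (hδ : 0 < δ) :
    ∀ᶠ x : ℝ in atTop, C * Real.sqrt x * (1 + Real.log x) ^ 2 ≤ δ * x := by
  have h1 := ASY_log (1 / 8) (by norm_num)
  have h2 := (tendsto_rpow_atTop (y := 1 / 4) (by norm_num)).eventually_ge_atTop (|C| / δ)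
  filter_upwards [h1, h2, eventually_ge_atTop 1] with x hx1 hx2 hx3
  have hx0 : 0 < x := by linarith
  have hl : 0 ≤ 1 + Real.log x := by linarith [Real.log_nonneg hx3]
  have h3 : (1 + Real.log x) ^ 2 ≤ x ^ (1 / 4 : ℝ) := by
    calc (1 + Real.log x) ^ 2 ≤ (x ^ (1 / 8 : ℝ)) ^ 2 := pow_le_pow_left₀ hl hx1 2
      _ = x ^ (1 / 4 : ℝ) := by
        rw [← Real.rpow_natCast, ← Real.rpow_mul hx0.le]
        norm_num
  have h4 : |C| ≤ δ * x ^ (1 / 4 : ℝ) := by
    rw [div_le_iff₀ hδ] at hx2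
    linarith
  calc C * Real.sqrt x * (1 + Real.log x) ^ 2 ≤ |C| * Real.sqrt x * (1 + Real.log x) ^ 2 := by
        gcongr
        exact le_abs_self C
    _ ≤ (δ * x ^ (1 / 4 : ℝ)) * Real.sqrt x * x ^ (1 / 4 : ℝ) := by
        gcongr
    _ = δ * x := by
        rw [Real.sqrt_eq_rpow]
        have : x ^ (1 / 4 : ℝ) * x ^ (1 / 2 : ℝ) * x ^ (1 / 4 : ℝ) = x := by
          rw [← Real.rpow_add hx0, ← Real.rpow_add hx0]
          norm_num
        calc _ = δ * (x ^ (1 / 4 : ℝ) * x ^ (1 / 2 : ℝ) * x ^ (1 / 4 : ℝ)) := by ring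
          _ = _ := by rw [this]

open Filter in
lemma ASY_ev3 (d δ : ℝ) (hd : 0 < d) (hδ : 0 < δ) :
    ∀ᶠ x : ℝ in atTop, x ^ (1 - d) * Real.log x ≤ δ * x := by
  have h1 := ASY_log (d / 2) (by positivity)
  have h2 := (tendsto_rpow_atTop (y := d / 2) (by positivity)).eventually_ge_atTop (1 / δ)
  filter_upwards [h1, h2, eventually_ge_atTop 1] with x hx1 hx2 hx3
  have hx0 : 0 < x := by linarith
  have h3 : 1 ≤ δ * x ^ (d / 2) := by
    rw [div_le_iff₀ hδ] at hx2
    linarith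
  calc x ^ (1 - d) * Real.log x ≤ x ^ (1 - d) * x ^ (d / 2) := by
        gcongr
        linarith
    _ = 1 * (x ^ (1 - d) * x ^ (d / 2)) := by ring
    _ ≤ (δ * x ^ (d / 2)) * (x ^ (1 - d) * x ^ (d / 2)) := by gcongr
    _ = δ * (x ^ (d / 2) * x ^ (1 - d) * x ^ (d / 2)) := by ring
    _ = δ * x := by
        rw [← Real.rpow_add hx0, ← Real.rpow_add hx0]
        have : d / 2 + (1 - d) + d / 2 = 1 := by ring
        rw [this, Real.rpow_one]

lemma ASY_aS_nonneg (N n : ℕ) : 0 ≤ aS N n := by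
  unfold aS
  split_ifs with h
  · exact Real.log_nonneg (by exact_mod_cast h.1.one_lt.le)
  · exact le_rfl

lemma ASY_upper (N : ℕ) (hN : 2 ≤ N) (hle : ∀ n, aS N n ≤ Λ n) :
    A2 N ≤ Real.log N * ∑ n ∈ Icc 1 N, Λ n := by
  unfold A2
  rw [Finset.mul_sum]
  apply Finset.sum_le_sum
  intro n hn
  obtain ⟨hn1, hn2⟩ := Finset.mem_Icc.1 hn
  have h0 := ASY_aS_nonneg N n
  have h1 : aS N n ≤ Real.log N := by
    unfold aS
    split_ifs
    · exact Real.log_le_log (by exact_mod_cast hn1) (by exact_mod_cast hn2)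
    · exact Real.log_nonneg (by exact_mod_cast (by omega : 1 ≤ N))
  calc aS N n ^ 2 = aS N n * aS N n := sq _
    _ ≤ Real.log N * Λ n := mul_le_mul h1 (hle n) h0 (h0.trans h1)

lemma ASY_lower (N : ℕ) (hN : 2 ≤ N) (d : ℝ) (hd : 0 < d) (hd1 : d < 1) :
    (1 - d) * Real.log N * (∑ n ∈ Icc 1 N, aS N n) -
      Real.log N * (Real.log N * (N : ℝ) ^ (1 - d)) ≤ A2 N := by
  have hN1 : (1 : ℝ) ≤ N := by exact_mod_cast (by omega : 1 ≤ N)
  have hN0 : (0 : ℝ) < N := by linarith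
  have hL : 0 ≤ Real.log N := Real.log_nonneg hN1
  have h1 : ∀ n ∈ Icc 1 N, (1 - d) * Real.log N * aS N n -
      (if (n : ℝ) ≤ (N : ℝ) ^ (1 - d) then Real.log N * Real.log N else 0) ≤ aS N n ^ 2 := by
    intro n hn
    obtain ⟨hn1, hn2⟩ := Finset.mem_Icc.1 hn
    have hn0 : (0 : ℝ) < n := by exact_mod_cast hn1
    have h0 := ASY_aS_nonneg N n
    have hub : aS N n ≤ Real.log N := by
      unfold aS
      split_ifs
      · exact Real.log_le_log (by exact_mod_cast hn1) (by exact_mod_cast hn2)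
      · exact hL
    by_cases hp : n.Prime ∧ Nat.sqrt N < n
    · split_ifs with hc
      · have h2 : (1 - d) * Real.log N * aS N n ≤ Real.log N * Real.log N := by
          apply mul_le_mul _ hub h0 hL
          nlinarith
        nlinarith [sq_nonneg (aS N n)]
      · push Not at hc
        rw [sub_zero, sq]
        apply mul_le_mul_of_nonneg_right _ h0
        unfold aS
        rw [if_pos hp]
        have := Real.log_le_log (by positivity) hc.le
        rwa [Real.log_rpow hN0] at this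
    · have hz : aS N n = 0 := by
        unfold aS
        rw [if_neg hp]
      rw [hz]
      split_ifs <;> simp <;> nlinarith
  have h2 : ∑ n ∈ Icc 1 N, (if (n : ℝ) ≤ (N : ℝ) ^ (1 - d) then Real.log N * Real.log N else 0) ≤
      Real.log N * (Real.log N * (N : ℝ) ^ (1 - d)) := by
    rw [← Finset.sum_filter, Finset.sum_const, nsmul_eq_mul]
    have h3 : (Icc 1 N).filter (fun n : ℕ => (n : ℝ) ≤ (N : ℝ) ^ (1 - d)) ⊆
        Icc 1 ⌊(N : ℝ) ^ (1 - d)⌋₊ := by
      intro n hn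
      obtain ⟨g1, g2⟩ := Finset.mem_filter.1 hn
      rw [Finset.mem_Icc]
      exact ⟨(Finset.mem_Icc.1 g1).1, Nat.le_floor g2⟩
    have h4 := Finset.card_le_card h3
    rw [Nat.card_Icc, Nat.add_sub_cancel] at h4
    have h5 : (((Icc 1 N).filter (fun n : ℕ => (n : ℝ) ≤ (N : ℝ) ^ (1 - d))).card : ℝ) ≤
        (N : ℝ) ^ (1 - d) := by
      refine le_trans (by exact_mod_cast h4) (Nat.floor_le (by positivity))
    calc _ ≤ (N : ℝ) ^ (1 - d) * (Real.log N * Real.log N) :=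
          mul_le_mul_of_nonneg_right h5 (by positivity)
      _ = _ := by ring
  have h6 := Finset.sum_le_sum h1
  rw [Finset.sum_sub_distrib, ← Finset.mul_sum] at h6
  unfold A2
  linarith

/-- ASY -/
theorem a2_asym_pr (δ : ℝ) (hδ : 0 < δ) :
    ∃ N0 : ℕ, ∀ N ≥ N0, |A2 N - N * Real.log N| ≤ δ * (N * Real.log N) := by
  obtain ⟨C, hC0, hC⟩ := rem_sum
  set d : ℝ := min (δ / 4) (1 / 2) with hd
  have hd0 : 0 < d := by rw [hd]; positivity
  have hd1 : d ≤ 1 / 2 := min_le_right _ _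
  have hd2 : 4 * d ≤ δ := by
    have := min_le_left (δ / 4) (1 / 2 : ℝ)
    linarith
  have E1 := pnt_unif d hd0
  have E2 := tendsto_natCast_atTop_atTop.eventually (ASY_ev2 C d hd0)
  have E3 := tendsto_natCast_atTop_atTop.eventually (ASY_ev3 d d hd0 hd0)
  obtain ⟨N0, hN0⟩ := Filter.eventually_atTop.1 (E1.and (E2.and E3))
  refine ⟨max N0 2, ?_⟩
  intro N hN
  have hNa : N0 ≤ N := (le_max_left _ _).trans hN
  have hNb : 2 ≤ N := (le_max_right _ _).trans hN
  obtain ⟨F1, F2, F3⟩ := hN0 N hNa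
  have F1 := F1 N le_rfl
  obtain ⟨G1, G2⟩ := hC N hNb
  have hN1 : (1 : ℝ) ≤ N := by exact_mod_cast (by omega : 1 ≤ N)
  have hL : 0 ≤ Real.log N := Real.log_nonneg hN1
  have hNL : 0 ≤ N * Real.log N := by positivity
  rw [abs_le] at F1
  have hup := ASY_upper N hNb G1
  have hlow := ASY_lower N hNb d hd0 (by linarith)
  rw [Finset.sum_sub_distrib] at G2
  have hψ : (1 - 2 * d) * N ≤ ∑ n ∈ Icc 1 N, aS N n := by nlinarith
  rw [abs_le]
  constructor
  · have h1 : (1 - d) * Real.log N * ((1 - 2 * d) * N) ≤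
        (1 - d) * Real.log N * ∑ n ∈ Icc 1 N, aS N n := by
      apply mul_le_mul_of_nonneg_left hψ
      apply mul_nonneg _ hL
      linarith
    have h2 : Real.log N * (Real.log N * (N : ℝ) ^ (1 - d)) ≤ Real.log N * (d * N) := by
      apply mul_le_mul_of_nonneg_left _ hL
      linarith [mul_comm (Real.log N) ((N : ℝ) ^ (1 - d))]
    have h3 : (1 - 4 * d) * (N * Real.log N) ≤
        (1 - d) * Real.log N * ((1 - 2 * d) * N) - Real.log N * (d * N) := by
      have : (1 - d) * Real.log N * ((1 - 2 * d) * N) - Real.log N * (d * N) -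
        (1 - 4 * d) * (N * Real.log N) = 2 * d ^ 2 * (N * Real.log N) := by ring
      have h4 : 0 ≤ 2 * d ^ 2 * (N * Real.log N) := by positivity
      linarith
    nlinarith
  · have h1 : Real.log N * ∑ n ∈ Icc 1 N, Λ n ≤ Real.log N * ((1 + d) * N) := by
      apply mul_le_mul_of_nonneg_left _ hL
      linarith
    nlinarith

alias a2_asym := a2_asym_pr

end Pool.Agent.PV
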