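import Pool.Agent.Lib_helper92.PVF.Base
import Pool.Agent.Lib_helper92.PVF.REM

set_option autoImplicit false

namespace Pool.Agent.PV

open Finset Complex Pool.Agent.Var35 Pool.Agent.Var73
open scoped ArithmeticFunction ArithmeticFunction.Moebius

/-- sum over a residue class -/
noncomputable def cmpC (b : ℕ → ℝ) (N Q a : ℕ) : ℝ :=
  ∑ n ∈ (Icc 1 N).filter (fun n => n % Q = a), b n

theorem cmp_part (b : ℕ → ℝ) (N Q : ℕ) (hQ : 0 < Q) :
    ∑ a ∈ range Q, cmpC b N Q a = ∑ n ∈ Icc 1 N, b n := by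
  have := Finset.sum_fiberwise_of_maps_to (s := Icc 1 N) (t := range Q) (g := fun n => n % Q)
    (fun n _ => Finset.mem_range.2 (Nat.mod_lt n hQ)) b
  exact this

theorem cmp_range (Q : ℕ) (hQ : 0 < Q) (F : ℕ → ℝ) :
    ∑ a ∈ range Q, F a = F 0 + ∑ a ∈ Ico 1 Q, F a := by
  rw [Finset.range_eq_Ico, Finset.sum_eq_sum_Ico_succ_bot hQ]

theorem cmp_units (Q : ℕ) (hQ : Q.Prime) :
    (range Q).filter (fun a => Nat.Coprime a Q) = Ico 1 Q := by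
  ext a
  rw [Finset.mem_filter, Finset.mem_range, Finset.mem_Ico]
  constructor
  · rintro ⟨h1, h2⟩
    refine ⟨?_, h1⟩
    by_contra h3
    have h4 : a = 0 := by omega
    rw [h4, Nat.coprime_zero_left] at h2
    exact hQ.one_lt.ne' h2
  · rintro ⟨h1, h2⟩
    exact ⟨h2, (Nat.coprime_of_lt_prime (by omega) h2 hQ).symm⟩

theorem cmp_cop (b : ℕ → ℝ) (N Q : ℕ) (hQ : Q.Prime) :
    ∑ n ∈ (Icc 1 N).filter (fun n => Nat.Coprime n Q), b n = ∑ a ∈ Ico 1 Q, cmpC b N Q a := by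
  have h1 := Finset.sum_fiberwise_of_maps_to (s := (Icc 1 N).filter (fun n => Nat.Coprime n Q))
    (t := Ico 1 Q) (g := fun n => n % Q) (fun n hn => by
      rw [Finset.mem_filter] at hn
      rw [Finset.mem_Ico]
      refine ⟨?_, Nat.mod_lt n hQ.pos⟩
      by_contra h
      have h2 : n % Q = 0 := by omega
      have h3 : Q ∣ n := Nat.dvd_of_mod_eq_zero h2
      have h4 := Nat.Coprime.eq_one_of_dvd hn.2.symm h3
      exact hQ.one_lt.ne' h4) b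
  rw [← h1]
  apply Finset.sum_congr rfl
  intro a ha
  rw [Finset.mem_Ico] at ha
  rw [cmpC]
  apply Finset.sum_congr _ (fun _ _ => rfl)
  ext n
  rw [Finset.mem_filter, Finset.mem_filter, Finset.mem_filter]
  constructor
  · rintro ⟨⟨h2, h3⟩, h4⟩
    exact ⟨h2, h4⟩
  · rintro ⟨h2, h3⟩
    refine ⟨⟨h2, ?_⟩, h3⟩
    rw [Nat.coprime_comm, hQ.coprime_iff_not_dvd]
    intro h4
    have := Nat.mod_eq_zero_of_dvd h4
    omega

theorem cmp_var (U : Finset ℕ) (x : ℕ → ℝ) (S u : ℝ) (hS : S = ∑ a ∈ U, x a) (hu : u = U.card)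
    (hu0 : u ≠ 0) : ∑ a ∈ U, (x a - S / u) ^ 2 = ∑ a ∈ U, x a ^ 2 - S ^ 2 / u := by
  have h1 : ∀ a ∈ U, (x a - S / u) ^ 2 = x a ^ 2 - 2 * (S / u) * x a + (S / u) ^ 2 := by
    intro a _
    ring
  rw [Finset.sum_congr rfl h1, Finset.sum_add_distrib, Finset.sum_sub_distrib, ← Finset.mul_sum,
    ← hS, Finset.sum_const, nsmul_eq_mul, ← hu]
  field_simp
  ring

theorem cmp_var_le (U : Finset ℕ) (x : ℕ → ℝ) (S u : ℝ) (hS : S = ∑ a ∈ U, x a) (hu : u = U.card)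
    (hu0 : u ≠ 0) : ∑ a ∈ U, (x a - S / u) ^ 2 ≤ ∑ a ∈ U, x a ^ 2 := by
  rw [cmp_var U x S u hS hu hu0]
  have h1 : 0 ≤ u := by rw [hu]; exact Nat.cast_nonneg _
  have : 0 ≤ S ^ 2 / u := div_nonneg (sq_nonneg _) h1
  linarith

theorem cmp_diff (U : Finset ℕ) (g h : ℕ → ℝ) (δ : ℝ) (hδ : 0 < δ) :
    |∑ a ∈ U, (g a + h a) ^ 2 - ∑ a ∈ U, g a ^ 2| ≤
      δ * ∑ a ∈ U, g a ^ 2 + (1 + 1 / δ) * ∑ a ∈ U, h a ^ 2 := by
  rw [← Finset.sum_sub_distrib, Finset.mul_sum, Finset.mul_sum, ← Finset.sum_add_distrib]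
  refine le_trans (Finset.abs_sum_le_sum_abs _ _) (Finset.sum_le_sum (fun a _ => ?_))
  have h1 : (g a + h a) ^ 2 - g a ^ 2 = 2 * g a * h a + h a ^ 2 := by ring
  rw [h1, abs_le]
  have h2 : 0 ≤ (δ * g a + h a) ^ 2 / δ := div_nonneg (sq_nonneg _) hδ.le
  have h3 : 0 ≤ (δ * g a - h a) ^ 2 / δ := div_nonneg (sq_nonneg _) hδ.le
  have h4 : (δ * g a + h a) ^ 2 / δ = δ * g a ^ 2 + 2 * g a * h a + 1 / δ * h a ^ 2 := by
    field_simp
    ring
  have h5 : (δ * g a - h a) ^ 2 / δ = δ * g a ^ 2 - 2 * g a * h a + 1 / δ * h a ^ 2 := by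
    field_simp
    ring
  have h6 := sq_nonneg (h a)
  constructor <;> nlinarith

theorem cmp_aS_nonneg (N n : ℕ) : 0 ≤ aS N n := by
  rw [aS]
  split_ifs
  · exact Real.log_natCast_nonneg n
  · exact le_rfl

theorem cmp_aS_le (N n : ℕ) (hn : 1 ≤ n) (hnN : n ≤ N) : aS N n ≤ Real.log N := by
  rw [aS]
  split_ifs
  · apply Real.log_le_log
    · exact_mod_cast hn
    · exact_mod_cast hnN
  · exact Real.log_natCast_nonneg N

theorem cmp_A0 (N Q : ℕ) (hQ : Q.Prime) : cmpC (aS N) N Q 0 ≤ Real.log N := by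
  rw [cmpC]
  calc ∑ n ∈ (Icc 1 N).filter (fun n => n % Q = 0), aS N n ≤
      ∑ n ∈ (Icc 1 N).filter (fun n => n % Q = 0), (if n = Q then Real.log N else 0) := by
        apply Finset.sum_le_sum
        intro n hn
        rw [Finset.mem_filter, Finset.mem_Icc] at hn
        obtain ⟨⟨h1, h2⟩, h3⟩ := hn
        split_ifs with h
        · exact cmp_aS_le N n h1 h2
        · rw [aS, if_neg]
          rintro ⟨h4, -⟩
          have h5 : Q ∣ n := Nat.dvd_of_mod_eq_zero h3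
          exact h ((Nat.prime_dvd_prime_iff_eq hQ h4).1 h5).symm
    _ ≤ Real.log N := by
        rw [Finset.sum_ite_eq']
        split_ifs
        · exact le_rfl
        · exact Real.log_natCast_nonneg N

theorem cmp_cls (N Q a : ℕ) :
    ((Icc 1 N).filter (fun n => n % Q = a)).card ≤ N / Q + 1 := by
  rw [← Finset.card_range (N / Q + 1)]
  apply Finset.card_le_card_of_injOn (fun n => n / Q)
  · intro n hn
    have hn' : n ∈ (Icc 1 N).filter (fun n => n % Q = a) := hn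
    rw [Finset.mem_filter, Finset.mem_Icc] at hn'
    show n / Q ∈ _
    rw [Finset.mem_coe, Finset.mem_range]
    have := Nat.div_le_div_right (c := Q) hn'.1.2
    omega
  · intro n hn n' hn' h
    have hn1 : n ∈ (Icc 1 N).filter (fun n => n % Q = a) := hn
    have hn2 : n' ∈ (Icc 1 N).filter (fun n => n % Q = a) := hn'
    rw [Finset.mem_filter] at hn1 hn2
    have h' : n / Q = n' / Q := h
    rw [← Nat.div_add_mod n Q, ← Nat.div_add_mod n' Q, h', hn1.2, hn2.2]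

theorem cmp_sqA (N Q : ℕ) (hQ : 0 < Q) :
    ∑ a ∈ range Q, cmpC (aS N) N Q a ^ 2 ≤ ((N : ℝ) / Q + 1) * (N * Real.log N ^ 2) := by
  have hQ0 : (0 : ℝ) < Q := by exact_mod_cast hQ
  have h1 : ∀ a ∈ range Q, cmpC (aS N) N Q a ^ 2 ≤
      ((N : ℝ) / Q + 1) * cmpC (fun n => aS N n ^ 2) N Q a := by
    intro a _
    rw [cmpC, cmpC]
    refine le_trans (sq_sum_le_card_mul_sum_sq) ?_
    apply mul_le_mul_of_nonneg_right
    · have h2 := cmp_cls N Q a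
      have h3 : (((Icc 1 N).filter (fun n => n % Q = a)).card : ℝ) ≤ ((N / Q + 1 : ℕ) : ℝ) := by
        exact_mod_cast h2
      refine le_trans h3 ?_
      push_cast
      have : ((N / Q : ℕ) : ℝ) ≤ (N : ℝ) / Q := Nat.cast_div_le
      linarith
    · exact Finset.sum_nonneg (fun _ _ => sq_nonneg _)
  refine le_trans (Finset.sum_le_sum h1) ?_
  rw [← Finset.mul_sum, cmp_part _ N Q hQ]
  apply mul_le_mul_of_nonneg_left
  · calc ∑ n ∈ Icc 1 N, aS N n ^ 2 ≤ ∑ n ∈ Icc 1 N, Real.log N ^ 2 := by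
          apply Finset.sum_le_sum
          intro n hn
          rw [Finset.mem_Icc] at hn
          exact pow_le_pow_left₀ (cmp_aS_nonneg N n) (cmp_aS_le N n hn.1 hn.2) 2
      _ = N * Real.log N ^ 2 := by
          rw [Finset.sum_const, nsmul_eq_mul, Nat.card_Icc]
          simp
  · positivity

theorem cmp_sqsum (b : ℕ → ℝ) (N Q : ℕ) (hQ : 0 < Q) :
    ∑ a ∈ range Q, cmpC b N Q a ^ 2 =
      ∑ n ∈ Icc 1 N, ∑ n' ∈ Icc 1 N, (if n % Q = n' % Q then b n * b n' else 0) := by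
  have h1 := cmp_part (fun n => b n * cmpC b N Q (n % Q)) N Q hQ
  have h2 : ∀ a ∈ range Q, cmpC b N Q a ^ 2 = cmpC (fun n => b n * cmpC b N Q (n % Q)) N Q a := by
    intro a _
    rw [sq]
    conv_lhs => rw [cmpC, Finset.sum_mul]
    conv_rhs => rw [cmpC]
    apply Finset.sum_congr rfl
    intro n hn
    rw [Finset.mem_filter] at hn
    rw [hn.2]
    rfl
  rw [Finset.sum_congr rfl h2, h1]
  apply Finset.sum_congr rfl
  intro n _
  rw [cmpC, Finset.mul_sum, Finset.sum_filter]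
  apply Finset.sum_congr rfl
  intro n' _
  by_cases h : n % Q = n' % Q
  · rw [if_pos h, if_pos h.symm]
  · rw [if_neg h, if_neg (fun h' => h h'.symm)]

theorem cmp_one (N Y n n' : ℕ) (hY : N < Y ^ 2) (hn : n ∈ Icc 1 N) (hn' : n' ∈ Icc 1 N)
    (hne : n ≠ n') : ((QQ Y).filter (fun Q => n % Q = n' % Q)).card ≤ 1 := by
  rw [Finset.card_le_one]
  intro P hP Q hQ
  rw [Finset.mem_filter, QQ, Finset.mem_filter, Finset.mem_Ioc] at hP hQ
  obtain ⟨⟨⟨p1, p2⟩, p3⟩, p4⟩ := hP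
  obtain ⟨⟨⟨q1, q2⟩, q3⟩, q4⟩ := hQ
  rw [Finset.mem_Icc] at hn hn'
  by_contra hPQ
  have h1 : (P : ℤ) ∣ (n' : ℤ) - n := (Nat.modEq_iff_dvd).1 p4
  have h2 : (Q : ℤ) ∣ (n' : ℤ) - n := (Nat.modEq_iff_dvd).1 q4
  have h3 : P ∣ ((n' : ℤ) - n).natAbs := Int.natCast_dvd.1 h1
  have h4 : Q ∣ ((n' : ℤ) - n).natAbs := Int.natCast_dvd.1 h2
  have h5 : P * Q ∣ ((n' : ℤ) - n).natAbs :=
    Nat.Coprime.mul_dvd_of_dvd_of_dvd ((Nat.coprime_primes p3 q3).2 hPQ) h3 h4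
  have h6 : P * Q ≤ ((n' : ℤ) - n).natAbs := Nat.le_of_dvd (by omega) h5
  have h7 : ((n' : ℤ) - n).natAbs ≤ N := by omega
  have h8 : Y * Y ≤ P * Q := Nat.mul_le_mul p1.le q1.le
  nlinarith

theorem cmp_QQ_card (Y : ℕ) : ((QQ Y).card : ℝ) ≤ 3 * Y := by
  have h1 : (QQ Y).card ≤ (Ioc Y (4 * Y)).card := Finset.card_filter_le _ _
  rw [Nat.card_Ioc] at h1
  have h2 : (QQ Y).card ≤ 3 * Y := by omega
  exact_mod_cast h2

theorem cmp_rho (b : ℕ → ℝ) (N Y : ℕ) (L : ℝ) (hY : N < Y ^ 2) (hb : ∀ n ∈ Icc 1 N, 0 ≤ b n)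
    (hbL : ∀ n ∈ Icc 1 N, b n ≤ L) :
    ∑ Q ∈ QQ Y, ∑ a ∈ range Q, cmpC b N Q a ^ 2 ≤
      3 * Y * (L * ∑ n ∈ Icc 1 N, b n) + (∑ n ∈ Icc 1 N, b n) ^ 2 := by
  have h1 : ∀ Q ∈ QQ Y, ∑ a ∈ range Q, cmpC b N Q a ^ 2 =
      ∑ n ∈ Icc 1 N, ∑ n' ∈ Icc 1 N, (if n % Q = n' % Q then b n * b n' else 0) := by
    intro Q hQ
    rw [QQ, Finset.mem_filter] at hQ
    exact cmp_sqsum b N Q hQ.2.pos
  rw [Finset.sum_congr rfl h1, Finset.sum_comm]
  have h2 : ∀ n ∈ Icc 1 N, ∑ Q ∈ QQ Y, ∑ n' ∈ Icc 1 N,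
      (if n % Q = n' % Q then b n * b n' else 0) ≤
      ∑ n' ∈ Icc 1 N, ((if n = n' then 3 * Y * (b n * b n) else 0) + b n * b n') := by
    intro n hn
    rw [Finset.sum_comm]
    apply Finset.sum_le_sum
    intro n' hn'
    have h3 : ∑ Q ∈ QQ Y, (if n % Q = n' % Q then b n * b n' else 0) =
        (((QQ Y).filter (fun Q => n % Q = n' % Q)).card : ℝ) * (b n * b n') := by
      rw [← Finset.sum_filter, Finset.sum_const, nsmul_eq_mul]
    rw [h3]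
    have h4 : 0 ≤ b n * b n' := mul_nonneg (hb n hn) (hb n' hn')
    split_ifs with h
    · rw [← h] at h4 ⊢
      have h5 : (((QQ Y).filter (fun Q => n % Q = n % Q)).card : ℝ) ≤ 3 * Y := by
        refine le_trans ?_ (cmp_QQ_card Y)
        exact_mod_cast Finset.card_filter_le _ _
      have := mul_le_mul_of_nonneg_right h5 h4
      linarith
    · have h5 : (((QQ Y).filter (fun Q => n % Q = n' % Q)).card : ℝ) ≤ 1 := by
        exact_mod_cast cmp_one N Y n n' hY hn hn' h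
      have := mul_le_mul_of_nonneg_right h5 h4
      linarith
  refine le_trans (Finset.sum_le_sum h2) ?_
  have h3 : ∀ n ∈ Icc 1 N, ∑ n' ∈ Icc 1 N,
      ((if n = n' then 3 * Y * (b n * b n) else 0) + b n * b n') =
      3 * Y * (b n * b n) + b n * ∑ n' ∈ Icc 1 N, b n' := by
    intro n hn
    rw [Finset.sum_add_distrib, Finset.sum_ite_eq, if_pos hn, Finset.mul_sum]
  rw [Finset.sum_congr rfl h3, Finset.sum_add_distrib, ← Finset.sum_mul, ← sq, ← Finset.mul_sum]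
  have h4 : ∑ n ∈ Icc 1 N, b n * b n ≤ L * ∑ n ∈ Icc 1 N, b n := by
    rw [Finset.mul_sum]
    apply Finset.sum_le_sum
    intro n hn
    exact mul_le_mul_of_nonneg_right (hbL n hn) (hb n hn)
  have h5 : 3 * (Y : ℝ) * ∑ n ∈ Icc 1 N, b n * b n ≤ 3 * Y * (L * ∑ n ∈ Icc 1 N, b n) :=
    mul_le_mul_of_nonneg_left h4 (by positivity)
  linarith

theorem cmp_VV (N Q : ℕ) (hQ : Q.Prime) :
    VV N Q = ∑ a ∈ Ico 1 Q, (cmpC (fun n => Λ n) N Q a -
      (∑ a ∈ Ico 1 Q, cmpC (fun n => Λ n) N Q a) / ((Q : ℝ) - 1)) ^ 2 := by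
  rw [VV, cmp_units Q hQ, cmp_cop (fun n => Λ n) N Q hQ, Nat.totient_prime hQ,
    Nat.cast_sub hQ.one_lt.le, Nat.cast_one]
  apply Finset.sum_congr rfl
  intro a ha
  rw [Finset.mem_Ico] at ha
  congr 2
  rw [cmpC]
  apply Finset.sum_congr _ (fun _ _ => rfl)
  apply Finset.filter_congr
  intro n _
  rw [Nat.ModEq, Nat.mod_eq_of_lt ha.2]

theorem cmp_perQ (N Y Q : ℕ) (δ : ℝ) (hδ : 0 < δ) (hN : 2 ≤ N) (hY : 1 ≤ Y) (hYN : Y ≤ N)
    (hQ : Q.Prime) (hYQ : Y < Q) :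
    |VV N Q - SQ N Q| ≤ δ * (2 * ((N : ℝ) / Y) * (N * Real.log N ^ 2)) +
      (1 + 1 / δ) * ∑ a ∈ range Q, cmpC (fun n => Λ n - aS N n) N Q a ^ 2 +
      4 * Real.log N ^ 2 * ((N : ℝ) / Y) ^ 2 := by
  have hY0 : (0 : ℝ) < Y := by exact_mod_cast hY
  have hN0 : (0 : ℝ) < N := by
    have : 0 < N := by omega
    exact_mod_cast this
  have hYQ' : (Y : ℝ) + 1 ≤ Q := by exact_mod_cast hYQ
  have hQ1 : (0 : ℝ) < (Q : ℝ) - 1 := by linarith
  have hQ0 : (0 : ℝ) < Q := by linarith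
  have hL : 0 ≤ Real.log N := Real.log_natCast_nonneg N
  obtain ⟨K, hK⟩ : ∃ K, K = (N : ℝ) / Y := ⟨_, rfl⟩
  have hK1 : 1 ≤ K := by
    rw [hK, le_div_iff₀ hY0, one_mul]
    exact_mod_cast hYN
  obtain ⟨P, hP⟩ : ∃ P : ℕ → ℝ, P = fun a => cmpC (fun n => Λ n) N Q a := ⟨_, rfl⟩
  obtain ⟨A, hA⟩ : ∃ A : ℕ → ℝ, A = fun a => cmpC (aS N) N Q a := ⟨_, rfl⟩
  obtain ⟨R, hR⟩ : ∃ R : ℕ → ℝ, R = fun a => cmpC (fun n => Λ n - aS N n) N Q a := ⟨_, rfl⟩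
  have hPAR : ∀ a, P a = A a + R a := by
    intro a
    rw [hP, hA, hR]
    simp only [cmpC]
    rw [← Finset.sum_add_distrib]
    apply Finset.sum_congr rfl
    intro n _
    ring
  obtain ⟨SA, hSA⟩ : ∃ SA, SA = ∑ a ∈ Ico 1 Q, A a := ⟨_, rfl⟩
  obtain ⟨SR, hSR⟩ : ∃ SR, SR = ∑ a ∈ Ico 1 Q, R a := ⟨_, rfl⟩
  have hcard : (Q : ℝ) - 1 = ((Ico 1 Q).card : ℝ) := by
    rw [Nat.card_Ico, Nat.cast_sub hQ.one_lt.le, Nat.cast_one]
  have hVV : VV N Q = ∑ a ∈ Ico 1 Q, ((A a - SA / ((Q : ℝ) - 1)) + (R a - SR / ((Q : ℝ) - 1))) ^ 2 := by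
    rw [cmp_VV N Q hQ]
    have h1 : ∑ a ∈ Ico 1 Q, cmpC (fun n => Λ n) N Q a = SA + SR := by
      rw [hSA, hSR, ← Finset.sum_add_distrib]
      apply Finset.sum_congr rfl
      intro a _
      rw [← hPAR, hP]
    rw [h1]
    apply Finset.sum_congr rfl
    intro a _
    have h2 : cmpC (fun n => Λ n) N Q a = A a + R a := by rw [← hPAR, hP]
    rw [h2]
    ring
  have hd := cmp_diff (Ico 1 Q) (fun a => A a - SA / ((Q : ℝ) - 1))
    (fun a => R a - SR / ((Q : ℝ) - 1)) δ hδ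
  have hg := cmp_var (Ico 1 Q) A SA ((Q : ℝ) - 1) hSA hcard hQ1.ne'
  have hg2 := cmp_var_le (Ico 1 Q) A SA ((Q : ℝ) - 1) hSA hcard hQ1.ne'
  have hh2 := cmp_var_le (Ico 1 Q) R SR ((Q : ℝ) - 1) hSR hcard hQ1.ne'
  have hA2 : ∑ a ∈ range Q, A a ^ 2 = A 0 ^ 2 + ∑ a ∈ Ico 1 Q, A a ^ 2 :=
    cmp_range Q hQ.pos (fun a => A a ^ 2)
  have hR2 : ∑ a ∈ range Q, R a ^ 2 = R 0 ^ 2 + ∑ a ∈ Ico 1 Q, R a ^ 2 :=
    cmp_range Q hQ.pos (fun a => R a ^ 2)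
  have hAs : ∑ n ∈ Icc 1 N, aS N n = A 0 + SA := by
    rw [← cmp_part (aS N) N Q hQ.pos, cmp_range Q hQ.pos, hSA, hA]
  have hSQ : SQ N Q = A 0 ^ 2 + ∑ a ∈ Ico 1 Q, A a ^ 2 - (A 0 + SA) ^ 2 / Q := by
    rw [SQ, hAs, ← hA2, hA]
    rfl
  have hA0 : 0 ≤ A 0 := by
    rw [hA]
    exact Finset.sum_nonneg (fun n _ => cmp_aS_nonneg N n)
  have hA0L : A 0 ≤ Real.log N := by
    rw [hA]
    exact cmp_A0 N Q hQ
  have hSA0 : 0 ≤ SA := by
    rw [hSA, hA]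
    exact Finset.sum_nonneg (fun a _ => Finset.sum_nonneg (fun n _ => cmp_aS_nonneg N n))
  have hT : A 0 + SA ≤ N * Real.log N := by
    rw [← hAs]
    calc ∑ n ∈ Icc 1 N, aS N n ≤ ∑ n ∈ Icc 1 N, Real.log N := by
          apply Finset.sum_le_sum
          intro n hn
          rw [Finset.mem_Icc] at hn
          exact cmp_aS_le N n hn.1 hn.2
      _ = N * Real.log N := by
          rw [Finset.sum_const, nsmul_eq_mul, Nat.card_Icc]
          simp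
  have hsq := cmp_sqA N Q hQ.pos
  have hsq' : ∑ a ∈ range Q, A a ^ 2 ≤ 2 * K * (N * Real.log N ^ 2) := by
    rw [hA]
    refine le_trans hsq ?_
    apply mul_le_mul_of_nonneg_right _ (by positivity)
    have : (N : ℝ) / Q ≤ K := by
      rw [hK]
      apply div_le_div_of_nonneg_left hN0.le hY0
      linarith
    linarith
  -- the third part
  have h3 : |∑ a ∈ Ico 1 Q, (A a - SA / ((Q : ℝ) - 1)) ^ 2 - SQ N Q| ≤
      4 * Real.log N ^ 2 * K ^ 2 := by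
    have e1 : ∑ a ∈ Ico 1 Q, (A a - SA / ((Q : ℝ) - 1)) ^ 2 - SQ N Q =
        -(A 0 ^ 2) - (A 0 + SA) ^ 2 / (Q * ((Q : ℝ) - 1)) +
          (2 * (A 0 + SA) * A 0 - A 0 ^ 2) / ((Q : ℝ) - 1) := by
      rw [hg, hSQ]
      field_simp
      ring
    rw [e1]
    have f1 : A 0 ^ 2 ≤ Real.log N ^ 2 := pow_le_pow_left₀ hA0 hA0L 2
    have f2 : (A 0 + SA) ^ 2 / (Q * ((Q : ℝ) - 1)) ≤ Real.log N ^ 2 * K ^ 2 := by
      have g1 : (A 0 + SA) ^ 2 ≤ (N * Real.log N) ^ 2 := pow_le_pow_left₀ (by linarith) hT 2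
      have g2 : (Y : ℝ) * Y ≤ Q * ((Q : ℝ) - 1) :=
        mul_le_mul (by linarith) (by linarith) hY0.le hQ0.le
      calc (A 0 + SA) ^ 2 / (Q * ((Q : ℝ) - 1)) ≤ (N * Real.log N) ^ 2 / (Y * Y) :=
            div_le_div₀ (by positivity) g1 (by positivity) g2
        _ = Real.log N ^ 2 * K ^ 2 := by
            rw [hK]
            field_simp
    have f3 : (2 * (A 0 + SA) * A 0 - A 0 ^ 2) / ((Q : ℝ) - 1) ≤ 2 * Real.log N ^ 2 * K := by
      have g1 : 2 * (A 0 + SA) * A 0 - A 0 ^ 2 ≤ 2 * (N * Real.log N) * Real.log N := by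
        have : (A 0 + SA) * A 0 ≤ (N * Real.log N) * Real.log N :=
          mul_le_mul hT hA0L hA0 (by positivity)
        have := sq_nonneg (A 0)
        linarith
      calc (2 * (A 0 + SA) * A 0 - A 0 ^ 2) / ((Q : ℝ) - 1) ≤
          2 * (N * Real.log N) * Real.log N / Y :=
            div_le_div₀ (by positivity) g1 hY0 (by linarith)
        _ = 2 * Real.log N ^ 2 * K := by
            rw [hK]
            field_simp
    have f4 : 0 ≤ (A 0 + SA) ^ 2 / (Q * ((Q : ℝ) - 1)) := by positivity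
    have f5 : 0 ≤ (2 * (A 0 + SA) * A 0 - A 0 ^ 2) / ((Q : ℝ) - 1) := by
      apply div_nonneg _ hQ1.le
      nlinarith
    have f6 : 0 ≤ A 0 ^ 2 := sq_nonneg _
    have f7 : Real.log N ^ 2 ≤ Real.log N ^ 2 * K ^ 2 := by
      have : 1 ≤ K ^ 2 := one_le_pow₀ hK1
      nlinarith [sq_nonneg (Real.log N)]
    have f8 : Real.log N ^ 2 * K ≤ Real.log N ^ 2 * K ^ 2 := by
      have : K ≤ K ^ 2 := by nlinarith
      exact mul_le_mul_of_nonneg_left this (sq_nonneg _)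
    rw [abs_le]
    constructor
    · have : 0 ≤ Real.log N ^ 2 * K ^ 2 := by positivity
      linarith
    · have : 0 ≤ Real.log N ^ 2 * K ^ 2 := by positivity
      linarith
  rw [← hVV] at hd
  have hRr : ∑ a ∈ range Q, cmpC (fun n => Λ n - aS N n) N Q a ^ 2 = ∑ a ∈ range Q, R a ^ 2 := by
    rw [hR]
  rw [hRr, ← hK]
  have e2 : VV N Q - SQ N Q = (VV N Q - ∑ a ∈ Ico 1 Q, (A a - SA / ((Q : ℝ) - 1)) ^ 2) +
      (∑ a ∈ Ico 1 Q, (A a - SA / ((Q : ℝ) - 1)) ^ 2 - SQ N Q) := by ring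
  rw [e2]
  refine le_trans (abs_add_le _ _) ?_
  have h4 : δ * ∑ a ∈ Ico 1 Q, (A a - SA / ((Q : ℝ) - 1)) ^ 2 ≤
      δ * (2 * K * (N * Real.log N ^ 2)) := by
    apply mul_le_mul_of_nonneg_left _ hδ.le
    have := sq_nonneg (A 0)
    linarith
  have h5 : (1 + 1 / δ) * ∑ a ∈ Ico 1 Q, (R a - SR / ((Q : ℝ) - 1)) ^ 2 ≤
      (1 + 1 / δ) * ∑ a ∈ range Q, R a ^ 2 := by
    apply mul_le_mul_of_nonneg_left _ (by positivity)
    have := sq_nonneg (R 0)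
    linarith
  linarith

theorem cmp_final (ε D : ℝ) (hε : 0 < ε) : ∃ N0 : ℕ, ∀ N ≥ N0,
    D * (1 + Real.log N) ^ 4 ≤ (N : ℝ) ^ (3 * ε / 8) := by
  obtain ⟨s, hs⟩ : ∃ s, s = ε / 32 := ⟨_, rfl⟩
  have hs0 : 0 < s := by rw [hs]; positivity
  have h1 := ((tendsto_rpow_atTop (by positivity : 0 < ε / 4)).comp
    tendsto_natCast_atTop_atTop).eventually_ge_atTop (|D| * (1 + 1 / s) ^ 4)
  obtain ⟨N0, hN0⟩ := Filter.eventually_atTop.1 h1
  refine ⟨max N0 1, ?_⟩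
  intro N hN
  have hN1 : 1 ≤ N := le_trans (le_max_right _ _) hN
  have hN2 : (1 : ℝ) ≤ N := by exact_mod_cast hN1
  have hNp : (0 : ℝ) < N := by linarith
  have h2 : |D| * (1 + 1 / s) ^ 4 ≤ (N : ℝ) ^ (ε / 4) := hN0 N (le_trans (le_max_left _ _) hN)
  have h3 : Real.log N ≤ (N : ℝ) ^ s / s := Real.log_le_rpow_div hNp.le hs0
  have h4 : 1 ≤ (N : ℝ) ^ s := Real.one_le_rpow hN2 hs0.le
  have h5 : 1 + Real.log N ≤ (1 + 1 / s) * (N : ℝ) ^ s := by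
    have : (1 + 1 / s) * (N : ℝ) ^ s = (N : ℝ) ^ s + (N : ℝ) ^ s / s := by ring
    rw [this]
    linarith
  have hL : 0 ≤ Real.log N := Real.log_natCast_nonneg N
  have h6 : (1 + Real.log N) ^ 4 ≤ ((1 + 1 / s) * (N : ℝ) ^ s) ^ 4 :=
    pow_le_pow_left₀ (by linarith) h5 4
  have h7 : ((N : ℝ) ^ s) ^ 4 = (N : ℝ) ^ (ε / 8) := by
    rw [← Real.rpow_natCast, ← Real.rpow_mul hNp.le, hs]
    congr 1
    push_cast
    ring
  calc D * (1 + Real.log N) ^ 4 ≤ |D| * (1 + Real.log N) ^ 4 :=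
        mul_le_mul_of_nonneg_right (le_abs_self D) (by positivity)
    _ ≤ |D| * ((1 + 1 / s) * (N : ℝ) ^ s) ^ 4 := mul_le_mul_of_nonneg_left h6 (abs_nonneg _)
    _ = (|D| * (1 + 1 / s) ^ 4) * (N : ℝ) ^ (ε / 8) := by
        rw [mul_pow, h7]
        ring
    _ ≤ (N : ℝ) ^ (ε / 4) * (N : ℝ) ^ (ε / 8) :=
        mul_le_mul_of_nonneg_right h2 (Real.rpow_nonneg hNp.le _)
    _ = (N : ℝ) ^ (3 * ε / 8) := by
        rw [← Real.rpow_add hNp]
        congr 1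
        ring

theorem cmp_pr (ε : ℝ) (hε : 0 < ε) : ∃ N0 : ℕ, ∀ N ≥ N0, ∀ Y : ℕ, (N : ℝ) ^ (1 / 2 + ε) ≤ Y → Y ≤ N →
    ∑ Q ∈ QQ Y, |VV N Q - SQ N Q| ≤ Y * (N : ℝ) ^ (1 - ε / 8) := by
  obtain ⟨C, hC, hrem⟩ := rem_sum
  obtain ⟨N0, hN0⟩ := cmp_final ε (18 + 6 * C + 2 * C ^ 2) hε
  refine ⟨max N0 2, ?_⟩
  intro N hN Y hY hYN
  have hN2 : 2 ≤ N := le_trans (le_max_right _ _) hN
  have hfin := hN0 N (le_trans (le_max_left _ _) hN)
  obtain ⟨hρ, hS⟩ := hrem N hN2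
  have hNr : (2 : ℝ) ≤ N := by exact_mod_cast hN2
  have hNp : (0 : ℝ) < N := by linarith
  have hN1 : (1 : ℝ) < N := by linarith
  have hYNr : (Y : ℝ) ≤ N := by exact_mod_cast hYN
  have hε2 : ε ≤ 1 / 2 := by
    have h1 : (N : ℝ) ^ (1 / 2 + ε) ≤ (N : ℝ) ^ (1 : ℝ) := by
      rw [Real.rpow_one]
      linarith
    rw [Real.rpow_le_rpow_left_iff hN1] at h1
    linarith
  have hP : 0 < (N : ℝ) ^ (1 / 2 + ε) := Real.rpow_pos_of_pos hNp _
  have hYp : (0 : ℝ) < Y := by linarith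
  have hY1 : 1 ≤ Y := by exact_mod_cast hYp
  have hYsq : N < Y ^ 2 := by
    have h1 : (N : ℝ) < (Y : ℝ) ^ 2 := by
      have h2 : ((N : ℝ) ^ (1 / 2 + ε)) ^ 2 ≤ (Y : ℝ) ^ 2 := pow_le_pow_left₀ hP.le hY 2
      have h3 : ((N : ℝ) ^ (1 / 2 + ε)) ^ 2 = (N : ℝ) ^ (1 + 2 * ε) := by
        rw [← Real.rpow_natCast, ← Real.rpow_mul hNp.le]
        congr 1
        push_cast
        ring
      have h4 : (N : ℝ) ^ (1 : ℝ) < (N : ℝ) ^ (1 + 2 * ε) :=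
        Real.rpow_lt_rpow_of_exponent_lt hN1 (by linarith)
      rw [Real.rpow_one] at h4
      linarith
    exact_mod_cast h1
  have hsN : Real.sqrt N ≤ Y := by
    rw [Real.sqrt_eq_rpow]
    refine le_trans ?_ hY
    exact Real.rpow_le_rpow_of_exponent_le hN1.le (by linarith)
  have hL : 0 ≤ Real.log N := Real.log_natCast_nonneg N
  obtain ⟨L, hLd⟩ : ∃ L, L = 1 + Real.log N := ⟨_, rfl⟩
  rw [← hLd] at hfin hS
  have hL1 : 1 ≤ L := by linarith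
  have hlL : Real.log N ≤ L := by linarith
  obtain ⟨W, hW⟩ : ∃ W, W = (N : ℝ) ^ (1 - ε / 2) := ⟨_, rfl⟩
  have hW0 : 0 < W := by rw [hW]; exact Real.rpow_pos_of_pos hNp _
  obtain ⟨δ, hδ⟩ : ∃ δ, δ = (N : ℝ) ^ (-(1 / 2) + ε / 2) := ⟨_, rfl⟩
  have hδ0 : 0 < δ := by rw [hδ]; exact Real.rpow_pos_of_pos hNp _
  have hδN : δ * (N : ℝ) ^ 2 ≤ Y * W := by
    have h1 : δ * (N : ℝ) ^ 2 = (N : ℝ) ^ (1 / 2 + ε) * W := by
      rw [hδ, hW, ← Real.rpow_natCast, ← Real.rpow_add hNp, ← Real.rpow_add hNp]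
      congr 1
      push_cast
      ring
    rw [h1]
    exact mul_le_mul_of_nonneg_right hY hW0.le
  have hδ1 : 1 / δ * Real.sqrt N = W := by
    rw [hδ, hW, Real.sqrt_eq_rpow, one_div, ← Real.rpow_neg hNp.le, ← Real.rpow_add hNp]
    congr 1
    ring
  have hsW : Real.sqrt N ≤ W := by
    rw [hW, Real.sqrt_eq_rpow]
    exact Real.rpow_le_rpow_of_exponent_le hN1.le (by linarith)
  have hKW : ((N : ℝ) / Y) ^ 2 ≤ W := by
    have h1 : (N : ℝ) / Y ≤ (N : ℝ) ^ (1 / 2 - ε) := by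
      rw [div_le_iff₀ hYp]
      have h2 : (N : ℝ) ^ (1 / 2 - ε) * (N : ℝ) ^ (1 / 2 + ε) = N := by
        rw [← Real.rpow_add hNp]
        have : (1 / 2 - ε + (1 / 2 + ε) : ℝ) = 1 := by ring
        rw [this, Real.rpow_one]
      calc (N : ℝ) = (N : ℝ) ^ (1 / 2 - ε) * (N : ℝ) ^ (1 / 2 + ε) := h2.symm
        _ ≤ (N : ℝ) ^ (1 / 2 - ε) * Y :=
            mul_le_mul_of_nonneg_left hY (Real.rpow_nonneg hNp.le _)
    have h3 : ((N : ℝ) / Y) ^ 2 ≤ ((N : ℝ) ^ (1 / 2 - ε)) ^ 2 :=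
      pow_le_pow_left₀ (by positivity) h1 2
    refine le_trans h3 ?_
    rw [← Real.rpow_natCast, ← Real.rpow_mul hNp.le, hW]
    apply Real.rpow_le_rpow_of_exponent_le hN1.le
    push_cast
    linarith
  -- sum of squares of the remainders
  have hS1 := cmp_rho (fun n => Λ n - aS N n) N Y L hYsq
    (fun n _ => by have := hρ n; linarith)
    (fun n hn => by
      rw [Finset.mem_Icc] at hn
      have h1 : Λ n ≤ Real.log n := ArithmeticFunction.vonMangoldt_le_log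
      have h2 : Real.log n ≤ Real.log N := by
        apply Real.log_le_log
        · exact_mod_cast hn.1
        · exact_mod_cast hn.2
      have h3 := cmp_aS_nonneg N n
      linarith)
  obtain ⟨S, hSd⟩ : ∃ S, S = ∑ n ∈ Icc 1 N, (Λ n - aS N n) := ⟨_, rfl⟩
  rw [← hSd] at hS hS1
  have hS0 : 0 ≤ S := by
    rw [hSd]
    exact Finset.sum_nonneg (fun n _ => by have := hρ n; linarith)
  have hs0 : 0 ≤ Real.sqrt N := Real.sqrt_nonneg _
  have hss : Real.sqrt N * Real.sqrt N = N := Real.mul_self_sqrt hNp.le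
  have hS2 : 3 * (Y : ℝ) * (L * S) + S ^ 2 ≤ (3 * C + C ^ 2) * (Y * Real.sqrt N * L ^ 4) := by
    have h1 : L * S ≤ C * Real.sqrt N * L ^ 4 := by
      have h2 : L * S ≤ L * (C * Real.sqrt N * L ^ 2) := mul_le_mul_of_nonneg_left hS (by linarith)
      have h3 : L ^ 3 ≤ L ^ 4 := pow_le_pow_right₀ hL1 (by norm_num)
      have h4 : C * Real.sqrt N * L ^ 3 ≤ C * Real.sqrt N * L ^ 4 :=
        mul_le_mul_of_nonneg_left h3 (by positivity)
      calc L * S ≤ L * (C * Real.sqrt N * L ^ 2) := h2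
        _ = C * Real.sqrt N * L ^ 3 := by ring
        _ ≤ _ := h4
    have h5 : S ^ 2 ≤ C ^ 2 * (Y * Real.sqrt N * L ^ 4) := by
      calc S ^ 2 ≤ (C * Real.sqrt N * L ^ 2) ^ 2 := pow_le_pow_left₀ hS0 hS 2
        _ = C ^ 2 * (Real.sqrt N * Real.sqrt N * L ^ 4) := by ring
        _ ≤ C ^ 2 * (Y * Real.sqrt N * L ^ 4) := by
            apply mul_le_mul_of_nonneg_left _ (by positivity)
            apply mul_le_mul_of_nonneg_right _ (by positivity)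
            exact mul_le_mul_of_nonneg_right hsN hs0
    have h6 : 3 * (Y : ℝ) * (L * S) ≤ 3 * Y * (C * Real.sqrt N * L ^ 4) :=
      mul_le_mul_of_nonneg_left h1 (by positivity)
    have h7 : 3 * (Y : ℝ) * (C * Real.sqrt N * L ^ 4) = 3 * C * (Y * Real.sqrt N * L ^ 4) := by ring
    linarith
  have hS3 := le_trans hS1 hS2
  have hper : ∀ Q ∈ QQ Y, |VV N Q - SQ N Q| ≤ δ * (2 * ((N : ℝ) / Y) * (N * Real.log N ^ 2)) +
      (1 + 1 / δ) * ∑ a ∈ range Q, cmpC (fun n => Λ n - aS N n) N Q a ^ 2 +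
      4 * Real.log N ^ 2 * ((N : ℝ) / Y) ^ 2 := by
    intro Q hQ
    rw [QQ, Finset.mem_filter, Finset.mem_Ioc] at hQ
    exact cmp_perQ N Y Q δ hδ0 hN2 hY1 hYN hQ.2 hQ.1.1
  have hsum := Finset.sum_le_sum hper
  rw [Finset.sum_add_distrib, Finset.sum_add_distrib, Finset.sum_const, Finset.sum_const,
    nsmul_eq_mul, nsmul_eq_mul, ← Finset.mul_sum] at hsum
  have hq := cmp_QQ_card Y
  have hl2 : Real.log N ^ 2 ≤ L ^ 4 := by
    calc Real.log N ^ 2 ≤ L ^ 2 := pow_le_pow_left₀ hL hlL 2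
      _ ≤ L ^ 4 := pow_le_pow_right₀ hL1 (by norm_num)
  have t1 : ((QQ Y).card : ℝ) * (δ * (2 * ((N : ℝ) / Y) * (N * Real.log N ^ 2))) ≤
      6 * (L ^ 4 * (Y * W)) := by
    calc ((QQ Y).card : ℝ) * (δ * (2 * ((N : ℝ) / Y) * (N * Real.log N ^ 2))) ≤
        (3 * Y) * (δ * (2 * ((N : ℝ) / Y) * (N * L ^ 4))) := by
          apply mul_le_mul hq _ (by positivity) (by positivity)
          apply mul_le_mul_of_nonneg_left _ hδ0.le
          apply mul_le_mul_of_nonneg_left _ (by positivity)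
          exact mul_le_mul_of_nonneg_left hl2 hNp.le
      _ = 6 * (L ^ 4 * (δ * (N : ℝ) ^ 2)) := by
          field_simp
          ring
      _ ≤ 6 * (L ^ 4 * (Y * W)) := by
          apply mul_le_mul_of_nonneg_left _ (by norm_num)
          exact mul_le_mul_of_nonneg_left hδN (by positivity)
  have t2 : (1 + 1 / δ) * ∑ Q ∈ QQ Y, ∑ a ∈ range Q, cmpC (fun n => Λ n - aS N n) N Q a ^ 2 ≤
      (6 * C + 2 * C ^ 2) * (L ^ 4 * (Y * W)) := by
    calc (1 + 1 / δ) * ∑ Q ∈ QQ Y, ∑ a ∈ range Q, cmpC (fun n => Λ n - aS N n) N Q a ^ 2 ≤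
        (1 + 1 / δ) * ((3 * C + C ^ 2) * (Y * Real.sqrt N * L ^ 4)) :=
          mul_le_mul_of_nonneg_left hS3 (by positivity)
      _ = (3 * C + C ^ 2) * (Y * L ^ 4) * (Real.sqrt N + 1 / δ * Real.sqrt N) := by ring
      _ ≤ (3 * C + C ^ 2) * (Y * L ^ 4) * (W + W) := by
          apply mul_le_mul_of_nonneg_left _ (by positivity)
          rw [hδ1]
          linarith
      _ = _ := by ring
  have t3 : ((QQ Y).card : ℝ) * (4 * Real.log N ^ 2 * ((N : ℝ) / Y) ^ 2) ≤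
      12 * (L ^ 4 * (Y * W)) := by
    calc ((QQ Y).card : ℝ) * (4 * Real.log N ^ 2 * ((N : ℝ) / Y) ^ 2) ≤
        (3 * Y) * (4 * L ^ 4 * W) := by
          apply mul_le_mul hq _ (by positivity) (by positivity)
          apply mul_le_mul _ hKW (by positivity) (by positivity)
          linarith
      _ = _ := by ring
  have hWfin : (N : ℝ) ^ (3 * ε / 8) * W = (N : ℝ) ^ (1 - ε / 8) := by
    rw [hW, ← Real.rpow_add hNp]
    congr 1
    ring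
  calc ∑ Q ∈ QQ Y, |VV N Q - SQ N Q| ≤ _ := hsum
    _ ≤ 6 * (L ^ 4 * (Y * W)) + (6 * C + 2 * C ^ 2) * (L ^ 4 * (Y * W)) +
        12 * (L ^ 4 * (Y * W)) := by linarith
    _ = ((18 + 6 * C + 2 * C ^ 2) * L ^ 4) * (Y * W) := by ring
    _ ≤ (N : ℝ) ^ (3 * ε / 8) * (Y * W) := mul_le_mul_of_nonneg_right hfin (by positivity)
    _ = Y * ((N : ℝ) ^ (3 * ε / 8) * W) := by ring
    _ = Y * (N : ℝ) ^ (1 - ε / 8) := by rw [hWfin]

alias cmp := cmp_pr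

end Pool.Agent.PV
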