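import Pool.Agent.Lib_helper92.PVF.Base

set_option autoImplicit false

namespace Pool.Agent.PV

open Finset Complex Pool.Agent.Var35 Pool.Agent.Var73
open scoped ArithmeticFunction ArithmeticFunction.Moebius

/-- number of pairs with a given difference -/
lemma rep_cnt (L : ℕ) (h : ℤ) :
    ((range L ×ˢ range L).filter (fun p : ℕ × ℕ => (p.1 : ℤ) - p.2 = h)).card = L - h.natAbs := by
  classical
  rw [← Finset.card_range (L - h.natAbs)]
  rcases le_total 0 h with h0 | h0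
  · refine Finset.card_nbij' (fun p => p.2) (fun j => (j + h.natAbs, j)) ?_ ?_ ?_ ?_
    · intro p hp
      simp only [coe_filter, mem_product, mem_range, Set.mem_ofPred_eq, coe_range, Set.mem_Iio] at hp ⊢
      omega
    · intro j hj
      simp only [coe_filter, mem_product, mem_range, Set.mem_ofPred_eq, coe_range, Set.mem_Iio] at hj ⊢
      omega
    · intro p hp
      simp only [coe_filter, mem_product, mem_range, Set.mem_ofPred_eq] at hp
      ext <;> simp only <;> omega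
    · intro j hj
      rfl
  · refine Finset.card_nbij' (fun p => p.1) (fun j => (j, j + h.natAbs)) ?_ ?_ ?_ ?_
    · intro p hp
      simp only [coe_filter, mem_product, mem_range, Set.mem_ofPred_eq, coe_range, Set.mem_Iio] at hp ⊢
      omega
    · intro j hj
      simp only [coe_filter, mem_product, mem_range, Set.mem_ofPred_eq, coe_range, Set.mem_Iio] at hj ⊢
      omega
    · intro p hp
      simp only [coe_filter, mem_product, mem_range, Set.mem_ofPred_eq] at hp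
      ext <;> simp only <;> omega
    · intro j hj
      rfl

/-- the square of the Dirichlet kernel -/
lemma rep_dk (L K : ℕ) (hK : L ≤ K) (t : ℝ) :
    ((‖Dk L t‖ ^ 2 : ℝ) : ℂ) = ∑ h ∈ Ioo (-(K : ℤ)) K, ((L - h.natAbs : ℕ) : ℂ) * e (h * t) := by
  classical
  have h0 : ((‖Dk L t‖ ^ 2 : ℝ) : ℂ) = Dk L t * (starRingEnd ℂ) (Dk L t) := by
    rw [Complex.mul_conj, Complex.normSq_eq_norm_sq]
  have h1 : ((‖Dk L t‖ ^ 2 : ℝ) : ℂ) = ∑ p ∈ range L ×ˢ range L, e ((((p.1 : ℤ) - p.2 : ℤ) : ℝ) * t) := by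
    rw [h0]
    unfold Dk
    rw [map_sum, sum_mul_sum, ← sum_product']
    refine sum_congr rfl fun p _ => ?_
    rw [← e_neg, ← e_add]
    congr 1
    push_cast
    ring
  rw [h1, ← sum_fiberwise_of_maps_to (t := Ioo (-(K : ℤ)) K) (g := fun p : ℕ × ℕ => (p.1 : ℤ) - p.2)]
  · refine sum_congr rfl fun h _ => ?_
    rw [← rep_cnt L h, ← nsmul_eq_mul, ← sum_const]
    refine sum_congr rfl fun p hp => ?_
    rw [mem_filter] at hp
    rw [hp.2]
  · intro p hp
    simp only [mem_product, mem_range, mem_Ioo] at hp ⊢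
    omega

/-- the coefficients of the kernel -/
noncomputable def rep_w (N : ℕ) (h : ℤ) : ℝ :=
  (((2 * N - h.natAbs : ℕ) : ℝ) - ((N - h.natAbs : ℕ) : ℝ)) / N

lemma rep_w_one (N : ℕ) (hN : 1 ≤ N) (h : ℤ) (hh : h.natAbs ≤ N) : rep_w N h = 1 := by
  unfold rep_w
  have hN' : (N : ℝ) ≠ 0 := by positivity
  rw [Nat.cast_sub hh, Nat.cast_sub (by omega)]
  push_cast
  field_simp
  ring

lemma rep_w_nonneg (N : ℕ) (h : ℤ) : 0 ≤ rep_w N h := by
  unfold rep_w
  refine div_nonneg ?_ (by positivity)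
  rw [sub_nonneg]
  exact_mod_cast (by omega : N - h.natAbs ≤ 2 * N - h.natAbs)

lemma rep_w_le (N : ℕ) (hN : 1 ≤ N) (h : ℤ) : rep_w N h ≤ 1 := by
  unfold rep_w
  have hN' : (0 : ℝ) < N := by positivity
  rw [div_le_one hN', sub_le_iff_le_add]
  exact_mod_cast (by omega : 2 * N - h.natAbs ≤ N + (N - h.natAbs))

lemma rep_wk (N : ℕ) (t : ℝ) :
    ((Wk N t : ℝ) : ℂ) = ∑ h ∈ Ioo (-((2 * N : ℕ) : ℤ)) ((2 * N : ℕ) : ℤ), ((rep_w N h : ℝ) : ℂ) * e (h * t) := by
  have h1 := rep_dk (2 * N) (2 * N) le_rfl t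
  have h2 := rep_dk N (2 * N) (by omega) t
  unfold Wk
  rw [Complex.ofReal_div, Complex.ofReal_sub, h1, h2, ← sum_sub_distrib, sum_div]
  refine sum_congr rfl fun h _ => ?_
  unfold rep_w
  push_cast
  ring

lemma rep_sq (b : ℕ → ℂ) (N : ℕ) (t : ℝ) :
    ((‖Bs b N t‖ ^ 2 : ℝ) : ℂ) = ∑ n ∈ Icc 1 N, ∑ n' ∈ Icc 1 N,
      b n * (starRingEnd ℂ) (b n') * e ((((n : ℤ) - n' : ℤ) : ℝ) * t) := by
  have h0 : ((‖Bs b N t‖ ^ 2 : ℝ) : ℂ) = Bs b N t * (starRingEnd ℂ) (Bs b N t) := by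
    rw [Complex.mul_conj, Complex.normSq_eq_norm_sq]
  rw [h0]
  unfold Bs
  rw [map_sum, sum_mul_sum]
  refine sum_congr rfl fun n _ => sum_congr rfl fun n' _ => ?_
  rw [map_mul, ← e_neg]
  calc b n * e (n * t) * ((starRingEnd ℂ) (b n') * e (-(n' * t)))
      = b n * (starRingEnd ℂ) (b n') * (e (n * t) * e (-(n' * t))) := by ring
    _ = _ := by
        rw [← e_add]
        congr 2
        push_cast
        ring

/-- orthogonality -/
lemma rep_orth (M : ℕ) (hM : 0 < M) (k : ℤ) (hk : |k| < M) :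
    ∑ j ∈ range M, e (k * ((j : ℝ) / M)) = if k = 0 then (M : ℂ) else 0 := by
  have h := sum_roots M hM k
  have h1 : ∑ j ∈ range M, e (k * ((j : ℝ) / M)) = ∑ b ∈ range M, e (b * ((k : ℤ) / M)) := by
    refine sum_congr rfl fun j _ => ?_
    congr 1
    ring
  rw [h1, h]
  by_cases hk0 : k = 0
  · subst hk0
    simp
  · rw [if_neg hk0, if_neg]
    intro hd
    exact hk0 (Int.eq_zero_of_abs_lt_dvd hd hk)

theorem rep_pr (N M : ℕ) (hN : 1 ≤ N) (hM : 4 * N < M) (b : ℕ → ℂ) (t : ℝ) :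
    (1 / (M : ℝ)) * ∑ j ∈ range M, ‖Bs b N (j / M)‖ ^ 2 * Wk N (j / M - t) = ‖Bs b N t‖ ^ 2 := by
  have hM0 : 0 < M := by omega
  have hMc : (M : ℂ) ≠ 0 := by exact_mod_cast hM0.ne'
  have hc : (((1 / (M : ℝ)) * ∑ j ∈ range M, ‖Bs b N (j / M)‖ ^ 2 * Wk N (j / M - t) : ℝ) : ℂ)
      = ((‖Bs b N t‖ ^ 2 : ℝ) : ℂ) := by
    have h1 : ∀ j ∈ range M, ((‖Bs b N (j / M)‖ ^ 2 * Wk N (j / M - t) : ℝ) : ℂ)
        = ∑ n ∈ Icc 1 N, ∑ n' ∈ Icc 1 N, ∑ h ∈ Ioo (-((2 * N : ℕ) : ℤ)) ((2 * N : ℕ) : ℤ),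
          (b n * (starRingEnd ℂ) (b n') * ((rep_w N h : ℝ) : ℂ) * e (-(h * t)))
            * e ((((n : ℤ) - n' + h : ℤ) : ℝ) * ((j : ℝ) / M)) := by
      intro j _
      rw [Complex.ofReal_mul, rep_sq, rep_wk, sum_mul]
      refine sum_congr rfl fun n _ => ?_
      rw [sum_mul]
      refine sum_congr rfl fun n' _ => ?_
      rw [mul_sum]
      refine sum_congr rfl fun h _ => ?_
      have e1 : e ((((n : ℤ) - n' : ℤ) : ℝ) * ((j : ℝ) / M)) * e (h * ((j : ℝ) / M - t))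
          = e (-(h * t)) * e ((((n : ℤ) - n' + h : ℤ) : ℝ) * ((j : ℝ) / M)) := by
        rw [← e_add, ← e_add]
        congr 1
        push_cast
        ring
      calc b n * (starRingEnd ℂ) (b n') * e ((((n : ℤ) - n' : ℤ) : ℝ) * ((j : ℝ) / M))
            * (((rep_w N h : ℝ) : ℂ) * e (h * ((j : ℝ) / M - t)))
          = b n * (starRingEnd ℂ) (b n') * ((rep_w N h : ℝ) : ℂ) *
            (e ((((n : ℤ) - n' : ℤ) : ℝ) * ((j : ℝ) / M)) * e (h * ((j : ℝ) / M - t))) := by ring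
        _ = _ := by rw [e1]; ring
    rw [Complex.ofReal_mul, Complex.ofReal_sum, sum_congr rfl h1, rep_sq, sum_comm, mul_sum]
    refine sum_congr rfl fun n hn => ?_
    rw [sum_comm, mul_sum]
    refine sum_congr rfl fun n' hn' => ?_
    rw [sum_comm, mul_sum]
    rw [mem_Icc] at hn hn'
    have h2 : ∀ h ∈ Ioo (-((2 * N : ℕ) : ℤ)) ((2 * N : ℕ) : ℤ),
        ((1 / (M : ℝ) : ℝ) : ℂ) * ∑ j ∈ range M, (b n * (starRingEnd ℂ) (b n') * ((rep_w N h : ℝ) : ℂ) * e (-(h * t)))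
            * e ((((n : ℤ) - n' + h : ℤ) : ℝ) * ((j : ℝ) / M))
        = if h = (n' : ℤ) - n then b n * (starRingEnd ℂ) (b n') * ((rep_w N h : ℝ) : ℂ) * e (-(h * t)) else 0 := by
      intro h hh
      rw [mem_Ioo] at hh
      rw [← mul_sum, rep_orth M hM0 _ (by rw [abs_lt]; constructor <;> push_cast at hh ⊢ <;> omega)]
      by_cases hc : h = (n' : ℤ) - n
      · rw [if_pos hc, if_pos (by omega)]
        push_cast
        field_simp
      · rw [if_neg hc, if_neg (by omega), mul_zero, mul_zero]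
    rw [sum_congr rfl h2, Finset.sum_ite_eq', if_pos (by rw [mem_Ioo]; push_cast; omega),
      rep_w_one N hN _ (by omega)]
    have : -((((n' : ℤ) - n : ℤ) : ℝ) * t) = (((n : ℤ) - n' : ℤ) : ℝ) * t := by
      push_cast
      ring
    rw [this]
    simp
  exact_mod_cast hc

alias rep := rep_pr

end Pool.Agent.PV
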