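import Pool.Agent.Lib_helper92.PVF.Base

/-!
# Block RES: Parseval modulo `Q`
-/

set_option autoImplicit false

namespace Pool.Agent.PV

open Finset Complex Pool.Agent.Var35 Pool.Agent.Var73

theorem RES_orth {Q : ℕ} (hQ : 1 ≤ Q) (k : ℤ) :
    ∑ c ∈ range Q, e (k * (c / Q : ℝ)) = if (Q : ℤ) ∣ k then (Q : ℂ) else 0 := by
  have hQ0 : (Q : ℝ) ≠ 0 := by positivity
  have h1 : ∀ c : ℕ, e (k * (c / Q : ℝ)) = e (k / Q : ℝ) ^ c := by
    intro c
    rw [← e_nat_mul]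
    congr 1
    ring
  rw [sum_congr rfl fun c _ => h1 c]
  have h2 : e (k / Q : ℝ) ^ Q = 1 := by
    rw [← e_nat_mul, mul_div_cancel₀ _ hQ0]
    exact e_int k
  split_ifs with hd
  · obtain ⟨j, rfl⟩ := hd
    have h3 : e (((Q : ℤ) * j : ℤ) / Q : ℝ) = 1 := by
      rw [← e_int j]
      congr 1
      push_cast
      field_simp
    rw [h3]
    simp
  · have h3 : e (k / Q : ℝ) ≠ 1 := by
      intro h
      apply hd
      unfold e at h
      rw [Complex.exp_eq_one_iff] at h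
      obtain ⟨j, hj⟩ := h
      refine ⟨j, ?_⟩
      have h4 : ((2 * Real.pi * (k / Q) : ℝ) : ℂ) = ((j * (2 * Real.pi) : ℝ) : ℂ) := by
        have h5 : Complex.I ≠ 0 := Complex.I_ne_zero
        apply mul_right_cancel₀ h5
        rw [hj]
        push_cast
        ring
      have h5 : (2 * Real.pi * (k / Q) : ℝ) = j * (2 * Real.pi) := by exact_mod_cast h4
      have h6 : (k : ℝ) = Q * j := by
        field_simp at h5
        linarith
      exact_mod_cast h6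
    rw [geom_sum_eq h3, h2, sub_self, zero_div]

/-- RES -/
theorem res_pr (N Q : ℕ) (hQ : 1 ≤ Q) (b : ℕ → ℂ) :
    (1 / (Q : ℝ)) * ∑ c ∈ range Q, ‖Bs b N (c / Q)‖ ^ 2
      = ∑ a ∈ range Q, ‖∑ n ∈ (Icc 1 N).filter (fun n => n % Q = a), b n‖ ^ 2 := by
  have hQ0 : (Q : ℝ) ≠ 0 := by positivity
  have hQC : (Q : ℂ) ≠ 0 := by exact_mod_cast hQ0
  have hsq : ∀ z : ℂ, ((‖z‖ ^ 2 : ℝ) : ℂ) = z * (starRingEnd ℂ) z := by
    intro z
    rw [Complex.mul_conj, Complex.normSq_eq_norm_sq]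
  have h1 : ((∑ c ∈ range Q, ‖Bs b N (c / Q)‖ ^ 2 : ℝ) : ℂ) =
      ∑ n ∈ Icc 1 N, ∑ n' ∈ Icc 1 N, b n * (starRingEnd ℂ) (b n') *
        (if (Q : ℤ) ∣ (n : ℤ) - n' then (Q : ℂ) else 0) := by
    have h2 : ∀ c : ℕ, ((‖Bs b N (c / Q)‖ ^ 2 : ℝ) : ℂ) =
        ∑ n ∈ Icc 1 N, ∑ n' ∈ Icc 1 N, b n * (starRingEnd ℂ) (b n') *
          e (((n : ℤ) - n' : ℤ) * (c / Q : ℝ)) := by
      intro c
      rw [hsq, Bs, map_sum, sum_mul_sum]
      refine sum_congr rfl fun n _ => sum_congr rfl fun n' _ => ?_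
      rw [map_mul]
      have h3 : (((n : ℤ) - n' : ℤ) * (c / Q : ℝ) : ℝ) = n * (c / Q : ℝ) - n' * (c / Q : ℝ) := by
        push_cast
        ring
      rw [h3, e_sub]
      ring
    rw [Complex.ofReal_sum, sum_congr rfl fun c _ => h2 c, sum_comm]
    refine sum_congr rfl fun n _ => ?_
    rw [sum_comm]
    refine sum_congr rfl fun n' _ => ?_
    rw [← mul_sum, RES_orth hQ]
  have h4 : ((∑ a ∈ range Q, ‖∑ n ∈ (Icc 1 N).filter (fun n => n % Q = a), b n‖ ^ 2 : ℝ) : ℂ) =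
      ∑ n ∈ Icc 1 N, ∑ n' ∈ Icc 1 N, b n * (starRingEnd ℂ) (b n') *
        (if (Q : ℤ) ∣ (n : ℤ) - n' then 1 else 0) := by
    have h5 : ∀ a : ℕ, ((‖∑ n ∈ (Icc 1 N).filter (fun n => n % Q = a), b n‖ ^ 2 : ℝ) : ℂ) =
        ∑ n ∈ Icc 1 N, ∑ n' ∈ Icc 1 N, if n % Q = a then
          (if n' % Q = a then b n * (starRingEnd ℂ) (b n') else 0) else 0 := by
      intro a
      rw [hsq, map_sum, sum_mul_sum, sum_filter]
      refine sum_congr rfl fun n _ => ?_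
      split_ifs with h
      · rw [sum_filter]
      · simp
    rw [Complex.ofReal_sum, sum_congr rfl fun a _ => h5 a, sum_comm]
    refine sum_congr rfl fun n _ => ?_
    rw [sum_comm]
    refine sum_congr rfl fun n' _ => ?_
    rw [sum_ite_eq (range Q) (n % Q) (fun a => if n' % Q = a then b n * (starRingEnd ℂ) (b n')
      else 0), if_pos (mem_range.2 (Nat.mod_lt n (by omega)))]
    have h6 : (n' % Q = n % Q) ↔ (Q : ℤ) ∣ (n : ℤ) - n' := Nat.modEq_iff_dvd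
    by_cases h7 : n' % Q = n % Q
    · rw [if_pos h7, if_pos (h6.1 h7), mul_one]
    · rw [if_neg h7, if_neg (fun h8 => h7 (h6.2 h8)), mul_zero]
  have h8 : (((1 / (Q : ℝ)) * ∑ c ∈ range Q, ‖Bs b N (c / Q)‖ ^ 2 : ℝ) : ℂ) =
      ((∑ a ∈ range Q, ‖∑ n ∈ (Icc 1 N).filter (fun n => n % Q = a), b n‖ ^ 2 : ℝ) : ℂ) := by
    rw [Complex.ofReal_mul, h1, h4, mul_sum]
    refine sum_congr rfl fun n _ => ?_
    rw [mul_sum]
    refine sum_congr rfl fun n' _ => ?_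
    split_ifs
    · push_cast
      field_simp
    · simp
  exact_mod_cast h8

alias res := res_pr

end Pool.Agent.PV
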