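import Pool.Agent.Lib_helper92.PVF.Base
import Pool.Agent.Lib_helper92.PVF.REP
import Pool.Agent.Lib_helper92.PVF.RES

/-! PV block IDN (helper28) -/

set_option autoImplicit false

namespace Pool.Agent.PV

open Finset Complex Pool.Agent.Var35 Pool.Agent.Var73
open scoped ArithmeticFunction ArithmeticFunction.Moebius

theorem idn_pr (N M Q : ℕ) (hN : 1 ≤ N) (hM : 4 * N < M) (hQ : 1 ≤ Q) :
    SQ N Q = mean M (range M) (fun t => Fp N t * Eo N Q t) := by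
  have h1 : mean M (range M) (fun t => Fp N t * Eo N Q t)
      = (1 / (Q : ℝ)) * ∑ b ∈ Ico 1 Q, ‖Ps N ((b : ℝ) / Q)‖ ^ 2 := by
    have h2 : ∀ b : ℕ, ‖Ps N ((b : ℝ) / Q)‖ ^ 2
        = (1 / (M : ℝ)) * ∑ j ∈ range M, ‖Ps N ((j : ℝ) / M)‖ ^ 2 * Wk N ((j : ℝ) / M - (b : ℝ) / Q) := by
      intro b
      exact (rep N M hN hM (fun n => (aS N n : ℂ)) ((b : ℝ) / Q)).symm
    simp_rw [h2]
    unfold mean Fp Eo
    simp only [Finset.mul_sum]
    rw [Finset.sum_comm]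
    apply sum_congr rfl
    intro b _
    apply sum_congr rfl
    intro j _
    ring
  have h3 := res N Q hQ (fun n => (aS N n : ℂ))
  have h4 : ∑ c ∈ range Q, ‖Ps N ((c : ℝ) / Q)‖ ^ 2
      = ‖Ps N 0‖ ^ 2 + ∑ c ∈ Ico 1 Q, ‖Ps N ((c : ℝ) / Q)‖ ^ 2 := by
    rw [Finset.range_eq_Ico, Finset.sum_eq_sum_Ico_succ_bot (by omega : 0 < Q)]
    simp
  have h5 : ‖Ps N 0‖ ^ 2 = (∑ n ∈ Icc 1 N, aS N n) ^ 2 := by
    have : Ps N 0 = ((∑ n ∈ Icc 1 N, aS N n : ℝ) : ℂ) := by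
      unfold Ps Bs
      push_cast
      apply sum_congr rfl
      intro n _
      simp [e]
    rw [this, Complex.norm_real, Real.norm_eq_abs, sq_abs]
  have h6 : ∀ a : ℕ, ‖∑ n ∈ (Icc 1 N).filter (fun n => n % Q = a), (aS N n : ℂ)‖ ^ 2
      = (∑ n ∈ (Icc 1 N).filter (fun n => n % Q = a), aS N n) ^ 2 := by
    intro a
    have : (∑ n ∈ (Icc 1 N).filter (fun n => n % Q = a), (aS N n : ℂ))
        = ((∑ n ∈ (Icc 1 N).filter (fun n => n % Q = a), aS N n : ℝ) : ℂ) := by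
      push_cast; rfl
    rw [this, Complex.norm_real, Real.norm_eq_abs, sq_abs]
  have h7 : (1 / (Q : ℝ)) * ∑ c ∈ range Q, ‖Ps N ((c : ℝ) / Q)‖ ^ 2
      = ∑ a ∈ range Q, (∑ n ∈ (Icc 1 N).filter (fun n => n % Q = a), aS N n) ^ 2 := by
    rw [← sum_congr rfl (fun a _ => h6 a)]
    exact h3
  rw [h1]
  unfold SQ
  rw [← h7, h4, h5]
  ring

alias idn := idn_pr

end Pool.Agent.PV
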