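import Pool.Agent.Lib_helper92.PVF.Base

set_option autoImplicit false

namespace Pool.Agent.PV

open Finset Complex Pool.Agent.Var35 Pool.Agent.Var73
open scoped ArithmeticFunction ArithmeticFunction.Moebius

theorem par_e_one {x : ℝ} (h : e x = 1) : ∃ n : ℤ, x = n := by
  unfold e at h
  rw [Complex.exp_eq_one_iff] at h
  obtain ⟨n, hn⟩ := h
  refine ⟨n, ?_⟩
  have h1 : ((2 * Real.pi * x : ℝ) : ℂ) = ((n * (2 * Real.pi) : ℝ) : ℂ) := by
    refine mul_right_cancel₀ Complex.I_ne_zero ?_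
    rw [hn]
    push_cast
    ring
  have h2 : 2 * Real.pi * x = n * (2 * Real.pi) := by exact_mod_cast h1
  have h3 : (2 * Real.pi) ≠ 0 := by positivity
  refine mul_left_cancel₀ h3 ?_
  rw [h2]
  ring

theorem par_orth (M : ℕ) (hM : 1 ≤ M) (k : ℤ) (hk : ¬ (M : ℤ) ∣ k) :
    ∑ j ∈ range M, e (k * (j / M)) = 0 := by
  have hM' : (M : ℝ) ≠ 0 := by positivity
  have h1 : ∀ j ∈ range M, e (k * (j / M)) = e (k / M) ^ j := by
    intro j _
    rw [← e_nat_mul]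
    congr 1
    ring
  rw [sum_congr rfl h1]
  have h2 : e (k / M) ≠ 1 := by
    intro h
    obtain ⟨n, hn⟩ := par_e_one h
    refine hk ⟨n, ?_⟩
    rw [div_eq_iff hM'] at hn
    have : (k : ℝ) = ((M * n : ℤ) : ℝ) := by push_cast; linarith
    exact_mod_cast this
  rw [geom_sum_eq h2, ← e_nat_mul]
  have h3 : (M : ℝ) * (k / M) = ((k : ℤ) : ℝ) := by field_simp
  rw [h3, e_int, sub_self, zero_div]

/-- PAR -/
theorem pars_pr (N M : ℕ) (hM : 4 * N < M) (b : ℕ → ℂ) :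
    (1 / (M : ℝ)) * ∑ j ∈ range M, ‖Bs b N (j / M)‖ ^ 2 = ∑ n ∈ Icc 1 N, ‖b n‖ ^ 2 := by
  have hM1 : 1 ≤ M := by omega
  have hM' : (M : ℂ) ≠ 0 := by
    have : M ≠ 0 := by omega
    exact_mod_cast this
  have h1 : ∀ x : ℝ, ((‖Bs b N x‖ ^ 2 : ℝ) : ℂ) = ∑ n ∈ Icc 1 N, ∑ m ∈ Icc 1 N,
      b n * (starRingEnd ℂ) (b m) * e (((n : ℤ) - (m : ℤ) : ℤ) * x) := by
    intro x
    rw [← Complex.normSq_eq_norm_sq, ← Complex.mul_conj]
    unfold Bs
    rw [map_sum, sum_mul_sum]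
    refine sum_congr rfl fun n _ => sum_congr rfl fun m _ => ?_
    rw [map_mul, ← e_neg]
    have : b n * e (n * x) * ((starRingEnd ℂ) (b m) * e (-(m * x))) =
        b n * (starRingEnd ℂ) (b m) * (e (n * x) * e (-(m * x))) := by ring
    rw [this, ← e_add]
    congr 2
    push_cast
    ring
  have h2 : ((∑ j ∈ range M, ‖Bs b N (j / M)‖ ^ 2 : ℝ) : ℂ) = M * ∑ n ∈ Icc 1 N,
      ((‖b n‖ ^ 2 : ℝ) : ℂ) := by
    rw [Complex.ofReal_sum, sum_congr rfl fun (j : ℕ) _ => h1 ((j : ℝ) / M), sum_comm, mul_sum]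
    refine sum_congr rfl fun n hn => ?_
    rw [sum_comm, sum_eq_single n]
    · simp only [sub_self, Int.cast_zero, zero_mul, e_zero, mul_one, sum_const, card_range,
        nsmul_eq_mul]
      rw [Complex.mul_conj, Complex.normSq_eq_norm_sq]
    · intro m hm hne
      rw [← mul_sum, par_orth M hM1, mul_zero]
      intro hd
      rw [mem_Icc] at hm hn
      have h3 := Int.eq_zero_of_abs_lt_dvd hd (by rw [abs_lt]; omega)
      exact hne (by omega)
    · intro h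
      exact absurd hn h
  have h3 : ((1 / (M : ℝ) * ∑ j ∈ range M, ‖Bs b N (j / M)‖ ^ 2 : ℝ) : ℂ) =
      ((∑ n ∈ Icc 1 N, ‖b n‖ ^ 2 : ℝ) : ℂ) := by
    rw [Complex.ofReal_mul, h2, Complex.ofReal_sum]
    push_cast
    field_simp
  exact_mod_cast h3

alias pars := pars_pr

end Pool.Agent.PV
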