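import Pool.Agent.Lib_helper92.PVF.Base

set_option autoImplicit false

namespace Pool.Agent.PV

open Finset Complex Pool.Agent.Var35 Pool.Agent.Var73
open scoped ArithmeticFunction ArithmeticFunction.Moebius

/-- WKB -/
theorem wk_le_pr (N : ℕ) (hN : 1 ≤ N) (t : ℝ) : |Wk N t| ≤ 5 * N := by
  have hN' : (0 : ℝ) < N := by exact_mod_cast hN
  have h1 := Dk_le (2 * N) t
  have h2 := Dk_le N t
  have h1' : ‖Dk (2 * N) t‖ ^ 2 ≤ (2 * N : ℝ) ^ 2 := by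
    refine pow_le_pow_left₀ (norm_nonneg _) ?_ 2
    push_cast at h1
    exact h1
  have h2' : ‖Dk N t‖ ^ 2 ≤ (N : ℝ) ^ 2 := pow_le_pow_left₀ (norm_nonneg _) h2 2
  have h3 : 0 ≤ ‖Dk (2 * N) t‖ ^ 2 := by positivity
  have h4 : 0 ≤ ‖Dk N t‖ ^ 2 := by positivity
  unfold Wk
  rw [abs_div, abs_of_pos hN', div_le_iff₀ hN', abs_le]
  constructor <;> nlinarith

/-- WKB -/
theorem wk_le2_pr (N : ℕ) (hN : 1 ≤ N) (t : ℝ) (ht : 0 < nn t) : |Wk N t| ≤ 1 / (2 * N * nn t ^ 2) := by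
  have hN' : (0 : ℝ) < N := by exact_mod_cast hN
  have h1 := Dk_sq_le (2 * N) t ht
  have h2 := Dk_sq_le N t ht
  have h3 : 0 ≤ ‖Dk (2 * N) t‖ ^ 2 := by positivity
  have h4 : 0 ≤ ‖Dk N t‖ ^ 2 := by positivity
  have h5 : nn t ^ 2 = (t - round t) ^ 2 := by unfold nn; rw [sq_abs]
  rw [← h5] at h1 h2
  unfold Wk
  rw [abs_div, abs_of_pos hN', div_le_iff₀ hN']
  have h6 : 1 / (2 * N * nn t ^ 2) * N = (1 / 2) * (1 / nn t ^ 2) := by field_simp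
  rw [h6, abs_le]
  have h7 : 0 ≤ 1 / nn t ^ 2 := by positivity
  constructor <;> nlinarith

alias wk_le := wk_le_pr
alias wk_le2 := wk_le2_pr

end Pool.Agent.PV
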