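import Pool.Agent.Lib_helper92.PVF.Base
import Pool.Agent.Lib_helper92.PVF.WKB

set_option autoImplicit false

namespace Pool.Agent.PV

open Finset Complex Pool.Agent.Var35 Pool.Agent.Var73
open scoped ArithmeticFunction ArithmeticFunction.Moebius

/-- WKM : the kernel on the minor arcs -/
theorem wk_minor_pr (N M r0 : ℕ) (hN : 1 ≤ N) (hM : 4 * N < M) (hr : 1 ≤ r0) (j : ℕ)
    (hj : j ∈ range M \ MJ N M r0) : |Wk N (j / M)| ≤ N / (r0 : ℝ) ^ 2 := by
  classical
  have hN' : (0 : ℝ) < N := by exact_mod_cast hN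
  have hr' : (0 : ℝ) < r0 := by exact_mod_cast hr
  rw [mem_sdiff] at hj
  have h1 : (r0 : ℝ) / N < nn (j / M) := by
    by_contra h
    push Not at h
    refine hj.2 ?_
    unfold MJ
    refine (@Finset.mem_filter ℕ _ (fun a => Classical.propDecidable _) _ _).2 ?_
    refine ⟨hj.1, 1, mem_Icc.2 ⟨le_rfl, hr⟩, round ((j : ℝ) / M), ?_, ?_⟩
    · rw [Nat.cast_one]; exact isCoprime_one_right
    · rw [Nat.cast_one, div_one, one_mul]; exact h
  have h2 : 0 < nn ((j : ℝ) / M) := lt_trans (by positivity) h1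
  refine (wk_le2 N hN _ h2).trans ?_
  rw [div_le_div_iff₀ (by positivity) (by positivity), one_mul]
  have h3 : (r0 : ℝ) < nn (j / M) * N := by rwa [div_lt_iff₀ hN'] at h1
  have h4 : (r0 : ℝ) ^ 2 ≤ (nn (j / M) * N) ^ 2 := pow_le_pow_left₀ hr'.le h3.le 2
  nlinarith [sq_nonneg (nn ((j : ℝ) / M) * N)]

alias wk_minor := wk_minor_pr

end Pool.Agent.PV
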