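import Pool.Agent.Lib_helper92.PVF.Base
import Pool.Agent.Lib_helper92.PVF.WKM
import Pool.Agent.Lib_helper92.PVF.PAR
import Pool.Agent.Lib_helper92.PVF.IDN

/-! PV, block CSA, part 0: elementary facts on means and kernels -/

set_option autoImplicit false

namespace Pool.Agent.PV

open Finset Complex Pool.Agent.Var35 Pool.Agent.Var73
open scoped ArithmeticFunction ArithmeticFunction.Moebius

theorem CSA_good (N : ℕ) : ∃ M, Good N M := by
  refine ⟨(4 * N + 1) * (Nat.sqrt N).factorial, ?_, ?_⟩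
  · have h : 1 ≤ (Nat.sqrt N).factorial := Nat.one_le_iff_ne_zero.mpr (Nat.factorial_ne_zero _)
    nlinarith
  · intro r h1 h2
    exact Dvd.dvd.mul_left (Nat.dvd_factorial h1 h2) _

theorem CSA_split (M : ℕ) (J : Finset ℕ) (hJ : J ⊆ range M) (F : ℝ → ℝ) :
    mean M (range M) F = mean M (range M \ J) F + mean M J F := by
  unfold mean
  rw [← mul_add, sum_sdiff hJ]

theorem CSA_Fp_nonneg (N : ℕ) (t : ℝ) : 0 ≤ Fp N t := sq_nonneg _

theorem CSA_pars (N M : ℕ) (hM : 4 * N < M) : mean M (range M) (Fp N) = A2 N := by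
  have h := pars N M hM (fun n => (aS N n : ℂ))
  unfold mean Fp Ps A2
  rw [h]
  refine sum_congr rfl fun n _ => ?_
  rw [Complex.norm_real, Real.norm_eq_abs, sq_abs]

theorem CSA_A2_nonneg (N : ℕ) : 0 ≤ A2 N := sum_nonneg fun _ _ => sq_nonneg _

theorem CSA_mean_mono (M : ℕ) (J J' : Finset ℕ) (hJ : J ⊆ J') (F : ℝ → ℝ) (hF : ∀ t, 0 ≤ F t) :
    mean M J F ≤ mean M J' F := by
  unfold mean
  exact mul_le_mul_of_nonneg_left (sum_le_sum_of_subset_of_nonneg hJ fun _ _ _ => hF _) (by positivity)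

theorem CSA_Eo (N Q : ℕ) (hQ : 1 ≤ Q) (t : ℝ) : Eo N Q t = EQ N Q t - (1 / (Q : ℝ)) * Wk N t := by
  unfold Eo EQ
  have h : range Q = insert 0 (Ico 1 Q) := by
    ext x
    simp only [mem_range, mem_insert, mem_Ico]
    omega
  rw [h, sum_insert (by simp)]
  simp only [Nat.cast_zero, zero_div, sub_zero]
  ring

theorem CSA_Eo_le (N Q : ℕ) (t : ℝ) : |Eo N Q t| ≤ Ea N Q t := by
  unfold Eo Ea
  rw [abs_mul, abs_of_nonneg (by positivity : (0:ℝ) ≤ 1 / (Q : ℝ))]
  exact mul_le_mul_of_nonneg_left (abs_sum_le_sum_abs _ _) (by positivity)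

theorem CSA_Ea_nonneg (N Q : ℕ) (t : ℝ) : 0 ≤ Ea N Q t := by
  unfold Ea
  exact mul_nonneg (by positivity) (sum_nonneg fun _ _ => abs_nonneg _)

theorem CSA_mem_MJ (N M r0 j : ℕ) (hj : j ∈ MJ N M r0) : j ∈ range M ∧ ∃ r ∈ Icc 1 r0, ∃ c : ℤ,
    IsCoprime c (r : ℤ) ∧ |(j : ℝ) / M - c / r| ≤ r0 / (r * N) := by
  unfold MJ at hj
  simp only [mem_filter] at hj
  exact hj

theorem CSA_MJ_sub (N M r0 : ℕ) : MJ N M r0 ⊆ range M := fun j hj => (CSA_mem_MJ N M r0 j hj).1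

theorem CSA_point (N M Q r0 : ℕ) (hN : 1 ≤ N) (hM : 4 * N < M) (hQ : 1 ≤ Q) (hr0 : 1 ≤ r0) :
    |SQ N Q - A2 N| ≤ |mean M (range M \ MJ N M r0) (fun t => Fp N t * (EQ N Q t - 1))|
      + (1 / (Q : ℝ)) * (N / (r0 : ℝ) ^ 2) * A2 N + mean M (MJ N M r0) (Fp N)
      + mean M (MJ N M r0) (fun t => Fp N t * Ea N Q t) := by
  have hJ : MJ N M r0 ⊆ range M := CSA_MJ_sub N M r0
  set J := MJ N M r0 with hJdef
  have h1 := idn N M Q hN hM hQ
  have h2 := CSA_pars N M hM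
  rw [CSA_split M J hJ] at h1 h2
  have h3 : mean M (range M \ J) (fun t => Fp N t * Eo N Q t)
      = mean M (range M \ J) (fun t => Fp N t * (EQ N Q t - 1)) + mean M (range M \ J) (Fp N)
        - (1 / (Q : ℝ)) * mean M (range M \ J) (fun t => Fp N t * Wk N t) := by
    unfold mean
    have hs : ∑ j ∈ range M \ J, Fp N (j / M) * Eo N Q (j / M)
        = ∑ j ∈ range M \ J, Fp N (j / M) * (EQ N Q (j / M) - 1) + ∑ j ∈ range M \ J, Fp N (j / M)
          - (1 / (Q : ℝ)) * ∑ j ∈ range M \ J, Fp N (j / M) * Wk N (j / M) := by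
      rw [mul_sum, ← sum_add_distrib, ← sum_sub_distrib]
      refine sum_congr rfl fun j _ => ?_
      rw [CSA_Eo N Q hQ]
      ring
    rw [hs]
    ring
  have h4 : |mean M (range M \ J) (fun t => Fp N t * Wk N t)| ≤ (N / (r0 : ℝ) ^ 2) * A2 N := by
    calc |mean M (range M \ J) (fun t => Fp N t * Wk N t)|
        ≤ mean M (range M \ J) (fun t => (N / (r0 : ℝ) ^ 2) * Fp N t) := by
          unfold mean
          rw [abs_mul, abs_of_nonneg (by positivity : (0:ℝ) ≤ 1 / (M:ℝ))]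
          refine mul_le_mul_of_nonneg_left (le_trans (abs_sum_le_sum_abs _ _) (sum_le_sum fun j hj => ?_)) (by positivity)
          rw [abs_mul, abs_of_nonneg (CSA_Fp_nonneg N _), mul_comm]
          exact mul_le_mul_of_nonneg_right (wk_minor N M r0 hN hM hr0 j hj) (CSA_Fp_nonneg N _)
      _ = (N / (r0 : ℝ) ^ 2) * mean M (range M \ J) (Fp N) := by
          unfold mean
          rw [← mul_sum]; ring
      _ ≤ (N / (r0 : ℝ) ^ 2) * A2 N := by
          refine mul_le_mul_of_nonneg_left ?_ (by positivity)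
          rw [← CSA_pars N M hM]
          exact CSA_mean_mono M _ _ sdiff_subset _ (CSA_Fp_nonneg N)
  have h5 : |mean M J (fun t => Fp N t * Eo N Q t)| ≤ mean M J (fun t => Fp N t * Ea N Q t) := by
    unfold mean
    rw [abs_mul, abs_of_nonneg (by positivity : (0:ℝ) ≤ 1 / (M:ℝ))]
    refine mul_le_mul_of_nonneg_left (le_trans (abs_sum_le_sum_abs _ _) (sum_le_sum fun j hj => ?_)) (by positivity)
    rw [abs_mul, abs_of_nonneg (CSA_Fp_nonneg N _)]
    exact mul_le_mul_of_nonneg_left (CSA_Eo_le N Q _) (CSA_Fp_nonneg N _)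
  have h6 : 0 ≤ mean M J (Fp N) := by
    unfold mean
    exact mul_nonneg (by positivity) (sum_nonneg fun _ _ => CSA_Fp_nonneg N _)
  have h7 : SQ N Q - A2 N = mean M (range M \ J) (fun t => Fp N t * (EQ N Q t - 1))
      - (1 / (Q : ℝ)) * mean M (range M \ J) (fun t => Fp N t * Wk N t)
      + mean M J (fun t => Fp N t * Eo N Q t) - mean M J (Fp N) := by
    rw [h1, ← h2, h3]; ring
  have h8 : |(1 / (Q : ℝ)) * mean M (range M \ J) (fun t => Fp N t * Wk N t)|
      ≤ (1 / (Q : ℝ)) * (N / (r0 : ℝ) ^ 2) * A2 N := by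
    rw [abs_mul, abs_of_nonneg (by positivity : (0:ℝ) ≤ 1 / (Q:ℝ)), mul_assoc]
    exact mul_le_mul_of_nonneg_left h4 (by positivity)
  rw [h7]
  set a1 := mean M (range M \ J) (fun t => Fp N t * (EQ N Q t - 1))
  set a2 := (1 / (Q : ℝ)) * mean M (range M \ J) (fun t => Fp N t * Wk N t)
  set a3 := mean M J (fun t => Fp N t * Eo N Q t)
  set a4 := mean M J (Fp N)
  have := abs_add_three a1 (-a2) (a3 - a4)
  rw [abs_neg] at this
  have h9 : |a3 - a4| ≤ |a3| + |a4| := abs_sub _ _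
  rw [abs_of_nonneg h6] at h9
  have h10 : a1 - a2 + a3 - a4 = a1 + -a2 + (a3 - a4) := by ring
  rw [h10]
  linarith

end Pool.Agent.PV
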