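import Pool.Agent.Lib_helper92.PVF.Base
import Pool.Agent.Lib_helper73.Var.Mod

/-! PV : block LQA -/

set_option autoImplicit false

namespace Pool.Agent.PV

open Finset Complex Pool.Agent.Var35 Pool.Agent.Var73
open scoped ArithmeticFunction ArithmeticFunction.Moebius

theorem lq_one_lower_pr (z : ℕ) : Real.log (z + 1) ≤ Lq 1 z := by
  have h1 := log_add_one_le_harmonic z
  have h2 : ((harmonic z : ℚ) : ℝ) = ∑ k ∈ Icc 1 z, 1 / (k : ℝ) := by
    rw [harmonic_eq_sum_Icc]
    push_cast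
    refine sum_congr rfl fun k _ => ?_
    rw [one_div]
  have h3 : ∑ k ∈ Icc 1 z, 1 / (k : ℝ) =
      ∑ m ∈ (Icc 1 z).filter (fun m => Squarefree m ∧ Nat.Coprime m 1),
        ∑ k ∈ (Icc 1 z).filter (fun k => rd k = m), 1 / (k : ℝ) := by
    symm
    refine sum_fiberwise_of_maps_to (g := rd) ?_ _
    intro k hk
    rw [mem_Icc] at hk
    rw [mem_filter, mem_Icc]
    refine ⟨⟨rd_pos k, (Nat.le_of_dvd (by omega) (rd_dvd k)).trans hk.2⟩, rd_squarefree k,
      Nat.coprime_one_right _⟩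
  rw [h2, h3] at h1
  push_cast at h1
  refine h1.trans ?_
  unfold Lq
  refine sum_le_sum fun m hm => ?_
  rw [mem_filter, mem_Icc] at hm
  exact rd_sum m z hm.1.1

alias lq_one_lower := lq_one_lower_pr

end Pool.Agent.PV
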