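import Pool.Agent.Lib_helper92.PVF.Base

/-! PV, block LSA -/

set_option autoImplicit false

namespace Pool.Agent.PV

open Finset Complex Pool.Agent.Var35 Pool.Agent.Var73
open scoped ArithmeticFunction ArithmeticFunction.Moebius

/-- the reduced residues detect a set of shifts coprime to `d` -/
lemma LSA_single (d : ℕ) (hd : 1 ≤ d) (hsq : Squarefree d) (H : ℕ) (S : Finset ℕ)
    (hS : S ⊆ range H) (y : ℤ) (hy : ∀ k ∈ S, IsCoprime (y + k) (d : ℤ)) (a : ℕ → ℂ)
    (ha : ∀ k, a k = if k ∈ S then 1 else 0) :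
    (S.card : ℝ) ^ 2 * (1 / (Nat.totient d : ℝ)) ≤
      ∑ c ∈ Cd d, ‖∑ k ∈ range H, a k * e (k * ((c : ℝ) / d))‖ ^ 2 := by
  have hd0 : (0 : ℝ) < d := by exact_mod_cast hd
  have hφ : (0 : ℝ) < Nat.totient d := by exact_mod_cast Nat.totient_pos.2 hd
  have hkey : ∑ c ∈ Cd d, e (c * ((y : ℝ) / d)) * ∑ k ∈ range H, a k * e (k * ((c : ℝ) / d)) =
      ((μ d : ℤ) : ℂ) * S.card := by
    have h1 : ∀ c ∈ Cd d, e (c * ((y : ℝ) / d)) * ∑ k ∈ range H, a k * e (k * ((c : ℝ) / d)) =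
        ∑ k ∈ S, e (c * (((y + k : ℤ) : ℝ) / d)) := by
      intro c _
      rw [Finset.mul_sum]
      rw [← Finset.sum_subset hS]
      · apply Finset.sum_congr rfl
        intro k hk
        rw [ha k, if_pos hk, one_mul, ← e_add]
        congr 1
        push_cast
        field_simp
      · intro k _ hk
        rw [ha k, if_neg hk]
        simp
    rw [Finset.sum_congr rfl h1, Finset.sum_comm]
    have h2 : ∀ k ∈ S, ∑ c ∈ Cd d, e (c * (((y + k : ℤ) : ℝ) / d)) = ((μ d : ℤ) : ℂ) := by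
      intro k hk
      have := ram_coprime d hd (y + k) (hy k hk)
      rw [← this]
      rfl
    rw [Finset.sum_congr rfl h2, Finset.sum_const, nsmul_eq_mul, mul_comm]
  have hμ : ‖((μ d : ℤ) : ℂ)‖ = 1 := by
    rw [Complex.norm_intCast]
    rw [← Int.cast_abs, ArithmeticFunction.abs_moebius_eq_one_of_squarefree hsq]
    simp
  have h3 : (S.card : ℝ) ≤ ∑ c ∈ Cd d, ‖∑ k ∈ range H, a k * e (k * ((c : ℝ) / d))‖ := by
    have h4 : ‖((μ d : ℤ) : ℂ) * S.card‖ = (S.card : ℝ) := by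
      rw [norm_mul, hμ, one_mul, Complex.norm_natCast]
    rw [← h4, ← hkey]
    refine (norm_sum_le _ _).trans ?_
    apply Finset.sum_le_sum
    intro c _
    rw [norm_mul, norm_e, one_mul]
  have h5 : (S.card : ℝ) ^ 2 ≤ (Nat.totient d : ℝ) *
      ∑ c ∈ Cd d, ‖∑ k ∈ range H, a k * e (k * ((c : ℝ) / d))‖ ^ 2 := by
    have h6 := Finset.sum_mul_sq_le_sq_mul_sq (Cd d) (fun _ => (1 : ℝ))
      (fun c => ‖∑ k ∈ range H, a k * e (k * ((c : ℝ) / d))‖)
    simp only [one_mul, one_pow, Finset.sum_const, nsmul_eq_mul, mul_one] at h6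
    rw [card_Cd] at h6
    refine le_trans ?_ h6
    exact pow_le_pow_left₀ (by positivity) h3 2
  rw [mul_one_div, div_le_iff₀ hφ]
  linarith

lemma LSA_core (r n0 h H D : ℕ) (DD : Finset ℕ) (S : Finset ℕ) (hD : 1 ≤ D)
    (hDD : ∀ d ∈ DD, 1 ≤ d ∧ d ≤ D ∧ Squarefree d ∧ Nat.Coprime d r)
    (hS : S ⊆ range H) (hcop : ∀ k ∈ S, ∀ d ∈ DD, Nat.Coprime (n0 + r * k) d)
    (hH : (H : ℝ) ≤ (h : ℝ) / r + 1) :
    (S.card : ℝ) * ∑ d ∈ DD, 1 / (Nat.totient d : ℝ) ≤ 22 * ((h : ℝ) / r + 1 + (D : ℝ) ^ 2) := by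
  classical
  set a : ℕ → ℂ := fun k => if k ∈ S then 1 else 0 with ha
  have hDR : (1 : ℝ) ≤ D := by exact_mod_cast hD
  have hls := large_sieve (DD.sigma (fun d => Cd d)) (fun x : (Σ _ : ℕ, ℕ) => (x.2:ℝ) / x.1)
    (1 / (D:ℝ) ^ 2) (by positivity) (by
      rw [div_le_one (by positivity)]
      exact one_le_pow₀ hDR) (farey_sep_gen DD D (fun d hd => ⟨(hDD d hd).1, (hDD d hd).2.1⟩) hD) a H
  rw [Finset.sum_sigma, one_div_one_div] at hls
  have hA : ∑ m ∈ range H, ‖a m‖ ^ 2 = S.card := by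
    rw [← Finset.sum_subset hS]
    · rw [Finset.card_eq_sum_ones]
      push_cast
      apply Finset.sum_congr rfl
      intro k hk
      simp [ha, hk]
    · intro k _ hk
      simp [ha, hk]
  rw [hA] at hls
  have hlow : (S.card : ℝ) ^ 2 * ∑ d ∈ DD, 1 / (Nat.totient d : ℝ) ≤
      ∑ d ∈ DD, ∑ c ∈ Cd d, ‖∑ k ∈ range H, a k * e (k * ((c : ℝ) / d))‖ ^ 2 := by
    rw [Finset.mul_sum]
    apply Finset.sum_le_sum
    intro d hd
    obtain ⟨hd1, hd2, hd3, hd4⟩ := hDD d hd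
    have hc : IsCoprime (r : ℤ) (d : ℤ) := by
      rw [Nat.isCoprime_iff_coprime]
      exact hd4.symm
    obtain ⟨u, v, huv⟩ := hc
    apply LSA_single d hd1 hd3 H S hS (u * n0) _ a (fun k => rfl)
    intro k hk
    have h1 : IsCoprime ((n0 + r * k : ℕ) : ℤ) (d : ℤ) := by
      rw [Nat.isCoprime_iff_coprime]
      exact hcop k hk d hd
    have h2 : (r : ℤ) * (u * n0 + k) = ((n0 + r * k : ℕ) : ℤ) + (d : ℤ) * (-(v * n0)) := by
      push_cast
      linear_combination (n0 : ℤ) * huv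
    have h3 : IsCoprime ((r : ℤ) * (u * n0 + k)) (d : ℤ) := by
      rw [h2]
      exact h1.add_mul_left_left _
    exact h3.of_mul_left_right
  have hmain : (S.card : ℝ) ^ 2 * ∑ d ∈ DD, 1 / (Nat.totient d : ℝ) ≤
      22 * (H + (D : ℝ) ^ 2) * S.card := hlow.trans hls
  rcases Nat.eq_zero_or_pos S.card with h0 | h0
  · rw [h0]
    simp only [Nat.cast_zero, zero_mul]
    positivity
  · have hZ : (0 : ℝ) < S.card := by exact_mod_cast h0
    have h4 : (S.card : ℝ) * ∑ d ∈ DD, 1 / (Nat.totient d : ℝ) ≤ 22 * (H + (D : ℝ) ^ 2) := by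
      have : (S.card : ℝ) * ((S.card : ℝ) * ∑ d ∈ DD, 1 / (Nat.totient d : ℝ)) ≤
          (S.card : ℝ) * (22 * (H + (D : ℝ) ^ 2)) := by
        calc _ = (S.card : ℝ) ^ 2 * ∑ d ∈ DD, 1 / (Nat.totient d : ℝ) := by ring
          _ ≤ _ := hmain
          _ = _ := by ring
      exact le_of_mul_le_mul_left this hZ
    refine h4.trans ?_
    linarith

/-- LSA : large sieve upper bound in a progression -/
theorem ls_ap_pr (r h x a D : ℕ) (DD : Finset ℕ) (hr : 1 ≤ r) (hD : 1 ≤ D)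
    (hDD : ∀ d ∈ DD, 1 ≤ d ∧ d ≤ D ∧ Squarefree d ∧ Nat.Coprime d r) :
    (((Ioc x (x + h)).filter (fun n => n ≡ a [MOD r] ∧ ∀ d ∈ DD, Nat.Coprime n d)).card : ℝ)
      * ∑ d ∈ DD, 1 / (Nat.totient d : ℝ) ≤ 22 * ((h : ℝ) / r + 1 + (D : ℝ) ^ 2) := by
  classical
  set T := (Ioc x (x + h)).filter (fun n => n ≡ a [MOD r] ∧ ∀ d ∈ DD, Nat.Coprime n d) with hT
  have hr0 : (0 : ℝ) < r := by exact_mod_cast hr
  rcases T.eq_empty_or_nonempty with he | hne
  · rw [he]
    simp only [Finset.card_empty, Nat.cast_zero, zero_mul]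
    positivity
  · set n0 := T.min' hne with hn0
    have hn0T : n0 ∈ T := T.min'_mem hne
    obtain ⟨h1, h2, h3⟩ := Finset.mem_filter.1 hn0T
    obtain ⟨h1a, h1b⟩ := Finset.mem_Ioc.1 h1
    set H := h / r + 1 with hH
    set S := (range H).filter (fun k => n0 + r * k ∈ T) with hS
    have hcard : T.card = S.card := by
      symm
      apply Finset.card_nbij (fun k => n0 + r * k)
      · intro k hk
        exact (Finset.mem_filter.1 hk).2
      · intro k _ k' _ hkk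
        have hkk : n0 + r * k = n0 + r * k' := hkk
        exact Nat.eq_of_mul_eq_mul_left hr (by omega)
      · intro n hn
        have hn : n ∈ T := hn
        obtain ⟨g1, g2, g3⟩ := Finset.mem_filter.1 hn
        obtain ⟨g1a, g1b⟩ := Finset.mem_Ioc.1 g1
        have hle : n0 ≤ n := T.min'_le n hn
        have hmod : n0 ≡ n [MOD r] := h2.trans g2.symm
        have hdvd : r ∣ n - n0 := (Nat.modEq_iff_dvd' hle).1 hmod
        obtain ⟨k, hk⟩ := hdvd
        have hnk : n0 + r * k = n := by omega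
        refine ⟨k, ?_, hnk⟩
        show k ∈ S
        rw [hS, Finset.mem_filter, Finset.mem_range]
        refine ⟨?_, by rw [hnk]; exact hn⟩
        have : k ≤ h / r := by
          rw [Nat.le_div_iff_mul_le hr]
          have : r * k ≤ h := by omega
          linarith [Nat.mul_comm k r]
        omega
    rw [hcard]
    apply LSA_core r n0 h H D DD S hD hDD (Finset.filter_subset _ _)
    · intro k hk d hd
      have := (Finset.mem_filter.1 hk).2
      exact (Finset.mem_filter.1 this).2.2 d hd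
    · rw [hH]
      push_cast
      have : ((h / r : ℕ) : ℝ) ≤ (h : ℝ) / r := Nat.cast_div_le
      linarith

alias ls_ap := ls_ap_pr

end Pool.Agent.PV
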