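import Pool.Agent.Lib_helper92.PVF.Base
import Pool.Agent.Lib_helper92.PVF.LQA
import Pool.Agent.Lib_helper92.PVF.LSA
import Pool.Agent.Lib_helper92.PVF.MEP

/-! PV block COP : integers coprime to `r` in an initial segment of length at least `log^2 r`. -/

set_option autoImplicit false

namespace Pool.Agent.PV

open Finset Complex Pool.Agent.Var35 Pool.Agent.Var73
open scoped ArithmeticFunction ArithmeticFunction.Moebius

theorem COP_phi_prod (r : ℕ) (hr : 1 ≤ r) :
    (Nat.totient r : ℝ) / r = ∏ p ∈ r.primeFactors, (1 - 1 / (p : ℝ)) := by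
  have h := Nat.totient_eq_mul_prod_factors r
  have h2 : (Nat.totient r : ℝ) = r * ∏ p ∈ r.primeFactors, (1 - 1 / (p : ℝ)) := by
    have := congrArg (fun q : ℚ => (q : ℝ)) h
    simpa [one_div] using this
  have hr0 : (r : ℝ) ≠ 0 := by positivity
  rw [h2]; field_simp

theorem COP_phi_sqfree (m : ℕ) (hm : Squarefree m) :
    (Nat.totient m : ℝ) = ∏ p ∈ m.primeFactors, ((p : ℝ) - 1) := by
  have h1 := Nat.totient_mul_prod_primeFactors m
  rw [Nat.prod_primeFactors_of_squarefree hm] at h1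
  have hm0 : 0 < m := Nat.pos_of_ne_zero (fun h => by simp [h] at hm)
  have h2 : Nat.totient m = ∏ p ∈ m.primeFactors, (p - 1) := by
    have : Nat.totient m * m = (∏ p ∈ m.primeFactors, (p - 1)) * m := by rw [h1]; ring
    exact Nat.eq_of_mul_eq_mul_right hm0 this
  rw [h2]
  push_cast
  apply Finset.prod_congr rfl
  intro p hp
  have hp1 : 1 ≤ p := (Nat.prime_of_mem_primeFactors hp).one_lt.le
  push_cast [Nat.cast_sub hp1]; ring

/-- the divisors used in the sieve -/
def COP_DD (r D : ℕ) : Finset ℕ := (Icc 1 D).filter (fun d => Squarefree d ∧ d ∣ r)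

def COP_P (r D : ℕ) : Finset ℕ := (Icc 1 D).filter (fun p => p.Prime ∧ ¬ p ∣ r)

theorem COP_lq_le (r D : ℕ) (hr : 1 ≤ r) :
    Lq 1 D ≤ (∑ d ∈ COP_DD r D, 1 / (Nat.totient d : ℝ)) *
      ∏ p ∈ COP_P r D, (1 - 1 / (p : ℝ))⁻¹ := by
  classical
  -- rewrite the product as a sum over subsets
  have hprod : ∏ p ∈ COP_P r D, (1 - 1 / (p : ℝ))⁻¹
      = ∑ S ∈ (COP_P r D).powerset, ∏ p ∈ S, (1 / ((p : ℝ) - 1)) := by
    rw [← Finset.prod_one_add]
    apply Finset.prod_congr rfl
    intro p hp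
    have hp2 : 2 ≤ p := ((mem_filter.mp hp).2.1).two_le
    have hp3 : (2 : ℝ) ≤ p := by exact_mod_cast hp2
    have h1 : (p : ℝ) - 1 ≠ 0 := by linarith
    have h0 : (p : ℝ) ≠ 0 := by linarith
    have h3 : (1 : ℝ) - 1 / (p : ℝ) = (p - 1) / p := by field_simp
    rw [h3, inv_div]
    field_simp
    ring
  rw [hprod, Finset.sum_mul_sum, ← Finset.sum_product']
  unfold Lq
  set MM := (Icc 1 D).filter (fun m => Squarefree m ∧ Nat.Coprime m 1) with hMM
  set φ : ℕ → ℕ × Finset ℕ := fun m => (Nat.gcd m r, (m / Nat.gcd m r).primeFactors) with hφ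
  have hfac : ∀ m ∈ MM, Squarefree (m / Nat.gcd m r) ∧ Squarefree (Nat.gcd m r) ∧
      Nat.Coprime (Nat.gcd m r) (m / Nat.gcd m r) ∧ m = Nat.gcd m r * (m / Nat.gcd m r) := by
    intro m hm
    have hm' := mem_filter.mp hm
    have hsq := hm'.2.1
    have hd : Nat.gcd m r ∣ m := Nat.gcd_dvd_left m r
    have hmul : m = Nat.gcd m r * (m / Nat.gcd m r) := (Nat.mul_div_cancel' hd).symm
    have hsq2 : Squarefree (Nat.gcd m r * (m / Nat.gcd m r)) := by rw [← hmul]; exact hsq
    exact ⟨hsq.squarefree_of_dvd (Nat.div_dvd_of_dvd hd), hsq.squarefree_of_dvd hd,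
      Nat.coprime_of_squarefree_mul hsq2, hmul⟩
  have hinj : Set.InjOn φ (MM : Set ℕ) := by
    intro m hm m' hm' h
    have e1 : Nat.gcd m r = Nat.gcd m' r := (Prod.mk.inj h).1
    have e2 : (m / Nat.gcd m r).primeFactors = (m' / Nat.gcd m' r).primeFactors :=
      (Prod.mk.inj h).2
    obtain ⟨a1, a2, a3, a4⟩ := hfac m hm
    obtain ⟨b1, b2, b3, b4⟩ := hfac m' hm'
    have e3 : m / Nat.gcd m r = m' / Nat.gcd m' r := by
      rw [← Nat.prod_primeFactors_of_squarefree a1, ← Nat.prod_primeFactors_of_squarefree b1, e2]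
    rw [a4, b4, e3, e1]
  have hval : ∀ m ∈ MM, 1 / (Nat.totient m : ℝ)
      = 1 / (Nat.totient (φ m).1 : ℝ) * ∏ p ∈ (φ m).2, (1 / ((p : ℝ) - 1)) := by
    intro m hm
    obtain ⟨a1, a2, a3, a4⟩ := hfac m hm
    have h1 : (Nat.totient m : ℝ) = Nat.totient (Nat.gcd m r) * Nat.totient (m / Nat.gcd m r) := by
      conv_lhs => rw [a4]
      rw [Nat.totient_mul a3]; push_cast; ring
    rw [h1, COP_phi_sqfree _ a1]
    simp only [hφ]
    rw [Finset.prod_div_distrib]
    simp only [Finset.prod_const_one]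
    rw [one_div_mul_one_div]
  rw [Finset.sum_congr rfl hval]
  have himg : ∑ m ∈ MM, (1 / (Nat.totient (φ m).1 : ℝ) * ∏ p ∈ (φ m).2, (1 / ((p : ℝ) - 1)))
      = ∑ y ∈ MM.image φ, (1 / (Nat.totient y.1 : ℝ) * ∏ p ∈ y.2, (1 / ((p : ℝ) - 1))) :=
    (Finset.sum_image (f := fun y : ℕ × Finset ℕ =>
      (1 / (Nat.totient y.1 : ℝ) * ∏ p ∈ y.2, (1 / ((p : ℝ) - 1)))) hinj).symm
  rw [himg]
  apply Finset.sum_le_sum_of_subset_of_nonneg
  · intro y hy
    obtain ⟨m, hm, rfl⟩ := mem_image.mp hy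
    obtain ⟨a1, a2, a3, a4⟩ := hfac m hm
    have hmD := mem_Icc.mp (mem_filter.mp hm).1
    have hgpos : 0 < Nat.gcd m r := Nat.gcd_pos_of_pos_right m (by omega)
    rw [mem_product]
    refine ⟨?_, ?_⟩
    · simp only [hφ, COP_DD, mem_filter, mem_Icc]
      exact ⟨⟨hgpos, (Nat.le_of_dvd (by omega) (Nat.gcd_dvd_left m r)).trans hmD.2⟩, a2,
        Nat.gcd_dvd_right m r⟩
    · rw [mem_powerset]
      intro p hp
      simp only [hφ] at hp
      have hpp := Nat.prime_of_mem_primeFactors hp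
      have hpd := Nat.dvd_of_mem_primeFactors hp
      have hpm : p ∣ m := hpd.trans (Nat.div_dvd_of_dvd (Nat.gcd_dvd_left m r))
      simp only [COP_P, mem_filter, mem_Icc]
      refine ⟨⟨hpp.one_lt.le, (Nat.le_of_dvd (by omega) hpm).trans hmD.2⟩, hpp, ?_⟩
      intro hpr
      have h1 : p ∣ Nat.gcd m r := Nat.dvd_gcd hpm hpr
      have h2 : p ∣ 1 := by
        have := Nat.dvd_gcd h1 hpd
        rwa [Nat.Coprime.gcd_eq_one a3] at this
      exact hpp.one_lt.ne' (Nat.dvd_one.mp h2)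
  · intro y hy _
    rw [mem_product] at hy
    apply mul_nonneg (by positivity)
    apply Finset.prod_nonneg
    intro p hp
    have hp' := (mem_powerset.mp hy.2) hp
    have hp2 : 2 ≤ p := ((mem_filter.mp hp').2.1).two_le
    have hp3 : (2 : ℝ) ≤ p := by exact_mod_cast hp2
    have : (0 : ℝ) < p - 1 := by linarith
    positivity

/-- lower bound for the sieve weight, `2 ≤ D` -/
theorem COP_G_lower : ∃ C : ℝ, 1 ≤ C ∧ ∀ r D : ℕ, 1 ≤ r → 1 ≤ D →
    ∏ p ∈ r.primeFactors.filter (fun p => p ≤ D), (1 - 1 / (p : ℝ))⁻¹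
      ≤ C * ∑ d ∈ COP_DD r D, 1 / (Nat.totient d : ℝ) := by
  classical
  obtain ⟨C, hC, hmert⟩ := mert
  refine ⟨max C 1, le_max_right _ _, ?_⟩
  intro r D hr hD
  set A := ∏ p ∈ r.primeFactors.filter (fun p => p ≤ D), (1 - 1 / (p : ℝ))⁻¹ with hA
  set G := ∑ d ∈ COP_DD r D, 1 / (Nat.totient d : ℝ) with hG
  have hGpos : 1 ≤ G := by
    have h1 : (1 : ℕ) ∈ COP_DD r D := by
      simp [COP_DD, hD]
    have := Finset.single_le_sum (f := fun d : ℕ => 1 / (Nat.totient d : ℝ))
      (fun d _ => by positivity) h1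
    simpa [hG] using this
  rcases Nat.lt_or_ge D 2 with hD2 | hD2
  · have hD1 : D = 1 := by omega
    have hemp : r.primeFactors.filter (fun p => p ≤ D) = ∅ := by
      apply Finset.filter_eq_empty_iff.mpr
      intro p hp
      have := (Nat.prime_of_mem_primeFactors hp).two_le
      omega
    rw [hA, hemp, Finset.prod_empty]
    calc (1 : ℝ) = 1 * 1 := by ring
      _ ≤ max C 1 * G := mul_le_mul (le_max_right _ _) hGpos (by norm_num) (by positivity)
  · set B := ∏ p ∈ COP_P r D, (1 - 1 / (p : ℝ))⁻¹ with hB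
    have hlog : 0 < Real.log D := Real.log_pos (by exact_mod_cast hD2)
    have h1 : Real.log D ≤ G * B := by
      have ha := lq_one_lower D
      have hb := COP_lq_le r D hr
      have hc : Real.log D ≤ Real.log (D + 1) := by
        apply Real.log_le_log (by positivity); linarith
      linarith
    have h2 : A * B ≤ C * Real.log D := by
      refine le_trans (le_of_eq ?_) (hmert D hD2)
      rw [hA, hB, ← Finset.prod_union]
      · apply Finset.prod_congr _ (fun _ _ => rfl)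
        ext p
        simp only [COP_P, mem_union, mem_filter, mem_Icc, Nat.mem_primeFactors]
        constructor
        · rintro (⟨⟨hp, hpr, _⟩, hpD⟩ | ⟨⟨h1, h2⟩, hp, hpr⟩)
          · exact ⟨⟨hp.one_lt.le, hpD⟩, hp⟩
          · exact ⟨⟨h1, h2⟩, hp⟩
        · rintro ⟨⟨h1, h2⟩, hp⟩
          by_cases hpr : p ∣ r
          · exact Or.inl ⟨⟨hp, hpr, by omega⟩, h2⟩
          · exact Or.inr ⟨⟨h1, h2⟩, hp, hpr⟩
      · rw [Finset.disjoint_left]
        intro p hp hq
        have hpr := (Nat.mem_primeFactors.mp (mem_filter.mp hp).1).2.1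
        exact (mem_filter.mp hq).2.2 hpr
    have hposf : ∀ p : ℕ, p.Prime → (0 : ℝ) < (1 - 1 / (p : ℝ))⁻¹ := by
      intro p hp
      have hp3 : (2 : ℝ) ≤ p := by exact_mod_cast hp.two_le
      have h3 : 1 / (p : ℝ) ≤ 1 / 2 := one_div_le_one_div_of_le (by norm_num) hp3
      apply inv_pos.mpr
      linarith
    have hApos : 0 < A := by
      apply Finset.prod_pos
      intro p hp
      exact hposf p (Nat.prime_of_mem_primeFactors (mem_filter.mp hp).1)
    have hBpos : 0 < B := by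
      apply Finset.prod_pos
      intro p hp
      exact hposf p (mem_filter.mp hp).2.1
    have h3 : A * Real.log D ≤ G * (C * Real.log D) := by
      calc A * Real.log D ≤ A * (G * B) := mul_le_mul_of_nonneg_left h1 hApos.le
        _ = G * (A * B) := by ring
        _ ≤ G * (C * Real.log D) := mul_le_mul_of_nonneg_left h2 (by linarith)
    have h4 : A ≤ C * G := by
      have : A * Real.log D ≤ (C * G) * Real.log D := by linarith [h3, mul_comm G (C * Real.log D)]
      exact le_of_mul_le_mul_right this hlog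
    calc A ≤ C * G := h4
      _ ≤ max C 1 * G := mul_le_mul_of_nonneg_right (le_max_left _ _) (by linarith)

/-- large prime factors do not matter -/
theorem COP_large (r D : ℕ) (hr : 1 ≤ r) (hD : 1 ≤ D) (hlog : Real.log r < D) :
    (1 / 3 : ℝ) ≤ ∏ p ∈ r.primeFactors.filter (fun p => ¬ p ≤ D), (1 - 1 / (p : ℝ)) := by
  classical
  set T := r.primeFactors.filter (fun p => ¬ p ≤ D) with hT
  have hDr : (1 : ℝ) ≤ D := by exact_mod_cast hD
  have hcard : (T.card : ℝ) * Real.log (D + 1) ≤ Real.log r := by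
    have h1 : (D + 1) ^ T.card ≤ ∏ p ∈ T, p := by
      calc (D + 1) ^ T.card = ∏ _p ∈ T, (D + 1) := by simp
        _ ≤ ∏ p ∈ T, p := by
          apply Finset.prod_le_prod' 
          intro p hp
          have := (mem_filter.mp hp).2
          omega
    have h2 : ∏ p ∈ T, p ≤ r := by
      apply Nat.le_of_dvd (by omega)
      calc ∏ p ∈ T, p ∣ ∏ p ∈ r.primeFactors, p :=
            Finset.prod_dvd_prod_of_subset _ _ _ (Finset.filter_subset _ _)
        _ ∣ r := Nat.prod_primeFactors_dvd r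
    have h3 : ((D : ℝ) + 1) ^ T.card ≤ r := by exact_mod_cast h1.trans h2
    have h4 := Real.log_le_log (by positivity) h3
    rwa [Real.log_pow] at h4
  have hTD : T.card ≤ D := by
    rcases Nat.lt_or_ge D 2 with hD2 | hD2
    · have hD1 : D = 1 := by omega
      by_contra hcon
      have hc2 : 2 ≤ T.card := by omega
      have hc3 : (2 : ℝ) ≤ T.card := by exact_mod_cast hc2
      rw [hD1] at hcard hlog
      norm_num at hcard hlog
      have hl2 : 0.6931471803 < Real.log 2 := Real.log_two_gt_d9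
      nlinarith
    · have h3 : 1 ≤ Real.log (D + 1) := by
        have : Real.exp 1 ≤ (D : ℝ) + 1 := by
          have h1 := Real.exp_one_lt_d9
          have h2 : (2 : ℝ) ≤ D := by exact_mod_cast hD2
          linarith
        have h4 := Real.log_le_log (Real.exp_pos 1) this
        rwa [Real.log_exp] at h4
      have h5 : (T.card : ℝ) ≤ D := by
        have h6 : (T.card : ℝ) * 1 ≤ T.card * Real.log (D + 1) :=
          mul_le_mul_of_nonneg_left h3 (by positivity)
        linarith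
      exact_mod_cast h5
  -- (D/(D+1))^D ≥ 1/e ≥ 1/3
  have hq0 : (0 : ℝ) < D / (D + 1) := by positivity
  have hq1 : (D : ℝ) / (D + 1) ≤ 1 := by
    rw [div_le_one (by positivity)]; linarith
  have h1 : ((D : ℝ) / (D + 1)) ^ T.card ≤ ∏ p ∈ T, (1 - 1 / (p : ℝ)) := by
    calc ((D : ℝ) / (D + 1)) ^ T.card = ∏ _p ∈ T, ((D : ℝ) / (D + 1)) := by
          rw [Finset.prod_const]
      _ ≤ ∏ p ∈ T, (1 - 1 / (p : ℝ)) := by
        apply Finset.prod_le_prod
        · intro p _; exact hq0.le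
        · intro p hp
          have hp1 := (mem_filter.mp hp).2
          have hp2 : (D : ℝ) + 1 ≤ p := by
            have : D + 1 ≤ p := by omega
            exact_mod_cast this
          have h3 : 1 / (p : ℝ) ≤ 1 / (D + 1) := one_div_le_one_div_of_le (by positivity) hp2
          have h4 : (D : ℝ) / (D + 1) = 1 - 1 / (D + 1) := by field_simp; ring
          rw [h4]; linarith
  have h2 : ((D : ℝ) / (D + 1)) ^ D ≤ ((D : ℝ) / (D + 1)) ^ T.card :=
    pow_le_pow_of_le_one hq0.le hq1 hTD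
  have h3 : (1 / 3 : ℝ) ≤ ((D : ℝ) / (D + 1)) ^ D := by
    have h4 : (((D : ℝ) + 1) / D) ^ D ≤ Real.exp 1 := by
      have h5 : ((D : ℝ) + 1) / D ≤ Real.exp (1 / D) := by
        have := Real.add_one_le_exp (1 / (D : ℝ))
        have h6 : ((D : ℝ) + 1) / D = 1 / D + 1 := by field_simp; ring
        rw [h6]; exact this
      calc (((D : ℝ) + 1) / D) ^ D ≤ (Real.exp (1 / D)) ^ D :=
            pow_le_pow_left₀ (by positivity) h5 D
        _ = Real.exp 1 := by
          rw [← Real.exp_nat_mul]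
          congr 1
          field_simp
    have h7 : ((D : ℝ) / (D + 1)) ^ D = ((((D : ℝ) + 1) / D) ^ D)⁻¹ := by
      rw [← inv_pow, inv_div]
    rw [h7, one_div]
    apply inv_anti₀ (by positivity)
    have := Real.exp_one_lt_d9
    linarith
  linarith

/-- COP -/
theorem cop_pr : ∃ C : ℝ, 0 < C ∧ ∀ (r : ℕ) (x : ℝ), 1 ≤ r → (1 + Real.log r) ^ 2 ≤ x →
    Ph r x ≤ C * (Nat.totient r / r) * x := by
  classical
  obtain ⟨C, hC, hG⟩ := COP_G_lower
  refine ⟨66 * 3 * C, by positivity, ?_⟩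
  intro r x hr hx
  have hlogr : 0 ≤ Real.log r := Real.log_natCast_nonneg r
  have hx1 : 1 ≤ x := by nlinarith
  have hx0 : 0 ≤ x := by linarith
  set D := ⌊Real.sqrt x⌋₊ with hDdef
  have hsx : 1 + Real.log r ≤ Real.sqrt x := by
    apply Real.le_sqrt_of_sq_le hx
  have hD1 : 1 ≤ D := by
    apply Nat.le_floor; push_cast; linarith
  have hDle : (D : ℝ) ≤ Real.sqrt x := Nat.floor_le (Real.sqrt_nonneg x)
  have hDlt : Real.sqrt x < D + 1 := Nat.lt_floor_add_one _
  have hD2 : (D : ℝ) ^ 2 ≤ x := by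
    calc (D : ℝ) ^ 2 ≤ Real.sqrt x ^ 2 := by gcongr
      _ = x := Real.sq_sqrt hx0
  have hlog : Real.log r < D := by linarith
  set G := ∑ d ∈ COP_DD r D, 1 / (Nat.totient d : ℝ) with hGdef
  have hls := ls_ap 1 ⌊x⌋₊ 0 0 D (COP_DD r D) le_rfl hD1 (by
    intro d hd
    simp only [COP_DD, mem_filter, mem_Icc] at hd
    exact ⟨hd.1.1, hd.1.2, hd.2.1, Nat.coprime_one_right d⟩)
  have hsub : Ph r x ≤ ((((Ioc 0 (0 + ⌊x⌋₊)).filter (fun n => n ≡ 0 [MOD 1] ∧
      ∀ d ∈ COP_DD r D, Nat.Coprime n d)).card : ℕ) : ℝ) := by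
    unfold Ph
    norm_cast
    apply Finset.card_le_card
    intro n hn
    simp only [mem_filter, mem_Icc] at hn
    simp only [mem_filter, mem_Ioc]
    refine ⟨⟨by omega, by omega⟩, Nat.modEq_one, ?_⟩
    intro d hd
    simp only [COP_DD, mem_filter, mem_Icc] at hd
    exact Nat.Coprime.coprime_dvd_right hd.2.2 hn.2
  have hfl : ((⌊x⌋₊ : ℕ) : ℝ) ≤ x := Nat.floor_le hx0
  have hGnn : 0 ≤ G := Finset.sum_nonneg (fun d _ => by positivity)
  have h1 : Ph r x * G ≤ 66 * x := by
    calc Ph r x * G ≤ _ * G := mul_le_mul_of_nonneg_right hsub hGnn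
      _ ≤ 22 * ((⌊x⌋₊ : ℕ) / (1 : ℕ) + 1 + (D : ℝ) ^ 2) := hls
      _ ≤ 66 * x := by
        push_cast
        rw [div_one]
        linarith
  have hlarge := COP_large r D hr hD1 hlog
  have hGl := hG r D hr hD1
  have hsplit : (Nat.totient r : ℝ) / r =
      (∏ p ∈ r.primeFactors.filter (fun p => p ≤ D), (1 - 1 / (p : ℝ))) *
      ∏ p ∈ r.primeFactors.filter (fun p => ¬ p ≤ D), (1 - 1 / (p : ℝ)) := by
    rw [COP_phi_prod r hr, Finset.prod_filter_mul_prod_filter_not]
  set A := ∏ p ∈ r.primeFactors.filter (fun p => p ≤ D), (1 - 1 / (p : ℝ))⁻¹ with hA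
  have hApos : 0 < A := by
    apply Finset.prod_pos
    intro p hp
    have hp' := Nat.prime_of_mem_primeFactors (mem_filter.mp hp).1
    have hp3 : (2 : ℝ) ≤ p := by exact_mod_cast hp'.two_le
    have h3 : 1 / (p : ℝ) ≤ 1 / 2 := one_div_le_one_div_of_le (by norm_num) hp3
    apply inv_pos.mpr
    linarith
  have hAinv : ∏ p ∈ r.primeFactors.filter (fun p => p ≤ D), (1 - 1 / (p : ℝ)) = A⁻¹ := by
    rw [hA, Finset.prod_inv_distrib, inv_inv]
  have h2 : A⁻¹ * (1 / 3) ≤ (Nat.totient r : ℝ) / r := by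
    rw [hsplit, hAinv]
    exact mul_le_mul_of_nonneg_left hlarge (by positivity)
  -- Ph * A <= C * Ph * G <= 66 C x
  have hPh0 : 0 ≤ Ph r x := by unfold Ph; positivity
  have h3 : Ph r x * A ≤ 66 * C * x := by
    calc Ph r x * A ≤ Ph r x * (C * G) := mul_le_mul_of_nonneg_left hGl hPh0
      _ = C * (Ph r x * G) := by ring
      _ ≤ C * (66 * x) := mul_le_mul_of_nonneg_left h1 (by linarith)
      _ = 66 * C * x := by ring
  calc Ph r x = (Ph r x * A) * A⁻¹ := by field_simp
    _ ≤ (66 * C * x) * A⁻¹ := mul_le_mul_of_nonneg_right h3 (by positivity)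
    _ = (66 * 3 * C * x) * (A⁻¹ * (1 / 3)) := by ring
    _ ≤ (66 * 3 * C * x) * ((Nat.totient r : ℝ) / r) :=
        mul_le_mul_of_nonneg_left h2 (by positivity)
    _ = 66 * 3 * C * (Nat.totient r / r) * x := by ring

alias cop := cop_pr

end Pool.Agent.PV
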