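import Pool.Agent.Lib_helper92.PVF.Base
import Pool.Agent.Lib_helper73.Var.Mod

/-! PV, block LQC: sums over squarefree numbers coprime to `q` -/

set_option autoImplicit false

namespace Pool.Agent.PV

open Finset Complex Pool.Agent.Var35 Pool.Agent.Var73

lemma lqc_totient_prod (S : Finset ℕ) (hS : ∀ p ∈ S, p.Prime) :
    ((Nat.totient (∏ p ∈ S, p) : ℕ) : ℝ) = ∏ p ∈ S, ((p : ℝ) - 1) := by
  induction S using Finset.induction_on with
  | empty => simp
  | insert a S ha ih =>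
    have hap : a.Prime := hS a (Finset.mem_insert_self _ _)
    have hS' : ∀ p ∈ S, p.Prime := fun p hp => hS p (Finset.mem_insert_of_mem hp)
    have hcop : Nat.Coprime a (∏ p ∈ S, p) := by
      refine Nat.Coprime.prod_right fun p hp => ?_
      rw [Nat.coprime_primes hap (hS' p hp)]
      rintro rfl
      exact ha hp
    rw [Finset.prod_insert ha, Finset.prod_insert ha, Nat.totient_mul hcop, Nat.cast_mul, ih hS',
      Nat.totient_prime hap, Nat.cast_sub hap.one_lt.le, Nat.cast_one]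

/-- squarefree divisors -/
lemma lqc_sum_div (q : ℕ) (hq : 1 ≤ q) :
    ∑ l ∈ q.divisors.filter Squarefree, 1 / (Nat.totient l : ℝ) = (q : ℝ) / Nat.totient q := by
  have h1 : ∑ l ∈ q.divisors.filter Squarefree, 1 / (Nat.totient l : ℝ) =
      ∑ S ∈ q.primeFactors.powerset, ∏ p ∈ S, (1 / ((p : ℝ) - 1)) := by
    refine Finset.sum_nbij' (fun l => l.primeFactors) (fun S => ∏ p ∈ S, p) ?_ ?_ ?_ ?_ ?_
    · intro l hl
      rw [Finset.mem_filter, Nat.mem_divisors] at hl
      rw [Finset.mem_powerset]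
      exact Nat.primeFactors_mono hl.1.1 hl.1.2
    · intro S hS
      rw [Finset.mem_powerset] at hS
      rw [Finset.mem_filter, Nat.mem_divisors]
      refine ⟨⟨?_, by omega⟩, ?_⟩
      · exact (Finset.prod_dvd_prod_of_subset _ _ _ hS).trans (Nat.prod_primeFactors_dvd q)
      · exact (rd_squarefree q).squarefree_of_dvd (Finset.prod_dvd_prod_of_subset _ _ _ hS)
    · intro l hl
      rw [Finset.mem_filter] at hl
      exact Nat.prod_primeFactors_of_squarefree hl.2
    · intro S hS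
      rw [Finset.mem_powerset] at hS
      exact Nat.primeFactors_prod fun p hp => Nat.prime_of_mem_primeFactors (hS hp)
    · intro l hl
      rw [Finset.mem_filter] at hl
      conv_lhs => rw [← Nat.prod_primeFactors_of_squarefree hl.2]
      rw [lqc_totient_prod _ fun p hp => Nat.prime_of_mem_primeFactors hp, Finset.prod_div_distrib,
        Finset.prod_const_one]
  rw [h1, ← Finset.prod_one_add]
  have h2 : (Nat.totient q : ℝ) = q * ∏ p ∈ q.primeFactors, (1 - (p : ℝ)⁻¹) := by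
    have h := congrArg (fun x : ℚ => (x : ℝ)) (Nat.totient_eq_mul_prod_factors q)
    push_cast at h
    exact h
  have hq0 : (q : ℝ) ≠ 0 := by
    have : 0 < q := hq
    positivity
  rw [h2]
  have h3 : ∀ p ∈ q.primeFactors, (1 + 1 / ((p : ℝ) - 1)) * (1 - (p : ℝ)⁻¹) = 1 := by
    intro p hp
    have hp2 : 2 ≤ p := (Nat.prime_of_mem_primeFactors hp).two_le
    have h4 : (2 : ℝ) ≤ p := by exact_mod_cast hp2
    have h5 : (p : ℝ) - 1 ≠ 0 := by linarith
    have h6 : (p : ℝ) ≠ 0 := by linarith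
    field_simp
    ring
  have h7 : (∏ p ∈ q.primeFactors, (1 + 1 / ((p : ℝ) - 1))) *
      ∏ p ∈ q.primeFactors, (1 - (p : ℝ)⁻¹) = 1 := by
    rw [← Finset.prod_mul_distrib]
    exact Finset.prod_eq_one h3
  have h8 : ∏ p ∈ q.primeFactors, (1 - (p : ℝ)⁻¹) ≠ 0 := by
    intro h
    rw [h, mul_zero] at h7
    exact zero_ne_one h7
  rw [eq_div_iff (mul_ne_zero hq0 h8)]
  calc (∏ p ∈ q.primeFactors, (1 + 1 / ((p : ℝ) - 1))) * (q * ∏ p ∈ q.primeFactors, (1 - (p : ℝ)⁻¹))
      = q * ((∏ p ∈ q.primeFactors, (1 + 1 / ((p : ℝ) - 1))) *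
        ∏ p ∈ q.primeFactors, (1 - (p : ℝ)⁻¹)) := by ring
    _ = q := by rw [h7, mul_one]

/-- LQC -/
theorem lq_lower_pr (q z : ℕ) (hq : 1 ≤ q) : (Nat.totient q / q : ℝ) * Lq 1 z ≤ Lq q z := by
  have hq0 : (0 : ℝ) < q := by exact_mod_cast hq
  have hφ : (0 : ℝ) < Nat.totient q := by exact_mod_cast Nat.totient_pos.2 hq
  have key : Lq 1 z ≤ (q / Nat.totient q : ℝ) * Lq q z := by
    rw [← lqc_sum_div q hq]
    unfold Lq
    rw [Finset.sum_mul_sum, ← Finset.sum_product']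
    set i : ℕ → ℕ × ℕ := fun m => (Nat.gcd m q, m / Nat.gcd m q) with hi
    have hinj : Set.InjOn i ((Icc 1 z).filter (fun m => Squarefree m ∧ Nat.Coprime m 1) : Finset ℕ) := by
      intro a _ b _ hab
      simp only [hi, Prod.mk.injEq] at hab
      calc a = Nat.gcd a q * (a / Nat.gcd a q) := (Nat.mul_div_cancel' (Nat.gcd_dvd_left a q)).symm
        _ = Nat.gcd b q * (b / Nat.gcd b q) := by rw [hab.2, hab.1]
        _ = b := Nat.mul_div_cancel' (Nat.gcd_dvd_left b q)
    have hval : ∀ m ∈ (Icc 1 z).filter (fun m => Squarefree m ∧ Nat.Coprime m 1),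
        1 / (Nat.totient m : ℝ) = 1 / (Nat.totient (i m).1 : ℝ) * (1 / (Nat.totient (i m).2 : ℝ)) := by
      intro m hm
      rw [Finset.mem_filter] at hm
      have hsq := hm.2.1
      have e : Nat.gcd m q * (m / Nat.gcd m q) = m := Nat.mul_div_cancel' (Nat.gcd_dvd_left m q)
      have hc : Nat.Coprime (Nat.gcd m q) (m / Nat.gcd m q) := by
        rw [← e] at hsq
        exact Nat.coprime_of_squarefree_mul hsq
      have e2 : Nat.totient m = Nat.totient (Nat.gcd m q) * Nat.totient (m / Nat.gcd m q) := by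
        rw [← Nat.totient_mul hc, e]
      simp only [hi]
      rw [e2, Nat.cast_mul, one_div_mul_one_div]
    rw [Finset.sum_congr rfl hval, ← Finset.sum_image (f := fun x : ℕ × ℕ =>
      1 / (Nat.totient x.1 : ℝ) * (1 / (Nat.totient x.2 : ℝ))) hinj]
    refine Finset.sum_le_sum_of_subset_of_nonneg ?_ fun _ _ _ => by positivity
    intro x hx
    rw [Finset.mem_image] at hx
    obtain ⟨m, hm, rfl⟩ := hx
    rw [Finset.mem_filter, Finset.mem_Icc] at hm
    have hsq := hm.2.1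
    have e : Nat.gcd m q * (m / Nat.gcd m q) = m := Nat.mul_div_cancel' (Nat.gcd_dvd_left m q)
    have hg : 0 < Nat.gcd m q := Nat.gcd_pos_of_pos_left _ (by omega)
    have hc : Nat.Coprime (Nat.gcd m q) (m / Nat.gcd m q) := by
      rw [← e] at hsq
      exact Nat.coprime_of_squarefree_mul hsq
    simp only [hi]
    rw [Finset.mem_product, Finset.mem_filter, Nat.mem_divisors, Finset.mem_filter, Finset.mem_Icc]
    refine ⟨⟨⟨Nat.gcd_dvd_right m q, by omega⟩, ?_⟩, ⟨?_, ?_⟩, ?_, ?_⟩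
    · exact hsq.squarefree_of_dvd (Nat.gcd_dvd_left m q)
    · exact Nat.div_pos (Nat.gcd_le_left q (by omega)) hg
    · exact (Nat.div_le_self _ _).trans hm.1.2
    · exact hsq.squarefree_of_dvd (Nat.div_dvd_of_dvd (Nat.gcd_dvd_left m q))
    · rw [Nat.coprime_iff_gcd_eq_one]
      by_contra hne
      obtain ⟨p, hp, hpd⟩ := Nat.exists_prime_and_dvd hne
      have h1 : p ∣ m / Nat.gcd m q := hpd.trans (Nat.gcd_dvd_left _ _)
      have h2 : p ∣ q := hpd.trans (Nat.gcd_dvd_right _ _)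
      have h3 : p ∣ m := h1.trans (Nat.div_dvd_of_dvd (Nat.gcd_dvd_left m q))
      have h4 : p ∣ Nat.gcd m q := Nat.dvd_gcd h3 h2
      have h5 := Nat.dvd_gcd h4 h1
      rw [hc] at h5
      exact hp.one_lt.ne' (Nat.dvd_one.1 h5)
  rw [div_mul_eq_mul_div, div_le_iff₀ hq0, mul_comm (Nat.totient q : ℝ)]
  rw [div_mul_eq_mul_div, le_div_iff₀ hφ] at key
  linarith

/-- LQC -/
theorem lq_upper_pr (q z : ℕ) (hq : 1 ≤ q) : Lq q z ≤ (Nat.totient q / q : ℝ) * Lq 1 (q * z) := by
  have hq0 : (0 : ℝ) < q := by exact_mod_cast hq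
  have hφ : (0 : ℝ) < Nat.totient q := by exact_mod_cast Nat.totient_pos.2 hq
  have key : (q / Nat.totient q : ℝ) * Lq q z ≤ Lq 1 (q * z) := by
    rw [← lqc_sum_div q hq]
    unfold Lq
    rw [Finset.sum_mul_sum, ← Finset.sum_product']
    set B := (q.divisors.filter Squarefree) ×ˢ
      ((Icc 1 z).filter (fun m => Squarefree m ∧ Nat.Coprime m q)) with hB
    have hmem : ∀ x ∈ B, x.1 ∣ q ∧ Squarefree x.1 ∧ 1 ≤ x.2 ∧ x.2 ≤ z ∧ Squarefree x.2 ∧
        Nat.Coprime x.2 q ∧ Nat.Coprime x.1 x.2 := by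
      intro x hx
      rw [hB, Finset.mem_product, Finset.mem_filter, Nat.mem_divisors, Finset.mem_filter,
        Finset.mem_Icc] at hx
      obtain ⟨⟨⟨h1, _⟩, h2⟩, ⟨h3, h4⟩, h5, h6⟩ := hx
      exact ⟨h1, h2, h3, h4, h5, h6, (Nat.Coprime.coprime_dvd_right h1 h6).symm⟩
    have hinj : Set.InjOn (fun x : ℕ × ℕ => x.1 * x.2) (B : Finset (ℕ × ℕ)) := by
      intro x hx y hy hxy
      have h1 := hmem x hx
      have h2 := hmem y hy
      have hg : ∀ x : ℕ × ℕ, x.1 ∣ q → Nat.Coprime x.2 q → Nat.gcd (x.1 * x.2) q = x.1 := by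
        intro x h3 h4
        rw [Nat.Coprime.gcd_mul_right_cancel _ h4]
        exact Nat.gcd_eq_left h3
      have e1 : x.1 = y.1 := by
        rw [← hg x h1.1 h1.2.2.2.2.2.1, ← hg y h2.1 h2.2.2.2.2.2.1]
        simp only at hxy
        rw [hxy]
      have hpos : 0 < y.1 := Nat.pos_of_dvd_of_pos h2.1 hq
      have e2 : x.2 = y.2 := by
        simp only at hxy
        rw [e1] at hxy
        exact Nat.eq_of_mul_eq_mul_left hpos hxy
      exact Prod.ext e1 e2
    have hval : ∀ x ∈ B, 1 / (Nat.totient x.1 : ℝ) * (1 / (Nat.totient x.2 : ℝ)) =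
        (fun m : ℕ => 1 / (Nat.totient m : ℝ)) (x.1 * x.2) := by
      intro x hx
      have h1 := hmem x hx
      simp only
      rw [Nat.totient_mul h1.2.2.2.2.2.2, Nat.cast_mul, one_div_mul_one_div]
    rw [Finset.sum_congr rfl hval, ← Finset.sum_image (f := fun m : ℕ => 1 / (Nat.totient m : ℝ)) hinj]
    refine Finset.sum_le_sum_of_subset_of_nonneg ?_ fun _ _ _ => by positivity
    intro m hm
    rw [Finset.mem_image] at hm
    obtain ⟨x, hx, rfl⟩ := hm
    have h1 := hmem x hx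
    have hpos : 0 < x.1 := Nat.pos_of_dvd_of_pos h1.1 hq
    rw [Finset.mem_filter, Finset.mem_Icc]
    refine ⟨⟨?_, ?_⟩, ?_, Nat.coprime_one_right _⟩
    · exact Nat.mul_pos hpos h1.2.2.1
    · exact Nat.mul_le_mul (Nat.le_of_dvd hq h1.1) h1.2.2.2.1
    · rw [Nat.squarefree_mul h1.2.2.2.2.2.2]
      exact ⟨h1.2.1, h1.2.2.2.2.1⟩
  rw [div_mul_eq_mul_div, le_div_iff₀ hq0, mul_comm]
  rw [div_mul_eq_mul_div, div_le_iff₀ hφ] at key
  linarith

alias lq_lower := lq_lower_pr
alias lq_upper := lq_upper_pr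

end Pool.Agent.PV
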