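import Pool.Agent.Lib_helper92.PVF.Base
import Pool.Agent.Lib_helper92.PVF.LQA
import Pool.Agent.Lib_helper92.PVF.LQC
import Pool.Agent.Lib_helper92.PVF.LSA

set_option autoImplicit false

namespace Pool.Agent.PV

open Finset Complex Pool.Agent.Var35 Pool.Agent.Var73
open scoped ArithmeticFunction ArithmeticFunction.Moebius

theorem bt_pr : ∃ C : ℝ, 0 < C ∧ ∀ r h x a : ℕ, 1 ≤ r → 2 * r ≤ h →
    (((Ioc x (x + h)).filter (fun p => p.Prime ∧ p ≡ a [MOD r])).card : ℝ)
      ≤ C * h / (Nat.totient r * Real.log (h / r)) := by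
  classical
  refine ⟨112, by norm_num, ?_⟩
  intro r h x a hr hh
  set D : ℕ := Nat.sqrt (h / r) with hDdef
  have hrpos : (0 : ℝ) < r := by exact_mod_cast hr
  have hdiv2 : 2 ≤ h / r := by
    rw [Nat.le_div_iff_mul_le (by omega)]; exact hh
  have hD1 : 1 ≤ D := by
    rw [hDdef, Nat.le_sqrt]; omega
  set t : ℝ := (h : ℝ) / r with ht
  have ht2 : 2 ≤ t := by
    rw [ht, le_div_iff₀ hrpos]; exact_mod_cast hh
  have htpos : 0 < t := by linarith
  have hlogt : 0 < Real.log t := Real.log_pos (by linarith)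
  have hDsq : (D : ℝ) ^ 2 ≤ t := by
    have h1 : D * D ≤ h / r := Nat.sqrt_le (h / r)
    have h2 : ((h / r : ℕ) : ℝ) ≤ t := Nat.cast_div_le
    have h3 : ((D * D : ℕ) : ℝ) ≤ ((h / r : ℕ) : ℝ) := by exact_mod_cast h1
    push_cast at h3
    nlinarith
  have hD1sq : t ≤ ((D : ℝ) + 1) ^ 2 := by
    have h1 : h / r < (D + 1) * (D + 1) := Nat.lt_succ_sqrt (h / r)
    have h2 : h / r + 1 ≤ (D + 1) * (D + 1) := h1
    have h3 : t ≤ ((h / r : ℕ) : ℝ) + 1 := by
      rw [ht, div_le_iff₀ hrpos]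
      have h4 : h < (h / r + 1) * r := by
        have := Nat.lt_div_mul_add (a := h) (b := r) (by omega)
        nlinarith
      have h5 : (h : ℝ) < ((h / r + 1 : ℕ) : ℝ) * r := by exact_mod_cast h4
      push_cast at h5
      linarith
    have h6 : (((h / r + 1 : ℕ)) : ℝ) ≤ (((D + 1) * (D + 1) : ℕ) : ℝ) := by exact_mod_cast h2
    push_cast at h6
    nlinarith
  set DD : Finset ℕ := (Icc 1 D).filter (fun m => Squarefree m ∧ Nat.Coprime m r) with hDD
  have hls := ls_ap r h x a D DD hr hD1 (by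
    intro d hd
    rw [hDD, mem_filter, mem_Icc] at hd
    exact ⟨hd.1.1, hd.1.2, hd.2.1, hd.2.2⟩)
  set S := ((Ioc x (x + h)).filter (fun n => n ≡ a [MOD r] ∧ ∀ d ∈ DD, Nat.Coprime n d)) with hS
  have hLq : ∑ d ∈ DD, 1 / (Nat.totient d : ℝ) = Lq r D := rfl
  rw [hLq] at hls
  have hφpos : (0 : ℝ) < Nat.totient r := by exact_mod_cast Nat.totient_pos.mpr (by omega)
  have hφle : (Nat.totient r : ℝ) ≤ r := by exact_mod_cast Nat.totient_le r
  have hLlow : (Nat.totient r / r : ℝ) * (Real.log t / 2) ≤ Lq r D := by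
    refine le_trans ?_ (lq_lower r D hr)
    refine mul_le_mul_of_nonneg_left ?_ (by positivity)
    refine le_trans ?_ (lq_one_lower D)
    have h1 : Real.log t ≤ Real.log (((D : ℝ) + 1) ^ 2) := Real.log_le_log htpos hD1sq
    rw [Real.log_pow] at h1
    push_cast at h1
    linarith
  have hLpos : 0 < (Nat.totient r / r : ℝ) * (Real.log t / 2) := by positivity
  have hcard : (((Ioc x (x + h)).filter (fun p => p.Prime ∧ p ≡ a [MOD r])).card : ℝ) ≤ D + S.card := by
    have hsub : (Ioc x (x + h)).filter (fun p => p.Prime ∧ p ≡ a [MOD r]) ⊆ Icc 1 D ∪ S := by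
      intro p hp
      rw [mem_filter] at hp
      obtain ⟨hpI, hpp, hpa⟩ := hp
      rw [mem_union]
      by_cases hpD : p ≤ D
      · left; rw [mem_Icc]; exact ⟨hpp.one_lt.le, hpD⟩
      · right
        rw [hS, mem_filter]
        refine ⟨hpI, hpa, ?_⟩
        intro d hd
        rw [hDD, mem_filter, mem_Icc] at hd
        rw [Nat.Prime.coprime_iff_not_dvd hpp]
        intro hdvd
        have := Nat.le_of_dvd (by omega) hdvd
        omega
    have h1 := card_le_card hsub
    have h2 := card_union_le (Icc 1 D) S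
    rw [Nat.card_Icc] at h2
    have h3 : ((Ioc x (x + h)).filter (fun p => p.Prime ∧ p ≡ a [MOD r])).card ≤ D + S.card := by omega
    exact_mod_cast h3
  have hDt : (D : ℝ) ≤ 2 * h / (Nat.totient r * Real.log t) := by
    rw [le_div_iff₀ (by positivity)]
    have hDs : (D : ℝ) ≤ Real.sqrt t := Real.le_sqrt_of_sq_le hDsq
    have hst : Real.sqrt t * Real.sqrt t = t := Real.mul_self_sqrt htpos.le
    have hs0 : 0 < Real.sqrt t := Real.sqrt_pos.mpr htpos
    have hlog : Real.log t ≤ 2 * Real.sqrt t := by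
      have h1 : Real.log (Real.sqrt t) ≤ Real.sqrt t - 1 := Real.log_le_sub_one_of_pos hs0
      have h2 : Real.log t = 2 * Real.log (Real.sqrt t) := by
        rw [Real.log_sqrt htpos.le]; ring
      linarith
    have h3 : (D : ℝ) * Real.log t ≤ 2 * t := by
      calc (D : ℝ) * Real.log t ≤ Real.sqrt t * (2 * Real.sqrt t) := by
            exact mul_le_mul hDs hlog hlogt.le hs0.le
        _ = 2 * t := by rw [← hst]; ring_nf; rw [Real.sq_sqrt (by positivity)]
    have h4 : (Nat.totient r : ℝ) * t ≤ h := by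
      calc (Nat.totient r : ℝ) * t ≤ r * t := mul_le_mul_of_nonneg_right hφle htpos.le
        _ = h := by rw [ht]; field_simp
    calc (D : ℝ) * (Nat.totient r * Real.log t) = Nat.totient r * (D * Real.log t) := by ring
      _ ≤ Nat.totient r * (2 * t) := mul_le_mul_of_nonneg_left h3 hφpos.le
      _ = 2 * (Nat.totient r * t) := by ring
      _ ≤ 2 * h := by linarith
  have hSt : (S.card : ℝ) ≤ 110 * h / (Nat.totient r * Real.log t) := by
    rw [le_div_iff₀ (by positivity)]
    have h1 : (S.card : ℝ) * ((Nat.totient r / r : ℝ) * (Real.log t / 2)) ≤ 22 * (t + 1 + (D : ℝ) ^ 2) :=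
      le_trans (mul_le_mul_of_nonneg_left hLlow (by positivity)) hls
    have h2 : 22 * (t + 1 + (D : ℝ) ^ 2) ≤ 55 * t := by linarith
    have h3 : (S.card : ℝ) * ((Nat.totient r / r : ℝ) * (Real.log t / 2)) * (2 * r) ≤ 55 * t * (2 * r) :=
      mul_le_mul_of_nonneg_right (h1.trans h2) (by positivity)
    have h4 : 55 * t * (2 * r) = 110 * h := by rw [ht]; field_simp; ring
    have h5 : (S.card : ℝ) * ((Nat.totient r / r : ℝ) * (Real.log t / 2)) * (2 * r)
        = S.card * (Nat.totient r * Real.log t) := by field_simp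
    linarith
  calc (((Ioc x (x + h)).filter (fun p => p.Prime ∧ p ≡ a [MOD r])).card : ℝ) ≤ D + S.card := hcard
    _ ≤ 2 * h / (Nat.totient r * Real.log t) + 110 * h / (Nat.totient r * Real.log t) := add_le_add hDt hSt
    _ = 112 * h / (Nat.totient r * Real.log t) := by ring

alias bt := bt_pr

end Pool.Agent.PV
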