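import Pool.Agent.Lib_helper92.PVF.Base
import Pool.Agent.Lib_helper92.PVF.BT

set_option autoImplicit false

namespace Pool.Agent.PV

open Finset Complex Pool.Agent.Var35 Pool.Agent.Var73
open scoped ArithmeticFunction ArithmeticFunction.Moebius

theorem dcn_pair (N Y Q b : ℕ) (t : ℝ) (c : ℤ) (r : ℕ) (T : ℝ) (hN : 1 ≤ N) (hQ : Q ∈ QQ Y)
    (hr : 1 ≤ r) (hrY : r ≤ Y) (hc : IsCoprime c (r : ℤ)) (hT : 0 ≤ T)
    (hb : b ∈ (Ico 1 Q).filter (fun b : ℕ => nn (t - b / Q) ≤ T / N)) (m : ℤ)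
    (hm : m = r * (b + round (t - b / Q : ℝ) * Q) - c * Q) :
    m ≠ 0 ∧ IsCoprime m (r : ℤ) ∧ (r : ℤ) ∣ m + c * Q ∧
      |(m : ℝ) - r * (t - c / r) * Q| ≤ 4 * r * T * Y / N := by
  rw [QQ, Finset.mem_filter, Finset.mem_Ioc] at hQ
  obtain ⟨⟨hQ1, hQ2⟩, hQp⟩ := hQ
  rw [Finset.mem_filter, Finset.mem_Ico] at hb
  obtain ⟨⟨hb1, hb2⟩, hb3⟩ := hb
  obtain ⟨n, hn⟩ : ∃ n : ℤ, n = round (t - b / Q : ℝ) := ⟨_, rfl⟩
  rw [← hn] at hm
  rw [nn, ← hn] at hb3
  have hrQ : r < Q := by omega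
  have hQ0 : (0 : ℝ) < Q := by
    have : 0 < Q := by omega
    exact_mod_cast this
  have hr0 : (0 : ℝ) < r := by exact_mod_cast hr
  have hN0 : (0 : ℝ) < N := by exact_mod_cast hN
  have hcopQ : IsCoprime (Q : ℤ) (r : ℤ) := by
    rw [Nat.isCoprime_iff_coprime]
    exact (Nat.coprime_of_lt_prime (by omega) hrQ hQp)
  refine ⟨?_, ?_, ?_, ?_⟩
  · intro h0
    rw [h0] at hm
    have h1 : (r : ℤ) * (b + n * Q) = c * Q := by linarith
    have h2 : (r : ℤ) ∣ c * Q := ⟨_, h1.symm⟩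
    have h3 : (r : ℤ) ∣ (Q : ℤ) := hc.symm.dvd_of_dvd_mul_left h2
    have h4 : r ∣ Q := by exact_mod_cast h3
    rcases (Nat.dvd_prime hQp).1 h4 with h5 | h5
    · rw [h5] at h1
      have h6 : (Q : ℤ) ∣ (b : ℤ) := by
        refine ⟨c - n, ?_⟩
        push_cast at h1
        linarith
      have h7 : Q ∣ b := by exact_mod_cast h6
      have h8 := Nat.le_of_dvd hb1 h7
      omega
    · omega
  · have h1 : m = -(c * Q) + r * (b + n * Q) := by rw [hm]; ring
    rw [h1, IsCoprime.add_mul_left_left_iff]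
    exact (hc.mul_left hcopQ).neg_left
  · refine ⟨b + n * Q, ?_⟩
    rw [hm]
    ring
  · have h1 : (m : ℝ) - r * (t - c / r) * Q = -(r * Q * (t - b / Q - n)) := by
      rw [hm]
      push_cast
      field_simp
      ring
    rw [h1, abs_neg, abs_mul, abs_of_pos (mul_pos hr0 hQ0)]
    have h2 : (Q : ℝ) ≤ 4 * Y := by exact_mod_cast hQ2
    calc (r : ℝ) * Q * |t - b / Q - n| ≤ r * Q * (T / N) :=
          mul_le_mul_of_nonneg_left hb3 (mul_pos hr0 hQ0).le
      _ ≤ r * (4 * Y) * (T / N) := by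
          apply mul_le_mul_of_nonneg_right _ (div_nonneg hT hN0.le)
          exact mul_le_mul_of_nonneg_left h2 hr0.le
      _ = 4 * r * T * Y / N := by ring

theorem dcn_inj (Q b b' : ℕ) (r : ℕ) (c n n' : ℤ) (hr : 1 ≤ r) (hb : b < Q) (hb' : b' < Q)
    (h : (r : ℤ) * (b + n * Q) - c * Q = r * (b' + n' * Q) - c * Q) : b = b' := by
  have hr0 : (r : ℤ) ≠ 0 := by
    have : r ≠ 0 := by omega
    exact_mod_cast this
  have h1 : (b : ℤ) + n * Q = b' + n' * Q := by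
    apply mul_left_cancel₀ hr0
    linarith
  have h2 : ((b : ℤ) + n * Q) % Q = ((b' : ℤ) + n' * Q) % Q := by rw [h1]
  rw [Int.add_mul_emod_self_right, Int.add_mul_emod_self_right] at h2
  rw [Int.emod_eq_of_lt (by positivity) (by exact_mod_cast hb),
    Int.emod_eq_of_lt (by positivity) (by exact_mod_cast hb')] at h2
  exact_mod_cast h2

/-- the admissible values of `m` -/
noncomputable def dcnM (r : ℕ) (x : ℝ) : Finset ℤ :=
  (Icc (-(⌊x⌋₊ : ℤ)) ⌊x⌋₊).filter (fun m : ℤ => m ≠ 0 ∧ Nat.Coprime m.natAbs r)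

theorem dcnM_card (r : ℕ) (x : ℝ) : ((dcnM r x).card : ℝ) ≤ 2 * Ph r x := by
  classical
  obtain ⟨S, hS⟩ : ∃ S, S = (Icc 1 ⌊x⌋₊).filter (fun m => Nat.Coprime m r) := ⟨_, rfl⟩
  have h1 : dcnM r x ⊆ S.image (fun k : ℕ => (k : ℤ)) ∪ S.image (fun k : ℕ => -(k : ℤ)) := by
    intro m hm
    rw [dcnM, Finset.mem_filter, Finset.mem_Icc] at hm
    obtain ⟨⟨hm1, hm2⟩, hm3, hm4⟩ := hm
    have h2 : m.natAbs ∈ S := by
      rw [hS, Finset.mem_filter, Finset.mem_Icc]
      refine ⟨⟨?_, ?_⟩, hm4⟩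
      · omega
      · omega
    rw [Finset.mem_union, Finset.mem_image, Finset.mem_image]
    rcases le_or_gt 0 m with h | h
    · left
      exact ⟨m.natAbs, h2, by omega⟩
    · right
      exact ⟨m.natAbs, h2, by omega⟩
  have h2 : (dcnM r x).card ≤ S.card + S.card := by
    calc (dcnM r x).card ≤ _ := Finset.card_le_card h1
      _ ≤ _ := Finset.card_union_le _ _
      _ ≤ S.card + S.card := add_le_add Finset.card_image_le Finset.card_image_le
  have h3 : Ph r x = (S.card : ℝ) := by rw [Ph, hS]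
  rw [h3]
  have h4 : ((dcnM r x).card : ℝ) ≤ ((S.card + S.card : ℕ) : ℝ) := by exact_mod_cast h2
  push_cast at h4
  linarith

/-- the primes attached to `m` -/
noncomputable def dcnS (Y r : ℕ) (c : ℤ) (β W : ℝ) (m : ℤ) : Finset ℕ := by
  classical exact (QQ Y).filter (fun Q : ℕ => (r : ℤ) ∣ m + c * Q ∧ |(m : ℝ) - r * β * Q| ≤ W)

theorem dcn_count (N Y : ℕ) (t : ℝ) (c : ℤ) (r : ℕ) (T x : ℝ) (hN : 1 ≤ N) (hr : 1 ≤ r)
    (hrY : r ≤ Y) (hc : IsCoprime c (r : ℤ)) (hT : 0 ≤ T)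
    (hx : x = 8 * max (r * T * Y / N) (r * |t - c / r| * Y)) :
    cN N Y t T ≤ ∑ m ∈ dcnM r x, ((dcnS Y r c (t - c / r) (4 * r * T * Y / N) m).card : ℝ) := by
  classical
  have hr0 : (0 : ℝ) < r := by exact_mod_cast hr
  have hN0 : (0 : ℝ) < N := by exact_mod_cast hN
  have hY0 : (0 : ℝ) ≤ Y := Nat.cast_nonneg _
  obtain ⟨W, hW⟩ : ∃ W, W = 4 * r * T * Y / N := ⟨_, rfl⟩
  rw [← hW]
  have h1 : ∀ Q ∈ QQ Y, (((Ico 1 Q).filter (fun b : ℕ => nn (t - b / Q) ≤ T / N)).card : ℝ) ≤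
      (((dcnM r x).filter (fun m => Q ∈ dcnS Y r c (t - c / r) W m)).card : ℝ) := by
    intro Q hQ
    have hQm := hQ
    rw [QQ, Finset.mem_filter, Finset.mem_Ioc] at hQm
    obtain ⟨⟨hQ1, hQ2⟩, hQp⟩ := hQm
    have hQ4 : (Q : ℝ) ≤ 4 * Y := by exact_mod_cast hQ2
    have h2 := Finset.card_le_card_of_injOn
      (s := (Ico 1 Q).filter (fun b : ℕ => nn (t - b / Q) ≤ T / N))
      (t := (dcnM r x).filter (fun m => Q ∈ dcnS Y r c (t - c / r) W m))
      (fun b => (r : ℤ) * (b + round (t - b / Q : ℝ) * Q) - c * Q) ?_ ?_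
    · exact_mod_cast h2
    · intro b hb
      have hb' : b ∈ (Ico 1 Q).filter (fun b : ℕ => nn (t - b / Q) ≤ T / N) := hb
      obtain ⟨m, hm⟩ : ∃ m : ℤ, m = r * (b + round (t - b / Q : ℝ) * Q) - c * Q := ⟨_, rfl⟩
      obtain ⟨hm0, hm1, hm2, hm3⟩ := dcn_pair N Y Q b t c r T hN hQ hr hrY hc hT hb' m hm
      show (r : ℤ) * (b + round (t - b / Q : ℝ) * Q) - c * Q ∈ _
      rw [← hm, Finset.mem_coe, Finset.mem_filter]
      have hmx : |(m : ℝ)| ≤ x := by
        have e1 : |(m : ℝ)| ≤ |(m : ℝ) - r * (t - c / r) * Q| + |r * (t - c / r) * Q| := by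
          have := abs_add_le ((m : ℝ) - r * (t - c / r) * Q) (r * (t - c / r) * Q)
          rwa [sub_add_cancel] at this
        have e2 : |(r : ℝ) * (t - c / r) * Q| ≤ 4 * (r * |t - c / r| * Y) := by
          rw [abs_mul, abs_mul, abs_of_pos hr0, Nat.abs_cast]
          calc (r : ℝ) * |t - c / r| * Q ≤ r * |t - c / r| * (4 * Y) :=
                mul_le_mul_of_nonneg_left hQ4 (mul_nonneg hr0.le (abs_nonneg _))
            _ = 4 * (r * |t - c / r| * Y) := by ring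
        have e3 : 4 * (r : ℝ) * T * Y / N = 4 * (r * T * Y / N) := by ring
        rw [e3] at hm3
        have e4 : (r : ℝ) * T * Y / N ≤ max (r * T * Y / N) (r * |t - c / r| * Y) :=
          le_max_left _ _
        have e5 : (r : ℝ) * |t - c / r| * Y ≤ max (r * T * Y / N) (r * |t - c / r| * Y) :=
          le_max_right _ _
        rw [hx]
        linarith
      have hmx2 : m.natAbs ≤ ⌊x⌋₊ := by
        apply Nat.le_floor
        rw [Nat.cast_natAbs, Int.cast_abs]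
        exact hmx
      refine ⟨?_, ?_⟩
      · rw [dcnM, Finset.mem_filter, Finset.mem_Icc]
        refine ⟨⟨by omega, by omega⟩, hm0, ?_⟩
        have := Int.isCoprime_iff_gcd_eq_one.1 hm1
        rwa [Int.gcd, Int.natAbs_natCast] at this
      · rw [dcnS, Finset.mem_filter]
        refine ⟨hQ, hm2, ?_⟩
        rw [hW]
        exact hm3
    · intro b hb b' hb' hbb
      have hb1 : b ∈ (Ico 1 Q).filter (fun b : ℕ => nn (t - b / Q) ≤ T / N) := hb
      have hb2 : b' ∈ (Ico 1 Q).filter (fun b : ℕ => nn (t - b / Q) ≤ T / N) := hb'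
      rw [Finset.mem_filter, Finset.mem_Ico] at hb1 hb2
      exact dcn_inj Q b b' r c _ _ hr hb1.1.2 hb2.1.2 hbb
  rw [cN]
  calc ∑ Q ∈ QQ Y, (((Ico 1 Q).filter (fun b : ℕ => nn (t - b / Q) ≤ T / N)).card : ℝ) ≤
      ∑ Q ∈ QQ Y, (((dcnM r x).filter (fun m => Q ∈ dcnS Y r c (t - c / r) W m)).card : ℝ) :=
        Finset.sum_le_sum h1
    _ = ∑ Q ∈ QQ Y, ∑ m ∈ dcnM r x, (if Q ∈ dcnS Y r c (t - c / r) W m then (1 : ℝ) else 0) := by
        apply Finset.sum_congr rfl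
        intro Q _
        rw [Finset.card_filter]
        push_cast
        rfl
    _ = ∑ m ∈ dcnM r x, ∑ Q ∈ QQ Y, (if Q ∈ dcnS Y r c (t - c / r) W m then (1 : ℝ) else 0) :=
        Finset.sum_comm
    _ = ∑ m ∈ dcnM r x, ((dcnS Y r c (t - c / r) W m).card : ℝ) := by
        apply Finset.sum_congr rfl
        intro m _
        have h2 : dcnS Y r c (t - c / r) W m =
            (QQ Y).filter (fun Q => Q ∈ dcnS Y r c (t - c / r) W m) := by
          ext Q
          rw [Finset.mem_filter]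
          constructor
          · intro h
            refine ⟨?_, h⟩
            rw [dcnS, Finset.mem_filter] at h
            exact h.1
          · intro h
            exact h.2
        conv_rhs => rw [h2]
        rw [Finset.card_filter]
        push_cast
        rfl

/-- two primes attached to the same `m` -/
theorem dcn_two (Y r : ℕ) (c : ℤ) (β W : ℝ) (m : ℤ) (hc : IsCoprime c (r : ℤ)) {Q Q' : ℕ}
    (hQ : Q ∈ dcnS Y r c β W m) (hQ' : Q' ∈ dcnS Y r c β W m) :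
    Q ≡ Q' [MOD r] ∧ |(r : ℝ) * β * ((Q : ℝ) - Q')| ≤ 2 * W := by
  rw [dcnS, Finset.mem_filter] at hQ hQ'
  obtain ⟨-, h1, h2⟩ := hQ
  obtain ⟨-, h3, h4⟩ := hQ'
  constructor
  · have h5 : (r : ℤ) ∣ c * ((Q' : ℤ) - Q) := by
      have := dvd_sub h3 h1
      have e : m + c * (Q' : ℤ) - (m + c * Q) = c * ((Q' : ℤ) - Q) := by ring
      rwa [e] at this
    have h6 := hc.symm.dvd_of_dvd_mul_left h5
    rw [← Int.natCast_modEq_iff, Int.modEq_iff_dvd]
    exact h6
  · have e : (r : ℝ) * β * ((Q : ℝ) - Q') = ((m : ℝ) - r * β * Q') - ((m : ℝ) - r * β * Q) := by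
      ring
    rw [e]
    calc |((m : ℝ) - r * β * Q') - ((m : ℝ) - r * β * Q)| ≤
        |(m : ℝ) - r * β * Q'| + |(m : ℝ) - r * β * Q| := abs_sub _ _
      _ ≤ 2 * W := by linarith

theorem dcn_log {N : ℕ} {ε u : ℝ} (hN : 2 ≤ N) (hu : (N : ℝ) ^ (ε / 2) ≤ u) :
    ε / 2 * Real.log N ≤ Real.log u := by
  have hN0 : (0 : ℝ) < N := by
    have : 0 < N := by omega
    exact_mod_cast this
  rw [← Real.log_rpow hN0]
  exact Real.log_le_log (Real.rpow_pos_of_pos hN0 _) hu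

theorem dcn_case1 {C ε : ℝ} (hC : 0 < C) (hε : 0 < ε)
    (hbt : ∀ r h x a : ℕ, 1 ≤ r → 2 * r ≤ h →
      (((Ioc x (x + h)).filter (fun p => p.Prime ∧ p ≡ a [MOD r])).card : ℝ)
        ≤ C * h / (Nat.totient r * Real.log (h / r)))
    (N Y r : ℕ) (c : ℤ) (β W : ℝ) (m : ℤ) (hN : 2 ≤ N) (hr : 1 ≤ r) (hrY : r ≤ Y)
    (hc : IsCoprime c (r : ℤ)) (h : (r : ℝ) * (N : ℝ) ^ (ε / 2) ≤ Y) :
    ((dcnS Y r c β W m).card : ℝ) ≤ 6 * C / ε * (Y / (Nat.totient r * Real.log N)) := by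
  classical
  have hr0 : (0 : ℝ) < r := by exact_mod_cast hr
  have hY0 : (0 : ℝ) ≤ Y := Nat.cast_nonneg _
  have hφ : (0 : ℝ) < Nat.totient r := by exact_mod_cast Nat.totient_pos.2 hr
  have hL : 0 < Real.log N := Real.log_pos (by exact_mod_cast hN)
  rcases (dcnS Y r c β W m).eq_empty_or_nonempty with h0 | ⟨Q0, hQ0⟩
  · rw [h0, Finset.card_empty]
    push_cast
    positivity
  · have h1 : dcnS Y r c β W m ⊆
        (Ioc Y (Y + 3 * Y)).filter (fun p => p.Prime ∧ p ≡ Q0 [MOD r]) := by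
      intro Q hQ
      have h2 := (dcn_two Y r c β W m hc hQ hQ0).1
      rw [dcnS, Finset.mem_filter, QQ, Finset.mem_filter, Finset.mem_Ioc] at hQ
      rw [Finset.mem_filter, Finset.mem_Ioc]
      obtain ⟨⟨⟨h3, h4⟩, h5⟩, -⟩ := hQ
      exact ⟨⟨h3, by omega⟩, h5, h2⟩
    have h2 : ((dcnS Y r c β W m).card : ℝ) ≤
        (((Ioc Y (Y + 3 * Y)).filter (fun p => p.Prime ∧ p ≡ Q0 [MOD r])).card : ℝ) := by
      exact_mod_cast Finset.card_le_card h1
    have h3 := hbt r (3 * Y) Y Q0 hr (by omega)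
    have h4 : ε / 2 * Real.log N ≤ Real.log (((3 * Y : ℕ) : ℝ) / r) := by
      apply dcn_log hN
      rw [le_div_iff₀ hr0]
      push_cast
      linarith
    have h5 : C * ((3 * Y : ℕ) : ℝ) / (Nat.totient r * Real.log (((3 * Y : ℕ) : ℝ) / r)) ≤
        C * ((3 * Y : ℕ) : ℝ) / (Nat.totient r * (ε / 2 * Real.log N)) := by
      apply div_le_div_of_nonneg_left
      · positivity
      · positivity
      · exact mul_le_mul_of_nonneg_left h4 hφ.le
    refine le_trans h2 (le_trans h3 (le_trans h5 (le_of_eq ?_)))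
    push_cast
    field_simp
    ring

theorem dcn_case2 {C ε : ℝ} (hC : 0 < C) (hε : 0 < ε)
    (hbt : ∀ r h x a : ℕ, 1 ≤ r → 2 * r ≤ h →
      (((Ioc x (x + h)).filter (fun p => p.Prime ∧ p ≡ a [MOD r])).card : ℝ)
        ≤ C * h / (Nat.totient r * Real.log (h / r)))
    (N Y r : ℕ) (c : ℤ) (β T : ℝ) (m : ℤ) (hN : 2 ≤ N) (hr : 1 ≤ r) (hY : 1 ≤ Y)
    (hc : IsCoprime c (r : ℤ)) (hT : 1 ≤ T) (hβ : 0 < |β|)
    (h : |β| * (r * (N : ℝ) ^ (1 + ε / 2)) ≤ Y) :
    ((dcnS Y r c β (4 * r * T * Y / N) m).card : ℝ) ≤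
      32 * C / ε * (T * Y / (N * |β|) / (Nat.totient r * Real.log N)) := by
  classical
  have hr0 : (0 : ℝ) < r := by exact_mod_cast hr
  have hr1 : (1 : ℝ) ≤ r := by exact_mod_cast hr
  have hY0 : (0 : ℝ) < Y := by exact_mod_cast hY
  have hN0 : (0 : ℝ) < N := by
    have : 0 < N := by omega
    exact_mod_cast this
  have hN1 : (1 : ℝ) ≤ N := by
    have : 1 ≤ N := by omega
    exact_mod_cast this
  have hφ : (0 : ℝ) < Nat.totient r := by exact_mod_cast Nat.totient_pos.2 hr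
  have hL : 0 < Real.log N := Real.log_pos (by exact_mod_cast hN)
  have hT0 : 0 < T := by linarith
  obtain ⟨l, hl⟩ : ∃ l, l = 8 * T * Y / (N * |β|) := ⟨_, rfl⟩
  have hl0 : 0 < l := by rw [hl]; positivity
  have hP1 : 1 ≤ (N : ℝ) ^ (ε / 2) := Real.one_le_rpow hN1 (by linarith)
  have hl1 : 8 * (r * (N : ℝ) ^ (ε / 2)) ≤ l := by
    rw [hl, le_div_iff₀ (mul_pos hN0 hβ)]
    have e1 : (N : ℝ) ^ (1 + ε / 2) = N * (N : ℝ) ^ (ε / 2) := by
      rw [Real.rpow_add hN0, Real.rpow_one]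
    rw [e1] at h
    have e2 : (Y : ℝ) ≤ T * Y := by nlinarith
    have e3 : 8 * (r * (N : ℝ) ^ (ε / 2)) * (N * |β|) = 8 * (|β| * (r * (N * (N : ℝ) ^ (ε / 2)))) := by
      ring
    rw [e3]
    linarith
  have hl2 : 8 * (r : ℝ) ≤ l := by
    refine le_trans ?_ hl1
    have : (r : ℝ) * 1 ≤ r * (N : ℝ) ^ (ε / 2) := mul_le_mul_of_nonneg_left hP1 hr0.le
    linarith
  rcases (dcnS Y r c β (4 * r * T * Y / N) m).eq_empty_or_nonempty with h0 | hne
  · rw [h0, Finset.card_empty]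
    push_cast
    positivity
  · obtain ⟨Q0, hQ0⟩ : ∃ Q0, Q0 = (dcnS Y r c β (4 * r * T * Y / N) m).min' hne := ⟨_, rfl⟩
    have hQ0m : Q0 ∈ dcnS Y r c β (4 * r * T * Y / N) m := by
      rw [hQ0]
      exact Finset.min'_mem _ _
    have hQ0pos : 1 ≤ Q0 := by
      have := hQ0m
      rw [dcnS, Finset.mem_filter, QQ, Finset.mem_filter] at this
      exact this.1.2.one_lt.le
    have h1 : dcnS Y r c β (4 * r * T * Y / N) m ⊆
        (Ioc (Q0 - 1) ((Q0 - 1) + (⌊l⌋₊ + 1))).filter (fun p => p.Prime ∧ p ≡ Q0 [MOD r]) := by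
      intro Q hQ
      obtain ⟨h2, h2'⟩ := dcn_two Y r c β (4 * r * T * Y / N) m hc hQ hQ0m
      have hle : Q0 ≤ Q := by
        rw [hQ0]
        exact Finset.min'_le _ _ hQ
      rw [dcnS, Finset.mem_filter, QQ, Finset.mem_filter, Finset.mem_Ioc] at hQ
      rw [Finset.mem_filter, Finset.mem_Ioc]
      obtain ⟨⟨⟨h3, h4⟩, h5⟩, -⟩ := hQ
      refine ⟨⟨by omega, ?_⟩, h5, h2⟩
      have h6 : Q - Q0 ≤ ⌊l⌋₊ := by
        apply Nat.le_floor
        rw [Nat.cast_sub hle]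
        have h7 : (0 : ℝ) ≤ (Q : ℝ) - Q0 := by
          have : (Q0 : ℝ) ≤ Q := by exact_mod_cast hle
          linarith
        rw [abs_mul, abs_mul, abs_of_pos hr0, abs_of_nonneg h7] at h2'
        have h8 : (r : ℝ) * |β| * ((Q : ℝ) - Q0) ≤ r * |β| * l := by
          refine le_trans h2' (le_of_eq ?_)
          rw [hl]
          field_simp
          ring
        exact le_of_mul_le_mul_left h8 (mul_pos hr0 hβ)
      omega
    have h2 : ((dcnS Y r c β (4 * r * T * Y / N) m).card : ℝ) ≤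
        (((Ioc (Q0 - 1) ((Q0 - 1) + (⌊l⌋₊ + 1))).filter
          (fun p => p.Prime ∧ p ≡ Q0 [MOD r])).card : ℝ) := by
      exact_mod_cast Finset.card_le_card h1
    have hfl : l < (⌊l⌋₊ : ℝ) + 1 := Nat.lt_floor_add_one l
    have hfl2 : (⌊l⌋₊ : ℝ) ≤ l := Nat.floor_le hl0.le
    have hh1 : 2 * r ≤ ⌊l⌋₊ + 1 := by
      have : ((2 * r : ℕ) : ℝ) ≤ ((⌊l⌋₊ + 1 : ℕ) : ℝ) := by
        push_cast
        linarith
      exact_mod_cast this
    have h3 := hbt r (⌊l⌋₊ + 1) (Q0 - 1) Q0 hr hh1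
    have h4 : ε / 2 * Real.log N ≤ Real.log (((⌊l⌋₊ + 1 : ℕ) : ℝ) / r) := by
      apply dcn_log hN
      rw [le_div_iff₀ hr0]
      push_cast
      have : (0 : ℝ) ≤ (N : ℝ) ^ (ε / 2) * r := by positivity
      linarith
    have h5 : C * ((⌊l⌋₊ + 1 : ℕ) : ℝ) / (Nat.totient r * Real.log (((⌊l⌋₊ + 1 : ℕ) : ℝ) / r)) ≤
        C * (2 * l) / (Nat.totient r * (ε / 2 * Real.log N)) := by
      apply div_le_div₀
      · positivity
      · apply mul_le_mul_of_nonneg_left _ hC.le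
        push_cast
        linarith
      · positivity
      · exact mul_le_mul_of_nonneg_left h4 hφ.le
    refine le_trans h2 (le_trans h3 (le_trans h5 (le_of_eq ?_)))
    rw [hl]
    field_simp
    ring

theorem d_cnt_pr (ε : ℝ) (hε : 0 < ε) : ∃ C : ℝ, 0 < C ∧ ∃ N0 : ℕ, ∀ N ≥ N0, ∀ Y : ℕ,
    (N : ℝ) ^ (1 / 2 + ε) ≤ Y → Y ≤ N → ∀ (t : ℝ) (c : ℤ) (r : ℕ) (T : ℝ), 1 ≤ r → IsCoprime c (r : ℤ) →
    (r : ℝ) * (N : ℝ) ^ (ε / 2) ≤ Y → |t - c / r| * (r * (N : ℝ) ^ (1 + ε / 2)) ≤ Y →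
    1 ≤ T → T * Y < N → ∀ x : ℝ, x = 8 * max (r * T * Y / N) (r * |t - c / r| * Y) →
    cN N Y t T ≤ C * (Y / Real.log N) * (T * Y / N) * (r / Nat.totient r) * (Ph r x / x) := by
  classical
  obtain ⟨C, hC, hbt⟩ := bt
  refine ⟨2 * (256 * C / ε), by positivity, 2, ?_⟩
  intro N hN Y hY1 hY2 t c r T hr hc hrY hβ hT hTY x hx
  have hr0 : (0 : ℝ) < r := by exact_mod_cast hr
  have hN0 : (0 : ℝ) < N := by
    have : 0 < N := by omega
    exact_mod_cast this
  have hN1 : (1 : ℝ) ≤ N := by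
    have : 1 ≤ N := by omega
    exact_mod_cast this
  have hφ : (0 : ℝ) < Nat.totient r := by exact_mod_cast Nat.totient_pos.2 hr
  have hL : 0 < Real.log N := Real.log_pos (by exact_mod_cast hN)
  have hT0 : 0 < T := by linarith
  have hP1 : 1 ≤ (N : ℝ) ^ (ε / 2) := Real.one_le_rpow hN1 (by linarith)
  have hrY1 : (r : ℝ) ≤ Y := by
    have : (r : ℝ) * 1 ≤ r * (N : ℝ) ^ (ε / 2) := mul_le_mul_of_nonneg_left hP1 hr0.le
    linarith
  have hrY2 : r ≤ Y := by exact_mod_cast hrY1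
  have hY0 : (0 : ℝ) < Y := by linarith
  have hcount := dcn_count N Y t c r T x (by omega) hr hrY2 hc hT0.le hx
  have hx0 : 0 < x := by
    rw [hx]
    have : 0 < (r : ℝ) * T * Y / N := by positivity
    have := lt_of_lt_of_le this (le_max_left (r * T * Y / N) (r * |t - c / r| * Y))
    linarith
  have key : ∀ m ∈ dcnM r x, ((dcnS Y r c (t - c / r) (4 * r * T * Y / N) m).card : ℝ) ≤
      256 * C / ε * (Y / Real.log N) * (T * Y / N) * (r / Nat.totient r) / x := by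
    intro m _
    rcases le_or_gt (|t - c / r| * N) T with h1 | h1
    · have hxe : x = 8 * (r * T * Y / N) := by
        rw [hx]
        congr 1
        apply max_eq_left
        rw [le_div_iff₀ hN0]
        have : (r : ℝ) * |t - c / r| * Y * N = r * Y * (|t - c / r| * N) := by ring
        rw [this]
        have : (r : ℝ) * T * Y = r * Y * T := by ring
        rw [this]
        exact mul_le_mul_of_nonneg_left h1 (by positivity)
      have h2 := dcn_case1 hC hε hbt N Y r c (t - c / r) (4 * r * T * Y / N) m hN hr hrY2 hc hrY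
      refine le_trans h2 ?_
      have h3 : 256 * C / ε * (Y / Real.log N) * (T * Y / N) * (r / Nat.totient r) / x =
          32 * C / ε * (Y / (Nat.totient r * Real.log N)) := by
        rw [hxe]
        field_simp
        ring
      rw [h3]
      apply mul_le_mul_of_nonneg_right _ (by positivity)
      apply div_le_div_of_nonneg_right _ hε.le
      linarith
    · have hβ0 : 0 < |t - c / r| := by
        have h2 : 0 < |t - c / r| * N := by linarith
        exact (pos_iff_pos_of_mul_pos h2).2 hN0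
      have hxe : x = 8 * (r * |t - c / r| * Y) := by
        rw [hx]
        congr 1
        apply max_eq_right
        rw [div_le_iff₀ hN0]
        have : (r : ℝ) * |t - c / r| * Y * N = r * Y * (|t - c / r| * N) := by ring
        rw [this]
        have : (r : ℝ) * T * Y = r * Y * T := by ring
        rw [this]
        exact mul_le_mul_of_nonneg_left h1.le (by positivity)
      have hY1 : 1 ≤ Y := by omega
      have h2 := dcn_case2 hC hε hbt N Y r c (t - c / r) T m hN hr hY1 hc hT hβ0 hβ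
      refine le_trans h2 (le_of_eq ?_)
      rw [hxe]
      field_simp
      ring
  calc cN N Y t T ≤ _ := hcount
    _ ≤ ∑ m ∈ dcnM r x,
        (256 * C / ε * (Y / Real.log N) * (T * Y / N) * (r / Nat.totient r) / x) :=
        Finset.sum_le_sum key
    _ = ((dcnM r x).card : ℝ) *
        (256 * C / ε * (Y / Real.log N) * (T * Y / N) * (r / Nat.totient r) / x) := by
        rw [Finset.sum_const, nsmul_eq_mul]
    _ ≤ (2 * Ph r x) *
        (256 * C / ε * (Y / Real.log N) * (T * Y / N) * (r / Nat.totient r) / x) := by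
        apply mul_le_mul_of_nonneg_right (dcnM_card r x)
        positivity
    _ = _ := by ring

alias d_cnt := d_cnt_pr

end Pool.Agent.PV
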