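import Pool.Agent.Lib_helper92.PVF.Base
import Pool.Agent.Lib_helper92.PVF.WKB

set_option autoImplicit false

namespace Pool.Agent.PV

open Finset Complex Pool.Agent.Var35 Pool.Agent.Var73
open scoped ArithmeticFunction ArithmeticFunction.Moebius

theorem dke_pt (N : ℕ) (hN : 1 ≤ N) (u : ℝ) :
    |Wk N u| ≤ 5 * N * ∑ j ∈ range (N + 1), (1 / 4 : ℝ) ^ j *
      (if nn u ≤ (2 : ℝ) ^ j / N then 1 else 0) := by
  classical
  have hN0 : (0 : ℝ) < N := by exact_mod_cast hN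
  have hex : ∃ j : ℕ, nn u ≤ (2 : ℝ) ^ j / N := by
    refine ⟨N, ?_⟩
    have h1 : nn u ≤ 1 / 2 := abs_sub_round u
    have h2 : (N : ℝ) ≤ 2 ^ N := by exact_mod_cast (Nat.lt_two_pow_self (n := N)).le
    have h3 : (1 : ℝ) ≤ 2 ^ N / N := by rwa [le_div_iff₀ hN0, one_mul]
    linarith
  have hle : Nat.find hex ≤ N := by
    apply Nat.find_min'
    have h1 : nn u ≤ 1 / 2 := abs_sub_round u
    have h2 : (N : ℝ) ≤ 2 ^ N := by exact_mod_cast (Nat.lt_two_pow_self (n := N)).le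
    have h3 : (1 : ℝ) ≤ 2 ^ N / N := by rwa [le_div_iff₀ hN0, one_mul]
    linarith
  have hspec := Nat.find_spec hex
  have hmin := fun i (hi : i < Nat.find hex) => Nat.find_min hex hi
  generalize Nat.find hex = j0 at hle hspec hmin
  have hterm : (1 / 4 : ℝ) ^ j0 ≤ ∑ j ∈ range (N + 1), (1 / 4 : ℝ) ^ j *
      (if nn u ≤ (2 : ℝ) ^ j / N then 1 else 0) := by
    have h1 := Finset.single_le_sum (s := range (N + 1)) (f := fun j => (1 / 4 : ℝ) ^ j *
      (if nn u ≤ (2 : ℝ) ^ j / N then (1 : ℝ) else 0)) (fun j _ => by positivity)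
      (mem_range.2 (Nat.lt_succ_of_le hle))
    simp only [hspec, if_true, mul_one] at h1
    exact h1
  refine le_trans ?_ (mul_le_mul_of_nonneg_left hterm (by positivity))
  rcases j0 with _ | i
  · simpa using wk_le N hN u
  · have h1 := hmin i (Nat.lt_succ_self i)
    push Not at h1
    have h2 : (0 : ℝ) < 2 ^ i / N := by positivity
    have h3 : 0 < nn u := h2.trans h1
    refine (wk_le2 N hN u h3).trans ?_
    have h4 : ((2 : ℝ) ^ i / N) ^ 2 ≤ nn u ^ 2 := by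
      exact pow_le_pow_left₀ h2.le h1.le 2
    have h5 : 1 / (2 * N * nn u ^ 2) ≤ 1 / (2 * N * ((2 : ℝ) ^ i / N) ^ 2) := by
      apply one_div_le_one_div_of_le (by positivity)
      exact mul_le_mul_of_nonneg_left h4 (by positivity)
    refine h5.trans ?_
    have h6 : 1 / (2 * N * ((2 : ℝ) ^ i / N) ^ 2) = N / 2 * (1 / 4) ^ i := by
      have h7 : ((2 : ℝ) ^ i) ^ 2 = 4 ^ i := by
        rw [← pow_mul, mul_comm, pow_mul]; norm_num
      rw [div_pow, h7, one_div_pow]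
      field_simp
    rw [h6, pow_succ]
    have h8 : (0 : ℝ) < (1 / 4) ^ i := by positivity
    nlinarith [mul_pos hN0 h8]

/-- DKE -/
theorem d_ker_pr (N Y : ℕ) (hN : 1 ≤ N) (hY : 1 ≤ Y) (t : ℝ) :
    ∑ Q ∈ QQ Y, Ea N Q t ≤ (5 * N / Y) * ∑ j ∈ range (N + 1), (1 / 4 : ℝ) ^ j * cN N Y t (2 ^ j) := by
  classical
  have hY0 : (0 : ℝ) < Y := by exact_mod_cast hY
  have hc : ∀ j : ℕ, cN N Y t (2 ^ j) = ∑ Q ∈ QQ Y, ∑ b ∈ Ico 1 Q,
      (if nn (t - (b : ℝ) / Q) ≤ (2 : ℝ) ^ j / N then (1 : ℝ) else 0) := by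
    intro j
    unfold cN
    refine Finset.sum_congr rfl fun Q _ => ?_
    rw [Finset.sum_boole]
  have hr : (5 * N / Y) * ∑ j ∈ range (N + 1), (1 / 4 : ℝ) ^ j * cN N Y t (2 ^ j)
      = ∑ Q ∈ QQ Y, (1 / (Y : ℝ)) * ∑ b ∈ Ico 1 Q, (5 * N * ∑ j ∈ range (N + 1), (1 / 4 : ℝ) ^ j *
      (if nn (t - (b : ℝ) / Q) ≤ (2 : ℝ) ^ j / N then 1 else 0)) := by
    simp only [hc, Finset.mul_sum]
    rw [Finset.sum_comm]
    refine Finset.sum_congr rfl fun Q _ => ?_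
    rw [Finset.sum_comm]
    refine Finset.sum_congr rfl fun b _ => Finset.sum_congr rfl fun j _ => ?_
    ring
  rw [hr]
  refine Finset.sum_le_sum fun Q hQ => ?_
  have hQ1 : Y < Q := (mem_Ioc.1 (mem_filter.1 hQ).1).1
  have hQ2 : (Y : ℝ) ≤ Q := by exact_mod_cast hQ1.le
  unfold Ea
  refine mul_le_mul ?_ ?_ (Finset.sum_nonneg fun _ _ => abs_nonneg _) (by positivity)
  · exact one_div_le_one_div_of_le hY0 hQ2
  · exact Finset.sum_le_sum fun b _ => dke_pt N hN _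

alias d_ker := d_ker_pr

end Pool.Agent.PV
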