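import Pool.Agent.Lib_helper92.PVF.Base
import Pool.Agent.Lib_helper92.PVF.BT

set_option autoImplicit false

namespace Pool.Agent.PV

open Finset Complex Pool.Agent.Var35 Pool.Agent.Var73
open scoped ArithmeticFunction ArithmeticFunction.Moebius

/-- QCA -/
theorem qq_card_pr : ∃ C : ℝ, 0 < C ∧ ∀ Y : ℕ, 2 ≤ Y → ((QQ Y).card : ℝ) ≤ C * (Y / Real.log Y) := by
  obtain ⟨C, hC, h⟩ := bt
  refine ⟨3 * C, by positivity, fun Y hY => ?_⟩
  have h1 := h 1 (3 * Y) Y 0 le_rfl (by omega)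
  have h2 : QQ Y ⊆ (Ioc Y (Y + 3 * Y)).filter (fun p => p.Prime ∧ p ≡ 0 [MOD 1]) := by
    intro p hp
    unfold QQ at hp
    rw [mem_filter] at hp ⊢
    have := mem_Ioc.1 hp.1
    exact ⟨mem_Ioc.2 (by omega), hp.2, Nat.modEq_one⟩
  refine (Nat.cast_le.2 (card_le_card h2)).trans (h1.trans ?_)
  have hY' : (2 : ℝ) ≤ Y := by exact_mod_cast hY
  have h3 : 0 < Real.log Y := Real.log_pos (by linarith)
  have h4 : Real.log Y ≤ Real.log (3 * Y) := Real.log_le_log (by linarith) (by linarith)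
  push_cast
  rw [Nat.totient_one, Nat.cast_one, one_mul, div_one]
  calc C * (3 * Y) / Real.log (3 * Y) ≤ C * (3 * Y) / Real.log Y :=
        div_le_div_of_nonneg_left (by positivity) h3 h4
    _ = 3 * C * (Y / Real.log Y) := by ring

alias qq_card := qq_card_pr

end Pool.Agent.PV
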