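import Pool.Agent.Lib_helper92.PVF.Base
import Pool.Agent.Lib_helper92.PVF.QCA

set_option autoImplicit false

namespace Pool.Agent.PV

open Finset Complex Pool.Agent.Var35 Pool.Agent.Var73
open scoped ArithmeticFunction ArithmeticFunction.Moebius

theorem dtr_count (Q : ℕ) (hQ : 1 ≤ Q) (t δ : ℝ) (hδ : 0 ≤ δ) :
    (((Ico 1 Q).filter (fun b : ℕ => nn (t - b / Q) ≤ δ)).card : ℝ) ≤ 2 * δ * Q + 1 := by
  have hQ' : (0 : ℝ) < Q := by exact_mod_cast hQ
  have h1 : ((Ico 1 Q).filter (fun b : ℕ => nn (t - b / Q) ≤ δ)).card ≤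
      (Icc ⌈Q * t - δ * Q⌉ ⌊Q * t + δ * Q⌋).card := by
    refine card_le_card_of_injOn (fun b : ℕ => (b : ℤ) + Q * round (t - b / Q)) ?_ ?_
    · intro b hb
      rw [mem_coe, mem_filter] at hb
      have h := hb.2
      unfold nn at h
      rw [abs_le] at h
      rw [mem_coe, mem_Icc, Int.ceil_le, Int.le_floor]
      have h3 : (t - b / Q - round (t - b / Q : ℝ)) * Q = Q * t - (b + Q * round (t - b / Q : ℝ)) := by
        field_simp
        ring
      push_cast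
      constructor
      · nlinarith [mul_le_mul_of_nonneg_right h.2 hQ'.le]
      · nlinarith [mul_le_mul_of_nonneg_right h.1 hQ'.le]
    · intro b hb b' hb' he
      have hb1 := mem_Ico.1 (mem_filter.1 hb).1
      have hb2 := mem_Ico.1 (mem_filter.1 hb').1
      have hmod : (b : ℤ) % Q = (b' : ℤ) % Q := by
        have h5 : ((b : ℤ) + Q * round (t - b / Q)) % Q = ((b' : ℤ) + Q * round (t - b' / Q)) % Q := by
          have he' : (b : ℤ) + Q * round (t - b / Q) = (b' : ℤ) + Q * round (t - b' / Q) := he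
          rw [he']
        rwa [Int.add_mul_emod_self_left, Int.add_mul_emod_self_left] at h5
      rw [Int.emod_eq_of_lt (by omega) (by omega), Int.emod_eq_of_lt (by omega) (by omega)] at hmod
      exact_mod_cast hmod
  refine (Nat.cast_le.2 h1).trans ?_
  rw [Int.card_Icc]
  have h2 : (⌊Q * t + δ * Q⌋ : ℝ) ≤ Q * t + δ * Q := Int.floor_le _
  have h3 : Q * t - δ * Q ≤ (⌈Q * t - δ * Q⌉ : ℝ) := Int.le_ceil _
  rcases le_total 0 (⌊Q * t + δ * Q⌋ + 1 - ⌈Q * t - δ * Q⌉) with h | h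
  · have h4 : (((⌊Q * t + δ * Q⌋ + 1 - ⌈Q * t - δ * Q⌉).toNat : ℤ) : ℝ) =
        ((⌊Q * t + δ * Q⌋ + 1 - ⌈Q * t - δ * Q⌉ : ℤ) : ℝ) := by rw [Int.toNat_of_nonneg h]
    rw [Int.cast_natCast] at h4
    rw [h4]
    push_cast
    linarith
  · rw [Int.toNat_of_nonpos h, Nat.cast_zero]
    positivity

/-- DTR -/
theorem d_triv_pr : ∃ C : ℝ, 0 < C ∧ ∀ N Y : ℕ, 1 ≤ N → 2 ≤ Y → ∀ t T : ℝ, (N : ℝ) ≤ T * Y →
    cN N Y t T ≤ C * (Y / Real.log Y) * (T * Y / N) := by
  obtain ⟨C, hC, h⟩ := qq_card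
  refine ⟨9 * C, by positivity, fun N Y hN hY t T hT => ?_⟩
  have hN' : (1 : ℝ) ≤ N := by exact_mod_cast hN
  have hY' : (2 : ℝ) ≤ Y := by exact_mod_cast hY
  have hT0 : 0 < T := by
    by_contra hneg
    push Not at hneg
    nlinarith [mul_nonneg (neg_nonneg.2 hneg) (by linarith : (0 : ℝ) ≤ Y)]
  have h1 : 1 ≤ T * Y / N := by
    rw [le_div_iff₀ (by linarith)]
    linarith
  have h2 : ∀ Q ∈ QQ Y, (((Ico 1 Q).filter (fun b : ℕ => nn (t - b / Q) ≤ T / N)).card : ℝ) ≤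
      9 * (T * Y / N) := by
    intro Q hQ
    unfold QQ at hQ
    rw [mem_filter, mem_Ioc] at hQ
    have hQ4 : (Q : ℝ) ≤ 4 * Y := by exact_mod_cast hQ.1.2
    refine (dtr_count Q (by omega) t (T / N) (by positivity)).trans ?_
    have h5 : 2 * (T / N) * Q ≤ 2 * (T / N) * (4 * Y) :=
      mul_le_mul_of_nonneg_left hQ4 (by positivity)
    have h6 : 2 * (T / N) * (4 * Y) = 8 * (T * Y / N) := by ring
    linarith
  unfold cN
  refine (sum_le_sum h2).trans ?_
  rw [sum_const, nsmul_eq_mul]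
  calc ((QQ Y).card : ℝ) * (9 * (T * Y / N)) ≤ (C * (Y / Real.log Y)) * (9 * (T * Y / N)) :=
        mul_le_mul_of_nonneg_right (h Y hY) (by positivity)
    _ = 9 * C * (Y / Real.log Y) * (T * Y / N) := by ring

alias d_triv := d_triv_pr

end Pool.Agent.PV
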