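import Pool.Agent.Lib_helper92.PVF.Base
import Pool.Agent.Lib_helper92.PVF.COP
import Pool.Agent.Lib_helper92.PVF.DKE
import Pool.Agent.Lib_helper92.PVF.DCN
import Pool.Agent.Lib_helper92.PVF.DTR

/-! PV, block DMA: the kernels summed over the primes `Q` -/

set_option autoImplicit false

namespace Pool.Agent.PV

open Finset Complex Pool.Agent.Var35 Pool.Agent.Var73
open scoped ArithmeticFunction ArithmeticFunction.Moebius

theorem dma_geo (n : ℕ) : ∑ j ∈ range n, (1 / 2 : ℝ) ^ j ≤ 2 := by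
  have h : ∑ j ∈ range n, (1 / 2 : ℝ) ^ j = 2 - 2 * (1 / 2) ^ n := by
    induction n with
    | zero => simp
    | succ n ih =>
      rw [sum_range_succ, ih, pow_succ]
      ring
  rw [h]
  have : (0 : ℝ) < (1 / 2) ^ n := by positivity
  linarith

theorem dma_tail (n : ℕ) : ∀ u : ℝ, 0 < u →
    ∑ j ∈ range n, (if u ≤ 2 ^ j then (1 / 2 : ℝ) ^ j else 0) ≤ 2 / max 1 u := by
  induction n with
  | zero =>
    intro u hu
    rw [range_zero, sum_empty]
    positivity
  | succ n ih =>
    intro u hu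
    rw [sum_range_succ']
    have h1 : ∑ j ∈ range n, (if u ≤ 2 ^ (j + 1) then (1 / 2 : ℝ) ^ (j + 1) else 0) =
        (1 / 2) * ∑ j ∈ range n, (if u / 2 ≤ 2 ^ j then (1 / 2 : ℝ) ^ j else 0) := by
      rw [mul_sum]
      refine sum_congr rfl fun j _ => ?_
      have e : u ≤ 2 ^ (j + 1) ↔ u / 2 ≤ 2 ^ j := by
        rw [pow_succ, div_le_iff₀ (by norm_num)]
      by_cases h : u / 2 ≤ 2 ^ j
      · rw [if_pos (e.2 h), if_pos h, pow_succ]
        ring
      · rw [if_neg (fun h' => h (e.1 h')), if_neg h, mul_zero]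
    rw [h1]
    have h2 := ih (u / 2) (by positivity)
    rcases le_or_gt u 1 with hu1 | hu1
    · rw [max_eq_left hu1, if_pos (by rw [pow_zero]; exact hu1)]
      have h3 : max 1 (u / 2) = 1 := max_eq_left (by linarith)
      rw [h3] at h2
      rw [pow_zero]
      linarith
    · rw [max_eq_right hu1.le, if_neg (by rw [pow_zero]; exact not_le.2 hu1), add_zero]
      have h3 : 2 / max 1 (u / 2) ≤ 2 * (2 / u) := by
        have h4 : u / 2 ≤ max 1 (u / 2) := le_max_right _ _
        have h5 : 2 / max 1 (u / 2) ≤ 2 / (u / 2) :=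
          div_le_div_of_nonneg_left (by norm_num) (by positivity) h4
        refine h5.trans (le_of_eq ?_)
        field_simp
      linarith

theorem dma_Ph_le (r : ℕ) {x : ℝ} (hx : 0 ≤ x) : Ph r x ≤ x := by
  unfold Ph
  have h1 : ((Icc 1 ⌊x⌋₊).filter (fun m => Nat.Coprime m r)).card ≤ ⌊x⌋₊ := by
    refine (card_filter_le _ _).trans ?_
    rw [Nat.card_Icc, Nat.add_sub_cancel]
  calc _ ≤ (⌊x⌋₊ : ℝ) := by exact_mod_cast h1
    _ ≤ x := Nat.floor_le hx

theorem dma_Ph_nonneg (r : ℕ) (x : ℝ) : 0 ≤ Ph r x := Nat.cast_nonneg _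

theorem dma_Ph_zero (r : ℕ) {x : ℝ} (hx : x < 1) : Ph r x = 0 := by
  unfold Ph
  rw [Nat.floor_eq_zero.2 hx]
  simp

theorem dma_ratio (r : ℕ) {x : ℝ} (hx : 0 ≤ x) : Ph r x / x ≤ (if 1 ≤ x then 1 else 0) := by
  split_ifs with h
  · exact div_le_one_of_le₀ (dma_Ph_le r hx) hx
  · rw [dma_Ph_zero r (not_le.1 h), zero_div]

theorem d_main_pr (ε : ℝ) (hε : 0 < ε) : ∃ C : ℝ, 0 < C ∧ ∃ N0 : ℕ, ∀ N ≥ N0, ∀ Y : ℕ,
    (N : ℝ) ^ (1 / 2 + ε) ≤ Y → Y ≤ N → ∀ (t : ℝ) (c : ℤ) (r : ℕ), 1 ≤ r → IsCoprime c (r : ℤ) →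
    (r : ℝ) * (N : ℝ) ^ (ε / 2) ≤ Y → |t - c / r| * (r * (N : ℝ) ^ (1 + ε / 2)) ≤ Y →
    ∑ Q ∈ QQ Y, Ea N Q t ≤ C * (Y / Real.log N) * (1 + al N Y r (t - c / r) + ga N Y r (t - c / r)) := by
  obtain ⟨C1, hC1, N1, h1⟩ := d_cnt ε hε
  obtain ⟨C2, hC2, h2⟩ := d_triv
  obtain ⟨C3, hC3, h3⟩ := cop
  refine ⟨20 * C2 + 10 * C1 * C3 + 80 * C1, by positivity, max N1 16, ?_⟩
  intro N hN Y hY1 hY2 t c r hr hc hr1 hr2
  have hNN1 : N1 ≤ N := (le_max_left _ _).trans hN
  have hN16 : 16 ≤ N := (le_max_right _ _).trans hN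
  have hN16' : (16 : ℝ) ≤ N := by exact_mod_cast hN16
  have hN0 : (0 : ℝ) < N := by linarith
  have hN1' : (1 : ℝ) ≤ N := by linarith
  set Lg := Real.log N with hLg
  have hLg1 : 1 ≤ Lg := by
    rw [hLg, Real.le_log_iff_exp_le hN0]
    have := Real.exp_one_lt_d9
    linarith
  have hLg0 : 0 < Lg := by linarith
  -- the size of `Y`
  have hYs : (N : ℝ) ^ (1 / 2 : ℝ) ≤ Y :=
    (Real.rpow_le_rpow_of_exponent_le hN1' (by linarith)).trans hY1
  have hY4 : (4 : ℝ) ≤ Y := by
    refine le_trans ?_ hYs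
    rw [← Real.sqrt_eq_rpow]
    exact Real.le_sqrt_of_sq_le (by linarith)
  have hY0 : (0 : ℝ) < Y := by linarith
  have hY2' : (Y : ℝ) ≤ N := by exact_mod_cast hY2
  have hlogY : Lg / 2 ≤ Real.log Y := by
    have := Real.log_le_log (by positivity) hYs
    rw [Real.log_rpow hN0] at this
    rw [hLg]
    linarith
  have hlogY0 : 0 < Real.log Y := by linarith
  have hr0 : (0 : ℝ) < r := by exact_mod_cast hr
  have hrY : (r : ℝ) ≤ Y := by
    refine le_trans ?_ hr1
    exact le_mul_of_one_le_right hr0.le (Real.one_le_rpow hN1' (by positivity))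
  have hphi : 0 < Nat.totient r := Nat.totient_pos.2 hr
  have hphi0 : (0 : ℝ) < Nat.totient r := by exact_mod_cast hphi
  set β := t - c / r with hβ
  set g : ℝ := (r : ℝ) / Nat.totient r with hg
  have hg0 : 0 < g := by positivity
  set x : ℕ → ℝ := fun j => 8 * max ((r : ℝ) * 2 ^ j * Y / N) ((r : ℝ) * |β| * Y) with hx
  have hx0 : ∀ j, 0 < x j := by
    intro j
    simp only [hx]
    have : 0 < (r : ℝ) * 2 ^ j * Y / N := by positivity
    have := lt_max_of_lt_left (b := (r : ℝ) * 2 ^ j * Y / N) (c := (r : ℝ) * |β| * Y) this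
    linarith
  set V : ℕ → ℝ := fun j => g * (Ph r (x j) / x j) with hV
  have hV0 : ∀ j, 0 ≤ V j := by
    intro j
    simp only [hV]
    exact mul_nonneg hg0.le (div_nonneg (dma_Ph_nonneg _ _) (hx0 j).le)
  -- each term
  have hterm : ∀ j ∈ range (N + 1), (5 * N / Y : ℝ) * ((1 / 4 : ℝ) ^ j * cN N Y t (2 ^ j)) ≤
      (Y / Lg) * (10 * C2 * (1 / 2) ^ j + 5 * C1 * ((1 / 2) ^ j * V j)) := by
    intro j _
    have hp1 : (1 : ℝ) ≤ 2 ^ j := one_le_pow₀ (by norm_num)
    have hp0 : (0 : ℝ) < 2 ^ j := by linarith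
    have e4 : (1 / 4 : ℝ) ^ j * 2 ^ j = (1 / 2) ^ j := by
      rw [← mul_pow]
      norm_num
    have hA : 0 ≤ (5 * N / Y : ℝ) * (1 / 4 : ℝ) ^ j := by positivity
    rcases le_or_gt (N : ℝ) (2 ^ j * Y) with hT | hT
    · have q1 := h2 N Y (by omega) (by exact_mod_cast (by linarith : (2 : ℝ) ≤ Y)) t (2 ^ j) hT
      have q2 : C2 * (Y / Real.log Y) * (2 ^ j * Y / N) ≤
          C2 * (2 * (Y / Lg)) * (2 ^ j * Y / N) := by
        refine mul_le_mul_of_nonneg_right (mul_le_mul_of_nonneg_left ?_ hC2.le) (by positivity)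
        rw [div_le_iff₀ hlogY0]
        have e5 : 2 * (Y / Lg) * Real.log Y = Y * (Real.log Y / (Lg / 2)) := by
          field_simp
        rw [e5]
        refine le_mul_of_one_le_right hY0.le ?_
        rw [one_le_div (by positivity)]
        exact hlogY
      have q3 : 0 ≤ (Y / Lg) * (5 * C1 * ((1 / 2) ^ j * V j)) := by
        have := hV0 j
        positivity
      calc (5 * N / Y : ℝ) * ((1 / 4 : ℝ) ^ j * cN N Y t (2 ^ j))
          = ((5 * N / Y : ℝ) * (1 / 4 : ℝ) ^ j) * cN N Y t (2 ^ j) := by ring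
        _ ≤ ((5 * N / Y : ℝ) * (1 / 4 : ℝ) ^ j) * (C2 * (2 * (Y / Lg)) * (2 ^ j * Y / N)) :=
            mul_le_mul_of_nonneg_left (q1.trans q2) hA
        _ = (Y / Lg) * (10 * C2 * ((1 / 4 : ℝ) ^ j * 2 ^ j)) := by
            field_simp
            ring
        _ = (Y / Lg) * (10 * C2 * (1 / 2) ^ j) := by rw [e4]
        _ ≤ _ := by
            rw [mul_add]
            linarith
    · have q1 := h1 N hNN1 Y hY1 hY2 t c r (2 ^ j) hr hc hr1 hr2 hp1 hT (x j) rfl
      have q3 : 0 ≤ (Y / Lg) * (10 * C2 * (1 / 2) ^ j) := by positivity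
      calc (5 * N / Y : ℝ) * ((1 / 4 : ℝ) ^ j * cN N Y t (2 ^ j))
          = ((5 * N / Y : ℝ) * (1 / 4 : ℝ) ^ j) * cN N Y t (2 ^ j) := by ring
        _ ≤ ((5 * N / Y : ℝ) * (1 / 4 : ℝ) ^ j) *
            (C1 * (Y / Lg) * (2 ^ j * Y / N) * g * (Ph r (x j) / x j)) :=
            mul_le_mul_of_nonneg_left q1 hA
        _ = (Y / Lg) * (5 * C1 * (((1 / 4 : ℝ) ^ j * 2 ^ j) * V j)) := by
            simp only [hV]
            have e6 : (5 * N / Y : ℝ) * (2 ^ j * Y / N) = 5 * 2 ^ j := by
              field_simp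
            calc ((5 * N / Y : ℝ) * (1 / 4 : ℝ) ^ j) *
                (C1 * (Y / Lg) * (2 ^ j * Y / N) * g * (Ph r (x j) / x j))
                = ((5 * N / Y : ℝ) * (2 ^ j * Y / N)) * ((1 / 4 : ℝ) ^ j *
                  (C1 * (Y / Lg) * g * (Ph r (x j) / x j))) := by ring
              _ = _ := by
                rw [e6]
                ring
        _ = (Y / Lg) * (5 * C1 * ((1 / 2) ^ j * V j)) := by rw [e4]
        _ ≤ _ := by
            rw [mul_add]
            linarith
  -- the sum of the weights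
  have hal0 : 0 ≤ al N Y r β := by
    unfold al
    split_ifs
    · exact mul_nonneg hg0.le (le_min zero_le_one (by positivity))
    · exact le_rfl
  have hga0 : 0 ≤ ga N Y r β := by
    unfold ga
    split_ifs
    · exact hg0.le
    · exact le_rfl
  have hW : ∑ j ∈ range (N + 1), (1 / 2 : ℝ) ^ j * V j ≤
      2 * C3 + 16 * al N Y r β + 16 * ga N Y r β := by
    by_cases hcase : (r : ℝ) * Y < N * Lg ^ 2 ∧ |β| * (r * Y) < Lg ^ 2
    · -- small `r` and small `β`
      have hVle : ∀ j, V j ≤ g * (if 1 ≤ x j then 1 else 0) := fun j =>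
        mul_le_mul_of_nonneg_left (dma_ratio r (hx0 j).le) hg0.le
      have hgeo := dma_geo (N + 1)
      have hall : ∑ j ∈ range (N + 1), (1 / 2 : ℝ) ^ j * V j ≤ 2 * g := by
        calc ∑ j ∈ range (N + 1), (1 / 2 : ℝ) ^ j * V j
            ≤ ∑ j ∈ range (N + 1), (1 / 2 : ℝ) ^ j * g := by
              refine sum_le_sum fun j _ => mul_le_mul_of_nonneg_left ((hVle j).trans ?_)
                (by positivity)
              split_ifs <;> simp [hg0.le]
          _ = (∑ j ∈ range (N + 1), (1 / 2 : ℝ) ^ j) * g := by rw [sum_mul]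
          _ ≤ 2 * g := mul_le_mul_of_nonneg_right hgeo hg0.le
      by_cases h8 : 1 ≤ 8 * (|β| * (r * Y))
      · rcases le_or_gt (N : ℝ) (r * Y) with hNr | hNr
        · have e1 : al N Y r β = g := by
            unfold al
            rw [if_pos hcase, min_eq_left, mul_one]
            rw [le_div_iff₀ hN0, one_mul]
            exact hNr
          rw [e1]
          nlinarith
        · have e1 : ga N Y r β = g := by
            unfold ga
            rw [if_pos ⟨hNr, h8, hcase.2⟩]
          rw [e1]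
          nlinarith
      · rw [not_le] at h8
        set u : ℝ := N / (8 * (r * Y)) with hu
        have hu0 : 0 < u := by positivity
        have e1 : al N Y r β = g * min 1 ((r : ℝ) * Y / N) := by
          unfold al
          rw [if_pos hcase]
        have hstep : ∀ j ∈ range (N + 1), (1 / 2 : ℝ) ^ j * V j ≤
            g * (if u ≤ 2 ^ j then (1 / 2 : ℝ) ^ j else 0) := by
          intro j _
          by_cases hj : u ≤ 2 ^ j
          · rw [if_pos hj, mul_comm]
            refine mul_le_mul_of_nonneg_right ((hVle j).trans ?_) (by positivity)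
            split_ifs <;> simp [hg0.le]
          · rw [if_neg hj, mul_zero]
            have hxj : ¬ 1 ≤ x j := by
              rw [not_le] at hj ⊢
              simp only [hx]
              have k1 : (r : ℝ) * 2 ^ j * Y / N < 1 / 8 := by
                rw [div_lt_iff₀ hN0]
                rw [hu, lt_div_iff₀ (by positivity)] at hj
                nlinarith
              have k2 : (r : ℝ) * |β| * Y < 1 / 8 := by
                nlinarith
              have := max_lt k1 k2
              linarith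
            have := hVle j
            rw [if_neg hxj, mul_zero] at this
            have h0 := hV0 j
            have h00 : V j = 0 := le_antisymm this h0
            rw [h00, mul_zero]
        have htail := dma_tail (N + 1) u hu0
        have hmax : 2 / max 1 u ≤ 16 * min 1 ((r : ℝ) * Y / N) := by
          rw [div_le_iff₀ (by positivity)]
          have k1 : (1 : ℝ) ≤ max 1 u := le_max_left _ _
          have k2 : u ≤ max 1 u := le_max_right _ _
          rcases min_cases (1 : ℝ) ((r : ℝ) * Y / N) with ⟨hm, _⟩ | ⟨hm, _⟩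
          · rw [hm]
            linarith
          · rw [hm]
            have k3 : 16 * ((r : ℝ) * Y / N) * u = 2 := by
              rw [hu]
              field_simp
              norm_num
            have k4 : 0 ≤ 16 * ((r : ℝ) * Y / N) := by positivity
            calc (2 : ℝ) = 16 * ((r : ℝ) * Y / N) * u := k3.symm
              _ ≤ _ := mul_le_mul_of_nonneg_left k2 k4
        rw [e1]
        have k5 : ∑ j ∈ range (N + 1), (1 / 2 : ℝ) ^ j * V j ≤
            g * (16 * min 1 ((r : ℝ) * Y / N)) := by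
          refine (sum_le_sum hstep).trans ?_
          rw [← mul_sum]
          exact mul_le_mul_of_nonneg_left (htail.trans hmax) hg0.le
        linarith
    · -- large `x`
      have hxl : ∀ j, 8 * Lg ^ 2 ≤ x j := by
        intro j
        simp only [hx]
        have hp1 : (1 : ℝ) ≤ 2 ^ j := one_le_pow₀ (by norm_num)
        rw [not_and_or, not_lt, not_lt] at hcase
        have : Lg ^ 2 ≤ max ((r : ℝ) * 2 ^ j * Y / N) (r * |β| * Y) := by
          rcases hcase with h | h
          · refine le_trans ?_ (le_max_left _ _)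
            rw [le_div_iff₀ hN0]
            have k1 : (r : ℝ) * Y ≤ r * 2 ^ j * Y := by
              have : 0 < (r : ℝ) * Y := by positivity
              nlinarith
            linarith
          · refine le_trans h (le_trans (le_of_eq ?_) (le_max_right _ _))
            ring
        linarith
      have hlogr : 1 + Real.log r ≤ 2 * Lg := by
        have : Real.log r ≤ Lg := Real.log_le_log hr0 (hrY.trans hY2')
        linarith
      have hlogr0 : 0 ≤ Real.log r := Real.log_nonneg (by exact_mod_cast hr)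
      have hVle : ∀ j, V j ≤ C3 := by
        intro j
        have k1 : (1 + Real.log r) ^ 2 ≤ x j := by
          refine le_trans ?_ (hxl j)
          have : (1 + Real.log r) ^ 2 ≤ (2 * Lg) ^ 2 :=
            pow_le_pow_left₀ (by linarith) hlogr 2
          nlinarith
        have k2 := h3 r (x j) hr k1
        simp only [hV]
        have k3 : Ph r (x j) / x j ≤ C3 * (Nat.totient r / r) := by
          rw [div_le_iff₀ (hx0 j)]
          exact k2
        calc g * (Ph r (x j) / x j) ≤ g * (C3 * (Nat.totient r / r)) :=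
              mul_le_mul_of_nonneg_left k3 hg0.le
          _ = C3 := by
              rw [hg]
              field_simp
      have hgeo := dma_geo (N + 1)
      have k4 : ∑ j ∈ range (N + 1), (1 / 2 : ℝ) ^ j * V j ≤ 2 * C3 := by
        calc ∑ j ∈ range (N + 1), (1 / 2 : ℝ) ^ j * V j
            ≤ ∑ j ∈ range (N + 1), (1 / 2 : ℝ) ^ j * C3 :=
              sum_le_sum fun j _ => mul_le_mul_of_nonneg_left (hVle j) (by positivity)
          _ = (∑ j ∈ range (N + 1), (1 / 2 : ℝ) ^ j) * C3 := by rw [sum_mul]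
          _ ≤ 2 * C3 := mul_le_mul_of_nonneg_right hgeo hC3.le
      linarith
  -- the total
  have hker := d_ker N Y (by omega) (by exact_mod_cast (by linarith : (1 : ℝ) ≤ Y)) t
  refine hker.trans ?_
  rw [mul_sum]
  refine (sum_le_sum hterm).trans ?_
  rw [← mul_sum, sum_add_distrib, ← mul_sum, ← mul_sum]
  have hgeo := dma_geo (N + 1)
  have hYL : 0 ≤ (Y : ℝ) / Lg := by positivity
  have z1 : 10 * C2 * ∑ j ∈ range (N + 1), (1 / 2 : ℝ) ^ j ≤ 20 * C2 := by nlinarith
  have z2 : 5 * C1 * ∑ j ∈ range (N + 1), (1 / 2 : ℝ) ^ j * V j ≤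
      5 * C1 * (2 * C3 + 16 * al N Y r β + 16 * ga N Y r β) :=
    mul_le_mul_of_nonneg_left hW (by positivity)
  have z3 : 20 * C2 + 5 * C1 * (2 * C3 + 16 * al N Y r β + 16 * ga N Y r β) ≤
      (20 * C2 + 10 * C1 * C3 + 80 * C1) * (1 + al N Y r β + ga N Y r β) := by
    have w1 : 0 ≤ (20 * C2 + 10 * C1 * C3) * (al N Y r β + ga N Y r β) := by positivity
    nlinarith
  calc _ ≤ (Y / Lg) * (20 * C2 + 5 * C1 * (2 * C3 + 16 * al N Y r β + 16 * ga N Y r β)) :=
        mul_le_mul_of_nonneg_left (add_le_add z1 z2) hYL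
    _ ≤ (Y / Lg) * ((20 * C2 + 10 * C1 * C3 + 80 * C1) * (1 + al N Y r β + ga N Y r β)) :=
        mul_le_mul_of_nonneg_left z3 hYL
    _ = _ := by ring

alias d_main := d_main_pr

end Pool.Agent.PV
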