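import Pool.Agent.Lib_helper92.PVF.Base
import Pool.Agent.Lib_helper92.PVF.RES

/-!
# Block HF: decomposition of the mean square over reduced fractions by the conductor
-/

set_option autoImplicit false

namespace Pool.Agent.PV

open Finset Complex Pool.Agent.Var35 Pool.Agent.Var73 DirichletCharacter

/-! ### all fractions -/

theorem HF_all (b : ℕ → ℂ) (N r : ℕ) (hr : 1 ≤ r) :
    ∑ c ∈ range r, ‖Bs b N (c / r)‖ ^ 2 = ∑ d ∈ r.divisors, Hh b N d := by
  unfold Hh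
  rw [sum_sigma']
  refine sum_nbij' (i := fun c => (⟨r / Nat.gcd c r, c / Nat.gcd c r⟩ : Σ _ : ℕ, ℕ))
    (j := fun x => x.2 * (r / x.1)) ?_ ?_ ?_ ?_ ?_
  · intro c hc
    rw [mem_range] at hc
    have hg : 0 < Nat.gcd c r := Nat.gcd_pos_of_pos_right _ hr
    rw [mem_sigma, Nat.mem_divisors]
    refine ⟨⟨Nat.div_dvd_of_dvd (Nat.gcd_dvd_right _ _), by omega⟩, ?_⟩
    simp only [Cd, mem_filter, mem_range]
    refine ⟨Nat.div_lt_div_of_lt_of_dvd (Nat.gcd_dvd_right _ _) hc, ?_⟩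
    exact Nat.coprime_div_gcd_div_gcd hg
  · rintro ⟨d, c⟩ hx
    rw [mem_sigma, Nat.mem_divisors] at hx
    simp only [Cd, mem_filter, mem_range] at hx
    obtain ⟨⟨hd, -⟩, hc, -⟩ := hx
    rw [mem_range]
    dsimp only
    have hd0 : 0 < r / d := Nat.div_pos (Nat.le_of_dvd hr hd) (Nat.pos_of_dvd_of_pos hd hr)
    calc c * (r / d) < d * (r / d) := Nat.mul_lt_mul_of_pos_right hc hd0
      _ = r := Nat.mul_div_cancel' hd
  · intro c hc
    dsimp only
    have hg : 0 < Nat.gcd c r := Nat.gcd_pos_of_pos_right _ hr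
    rw [Nat.div_div_self (Nat.gcd_dvd_right _ _) (by omega),
      Nat.div_mul_cancel (Nat.gcd_dvd_left _ _)]
  · rintro ⟨d, c⟩ hx
    rw [mem_sigma, Nat.mem_divisors] at hx
    simp only [Cd, mem_filter, mem_range] at hx
    obtain ⟨⟨hd, -⟩, hc, hcop⟩ := hx
    dsimp only
    have hdp : 0 < d := Nat.pos_of_dvd_of_pos hd hr
    have hd0 : 0 < r / d := Nat.div_pos (Nat.le_of_dvd hr hd) hdp
    have hg : Nat.gcd (c * (r / d)) r = r / d := by
      calc Nat.gcd (c * (r / d)) r = Nat.gcd (c * (r / d)) (d * (r / d)) := by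
            rw [Nat.mul_div_cancel' hd]
        _ = r / d := by rw [Nat.gcd_mul_right, hcop, one_mul]
    rw [hg, Nat.div_div_self hd (by omega), Nat.mul_div_cancel _ hd0]
  · intro c hc
    dsimp only
    have hg : 0 < Nat.gcd c r := Nat.gcd_pos_of_pos_right _ hr
    have e : ((c : ℝ) / r) = ((c / Nat.gcd c r : ℕ) : ℝ) / ((r / Nat.gcd c r : ℕ) : ℝ) := by
      have h1 : (Nat.gcd c r : ℝ) ≠ 0 := by exact_mod_cast hg.ne'
      rw [Nat.cast_div (Nat.gcd_dvd_left _ _) h1, Nat.cast_div (Nat.gcd_dvd_right _ _) h1,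
        div_div_div_cancel_right₀ h1]
    rw [e]

/-! ### characters -/

theorem HF_level {q r : ℕ} [NeZero r] (hq : q ∣ r) (ψ : DirichletCharacter ℂ q) {n : ℕ}
    (hn : Nat.Coprime n r) : (changeLevel hq ψ) (n : ZMod r) = ψ (n : ZMod q) := by
  have h1 := changeLevel_eq_cast_of_dvd' ψ hq (a := (n : ℤ))
    (by exact_mod_cast Nat.isCoprime_iff_coprime.2 hn)
  simpa using h1

theorem HF_char (b : ℕ → ℂ) (N r : ℕ) [NeZero r]
    (hb : ∀ n ∈ Icc 1 N, b n ≠ 0 → Nat.Coprime n r) :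
    ∑ χ : DirichletCharacter ℂ r, ‖∑ n ∈ Icc 1 N, b n * χ (n : ZMod r)‖ ^ 2 =
      ∑ q ∈ r.divisors, Tp b N q := by
  unfold Tp
  rw [sum_sigma']
  symm
  refine sum_bij (fun x hx => changeLevel (Nat.dvd_of_mem_divisors (mem_sigma.1 hx).1) x.2)
    (fun _ _ => mem_univ _) ?_ ?_ ?_
  · rintro ⟨q, ψ⟩ hx ⟨q', ψ'⟩ hx' he
    have h1 := (mem_sigma.1 hx).2
    have h1' := (mem_sigma.1 hx').2
    rw [mem_Pr, isPrimitive_def] at h1 h1'
    dsimp only at h1 h1' he
    have h2 : q = q' := by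
      rw [← h1, ← h1', ← conductor_changeLevel ψ (Nat.dvd_of_mem_divisors (mem_sigma.1 hx).1), he,
        conductor_changeLevel]
    subst h2
    have h3 := changeLevel_injective (Nat.dvd_of_mem_divisors (mem_sigma.1 hx).1) he
    rw [h3]
  · intro χ _
    refine ⟨⟨χ.conductor, χ.primitiveCharacter⟩, ?_, changeLevel_primitiveCharacter χ⟩
    rw [mem_sigma, Nat.mem_divisors, mem_Pr]
    exact ⟨⟨χ.conductor_dvd_level, NeZero.ne r⟩, primitiveCharacter_isPrimitive χ⟩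
  · rintro ⟨q, ψ⟩ hx
    dsimp only
    congr 2
    refine sum_congr rfl fun n hn => ?_
    by_cases h0 : b n = 0
    · rw [h0, zero_mul, zero_mul]
    · rw [HF_level _ ψ (hb n hn h0)]

theorem HF_parseval (b : ℕ → ℂ) (N r : ℕ) [NeZero r]
    (hb : ∀ n ∈ Icc 1 N, b n ≠ 0 → Nat.Coprime n r) :
    (Nat.totient r : ℝ) * ∑ c ∈ range r, ‖Bs b N (c / r)‖ ^ 2 =
      r * ∑ q ∈ r.divisors, Tp b N q := by
  classical
  have hr : 1 ≤ r := Nat.one_le_iff_ne_zero.2 (NeZero.ne r)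
  have hr0 : (r : ℝ) ≠ 0 := by positivity
  set Cc : ZMod r → ℂ := fun a => ∑ n ∈ (Icc 1 N).filter (fun n : ℕ => (n : ZMod r) = a), b n
    with hC
  have h1 : ∀ χ : DirichletCharacter ℂ r, ∑ n ∈ Icc 1 N, b n * χ (n : ZMod r) =
      ∑ a : ZMod r, χ a * Cc a := by
    intro χ
    rw [← sum_fiberwise (Icc 1 N) (fun n : ℕ => (n : ZMod r)) (fun n => b n * χ (n : ZMod r))]
    refine sum_congr rfl fun a _ => ?_
    rw [hC, mul_sum]
    refine sum_congr rfl fun n hn => ?_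
    rw [(mem_filter.1 hn).2, mul_comm]
  have h2 := orthr Cc
  have hS : ∑ χ : DirichletCharacter ℂ r, ‖∑ n ∈ Icc 1 N, b n * χ (n : ZMod r)‖ ^ 2 =
      ∑ χ : DirichletCharacter ℂ r, ‖∑ a : ZMod r, χ a * Cc a‖ ^ 2 :=
    sum_congr rfl fun χ _ => by rw [h1 χ]
  rw [← HF_char b N r hb, hS, h2]
  have h3 : ∑ a ∈ univ.filter (fun a : ZMod r => IsUnit a), ‖Cc a‖ ^ 2 =
      ∑ a : ZMod r, ‖Cc a‖ ^ 2 := by
    refine sum_subset (subset_univ _) fun a _ ha => ?_
    have h4 : Cc a = 0 := by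
      refine sum_eq_zero fun n hn => ?_
      by_contra h0
      have h5 := hb n (mem_filter.1 hn).1 h0
      have h6 : IsUnit (n : ZMod r) := (ZMod.isUnit_iff_coprime n r).2 h5
      rw [(mem_filter.1 hn).2] at h6
      exact ha (mem_filter.2 ⟨mem_univ _, h6⟩)
    rw [h4, norm_zero, zero_pow two_ne_zero]
  have h7 : ∑ a : ZMod r, ‖Cc a‖ ^ 2 =
      ∑ a ∈ range r, ‖∑ n ∈ (Icc 1 N).filter (fun n => n % r = a), b n‖ ^ 2 := by
    refine sum_nbij' (fun x => x.val) (fun c => (c : ZMod r)) ?_ ?_ ?_ ?_ ?_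
    · intro x _
      exact mem_range.2 (ZMod.val_lt x)
    · intro c _
      exact mem_univ _
    · intro x _
      exact ZMod.natCast_zmod_val x
    · intro c hc
      exact ZMod.val_cast_of_lt (mem_range.1 hc)
    · intro x _
      rw [hC]
      dsimp only
      congr 2
      refine sum_congr (filter_congr fun n _ => ?_) fun _ _ => rfl
      rw [← ZMod.val_natCast]
      constructor
      · intro h
        rw [h]
      · intro h
        exact ZMod.val_injective r h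
  rw [h3, h7, ← res N r hr b]
  field_simp

/-! ### the arithmetic identity -/

/-- `∑ 1/φ(m)` over the squarefree divisors of `n` coprime to `q` -/
noncomputable def HF_G (q n : ℕ) : ℝ :=
  ∑ m ∈ n.divisors, if Squarefree m ∧ Nat.Coprime m q then 1 / (Nat.totient m : ℝ) else 0

theorem HF_divsum {a b : ℕ} (h : a.Coprime b) (F : ℕ → ℝ) :
    ∑ x ∈ (a * b).divisors, F x = ∑ y ∈ b.divisors, ∑ x ∈ a.divisors, F (x * y) := by
  rw [Nat.Coprime.divisors_mul h, Finset.sum_map]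
  exact (Finset.sum_attach (a.divisors ×ˢ b.divisors) (fun x => F (x.1 * x.2))).trans
    (Finset.sum_product_right _ _ _)

theorem HF_G_mul (q : ℕ) {a b : ℕ} (h : a.Coprime b) : HF_G q (a * b) = HF_G q a * HF_G q b := by
  unfold HF_G
  rw [HF_divsum h, mul_comm (∑ m ∈ a.divisors, _), sum_mul]
  refine sum_congr rfl fun y hy => ?_
  rw [mul_sum]
  refine sum_congr rfl fun x hx => ?_
  have hxy : x.Coprime y := Nat.Coprime.coprime_dvd_left (Nat.dvd_of_mem_divisors hx)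
    (Nat.Coprime.coprime_dvd_right (Nat.dvd_of_mem_divisors hy) h)
  by_cases h1 : Squarefree x ∧ Nat.Coprime x q
  · by_cases h2 : Squarefree y ∧ Nat.Coprime y q
    · rw [if_pos h1, if_pos h2, if_pos ⟨(Nat.squarefree_mul hxy).2 ⟨h1.1, h2.1⟩,
        Nat.Coprime.mul_left h1.2 h2.2⟩, Nat.totient_mul hxy]
      push_cast
      rw [one_div_mul_one_div, mul_comm]
    · rw [if_neg h2, zero_mul, if_neg]
      rintro ⟨h3, h4⟩
      exact h2 ⟨((Nat.squarefree_mul hxy).1 h3).2, Nat.Coprime.coprime_mul_left h4⟩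
  · rw [if_neg h1, mul_zero, if_neg]
    rintro ⟨h3, h4⟩
    exact h1 ⟨((Nat.squarefree_mul hxy).1 h3).1, Nat.Coprime.coprime_mul_right h4⟩

theorem HF_G_pp (q : ℕ) {p : ℕ} (hp : p.Prime) {k : ℕ} (hk : 0 < k) :
    HF_G q (p ^ k) = if p ∣ q then 1 else (p : ℝ) / (p - 1) := by
  unfold HF_G
  rw [Nat.sum_divisors_prime_pow hp]
  obtain ⟨k, rfl⟩ : ∃ j, k = j + 1 := ⟨k - 1, by omega⟩
  rw [sum_range_succ', sum_range_succ']
  have h0 : ∑ i ∈ range k, (if Squarefree (p ^ (i + 1 + 1)) ∧ Nat.Coprime (p ^ (i + 1 + 1)) q then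
      1 / (Nat.totient (p ^ (i + 1 + 1)) : ℝ) else 0) = 0 := by
    refine sum_eq_zero fun i _ => ?_
    rw [if_neg]
    rintro ⟨h1, -⟩
    have h2 : p * p ∣ p ^ (i + 1 + 1) := by
      rw [← sq]
      exact pow_dvd_pow p (by omega)
    exact hp.one_lt.ne' (Nat.isUnit_iff.1 (h1 p h2))
  have e1 : (if Squarefree (1 : ℕ) ∧ Nat.Coprime 1 q then 1 / (Nat.totient 1 : ℝ) else 0) = 1 := by
    simp
  rw [h0, zero_add, zero_add, pow_one, pow_zero, e1]
  have hp1 : (0 : ℝ) < (p : ℝ) - 1 := by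
    have : (1 : ℝ) < p := by exact_mod_cast hp.one_lt
    linarith
  split_ifs with h1 h2 h2
  · exact absurd h1.2 (fun h3 => (Nat.Prime.coprime_iff_not_dvd hp).1 h3 h2)
  · rw [Nat.totient_prime hp, Nat.cast_sub hp.one_lt.le, Nat.cast_one]
    field_simp
    ring
  · rw [zero_add]
  · exact absurd ⟨hp.prime.squarefree, (Nat.Prime.coprime_iff_not_dvd hp).2 h2⟩ h1

theorem HF_G_prod (q : ℕ) {n : ℕ} (hn : 0 < n) :
    HF_G q n = ∏ p ∈ n.primeFactors, if p ∣ q then (1 : ℝ) else (p : ℝ) / (p - 1) := by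
  induction n using Nat.recOnPosPrimePosCoprime with
  | prime_pow p k hp hk =>
    rw [HF_G_pp q hp hk, Nat.primeFactors_prime_pow hk.ne' hp, prod_singleton]
  | zero => exact absurd hn (lt_irrefl 0)
  | one => simp [HF_G]
  | coprime a b ha hb hab iha ihb =>
    rw [HF_G_mul q hab, iha (by omega), ihb (by omega), Nat.Coprime.primeFactors_mul hab,
      prod_union (Nat.Coprime.disjoint_primeFactors hab)]

theorem HF_tot {n : ℕ} (hn : 0 < n) :
    (n : ℝ) / Nat.totient n = ∏ p ∈ n.primeFactors, (p : ℝ) / (p - 1) := by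
  have h1 : (Nat.totient n : ℝ) = n * ∏ p ∈ n.primeFactors, (1 - (p : ℝ)⁻¹) := by
    have := Nat.totient_eq_mul_prod_factors n
    have h2 : ((Nat.totient n : ℚ) : ℝ) = ((n * ∏ p ∈ n.primeFactors, (1 - (p : ℚ)⁻¹) : ℚ) : ℝ) := by
      rw [this]
    push_cast at h2
    exact h2
  have hn0 : (n : ℝ) ≠ 0 := by positivity
  rw [h1, div_mul_eq_div_div, div_self hn0, one_div, ← prod_inv_distrib]
  refine prod_congr rfl fun p hp => ?_
  have hp' := Nat.prime_of_mem_primeFactors hp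
  have hp0 : (p : ℝ) ≠ 0 := by exact_mod_cast hp'.ne_zero
  have hp1 : (p : ℝ) - 1 ≠ 0 := by
    have : (1 : ℝ) < p := by exact_mod_cast hp'.one_lt
    linarith
  rw [inv_eq_one_div]
  field_simp

theorem HF_arith {q n : ℕ} (hq : 0 < q) (hn : 0 < n) :
    (q / Nat.totient q : ℝ) * HF_G q n = ((q * n : ℕ) : ℝ) / Nat.totient (q * n) := by
  rw [HF_tot hq, HF_tot (Nat.mul_pos hq hn), HF_G_prod q hn,
    Nat.primeFactors_mul hq.ne' hn.ne', ← union_sdiff_self_eq_union, prod_union disjoint_sdiff]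
  congr 1
  have h1 : ∀ x ∈ n.primeFactors, x ∉ n.primeFactors \ q.primeFactors →
      (if x ∣ q then (1 : ℝ) else (x : ℝ) / (x - 1)) = 1 := by
    intro x hx hx'
    have h2 : x ∈ q.primeFactors := by
      by_contra h3
      exact hx' (mem_sdiff.2 ⟨hx, h3⟩)
    rw [if_pos (Nat.dvd_of_mem_primeFactors h2)]
  rw [← prod_subset sdiff_subset h1]
  refine prod_congr rfl fun x hx => ?_
  rw [mem_sdiff] at hx
  rw [if_neg]
  intro h3
  exact hx.2 (Nat.mem_primeFactors.2 ⟨Nat.prime_of_mem_primeFactors hx.1, h3, hq.ne'⟩)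

/-- the right hand side -/
noncomputable def HF_R (b : ℕ → ℂ) (N r : ℕ) : ℝ :=
  ∑ q ∈ r.divisors, (if Squarefree (r / q) ∧ Nat.Coprime (r / q) q then
      (q / Nat.totient q : ℝ) * (1 / (Nat.totient (r / q) : ℝ)) else 0) * Tp b N q

theorem HF_R_sum (b : ℕ → ℂ) (N r : ℕ) (hr : 1 ≤ r) :
    ∑ d ∈ r.divisors, HF_R b N d = (r / Nat.totient r : ℝ) * ∑ q ∈ r.divisors, Tp b N q := by
  have h1 : ∀ q ∈ r.divisors, (r / Nat.totient r : ℝ) * Tp b N q =
      ∑ m ∈ (r / q).divisors, (if Squarefree m ∧ Nat.Coprime m q then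
        (q / Nat.totient q : ℝ) * (1 / (Nat.totient m : ℝ)) else 0) * Tp b N q := by
    intro q hq
    have hqr := Nat.dvd_of_mem_divisors hq
    have hq0 : 0 < q := Nat.pos_of_dvd_of_pos hqr hr
    have hn0 : 0 < r / q := Nat.div_pos (Nat.le_of_dvd hr hqr) hq0
    have h2 := HF_arith hq0 hn0
    rw [Nat.mul_div_cancel' hqr] at h2
    rw [← sum_mul, ← h2, HF_G, mul_sum]
    congr 1
    refine sum_congr rfl fun m _ => ?_
    split_ifs
    · rfl
    · rw [mul_zero]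
  rw [mul_sum, sum_congr rfl h1]
  unfold HF_R
  rw [sum_sigma', sum_sigma']
  refine sum_nbij' (i := fun x => (⟨x.2, x.1 / x.2⟩ : Σ _ : ℕ, ℕ))
    (j := fun x => (⟨x.1 * x.2, x.1⟩ : Σ _ : ℕ, ℕ)) ?_ ?_ ?_ ?_ ?_
  · rintro ⟨d, q⟩ hx
    rw [mem_sigma, Nat.mem_divisors, Nat.mem_divisors] at hx
    obtain ⟨⟨h2, -⟩, h3, h4⟩ := hx
    dsimp only at h2 h3 h4 ⊢
    rw [mem_sigma, Nat.mem_divisors, Nat.mem_divisors]
    dsimp only
    refine ⟨⟨h3.trans h2, by omega⟩, ?_, ?_⟩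
    · exact Nat.div_dvd_div h3 h2
    · have hq0 : 0 < q := Nat.pos_of_dvd_of_pos (h3.trans h2) hr
      exact (Nat.div_pos (Nat.le_of_dvd hr (h3.trans h2)) hq0).ne'
  · rintro ⟨q, m⟩ hx
    rw [mem_sigma, Nat.mem_divisors, Nat.mem_divisors] at hx
    obtain ⟨⟨h2, -⟩, h3, h4⟩ := hx
    dsimp only at h2 h3 h4 ⊢
    rw [mem_sigma, Nat.mem_divisors, Nat.mem_divisors]
    dsimp only
    have h5 : q * m ∣ r := by
      obtain ⟨k, hk⟩ := h3
      refine ⟨k, ?_⟩
      rw [mul_assoc, ← hk, Nat.mul_div_cancel' h2]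
    refine ⟨⟨h5, by omega⟩, dvd_mul_right _ _, ?_⟩
    rintro h6
    rw [h6] at h5
    exact absurd (Nat.eq_zero_of_zero_dvd h5) (by omega)
  · rintro ⟨d, q⟩ hx
    rw [mem_sigma, Nat.mem_divisors, Nat.mem_divisors] at hx
    obtain ⟨⟨h2, -⟩, h3, h4⟩ := hx
    dsimp only at h2 h3 h4 ⊢
    rw [Nat.mul_div_cancel' h3]
  · rintro ⟨q, m⟩ hx
    rw [mem_sigma, Nat.mem_divisors, Nat.mem_divisors] at hx
    obtain ⟨⟨h2, -⟩, h3, h4⟩ := hx
    dsimp only at h2 h3 h4 ⊢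
    rw [Nat.mul_div_cancel_left _ (Nat.pos_of_dvd_of_pos h2 hr)]
  · rintro ⟨d, q⟩ hx
    rfl

/-- HF : decomposition by the conductor -/
theorem hf_pr (b : ℕ → ℂ) (N r : ℕ) (hr : 1 ≤ r) (hb : ∀ n ∈ Icc 1 N, b n ≠ 0 → Nat.Coprime n r) :
    Hh b N r = ∑ q ∈ r.divisors, (if Squarefree (r / q) ∧ Nat.Coprime (r / q) q then
      (q / Nat.totient q : ℝ) * (1 / (Nat.totient (r / q) : ℝ)) else 0) * Tp b N q := by
  change Hh b N r = HF_R b N r
  induction r using Nat.strong_induction_on with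
  | _ r ih =>
    have : NeZero r := ⟨by omega⟩
    have h1 := HF_parseval b N r hb
    have h2 := HF_R_sum b N r hr
    rw [HF_all b N r hr] at h1
    have hφ : (Nat.totient r : ℝ) ≠ 0 := by
      exact_mod_cast (Nat.totient_pos.2 (by omega : 0 < r)).ne'
    have h3 : ∑ d ∈ r.divisors, Hh b N d = ∑ d ∈ r.divisors, HF_R b N d := by
      rw [h2]
      field_simp
      linarith
    rw [← Nat.insert_self_properDivisors (by omega : r ≠ 0), sum_insert Nat.self_notMem_properDivisors,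
      sum_insert Nat.self_notMem_properDivisors] at h3
    have h4 : ∑ d ∈ r.properDivisors, Hh b N d = ∑ d ∈ r.properDivisors, HF_R b N d := by
      refine sum_congr rfl fun d hd => ?_
      rw [Nat.mem_properDivisors] at hd
      refine ih d hd.2 (Nat.pos_of_dvd_of_pos hd.1 (by omega)) fun n hn h0 => ?_
      exact Nat.Coprime.coprime_dvd_right hd.1 (hb n hn h0)
    linarith

alias hf := hf_pr

end Pool.Agent.PV
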