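import Pool.Agent.Lib_helper92.PVF.Base

/-! PV block ARC : disjointness of the arcs -/

-- NEEDS: none

set_option autoImplicit false

namespace Pool.Agent.PV

open Finset Complex Pool.Agent.Var35 Pool.Agent.Var73
open scoped ArithmeticFunction ArithmeticFunction.Moebius

lemma ARC_per (F : ℝ → ℝ) (hF1 : ∀ x, F (x + 1) = F x) (x : ℝ) (n : ℤ) : F (x + n) = F x := by
  have h : Function.Periodic F 1 := hF1
  have := h.int_mul n x
  simpa using this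

theorem arcs_pr (M R : ℕ) (v : ℝ) (hM : 1 ≤ M) (hR : 1 ≤ R) (hdiv : ∀ r, 1 ≤ r → r ≤ R → r ∣ M)
    (hv0 : 0 ≤ v) (hv : 2 * v * (R : ℝ) ^ 2 < 1) (F : ℝ → ℝ) (hF0 : ∀ x, 0 ≤ F x)
    (hF1 : ∀ x, F (x + 1) = F x) :
    ∑ i ∈ Sh M 0 v, ∑ r ∈ Icc 1 R, ∑ c ∈ Cd r, F (c / r + i / M) ≤ ∑ j ∈ range M, F (j / M) := by
  classical
  have hM0 : (0 : ℝ) < M := by exact_mod_cast hM
  have hMz : (0 : ℤ) < M := by exact_mod_cast hM
  have hR0 : (0 : ℝ) < R := by exact_mod_cast hR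
  set DD : Finset (Σ _ : ℕ, ℕ) := (Icc 1 R).sigma (fun r => Cd r) with hDD
  have hsep := farey_sep_gen (Icc 1 R) R (fun d hd => by simpa using hd) hR
  -- rewrite the left side
  have hL : ∑ i ∈ Sh M 0 v, ∑ r ∈ Icc 1 R, ∑ c ∈ Cd r, F (c / r + i / M)
      = ∑ x ∈ (Sh M 0 v) ×ˢ DD, F ((x.2.2 : ℝ) / x.2.1 + x.1 / M) := by
    rw [sum_product]
    refine sum_congr rfl fun i _ => ?_
    rw [hDD, sum_sigma]
  rw [hL]
  set φ : ℤ × (Σ _ : ℕ, ℕ) → ℕ := fun x =>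
    (((x.2.2 : ℤ) * ((M / x.2.1 : ℕ) : ℤ) + x.1) % (M : ℤ)).toNat with hφ
  have key : ∀ x ∈ (Sh M 0 v) ×ˢ DD, ∃ n : ℤ, ((φ x : ℕ) : ℝ) / M = (x.2.2 : ℝ) / x.2.1 + x.1 / M + n := by
    rintro ⟨i, ⟨r, c⟩⟩ hx
    rw [mem_product, hDD, mem_sigma] at hx
    obtain ⟨-, hr, -⟩ := hx
    simp only [mem_Icc] at hr
    have hrM := hdiv r hr.1 hr.2
    have hr0 : (0 : ℝ) < r := by exact_mod_cast hr.1
    simp only [hφ]
    set z : ℤ := (c : ℤ) * ((M / r : ℕ) : ℤ) + i with hz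
    have h1 : ((z % (M : ℤ)).toNat : ℤ) = z % M := Int.toNat_of_nonneg (Int.emod_nonneg _ hMz.ne')
    have h2 : (((z % (M : ℤ)).toNat : ℕ) : ℝ) = ((z % (M : ℤ) : ℤ) : ℝ) := by exact_mod_cast h1
    have h3 : ((z % (M : ℤ) : ℤ) : ℝ) = z - M * (z / (M : ℤ) : ℤ) := by
      have := Int.emod_add_mul_ediv z (M : ℤ)
      have h4 : (((z % (M : ℤ) : ℤ) : ℝ) + M * (z / (M : ℤ) : ℤ)) = z := by exact_mod_cast this
      linarith
    have h5 : (z : ℝ) = c * (M / r) + i := by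
      have hMr : ((M / r : ℕ) : ℝ) = M / r := Nat.cast_div hrM hr0.ne'
      rw [hz, Int.cast_add, Int.cast_mul, Int.cast_natCast, Int.cast_natCast, hMr]
    refine ⟨-(z / (M : ℤ)), ?_⟩
    rw [h2, h3, h5]
    push_cast
    field_simp
    ring
  have hinj : Set.InjOn φ ((Sh M 0 v) ×ˢ DD : Finset (ℤ × (Σ _ : ℕ, ℕ))) := by
    rintro ⟨i, ⟨r, c⟩⟩ hx ⟨i', ⟨r', c'⟩⟩ hx' he
    rw [mem_coe] at hx hx'
    obtain ⟨n, hn⟩ := key _ hx
    obtain ⟨n', hn'⟩ := key _ hx'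
    rw [he, hn'] at hn
    rw [mem_product] at hx hx'
    simp only at hn hx hx'
    have hi := hx.1
    have hi' := hx'.1
    simp only [Sh, mem_filter, mem_Icc] at hi hi'
    have hvi : |(i : ℝ) / M| ≤ v := by
      rw [abs_div, abs_of_pos hM0]; exact hi.2.2
    have hvi' : |(i' : ℝ) / M| ≤ v := by
      rw [abs_div, abs_of_pos hM0]; exact hi'.2.2
    have hd : (c : ℝ) / r - c' / r' - ((n' - n : ℤ) : ℝ) = i' / M - i / M := by
      push_cast; linarith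
    have hdb : |(c : ℝ) / r - c' / r' - ((n' - n : ℤ) : ℝ)| < 1 / (R : ℝ) ^ 2 := by
      rw [hd]
      have h1 : |(i' : ℝ) / M - i / M| ≤ 2 * v := by
        have := abs_sub (i' / M : ℝ) (i / M : ℝ)
        linarith
      refine lt_of_le_of_lt h1 ?_
      rw [lt_div_iff₀ (by positivity)]
      exact hv
    have hEq : (⟨r, c⟩ : Σ _ : ℕ, ℕ) = ⟨r', c'⟩ := by
      by_contra hne
      have := hsep ⟨r, c⟩ hx.2 ⟨r', c'⟩ hx'.2 hne (n' - n)
      simp only at this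
      linarith
    have hr : r = r' := congrArg Sigma.fst hEq
    subst hr
    have hc : c = c' := by
      simpa using hEq
    subst hc
    have h6 : (i : ℝ) - i' = M * ((n' - n : ℤ) : ℝ) := by
      have h7 : -((n' - n : ℤ) : ℝ) = i' / M - i / M := by linarith
      field_simp at h7
      linarith
    have h8 : |((n' - n : ℤ) : ℝ)| < 1 := by
      have h9 : ((n' - n : ℤ) : ℝ) = i / M - i' / M := by
        have h7 : -((n' - n : ℤ) : ℝ) = i' / M - i / M := by linarith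
        linarith
      have h10 : |(c : ℝ) / r - c / r - ((n' - n : ℤ) : ℝ)| = |((n' - n : ℤ) : ℝ)| := by
        rw [sub_self, zero_sub, abs_neg]
      rw [h10] at hdb
      refine lt_of_lt_of_le hdb ?_
      rw [div_le_one (by positivity)]
      have : (1 : ℝ) ≤ R := by exact_mod_cast hR
      nlinarith
    have h11 : n' - n = 0 := by
      have : |(n' - n : ℤ)| < 1 := by exact_mod_cast h8
      exact Int.abs_lt_one_iff.mp this
    rw [h11] at h6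
    have h12 : (i : ℝ) = i' := by push_cast at h6; linarith
    have h13 : i = i' := by exact_mod_cast h12
    rw [h13]
  have h1 : ∑ x ∈ (Sh M 0 v) ×ˢ DD, F ((x.2.2 : ℝ) / x.2.1 + x.1 / M)
      = ∑ x ∈ (Sh M 0 v) ×ˢ DD, F (((φ x : ℕ) : ℝ) / M) := by
    refine sum_congr rfl fun x hx => ?_
    obtain ⟨n, hn⟩ := key x hx
    rw [hn, ARC_per F hF1]
  rw [h1, ← sum_image (f := fun j : ℕ => F ((j : ℝ) / M)) hinj]
  refine sum_le_sum_of_subset_of_nonneg ?_ fun _ _ _ => hF0 _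
  intro j hj
  rw [mem_image] at hj
  obtain ⟨x, hx, rfl⟩ := hj
  rw [mem_range]
  simp only [hφ]
  have h2 := Int.emod_lt_of_pos ((x.2.2 : ℤ) * ((M / x.2.1 : ℕ) : ℤ) + x.1) hMz
  have h3 := Int.emod_nonneg ((x.2.2 : ℤ) * ((M / x.2.1 : ℕ) : ℤ) + x.1) hMz.ne'
  omega

alias arcs := arcs_pr

end Pool.Agent.PV
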