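import Pool.Agent.Lib_helper92.PVF.Base

/-! PV, block SHO -/

set_option autoImplicit false

namespace Pool.Agent.PV

open Finset Complex Pool.Agent.Var35 Pool.Agent.Var73
open scoped ArithmeticFunction ArithmeticFunction.Moebius

lemma SHO_har (k0 : ℕ) (h0 : 1 ≤ k0) (n : ℕ) (hn : k0 ≤ n) :
    ∑ k ∈ Icc k0 n, 1 / (k : ℝ) ≤ 1 + Real.log ((n : ℝ) / k0) := by
  induction n, hn using Nat.le_induction with
  | base =>
    rw [Finset.Icc_self, Finset.sum_singleton, div_self (by positivity), Real.log_one, add_zero]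
    rw [div_le_one (by positivity)]
    exact_mod_cast h0
  | succ n hn ih =>
    rw [Finset.sum_Icc_succ_top (by omega), add_comm]
    have h1 : (0 : ℝ) < n := by exact_mod_cast (by omega)
    have h2 : (0 : ℝ) < k0 := by exact_mod_cast (by omega)
    have h3 : Real.log (((n + 1 : ℕ) : ℝ) / k0) = Real.log ((n : ℝ) / k0) + Real.log (((n : ℝ) + 1) / n) := by
      rw [← Real.log_mul (by positivity) (by positivity)]
      congr 1
      push_cast
      field_simp
    have h4 : 1 / ((n : ℝ) + 1) ≤ Real.log (((n : ℝ) + 1) / n) := by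
      have := Real.one_sub_inv_le_log_of_pos (x := ((n : ℝ) + 1) / n) (by positivity)
      refine le_trans (le_of_eq ?_) this
      rw [inv_div]
      field_simp
      ring
    rw [h3]
    push_cast
    linarith

lemma SHO_tot (m : ℕ) (hm : 1 ≤ m) :
    1 / (Nat.totient m : ℝ) = (1 / (m : ℝ)) * ∑ S ∈ m.primeFactors.powerset, ∏ p ∈ S, (1 / ((p : ℝ) - 1)) := by
  have h1 : (Nat.totient m : ℝ) = m * ∏ p ∈ m.primeFactors, (1 - (p : ℝ)⁻¹) := by
    have h := congrArg (fun x : ℚ => (x : ℝ)) (Nat.totient_eq_mul_prod_factors m)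
    push_cast at h
    exact h
  have h2 : ∑ S ∈ m.primeFactors.powerset, ∏ p ∈ S, (1 / ((p : ℝ) - 1))
      = ∏ p ∈ m.primeFactors, (1 + 1 / ((p : ℝ) - 1)) := by
    rw [Finset.prod_one_add]
  have h3 : ∏ p ∈ m.primeFactors, (1 + 1 / ((p : ℝ) - 1)) = (∏ p ∈ m.primeFactors, (1 - (p : ℝ)⁻¹))⁻¹ := by
    rw [← Finset.prod_inv_distrib]
    refine Finset.prod_congr rfl fun p hp => ?_
    have h4 : (2 : ℝ) ≤ p := by exact_mod_cast (Nat.prime_of_mem_primeFactors hp).two_le
    have h5 : (p : ℝ) - 1 ≠ 0 := by linarith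
    have h6 : (p : ℝ) ≠ 0 := by linarith
    field_simp
    ring
  rw [h2, h3, h1, one_div, mul_inv, one_div]

lemma SHO_div (u v : ℝ) (hu : 0 < u) (huv : u ≤ v) (d : ℕ) (hd : 1 ≤ d) :
    ∑ m ∈ (Icc 1 ⌊v⌋₊).filter (fun m : ℕ => u < m ∧ d ∣ m), 1 / (m : ℝ)
      ≤ (1 / (d : ℝ)) * (1 + Real.log (v / u)) := by
  have hd0 : (0 : ℝ) < d := by exact_mod_cast hd
  have hv : 0 < v := lt_of_lt_of_le hu huv
  have hlog : 0 ≤ Real.log (v / u) := Real.log_nonneg (by rw [le_div_iff₀ hu]; linarith)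
  set k0 : ℕ := ⌊u / d⌋₊ + 1 with hk0
  set n : ℕ := ⌊v / d⌋₊ with hn
  have h1 : ∑ m ∈ (Icc 1 ⌊v⌋₊).filter (fun m : ℕ => u < m ∧ d ∣ m), 1 / (m : ℝ)
      ≤ ∑ k ∈ Icc k0 n, (1 / (d : ℝ)) * (1 / (k : ℝ)) := by
    have h2 : (Icc 1 ⌊v⌋₊).filter (fun m : ℕ => u < m ∧ d ∣ m) ⊆ (Icc k0 n).image (fun k => d * k) := by
      intro m hm
      rw [mem_filter, Finset.mem_Icc] at hm
      obtain ⟨⟨_, h3⟩, h4, k, rfl⟩ := hm
      rw [mem_image]
      refine ⟨k, ?_, rfl⟩
      rw [Finset.mem_Icc]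
      push_cast at h4
      have h5 : ((d * k : ℕ) : ℝ) ≤ v := (Nat.le_floor_iff hv.le).mp h3
      push_cast at h5
      constructor
      · rw [hk0, Nat.succ_le_iff, Nat.floor_lt (by positivity), div_lt_iff₀ hd0]
        linarith
      · rw [hn, Nat.le_floor_iff (by positivity), le_div_iff₀ hd0]
        linarith
    refine (Finset.sum_le_sum_of_subset_of_nonneg h2 fun _ _ _ => by positivity).trans ?_
    rw [Finset.sum_image (fun a _ b _ h => Nat.eq_of_mul_eq_mul_left hd h)]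
    refine le_of_eq (Finset.sum_congr rfl fun k _ => ?_)
    push_cast
    rw [one_div_mul_one_div]
  refine h1.trans ?_
  rw [← Finset.mul_sum]
  refine mul_le_mul_of_nonneg_left ?_ (by positivity)
  by_cases hkn : k0 ≤ n
  · refine (SHO_har k0 (by omega) n hkn).trans ?_
    have h6 : (n : ℝ) ≤ v / d := Nat.floor_le (by positivity)
    have h7 : u / d ≤ k0 := by
      rw [hk0]; push_cast; exact (Nat.lt_floor_add_one _).le
    have h8 : (0 : ℝ) < k0 := by rw [hk0]; positivity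
    have h9 : (0 : ℝ) < n := by
      have : 1 ≤ n := le_trans (by omega) hkn
      exact_mod_cast this
    have h10 : (n : ℝ) / k0 ≤ v / u := by
      calc (n : ℝ) / k0 ≤ (v / d) / (u / d) := div_le_div₀ (by positivity) h6 (by positivity) h7
        _ = v / u := by field_simp
    have h11 := Real.log_le_log (by positivity) h10
    linarith
  · rw [Finset.Icc_eq_empty hkn, Finset.sum_empty]
    linarith

lemma SHO_prod (B : ℕ) : ∏ p ∈ (Icc 1 B).filter Nat.Prime, (1 + (1 / ((p : ℝ) - 1)) * (1 / (p : ℝ))) ≤ Real.exp 1 := by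
  have h1 : ∏ p ∈ (Icc 1 B).filter Nat.Prime, (1 + (1 / ((p : ℝ) - 1)) * (1 / (p : ℝ)))
      ≤ ∏ p ∈ (Icc 1 B).filter Nat.Prime, Real.exp ((1 / ((p : ℝ) - 1)) * (1 / (p : ℝ))) := by
    refine Finset.prod_le_prod (fun p hp => ?_) (fun p hp => ?_)
    · rw [mem_filter] at hp
      have h4 : (2 : ℝ) ≤ p := by exact_mod_cast hp.2.two_le
      have h5 : 0 < (p : ℝ) - 1 := by linarith
      positivity
    · rw [add_comm]; exact Real.add_one_le_exp _
  refine h1.trans ?_
  rw [← Real.exp_sum]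
  refine Real.exp_le_exp.mpr ?_
  have h2 : (Icc 1 B).filter Nat.Prime ⊆ Icc 2 B := by
    intro p hp
    rw [mem_filter, Finset.mem_Icc] at hp
    rw [Finset.mem_Icc]
    exact ⟨hp.2.two_le, hp.1.2⟩
  refine (Finset.sum_le_sum_of_subset_of_nonneg h2 fun p hp _ => ?_).trans ?_
  · rw [Finset.mem_Icc] at hp
    have h4 : (2 : ℝ) ≤ p := by exact_mod_cast hp.1
    have h5 : 0 < (p : ℝ) - 1 := by linarith
    positivity
  · have h3 : ∀ B : ℕ, 1 ≤ B → ∑ p ∈ Icc 2 B, (1 / ((p : ℝ) - 1)) * (1 / (p : ℝ)) = 1 - 1 / (B : ℝ) := by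
      intro B hB
      induction B, hB using Nat.le_induction with
      | base => simp
      | succ B hB ih =>
        rw [Finset.sum_Icc_succ_top (by omega), ih]
        have h4 : (0 : ℝ) < B := by exact_mod_cast hB
        push_cast
        have h5 : (B : ℝ) + 1 - 1 = B := by ring
        rw [h5]
        field_simp
        ring
    rcases Nat.eq_zero_or_pos B with h0 | h0
    · subst h0; simp
    · rw [h3 B h0]
      have : (0 : ℝ) ≤ 1 / (B : ℝ) := by positivity
      linarith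

theorem shortsum_pr : ∃ C : ℝ, 0 < C ∧ ∀ u v : ℝ, 0 < u → u ≤ v →
    ∑ m ∈ (Icc 1 ⌊v⌋₊).filter (fun m : ℕ => u < m), 1 / (Nat.totient m : ℝ) ≤ C * (1 + Real.log (v / u)) := by
  classical
  refine ⟨Real.exp 1, Real.exp_pos 1, fun u v hu huv => ?_⟩
  set P := (Icc 1 ⌊v⌋₊).filter Nat.Prime with hP
  have hlog : 0 ≤ Real.log (v / u) := Real.log_nonneg (by rw [le_div_iff₀ hu]; linarith)
  have hpos : ∀ S ∈ P.powerset, 0 ≤ ∏ p ∈ S, (1 / ((p : ℝ) - 1)) := by
    intro S hS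
    refine Finset.prod_nonneg fun p hp => ?_
    rw [mem_powerset] at hS
    have h1 := hS hp
    rw [hP, mem_filter] at h1
    have h4 : (2 : ℝ) ≤ p := by exact_mod_cast h1.2.two_le
    have h5 : 0 < (p : ℝ) - 1 := by linarith
    positivity
  have h1 : ∑ m ∈ (Icc 1 ⌊v⌋₊).filter (fun m : ℕ => u < m), 1 / (Nat.totient m : ℝ)
      ≤ ∑ m ∈ (Icc 1 ⌊v⌋₊).filter (fun m : ℕ => u < m), ∑ S ∈ P.powerset,
        if (∏ p ∈ S, p) ∣ m then (∏ p ∈ S, (1 / ((p : ℝ) - 1))) * (1 / (m : ℝ)) else 0 := by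
    refine Finset.sum_le_sum fun m hm => ?_
    rw [mem_filter, Finset.mem_Icc] at hm
    rw [SHO_tot m hm.1.1, Finset.mul_sum]
    have h2 : m.primeFactors.powerset ⊆ P.powerset := by
      refine Finset.powerset_mono.mpr fun p hp => ?_
      rw [hP, mem_filter, Finset.mem_Icc]
      have h3 := Nat.prime_of_mem_primeFactors hp
      exact ⟨⟨h3.one_lt.le, (Nat.le_of_dvd hm.1.1 (Nat.dvd_of_mem_primeFactors hp)).trans hm.1.2⟩, h3⟩
    refine le_trans ?_ (Finset.sum_le_sum_of_subset_of_nonneg h2 fun S hS _ => ?_)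
    · refine Finset.sum_le_sum fun S hS => ?_
      rw [mem_powerset] at hS
      rw [if_pos ((Finset.prod_dvd_prod_of_subset _ _ _ hS).trans (Nat.prod_primeFactors_dvd m)), mul_comm]
    · have := hpos S hS
      split_ifs
      · positivity
      · exact le_refl _
  refine h1.trans ?_
  rw [Finset.sum_comm]
  have h2 : ∀ S ∈ P.powerset, (∑ m ∈ (Icc 1 ⌊v⌋₊).filter (fun m : ℕ => u < m),
        if (∏ p ∈ S, p) ∣ m then (∏ p ∈ S, (1 / ((p : ℝ) - 1))) * (1 / (m : ℝ)) else 0)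
      ≤ (∏ p ∈ S, (1 / ((p : ℝ) - 1)) * (1 / (p : ℝ))) * (1 + Real.log (v / u)) := by
    intro S hS
    rw [← Finset.sum_filter, Finset.filter_filter, ← Finset.mul_sum]
    have h3 : 1 ≤ ∏ p ∈ S, p := by
      refine Nat.one_le_iff_ne_zero.mpr (Finset.prod_ne_zero_iff.mpr fun p hp => ?_)
      rw [mem_powerset] at hS
      have h4 := hS hp
      rw [hP, mem_filter] at h4
      exact h4.2.ne_zero
    refine (mul_le_mul_of_nonneg_left (SHO_div u v hu huv _ h3) (hpos S hS)).trans (le_of_eq ?_)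
    rw [Finset.prod_mul_distrib, mul_assoc]
    congr 2
    rw [Finset.prod_div_distrib]
    push_cast
    simp
  refine (Finset.sum_le_sum h2).trans ?_
  rw [← Finset.sum_mul, ← Finset.prod_one_add]
  exact mul_le_mul_of_nonneg_right (SHO_prod _) (by linarith)

alias shortsum := shortsum_pr

end Pool.Agent.PV
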