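import Pool.Agent.Lib_helper92.PVF.Base
import Pool.Agent.Lib_helper92.PVF.LQA
import Pool.Agent.Lib_helper92.PVF.LQC
import Pool.Agent.Lib_helper92.PVF.SHO
import Pool.Agent.Lib_helper92.PVF.HF

/-! PV, block MLB -/

set_option autoImplicit false

namespace Pool.Agent.PV

open Finset Complex Pool.Agent.Var35 Pool.Agent.Var73
open scoped ArithmeticFunction ArithmeticFunction.Moebius

lemma MLB_Tp_nonneg (b : ℕ → ℂ) (N q : ℕ) : 0 ≤ Tp b N q := by
  unfold Tp
  exact Finset.sum_nonneg (fun _ _ => by positivity)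

lemma MLB_divisors (R2 r : ℕ) (h1 : 1 ≤ r) (h2 : r ≤ R2) :
    r.divisors = (Icc 1 R2).filter (fun q => q ∣ r) := by
  ext q
  simp only [Nat.mem_divisors, Finset.mem_filter, Finset.mem_Icc]
  constructor
  · rintro ⟨hq, _⟩
    exact ⟨⟨Nat.pos_of_dvd_of_pos hq h1, (Nat.le_of_dvd h1 hq).trans h2⟩, hq⟩
  · rintro ⟨_, hq⟩
    exact ⟨hq, by omega⟩

lemma MLB_swap (b : ℕ → ℂ) (N R R2 : ℕ)
    (hb : ∀ n ∈ Icc 1 N, b n ≠ 0 → ∀ r ∈ Icc 1 R, Nat.Coprime n r) (hR : R2 ≤ R)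
    (A : Finset ℕ) (hA : A ⊆ Icc 1 R2) :
    ∑ r ∈ A, Hh b N r = ∑ q ∈ Icc 1 R2, (q / Nat.totient q : ℝ) * Tp b N q *
      ∑ r ∈ A.filter (fun r => q ∣ r ∧ Squarefree (r / q) ∧ Nat.Coprime (r / q) q),
        1 / (Nat.totient (r / q) : ℝ) := by
  have h1 : ∀ r ∈ A, Hh b N r = ∑ q ∈ Icc 1 R2,
      if q ∣ r ∧ Squarefree (r / q) ∧ Nat.Coprime (r / q) q then
        (q / Nat.totient q : ℝ) * Tp b N q * (1 / (Nat.totient (r / q) : ℝ)) else 0 := by
    intro r hr
    obtain ⟨hr1, hr2⟩ := Finset.mem_Icc.1 (hA hr)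
    rw [hf b N r hr1 (fun n hn hbn => hb n hn hbn r (Finset.mem_Icc.2 ⟨hr1, hr2.trans hR⟩))]
    rw [MLB_divisors R2 r hr1 hr2, Finset.sum_filter]
    apply Finset.sum_congr rfl
    intro q _
    by_cases hq : q ∣ r
    · simp only [hq, if_true, true_and]
      split_ifs
      · ring
      · simp
    · simp [hq]
  rw [Finset.sum_congr rfl h1, Finset.sum_comm]
  apply Finset.sum_congr rfl
  intro q _
  rw [Finset.mul_sum, Finset.sum_filter]

lemma MLB_upper (C : ℝ) (hC : ∀ u v : ℝ, 0 < u → u ≤ v →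
    ∑ m ∈ (Icc 1 ⌊v⌋₊).filter (fun m : ℕ => u < m), 1 / (Nat.totient m : ℝ)
      ≤ C * (1 + Real.log (v / u))) (R2 q : ℕ) (R1 : ℝ) (hR1 : 0 < R1) (hR12 : R1 ≤ R2)
    (hq : 1 ≤ q) :
    ∑ r ∈ ((Icc 1 R2).filter (fun r : ℕ => R1 < r)).filter
      (fun r => q ∣ r ∧ Squarefree (r / q) ∧ Nat.Coprime (r / q) q),
        1 / (Nat.totient (r / q) : ℝ) ≤ C * (1 + Real.log (R2 / R1)) := by
  have hq0 : (0 : ℝ) < q := by exact_mod_cast hq
  have h := hC (R1 / q) (R2 / q) (by positivity) (by gcongr)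
  have he : ((R2 : ℝ) / q) / (R1 / q) = R2 / R1 := by
    field_simp
  rw [he] at h
  refine le_trans ?_ h
  set S := ((Icc 1 R2).filter (fun r : ℕ => R1 < r)).filter
      (fun r => q ∣ r ∧ Squarefree (r / q) ∧ Nat.Coprime (r / q) q) with hS
  have hinj : Set.InjOn (fun r => r / q) (S : Set ℕ) := by
    intro r hr r' hr' hrr
    have hr := (Finset.mem_filter.1 hr).2.1
    have hr' := (Finset.mem_filter.1 hr').2.1
    simp only at hrr
    rw [← Nat.div_mul_cancel hr, ← Nat.div_mul_cancel hr', hrr]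
  have e1 : ∑ r ∈ S, 1 / (Nat.totient (r / q) : ℝ) =
      ∑ m ∈ S.image (fun r => r / q), 1 / (Nat.totient m : ℝ) := by
    rw [Finset.sum_image hinj]
  rw [e1]
  apply Finset.sum_le_sum_of_subset_of_nonneg
  · intro m hm
    obtain ⟨r, hr, rfl⟩ := Finset.mem_image.1 hm
    obtain ⟨hr1, hqr, _, _⟩ := Finset.mem_filter.1 hr
    obtain ⟨hr2, hr3⟩ := Finset.mem_filter.1 hr1
    obtain ⟨hr4, hr5⟩ := Finset.mem_Icc.1 hr2
    obtain ⟨m, rfl⟩ := hqr
    have hm0 : 1 ≤ m := by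
      rcases Nat.eq_zero_or_pos m with h0 | h0
      · subst h0; simp at hr4
      · exact h0
    rw [Nat.mul_div_cancel_left m hq]
    rw [Finset.mem_filter, Finset.mem_Icc]
    refine ⟨⟨hm0, ?_⟩, ?_⟩
    · rw [Nat.le_floor_iff (by positivity), le_div_iff₀ hq0]
      have : ((q * m : ℕ) : ℝ) ≤ R2 := by exact_mod_cast hr5
      push_cast at this
      linarith [mul_comm (q : ℝ) m]
    · rw [div_lt_iff₀ hq0]
      push_cast at hr3
      linarith [mul_comm (q : ℝ) m]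
  · intro m _ _
    positivity

lemma MLB_lower (R q : ℕ) (hq : 1 ≤ q) :
    Lq q (R / q) ≤ ∑ r ∈ (Icc 1 R).filter
      (fun r => q ∣ r ∧ Squarefree (r / q) ∧ Nat.Coprime (r / q) q),
        1 / (Nat.totient (r / q) : ℝ) := by
  unfold Lq
  set T := (Icc 1 (R / q)).filter (fun m => Squarefree m ∧ Nat.Coprime m q) with hT
  have hinj : Set.InjOn (fun m => q * m) (T : Set ℕ) := by
    intro m _ m' _ hmm
    exact Nat.eq_of_mul_eq_mul_left hq hmm
  have e1 : ∑ m ∈ T, 1 / (Nat.totient m : ℝ) =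
      ∑ r ∈ T.image (fun m => q * m), 1 / (Nat.totient (r / q) : ℝ) := by
    rw [Finset.sum_image hinj]
    apply Finset.sum_congr rfl
    intro m _
    rw [Nat.mul_div_cancel_left m hq]
  rw [e1]
  apply Finset.sum_le_sum_of_subset_of_nonneg
  · intro r hr
    obtain ⟨m, hm, rfl⟩ := Finset.mem_image.1 hr
    obtain ⟨hm1, hm2, hm3⟩ := Finset.mem_filter.1 hm
    obtain ⟨hm4, hm5⟩ := Finset.mem_Icc.1 hm1
    rw [Finset.mem_filter, Finset.mem_Icc]
    simp only [Nat.mul_div_cancel_left m hq]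
    refine ⟨⟨Nat.mul_pos hq hm4, ?_⟩, Dvd.intro m rfl, hm2, hm3⟩
    calc q * m ≤ q * (R / q) := Nat.mul_le_mul_left q hm5
      _ ≤ R := Nat.mul_div_le R q
  · intro r _ _
    positivity

/-- MLB -/
theorem ml2_pr : ∃ C : ℝ, 0 < C ∧ ∀ (b : ℕ → ℂ) (N R R2 : ℕ) (R1 ρ : ℝ),
    (∀ n ∈ Icc 1 N, b n ≠ 0 → ∀ r ∈ Icc 1 R, Nat.Coprime n r) → 0 < R1 → R1 ≤ R2 → R2 ≤ R →
    (∀ q ∈ Icc 1 R2, (q : ℝ) / Nat.totient q ≤ ρ) →
    Real.log (R / R2) * ∑ r ∈ (Icc 1 R2).filter (fun r : ℕ => R1 < r), Hh b N r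
      ≤ C * (1 + Real.log (R2 / R1)) * ρ * ∑ r ∈ Icc 1 R, Hh b N r := by
  obtain ⟨C, hC0, hC⟩ := shortsum
  refine ⟨C, hC0, ?_⟩
  intro b N R R2 R1 ρ hb hR1 hR12 hR2 hρ
  have hR2pos : 1 ≤ R2 := by
    rcases Nat.eq_zero_or_pos R2 with h0 | h0
    · subst h0
      simp at hR12
      linarith
    · exact h0
  have hR2R : (0 : ℝ) < R2 := by exact_mod_cast hR2pos
  have hRR : (0 : ℝ) < R := lt_of_lt_of_le hR2R (by exact_mod_cast hR2)
  have hρ1 : 0 ≤ ρ := by
    have := hρ 1 (Finset.mem_Icc.2 ⟨le_refl _, hR2pos⟩)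
    simp at this
    linarith
  have hlog1 : 0 ≤ Real.log (R / R2) := by
    apply Real.log_nonneg
    rw [le_div_iff₀ hR2R, one_mul]
    exact_mod_cast hR2
  have hlog2 : 0 ≤ Real.log (R2 / R1) := by
    apply Real.log_nonneg
    rw [le_div_iff₀ hR1, one_mul]
    exact hR12
  set S := ∑ q ∈ Icc 1 R2, Tp b N q with hS
  -- upper bound
  have hup : ∑ r ∈ (Icc 1 R2).filter (fun r : ℕ => R1 < r), Hh b N r ≤
      ρ * (C * (1 + Real.log (R2 / R1))) * S := by
    rw [MLB_swap b N R R2 hb hR2 _ (Finset.filter_subset _ _), hS, Finset.mul_sum]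
    apply Finset.sum_le_sum
    intro q hq
    have hq1 := (Finset.mem_Icc.1 hq).1
    have hT := MLB_Tp_nonneg b N q
    have h1 := MLB_upper C hC R2 q R1 hR1 hR12 hq1
    have h2 := hρ q hq
    have h3 : (0 : ℝ) ≤ (q / Nat.totient q : ℝ) := by positivity
    calc (q / Nat.totient q : ℝ) * Tp b N q * _
        ≤ (q / Nat.totient q : ℝ) * Tp b N q * (C * (1 + Real.log (R2 / R1))) :=
          mul_le_mul_of_nonneg_left h1 (by positivity)
      _ ≤ ρ * Tp b N q * (C * (1 + Real.log (R2 / R1))) := by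
          apply mul_le_mul_of_nonneg_right _ (by positivity)
          exact mul_le_mul_of_nonneg_right h2 hT
      _ = ρ * (C * (1 + Real.log (R2 / R1))) * Tp b N q := by ring
  -- lower bound
  have hlow : Real.log (R / R2) * S ≤ ∑ r ∈ Icc 1 R, Hh b N r := by
    rw [MLB_swap b N R R hb le_rfl (Icc 1 R) (Finset.Subset.refl _), hS, Finset.mul_sum]
    have hsub : Icc 1 R2 ⊆ Icc 1 R := Finset.Icc_subset_Icc le_rfl hR2
    refine le_trans ?_ (Finset.sum_le_sum_of_subset_of_nonneg hsub ?_)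
    · apply Finset.sum_le_sum
      intro q hq
      obtain ⟨hq1, hq2⟩ := Finset.mem_Icc.1 hq
      have hq0 : (0 : ℝ) < q := by exact_mod_cast hq1
      have hφ : (0 : ℝ) < Nat.totient q := by
        exact_mod_cast Nat.totient_pos.2 hq1
      have hT := MLB_Tp_nonneg b N q
      have h1 := MLB_lower R q hq1
      have h2 := lq_lower q (R / q) hq1
      have h3 := lq_one_lower (R / q)
      have h4 : Real.log (R / R2) ≤ Real.log (((R / q : ℕ) : ℝ) + 1) := by
        apply Real.log_le_log (by positivity)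
        have h5 : (R : ℝ) / q ≤ ((R / q : ℕ) : ℝ) + 1 := by
          have := Nat.lt_floor_add_one ((R : ℝ) / q)
          rw [Nat.floor_div_natCast, Nat.floor_natCast] at this
          exact this.le
        refine le_trans ?_ h5
        have : (q : ℝ) ≤ R2 := by exact_mod_cast hq2
        gcongr
      have h6 : (Nat.totient q / q : ℝ) * Real.log (R / R2) ≤
          ∑ r ∈ (Icc 1 R).filter
            (fun r => q ∣ r ∧ Squarefree (r / q) ∧ Nat.Coprime (r / q) q),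
              1 / (Nat.totient (r / q) : ℝ) := by
        refine le_trans ?_ (h2.trans h1)
        apply mul_le_mul_of_nonneg_left (h4.trans h3) (by positivity)
      calc Real.log (R / R2) * Tp b N q =
            (q / Nat.totient q : ℝ) * Tp b N q *
              ((Nat.totient q / q : ℝ) * Real.log (R / R2)) := by
            field_simp
        _ ≤ _ := mul_le_mul_of_nonneg_left h6 (by positivity)
    · intro q _ _
      have hT := MLB_Tp_nonneg b N q
      positivity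
  calc Real.log (R / R2) * ∑ r ∈ (Icc 1 R2).filter (fun r : ℕ => R1 < r), Hh b N r
      ≤ Real.log (R / R2) * (ρ * (C * (1 + Real.log (R2 / R1))) * S) :=
        mul_le_mul_of_nonneg_left hup hlog1
    _ = (ρ * (C * (1 + Real.log (R2 / R1)))) * (Real.log (R / R2) * S) := by ring
    _ ≤ (ρ * (C * (1 + Real.log (R2 / R1)))) * ∑ r ∈ Icc 1 R, Hh b N r :=
        mul_le_mul_of_nonneg_left hlow (by positivity)
    _ = _ := by ring

alias ml2 := ml2_pr

end Pool.Agent.PV
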