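import Pool.Agent.Lib_helper92.PVF.Base
import Pool.Agent.Lib_helper92.PVF.MEP

set_option autoImplicit false

namespace Pool.Agent.PV

open Finset Complex Pool.Agent.Var35 Pool.Agent.Var73
open scoped ArithmeticFunction ArithmeticFunction.Moebius

theorem rph_prod (r : ℕ) (hr : 1 ≤ r) :
    (r : ℝ) / Nat.totient r = ∏ p ∈ r.primeFactors, (1 - 1 / (p : ℝ))⁻¹ := by
  have h1 : ((Nat.totient r : ℚ) : ℝ) = ((r * ∏ p ∈ r.primeFactors, (1 - (p : ℚ)⁻¹) : ℚ) : ℝ) := by
    rw [Nat.totient_eq_mul_prod_factors]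
  push_cast at h1
  have h2 : ∏ p ∈ r.primeFactors, (1 - 1 / (p : ℝ))⁻¹ = (∏ p ∈ r.primeFactors, (1 - (p : ℝ)⁻¹))⁻¹ := by
    rw [← prod_inv_distrib]
    simp only [one_div]
  have h3 : (0 : ℝ) < Nat.totient r := by exact_mod_cast Nat.totient_pos.2 hr
  have h4 : (0 : ℝ) < r := by exact_mod_cast hr
  have h5 : ∏ p ∈ r.primeFactors, (1 - (p : ℝ)⁻¹) ≠ 0 := by
    intro h
    rw [h, mul_zero] at h1
    linarith
  rw [h2, h1]
  field_simp

/-- RPH -/
theorem rphi_pr : ∃ C : ℝ, 0 < C ∧ ∀ r : ℕ, 1 ≤ r →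
    (r : ℝ) / Nat.totient r ≤ C * (1 + Real.log (1 + Real.log r)) := by
  obtain ⟨C, hC, h⟩ := mert
  refine ⟨C * Real.exp 2, by positivity, fun r hr => ?_⟩
  have hr' : (1 : ℝ) ≤ r := by exact_mod_cast hr
  have hl : 0 ≤ Real.log r := Real.log_nonneg hr'
  obtain ⟨D, hDdef⟩ : ∃ D : ℕ, D = ⌊1 + Real.log r⌋₊ + 1 := ⟨_, rfl⟩
  have hf1 : 1 ≤ ⌊1 + Real.log r⌋₊ := by
    rw [Nat.one_le_floor_iff]
    linarith
  have hD2 : 2 ≤ D := by omega
  have hDl : 1 + Real.log r ≤ D := by
    rw [hDdef]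
    push_cast
    exact (Nat.lt_floor_add_one _).le
  have hDu : (D : ℝ) ≤ 2 + Real.log r := by
    rw [hDdef]
    push_cast
    have := Nat.floor_le (by linarith : 0 ≤ 1 + Real.log r)
    linarith
  have hD' : (2 : ℝ) ≤ D := by exact_mod_cast hD2
  have hfac : ∀ p : ℕ, p.Prime → 1 ≤ (1 - 1 / (p : ℝ))⁻¹ := by
    intro p hp
    have hp' : (2 : ℝ) ≤ p := by exact_mod_cast hp.two_le
    have h1 : 0 < 1 / (p : ℝ) := by positivity
    have h2 : 1 / (p : ℝ) < 1 := by
      rw [div_lt_one (by linarith)]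
      linarith
    exact (one_le_inv₀ (by linarith)).2 (by linarith)
  rw [rph_prod r hr, ← prod_filter_mul_prod_filter_not r.primeFactors (fun p => p ≤ D)]
  have h1 : ∏ p ∈ r.primeFactors with p ≤ D, (1 - 1 / (p : ℝ))⁻¹ ≤ C * Real.log D := by
    refine le_trans ?_ (h D hD2)
    have hsub : (r.primeFactors.filter (fun p => p ≤ D)) ⊆ (Icc 1 D).filter Nat.Prime := by
      intro p hp
      rw [mem_filter] at hp
      have hpp := Nat.prime_of_mem_primeFactors hp.1
      exact mem_filter.2 ⟨mem_Icc.2 ⟨hpp.one_lt.le, hp.2⟩, hpp⟩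
    rw [← prod_sdiff hsub]
    refine le_mul_of_one_le_left ?_ ?_
    · refine prod_nonneg fun p hp => ?_
      exact zero_le_one.trans (hfac p (Nat.prime_of_mem_primeFactors (mem_filter.1 hp).1))
    · calc (1 : ℝ) = ∏ p ∈ ((Icc 1 D).filter Nat.Prime) \ (r.primeFactors.filter (fun p => p ≤ D)), 1 := by
            rw [prod_const_one]
        _ ≤ _ := by
            refine prod_le_prod (fun _ _ => zero_le_one) fun p hp => ?_
            exact hfac p (mem_filter.1 (mem_sdiff.1 hp).1).2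
  have h2 : Real.log D ≤ 1 + Real.log (1 + Real.log r) := by
    have h3 : Real.log D ≤ Real.log (2 * (1 + Real.log r)) := Real.log_le_log (by linarith) (by linarith)
    rw [Real.log_mul (by norm_num) (by linarith)] at h3
    have h4 : Real.log 2 ≤ 1 := by
      have := Real.log_two_lt_d9
      linarith
    linarith
  -- the large primes
  set S := r.primeFactors.filter (fun p => ¬ p ≤ D) with hS
  have h3 : ∏ p ∈ S, (1 - 1 / (p : ℝ))⁻¹ ≤ Real.exp 2 := by
    have h4 : ∀ p ∈ S, (1 - 1 / (p : ℝ))⁻¹ ≤ Real.exp (1 / D) := by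
      intro p hp
      rw [hS, mem_filter] at hp
      have hpD : (D : ℝ) + 1 ≤ p := by
        have : D + 1 ≤ p := by omega
        exact_mod_cast this
      have h5 : (1 - 1 / (p : ℝ))⁻¹ = 1 / ((p : ℝ) - 1) + 1 := by
        have h2 : (p : ℝ) - 1 ≠ 0 := by linarith
        have h3 : (p : ℝ) ≠ 0 := by linarith
        rw [inv_eq_one_div]
        field_simp
        ring
      rw [h5]
      refine (Real.add_one_le_exp _).trans (Real.exp_le_exp.2 ?_)
      exact one_div_le_one_div_of_le (by linarith) (by linarith)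
    have h5 : ∏ p ∈ S, (1 - 1 / (p : ℝ))⁻¹ ≤ ∏ p ∈ S, Real.exp (1 / D) := by
      refine prod_le_prod ?_ h4
      intro p hp
      rw [hS, mem_filter] at hp
      exact zero_le_one.trans (hfac p (Nat.prime_of_mem_primeFactors hp.1))
    refine h5.trans ?_
    rw [prod_const, ← Real.exp_nat_mul]
    refine Real.exp_le_exp.2 ?_
    -- 2 ^ card S <= r
    have h6 : 2 ^ S.card ≤ r := by
      have h7 : 2 ^ S.card ≤ ∏ p ∈ S, p := by
        refine pow_card_le_prod S (fun p => p) 2 ?_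
        intro p hp
        rw [hS, mem_filter] at hp
        exact (Nat.prime_of_mem_primeFactors hp.1).two_le
      have h8 : ∏ p ∈ S, p ∣ r := by
        refine dvd_trans ?_ (Nat.prod_primeFactors_dvd r)
        exact prod_dvd_prod_of_subset _ _ _ (filter_subset _ _)
      exact h7.trans (Nat.le_of_dvd (by omega) h8)
    have h9 : (S.card : ℝ) * Real.log 2 ≤ Real.log r := by
      have : Real.log ((2 : ℝ) ^ S.card) ≤ Real.log r :=
        Real.log_le_log (by positivity) (by exact_mod_cast h6)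
      rwa [Real.log_pow] at this
    have h10 : 1 / 2 < Real.log 2 := by
      have := Real.log_two_gt_d9
      linarith
    have h11 : (S.card : ℝ) ≤ 2 * D := by
      have h12 : (0 : ℝ) ≤ S.card := Nat.cast_nonneg _
      nlinarith
    rw [mul_one_div, div_le_iff₀ (by linarith)]
    exact h11
  calc (∏ p ∈ r.primeFactors with p ≤ D, (1 - 1 / (p : ℝ))⁻¹) * ∏ p ∈ S, (1 - 1 / (p : ℝ))⁻¹
      ≤ (C * Real.log D) * Real.exp 2 := by
        refine mul_le_mul h1 h3 ?_ (mul_nonneg hC.le (Real.log_nonneg (by linarith)))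
        refine prod_nonneg fun p hp => ?_
        rw [hS, mem_filter] at hp
        exact zero_le_one.trans (hfac p (Nat.prime_of_mem_primeFactors hp.1))
    _ ≤ (C * (1 + Real.log (1 + Real.log r))) * Real.exp 2 := by
        gcongr
    _ = C * Real.exp 2 * (1 + Real.log (1 + Real.log r)) := by ring

alias rphi := rphi_pr

end Pool.Agent.PV
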