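import Pool.Agent.Lib_helper92.PVF.Base
import Mathlib
import Pool.Agent.Lib_helper92.PVF.PAR
import Pool.Agent.Lib_helper92.PVF.RPH
import Pool.Agent.Lib_helper92.PVF.MLB
import Pool.Agent.Lib_helper92.PVF.ARC

set_option autoImplicit false

namespace Pool.Agent.PV

open Finset Complex Pool.Agent.Var35 Pool.Agent.Var73
open scoped ArithmeticFunction ArithmeticFunction.Moebius

/-! Common part of the blocks THA, THG. -/

theorem thx_Fp_nonneg (N : ℕ) (x : ℝ) : 0 ≤ Fp N x := by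
  unfold Fp
  positivity

theorem thx_Fp_add_one (N : ℕ) (x : ℝ) : Fp N (x + 1) = Fp N x := by
  unfold Fp Ps Bs
  congr 2
  refine Finset.sum_congr rfl fun n _ => ?_
  congr 1
  have h : (n : ℝ) * (x + 1) = (n : ℝ) * x + ((n : ℤ) : ℝ) := by push_cast; ring
  rw [h, e_add_int]

theorem thx_Hh (N M r : ℕ) (i : ℤ) :
    Hh (fun n => (aS N n : ℂ) * e (n * ((i : ℝ) / M))) N r =
      ∑ c ∈ Cd r, Fp N (c / r + i / M) := by
  unfold Hh Fp Ps Bs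
  refine Finset.sum_congr rfl fun c _ => ?_
  congr 2
  refine Finset.sum_congr rfl fun n _ => ?_
  have h : (n : ℝ) * ((c : ℝ) / r + (i : ℝ) / M) = (n : ℝ) * ((i : ℝ) / M) + (n : ℝ) * ((c : ℝ) / r) := by
    ring
  rw [h, e_add]
  ring

theorem thx_A2 (N M : ℕ) (hM : 4 * N < M) :
    (1 / (M : ℝ)) * ∑ j ∈ range M, Fp N (j / M) = A2 N := by
  have h := pars N M hM (fun n => (aS N n : ℂ))
  unfold Fp Ps A2
  rw [h]
  refine Finset.sum_congr rfl fun n _ => ?_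
  rw [Complex.norm_real, Real.norm_eq_abs, sq_abs]

theorem thx_A2_nonneg (N : ℕ) : 0 ≤ A2 N := by
  unfold A2
  exact Finset.sum_nonneg fun n _ => sq_nonneg _

theorem thx_core : ∃ C : ℝ, 0 < C ∧ ∀ (N M R : ℕ) (v ρ Lb lam : ℝ) (J : Finset ℤ) (R1 : ℤ → ℝ)
    (R2 : ℤ → ℕ), Good N M → R ≤ Nat.sqrt N → 0 ≤ v → 2 * v * (R : ℝ) ^ 2 < 1 →
    J ⊆ Sh M 0 v → 0 < lam → 0 ≤ ρ → 0 ≤ Lb →
    (∀ i ∈ J, 0 < R1 i ∧ R1 i ≤ R2 i ∧ R2 i ≤ R ∧ 1 + Real.log (R2 i / R1 i) ≤ Lb ∧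
      lam ≤ Real.log (R / R2 i) ∧ ∀ q ∈ Icc 1 (R2 i), (q : ℝ) / Nat.totient q ≤ ρ) →
    (1 / (M : ℝ)) * ∑ i ∈ J, ∑ r ∈ (Icc 1 (R2 i)).filter (fun r : ℕ => R1 i < r),
      ∑ c ∈ Cd r, Fp N (c / r + i / M) ≤ C * ρ * Lb / lam * A2 N := by
  obtain ⟨C, hC, hml⟩ := ml2
  refine ⟨C, hC, ?_⟩
  intro N M R v ρ Lb lam J R1 R2 hG hR hv hvR hJ hlam hρ hLb H
  have hA2 := thx_A2_nonneg N
  rcases J.eq_empty_or_nonempty with hJe | ⟨i0, hi0⟩
  · rw [hJe, Finset.sum_empty, mul_zero]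
    positivity
  have hR1 : 1 ≤ R := by
    obtain ⟨h1, h2, h3, -⟩ := H i0 hi0
    have h4 : (0 : ℝ) < R2 i0 := lt_of_lt_of_le h1 h2
    have h5 : 0 < R2 i0 := by exact_mod_cast h4
    omega
  have hMpos : 0 < M := by have := hG.1; omega
  have hMr : (0 : ℝ) < M := by exact_mod_cast hMpos
  have hterm : ∀ i ∈ J, lam * ∑ r ∈ (Icc 1 (R2 i)).filter (fun r : ℕ => R1 i < r),
      ∑ c ∈ Cd r, Fp N (c / r + i / M) ≤
      (C * ρ * Lb) * ∑ r ∈ Icc 1 R, ∑ c ∈ Cd r, Fp N (c / r + i / M) := by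
    intro i hi
    obtain ⟨h1, h2, h3, h4, h5, h6⟩ := H i hi
    have h7 := hml (fun n => (aS N n : ℂ) * e (n * ((i : ℝ) / M))) N R (R2 i) (R1 i) ρ (by
      intro n _ hn r hr
      have h8 : aS N n ≠ 0 := by
        intro h9
        apply hn
        simp only [h9, Complex.ofReal_zero, zero_mul]
      unfold aS at h8
      split_ifs at h8 with h9
      · rw [Finset.mem_Icc] at hr
        rw [Nat.Prime.coprime_iff_not_dvd h9.1]
        exact Nat.not_dvd_of_pos_of_lt (by omega) (by omega)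
      · exact absurd rfl h8) h1 h2 h3 h6
    simp only [thx_Hh] at h7
    have h8 : 0 ≤ ∑ r ∈ (Icc 1 (R2 i)).filter (fun r : ℕ => R1 i < r),
        ∑ c ∈ Cd r, Fp N (c / r + i / M) :=
      Finset.sum_nonneg fun r _ => Finset.sum_nonneg fun c _ => thx_Fp_nonneg _ _
    have h9 : 0 ≤ ∑ r ∈ Icc 1 R, ∑ c ∈ Cd r, Fp N (c / r + i / M) :=
      Finset.sum_nonneg fun r _ => Finset.sum_nonneg fun c _ => thx_Fp_nonneg _ _
    calc lam * ∑ r ∈ (Icc 1 (R2 i)).filter (fun r : ℕ => R1 i < r),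
          ∑ c ∈ Cd r, Fp N (c / r + i / M) ≤
        Real.log (R / R2 i) * ∑ r ∈ (Icc 1 (R2 i)).filter (fun r : ℕ => R1 i < r),
          ∑ c ∈ Cd r, Fp N (c / r + i / M) := mul_le_mul_of_nonneg_right h5 h8
      _ ≤ C * (1 + Real.log (R2 i / R1 i)) * ρ *
          ∑ r ∈ Icc 1 R, ∑ c ∈ Cd r, Fp N (c / r + i / M) := h7
      _ ≤ (C * ρ * Lb) * ∑ r ∈ Icc 1 R, ∑ c ∈ Cd r, Fp N (c / r + i / M) := by
          refine mul_le_mul_of_nonneg_right ?_ h9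
          have h10 : C * ρ * (1 + Real.log (R2 i / R1 i)) ≤ C * ρ * Lb :=
            mul_le_mul_of_nonneg_left h4 (by positivity)
          linarith
  have hsum : ∑ i ∈ J, ∑ r ∈ Icc 1 R, ∑ c ∈ Cd r, Fp N (c / r + i / M) ≤
      ∑ j ∈ range M, Fp N (j / M) := by
    refine le_trans ?_ (arcs M R v (by omega) hR1 (fun r h1 h2 => hG.2 r h1 (by omega)) hv hvR
      (Fp N) (thx_Fp_nonneg N) (thx_Fp_add_one N))
    exact Finset.sum_le_sum_of_subset_of_nonneg hJ fun i _ _ =>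
      Finset.sum_nonneg fun r _ => Finset.sum_nonneg fun c _ => thx_Fp_nonneg _ _
  have h1 : lam * ((1 / (M : ℝ)) * ∑ i ∈ J, ∑ r ∈ (Icc 1 (R2 i)).filter
      (fun r : ℕ => R1 i < r), ∑ c ∈ Cd r, Fp N (c / r + i / M)) ≤ C * ρ * Lb * A2 N := by
    calc lam * ((1 / (M : ℝ)) * ∑ i ∈ J, ∑ r ∈ (Icc 1 (R2 i)).filter
        (fun r : ℕ => R1 i < r), ∑ c ∈ Cd r, Fp N (c / r + i / M)) =
        (1 / (M : ℝ)) * ∑ i ∈ J, lam * ∑ r ∈ (Icc 1 (R2 i)).filter (fun r : ℕ => R1 i < r),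
          ∑ c ∈ Cd r, Fp N (c / r + i / M) := by
          rw [← Finset.mul_sum]; ring
      _ ≤ (1 / (M : ℝ)) * ∑ i ∈ J, (C * ρ * Lb) *
          ∑ r ∈ Icc 1 R, ∑ c ∈ Cd r, Fp N (c / r + i / M) :=
          mul_le_mul_of_nonneg_left (Finset.sum_le_sum hterm) (by positivity)
      _ = (C * ρ * Lb) * ((1 / (M : ℝ)) *
          ∑ i ∈ J, ∑ r ∈ Icc 1 R, ∑ c ∈ Cd r, Fp N (c / r + i / M)) := by
          rw [← Finset.mul_sum]; ring
      _ ≤ (C * ρ * Lb) * ((1 / (M : ℝ)) * ∑ j ∈ range M, Fp N (j / M)) :=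
          mul_le_mul_of_nonneg_left (mul_le_mul_of_nonneg_left hsum (by positivity))
            (by positivity)
      _ = C * ρ * Lb * A2 N := by rw [thx_A2 N M hG.1]
  have h2 : C * ρ * Lb / lam * A2 N = (C * ρ * Lb * A2 N) / lam := by ring
  rw [h2, le_div_iff₀ hlam]
  linarith

theorem thx_cover {α κ : Type*} [DecidableEq α] (X : Finset α) (K : Finset κ)
    (Xk : κ → Finset α) (a G : α → ℝ) (w : κ → ℝ) (hG : ∀ x, 0 ≤ G x) (hw : ∀ k ∈ K, 0 ≤ w k)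
    (h : ∀ x ∈ X, a x = 0 ∨ ∃ k ∈ K, x ∈ Xk k ∧ a x ≤ w k) :
    ∑ x ∈ X, a x * G x ≤ ∑ k ∈ K, w k * ∑ x ∈ Xk k, G x := by
  have h1 : ∀ x ∈ X, a x * G x ≤ ∑ k ∈ K, (if x ∈ Xk k then w k * G x else 0) := by
    intro x hx
    have hn : ∀ k ∈ K, 0 ≤ (if x ∈ Xk k then w k * G x else 0) := fun k hk => by
      split_ifs
      · exact mul_nonneg (hw k hk) (hG x)
      · exact le_rfl
    rcases h x hx with h2 | ⟨k, hk, hxk, hak⟩
    · rw [h2, zero_mul]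
      exact Finset.sum_nonneg hn
    · refine le_trans ?_ (Finset.single_le_sum hn hk)
      rw [if_pos hxk]
      exact mul_le_mul_of_nonneg_right hak (hG x)
  refine (Finset.sum_le_sum h1).trans ?_
  rw [Finset.sum_comm]
  refine Finset.sum_le_sum fun k hk => ?_
  rw [← Finset.sum_filter, Finset.mul_sum]
  refine Finset.sum_le_sum_of_subset_of_nonneg ?_ fun x _ _ => mul_nonneg (hw k hk) (hG x)
  intro x hx
  exact (Finset.mem_filter.mp hx).2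

theorem thx_gen : ∃ C : ℝ, 0 < C ∧ ∀ (N M : ℕ) (ρ Lb lam : ℝ) (K : Finset ℕ)
    (R : ℕ → ℕ) (v : ℕ → ℝ) (J : ℕ → Finset ℤ) (R1 : ℕ → ℤ → ℝ)
    (R2 : ℕ → ℤ → ℕ) (W : ℕ → ℝ) (w : ℕ → ℝ → ℝ), Good N M →
    (∀ k ∈ K, R k ≤ Nat.sqrt N ∧ 0 ≤ v k ∧ 2 * v k * (R k : ℝ) ^ 2 < 1 ∧ J k ⊆ Sh M 0 (v k) ∧
      0 ≤ W k) → 0 < lam → 0 ≤ ρ → 0 ≤ Lb →
    (∀ k ∈ K, ∀ i ∈ J k, 0 < R1 k i ∧ R1 k i ≤ R2 k i ∧ R2 k i ≤ R k ∧
      1 + Real.log (R2 k i / R1 k i) ≤ Lb ∧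
      lam ≤ Real.log (R k / R2 k i) ∧ ∀ q ∈ Icc 1 (R2 k i), (q : ℝ) / Nat.totient q ≤ ρ) →
    (∀ i ∈ Sh M 0 1, ∀ r ∈ Icc 1 (Nat.sqrt N), w r (i / M) = 0 ∨
      ∃ k ∈ K, i ∈ J k ∧ R1 k i < r ∧ r ≤ R2 k i ∧ w r (i / M) ≤ W k) →
    Th w N M ≤ (∑ k ∈ K, W k) * (C * ρ * Lb / lam) * A2 N := by
  obtain ⟨C, hC, hcore⟩ := thx_core
  refine ⟨C, hC, ?_⟩
  intro N M ρ Lb lam K R v J R1 R2 W w hG hK hlam hρ hLb H hcov
  have hMr : (0 : ℝ) ≤ M := Nat.cast_nonneg _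
  have h1 : Th w N M = (1 / (M : ℝ)) * ∑ x ∈ (Sh M 0 1).sigma (fun _ => Icc 1 (Nat.sqrt N)),
      w x.2 (x.1 / M) * ∑ c ∈ Cd x.2, Fp N (c / x.2 + x.1 / M) := by
    unfold Th
    congr 1
    rw [Finset.sum_sigma, Finset.sum_comm]
    refine Finset.sum_congr rfl fun i _ => Finset.sum_congr rfl fun r _ => ?_
    rw [Finset.mul_sum]
  have h2 := thx_cover ((Sh M 0 1).sigma (fun _ => Icc 1 (Nat.sqrt N))) K
    (fun k => (J k).sigma (fun i => (Icc 1 (R2 k i)).filter (fun r : ℕ => R1 k i < r)))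
    (fun x => w x.2 (x.1 / M)) (fun x => ∑ c ∈ Cd x.2, Fp N (c / x.2 + x.1 / M)) W
    (fun x => Finset.sum_nonneg fun c _ => thx_Fp_nonneg _ _) (fun k hk => (hK k hk).2.2.2.2) (by
      intro x hx
      rw [Finset.mem_sigma] at hx
      rcases hcov x.1 hx.1 x.2 hx.2 with h | ⟨k, hk, h3, h4, h5, h6⟩
      · exact Or.inl h
      · refine Or.inr ⟨k, hk, ?_, h6⟩
        rw [Finset.mem_sigma, Finset.mem_filter, Finset.mem_Icc]
        have h7 := (Finset.mem_Icc.mp hx.2).1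
        exact ⟨h3, ⟨h7, h5⟩, h4⟩)
  rw [h1]
  calc (1 / (M : ℝ)) * ∑ x ∈ (Sh M 0 1).sigma (fun _ => Icc 1 (Nat.sqrt N)),
      w x.2 (x.1 / M) * ∑ c ∈ Cd x.2, Fp N (c / x.2 + x.1 / M) ≤
      (1 / (M : ℝ)) * ∑ k ∈ K, W k * ∑ x ∈ (J k).sigma (fun i => (Icc 1 (R2 k i)).filter
        (fun r : ℕ => R1 k i < r)), ∑ c ∈ Cd x.2, Fp N (c / x.2 + x.1 / M) :=
        mul_le_mul_of_nonneg_left h2 (by positivity)
    _ = ∑ k ∈ K, W k * ((1 / (M : ℝ)) * ∑ i ∈ J k, ∑ r ∈ (Icc 1 (R2 k i)).filter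
        (fun r : ℕ => R1 k i < r), ∑ c ∈ Cd r, Fp N (c / r + i / M)) := by
        rw [Finset.mul_sum]
        refine Finset.sum_congr rfl fun k _ => ?_
        rw [Finset.sum_sigma]
        ring
    _ ≤ ∑ k ∈ K, W k * (C * ρ * Lb / lam * A2 N) := by
        refine Finset.sum_le_sum fun k hk => ?_
        obtain ⟨e1, e2, e3, e4, e5⟩ := hK k hk
        exact mul_le_mul_of_nonneg_left (hcore N M (R k) (v k) ρ Lb lam (J k) (R1 k) (R2 k) hG e1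
          e2 e3 e4 hlam hρ hLb (H k hk)) e5
    _ = _ := by rw [← Finset.sum_mul]; ring

/-- logarithmic factors are negligible -/
theorem thx_asy1 (c : ℝ) (hc : 0 < c) : ∃ L0 : ℝ, 1 ≤ L0 ∧ ∀ L ≥ L0,
    c * (1 + Real.log (1 + L)) ^ 2 * (1 + Real.log (1 + 16 * L ^ 2)) ≤ L := by
  have h1 := (Real.isLittleO_pow_log_id_atTop (n := 3)).def
    (show (0 : ℝ) < 1 / (90 * c) by positivity)
  rw [Filter.eventually_atTop] at h1
  obtain ⟨a, ha⟩ := h1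
  refine ⟨max a 100, le_trans (by norm_num) (le_max_right _ _), ?_⟩
  intro L hL
  have hLa : a ≤ L := (le_max_left _ _).trans hL
  have hL100 : 100 ≤ L := (le_max_right _ _).trans hL
  have h2 := ha L hLa
  have hlog1 : 1 ≤ Real.log L := by
    rw [Real.le_log_iff_exp_le (by linarith)]
    have := Real.exp_one_lt_d9
    linarith
  have hlogpos : 0 ≤ Real.log L := by linarith
  rw [Real.norm_eq_abs, abs_of_nonneg (by positivity), id, Real.norm_eq_abs,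
    abs_of_nonneg (by linarith)] at h2
  have h3 : Real.log (1 + L) ≤ 2 * Real.log L := by
    rw [← Real.log_rpow (by linarith)]
    refine Real.log_le_log (by linarith) ?_
    rw [Real.rpow_two]
    nlinarith
  have h4 : Real.log (1 + 16 * L ^ 2) ≤ 4 * Real.log L := by
    have h5 : Real.log (L ^ 4) = 4 * Real.log L := by
      rw [Real.log_pow]; norm_num
    rw [← h5]
    refine Real.log_le_log (by positivity) ?_
    have h6 : 100 * 100 ≤ L ^ 2 := by nlinarith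
    nlinarith
  have h5 : 1 + Real.log (1 + L) ≤ 3 * Real.log L := by linarith
  have h6 : 1 + Real.log (1 + 16 * L ^ 2) ≤ 5 * Real.log L := by linarith
  have h7 : 0 ≤ 1 + Real.log (1 + L) := by
    have := Real.log_nonneg (show 1 ≤ 1 + L by linarith)
    linarith
  have h8 : 0 ≤ 1 + Real.log (1 + 16 * L ^ 2) := by
    have := Real.log_nonneg (show 1 ≤ 1 + 16 * L ^ 2 by nlinarith)
    linarith
  calc c * (1 + Real.log (1 + L)) ^ 2 * (1 + Real.log (1 + 16 * L ^ 2)) ≤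
      c * (3 * Real.log L) ^ 2 * (5 * Real.log L) := by
        refine mul_le_mul ?_ h6 h8 (by positivity)
        exact mul_le_mul_of_nonneg_left (pow_le_pow_left₀ h7 h5 2) hc.le
    _ = (45 * c) * Real.log L ^ 3 := by ring
    _ ≤ (45 * c) * (1 / (90 * c) * L) := mul_le_mul_of_nonneg_left h2 (by positivity)
    _ = L / 2 := by field_simp; norm_num
    _ ≤ L := by linarith

theorem thx_asy2 (δ : ℝ) (hδ : 0 < δ) : ∃ L0 : ℝ, 1 ≤ L0 ∧ ∀ L ≥ L0,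
    12 * L ^ 2 ≤ Real.exp (δ * L) := by
  have h1 := (Real.tendsto_exp_div_pow_atTop 2).eventually_ge_atTop (12 / δ ^ 2)
  rw [Filter.eventually_atTop] at h1
  obtain ⟨a, ha⟩ := h1
  refine ⟨max 1 (a / δ), le_max_left _ _, ?_⟩
  intro L hL
  have hL1 : 1 ≤ L := (le_max_left _ _).trans hL
  have hLa : a ≤ δ * L := by
    have := (le_max_right _ _).trans hL
    rw [div_le_iff₀ hδ] at this
    linarith
  have h2 := ha (δ * L) hLa
  have h3 : 0 < (δ * L) ^ 2 := by positivity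
  rw [le_div_iff₀ h3] at h2
  calc 12 * L ^ 2 = 12 / δ ^ 2 * (δ * L) ^ 2 := by field_simp
    _ ≤ _ := h2

theorem thx_nat_log (L0 : ℝ) : ∃ N0 : ℕ, 8 ≤ N0 ∧ ∀ N ≥ N0, L0 ≤ Real.log N := by
  obtain ⟨n, hn⟩ := exists_nat_gt (Real.exp L0)
  refine ⟨max 8 n, le_max_left _ _, ?_⟩
  intro N hN
  have h1 : (n : ℝ) ≤ N := by exact_mod_cast (le_max_right _ _).trans hN
  have h2 : (0 : ℝ) < N := lt_of_lt_of_le (lt_trans (Real.exp_pos _) hn) h1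
  rw [Real.le_log_iff_exp_le h2]
  linarith

/-- the function `q / phi q` -/
theorem thx_rho : ∃ C : ℝ, 0 < C ∧ ∀ N q : ℕ, 1 ≤ q → q ≤ N →
    (q : ℝ) / Nat.totient q ≤ C * (1 + Real.log (1 + Real.log N)) := by
  obtain ⟨C, hC, h⟩ := rphi
  refine ⟨C, hC, fun N q h1 h2 => (h q h1).trans ?_⟩
  refine mul_le_mul_of_nonneg_left ?_ hC.le
  have h3 : (1 : ℝ) ≤ q := by exact_mod_cast h1
  have h4 : (q : ℝ) ≤ N := by exact_mod_cast h2
  have h5 : 0 ≤ Real.log q := Real.log_nonneg h3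
  have h6 : Real.log q ≤ Real.log N := Real.log_le_log (by linarith) h4
  have h7 : Real.log (1 + Real.log q) ≤ Real.log (1 + Real.log N) :=
    Real.log_le_log (by linarith) (by linarith)
  linarith

/-- powers of `N` -/
theorem thx_pow (N : ℕ) (hN : 1 ≤ N) (ε : ℝ) :
    (N : ℝ) ^ (1 / 2 + ε) = Real.sqrt N * Real.exp (ε / 4 * Real.log N) ^ 4 ∧
      (N : ℝ) ^ ε = Real.exp (ε / 4 * Real.log N) ^ 4 := by
  have h1 : (0 : ℝ) < N := by exact_mod_cast hN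
  have h2 : (N : ℝ) ^ ε = Real.exp (ε / 4 * Real.log N) ^ 4 := by
    rw [Real.rpow_def_of_pos h1, ← Real.exp_nat_mul]
    congr 1
    push_cast
    ring
  refine ⟨?_, h2⟩
  rw [Real.rpow_add h1, h2, Real.sqrt_eq_rpow]

/-- rounding -/
theorem thx_ratio (E x : ℝ) (R2 : ℕ) (hE : 1 ≤ E) (hR : 1 ≤ R2) (h : 2 * E * R2 ≤ x) :
    R2 ≤ ⌊x⌋₊ ∧ Real.log E ≤ Real.log ((⌊x⌋₊ : ℝ) / R2) := by
  have h1 : (1 : ℝ) ≤ R2 := by exact_mod_cast hR
  have h2 : x < ⌊x⌋₊ + 1 := Nat.lt_floor_add_one x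
  have h3 : E * R2 ≤ ⌊x⌋₊ := by nlinarith
  have h4 : (R2 : ℝ) ≤ ⌊x⌋₊ := by nlinarith
  refine ⟨by exact_mod_cast h4, Real.log_le_log (by linarith) ?_⟩
  rw [le_div_iff₀ (by linarith)]
  exact h3

end Pool.Agent.PV
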