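import Pool.Agent.Lib_helper92.PVF.Base
import Mathlib
import Pool.Agent.Lib_helper92.PVF.HF
import Pool.Agent.Lib_helper92.PVF.THX

set_option autoImplicit false

namespace Pool.Agent.PV

open Finset Complex Pool.Agent.Var35 Pool.Agent.Var73
open scoped ArithmeticFunction ArithmeticFunction.Moebius

theorem tha_min (x : ℝ) (hx : 0 ≤ x) :
    min 1 x ≤ 4 * (Real.log (1 + 2 * x) - Real.log (1 + x)) := by
  have h1 : Real.log (1 + 2 * x) - Real.log (1 + x) = Real.log ((1 + 2 * x) / (1 + x)) := by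
    rw [Real.log_div (by linarith) (by linarith)]
  have h2 : 1 - ((1 + 2 * x) / (1 + x))⁻¹ ≤ Real.log ((1 + 2 * x) / (1 + x)) :=
    Real.one_sub_inv_le_log_of_pos (by positivity)
  have h3 : 1 - ((1 + 2 * x) / (1 + x))⁻¹ = x / (1 + 2 * x) := by
    rw [inv_div]
    have : (1 + 2 * x) ≠ 0 := by positivity
    field_simp
    ring
  rw [h1]
  rw [h3] at h2
  refine le_trans ?_ (mul_le_mul_of_nonneg_left h2 (by norm_num))
  rcases le_total x 1 with h | h
  · rw [min_eq_right h, mul_div_assoc', le_div_iff₀ (by linarith)]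
    nlinarith
  · rw [min_eq_left h, mul_div_assoc', le_div_iff₀ (by linarith)]
    nlinarith

theorem tha_sum (n : ℕ) (a X : ℝ) (ha : 0 ≤ a) (hX : 0 ≤ X) (K : Finset ℕ) (hK : K ⊆ range n)
    (h : ∀ k ∈ K, (2 : ℝ) ^ k * a ≤ X) :
    ∑ k ∈ K, min 1 ((2 : ℝ) ^ k * a) ≤ 4 * Real.log (1 + 2 * X) := by
  have hmono : ∀ k : ℕ, min (2 * X) ((2 : ℝ) ^ k * a) ≤ min (2 * X) ((2 : ℝ) ^ (k + 1) * a) := by
    intro k
    refine min_le_min_left _ ?_
    rw [pow_succ]
    have : 0 ≤ (2 : ℝ) ^ k * a := by positivity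
    linarith
  have hnn : ∀ k : ℕ, 0 ≤ min (2 * X) ((2 : ℝ) ^ k * a) :=
    fun k => le_min (by linarith) (by positivity)
  have hf : ∀ k : ℕ, 0 ≤ 4 * (Real.log (1 + min (2 * X) ((2 : ℝ) ^ (k + 1) * a)) -
      Real.log (1 + min (2 * X) ((2 : ℝ) ^ k * a))) := by
    intro k
    have := Real.log_le_log (show 0 < 1 + min (2 * X) ((2 : ℝ) ^ k * a) by linarith [hnn k])
      (show 1 + min (2 * X) ((2 : ℝ) ^ k * a) ≤ 1 + min (2 * X) ((2 : ℝ) ^ (k + 1) * a) by
        linarith [hmono k])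
    linarith
  calc ∑ k ∈ K, min 1 ((2 : ℝ) ^ k * a) ≤
      ∑ k ∈ K, 4 * (Real.log (1 + min (2 * X) ((2 : ℝ) ^ (k + 1) * a)) -
      Real.log (1 + min (2 * X) ((2 : ℝ) ^ k * a))) := by
        refine Finset.sum_le_sum fun k hk => ?_
        have h1 := h k hk
        have h0 : 0 ≤ (2 : ℝ) ^ k * a := by positivity
        have h3 : (2:ℝ) ^ (k + 1) * a = 2 * (2 ^ k * a) := by rw [pow_succ]; ring
        rw [h3, min_eq_right (show 2 * (2 ^ k * a) ≤ 2 * X by linarith),
          min_eq_right (show 2 ^ k * a ≤ 2 * X by linarith)]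
        exact tha_min (2 ^ k * a) h0
    _ ≤ ∑ k ∈ range n, 4 * (Real.log (1 + min (2 * X) ((2 : ℝ) ^ (k + 1) * a)) -
      Real.log (1 + min (2 * X) ((2 : ℝ) ^ k * a))) :=
        Finset.sum_le_sum_of_subset_of_nonneg hK fun k _ _ => hf k
    _ = 4 * (Real.log (1 + min (2 * X) ((2 : ℝ) ^ n * a)) -
      Real.log (1 + min (2 * X) ((2 : ℝ) ^ 0 * a))) := by
        rw [← Finset.mul_sum,
          Finset.sum_range_sub (fun k : ℕ => Real.log (1 + min (2 * X) ((2 : ℝ) ^ k * a)))]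
    _ ≤ 4 * Real.log (1 + 2 * X) := by
        have h1 : Real.log (1 + min (2 * X) ((2 : ℝ) ^ n * a)) ≤ Real.log (1 + 2 * X) :=
          Real.log_le_log (by linarith [hnn n]) (by linarith [min_le_left (2 * X) ((2 : ℝ) ^ n * a)])
        have h2 : 0 ≤ Real.log (1 + min (2 * X) ((2 : ℝ) ^ 0 * a)) :=
          Real.log_nonneg (by linarith [hnn 0])
        linarith

theorem thin_a_pr (ε η : ℝ) (hε : 0 < ε) (hη : 0 < η) : ∃ N0 : ℕ, ∀ N ≥ N0, ∀ M, Good N M → ∀ Y : ℕ,
    (N : ℝ) ^ (1 / 2 + ε) ≤ Y → Y ≤ N → Th (al N Y) N M ≤ η * A2 N := by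
  obtain ⟨C, hC, hgen⟩ := thx_gen
  obtain ⟨Cr, hCr, hrho⟩ := thx_rho
  obtain ⟨L1, hL1, hasy1⟩ := thx_asy1 (32 * C * Cr ^ 2 / (ε * η)) (by positivity)
  obtain ⟨L2, hL2, hasy2⟩ := thx_asy2 (ε / 4) (by positivity)
  obtain ⟨N0, hN08, hN0⟩ := thx_nat_log (max L1 L2)
  refine ⟨N0, ?_⟩
  intro N hN M hG Y hY1 hY2
  have hLL := hN0 N hN
  obtain ⟨hp1, hp2⟩ := thx_pow N (by omega) ε
  rw [hp1] at hY1
  have hLdef : Real.log (N : ℝ) = Real.log (N : ℝ) := rfl
  generalize hLe : Real.log (N : ℝ) = L at hLL hY1 hp1 hp2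
  have hLa : L1 ≤ L := (le_max_left _ _).trans hLL
  have hLb : L2 ≤ L := (le_max_right _ _).trans hLL
  have hL : 1 ≤ L := hL1.trans hLa
  have h1 := hasy1 L hLa
  have h2 := hasy2 L hLb
  have hEdef : Real.log (Real.exp (ε / 4 * L)) = ε / 4 * L := Real.log_exp _
  generalize hEe : Real.exp (ε / 4 * L) = E at h2 hY1 hEdef
  have hN1 : 1 ≤ N := by omega
  have hNr : (0 : ℝ) < N := by exact_mod_cast hN1
  have hE12 : 12 * L ≤ E := by nlinarith
  have hE1 : 1 ≤ E := by nlinarith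
  have hsq : 0 < √(N : ℝ) := Real.sqrt_pos.mpr hNr
  have hsq2 : √(N : ℝ) * √(N : ℝ) = N := Real.mul_self_sqrt hNr.le
  have hYpos : (0 : ℝ) < Y := by
    have : 0 < √(N : ℝ) * E ^ 4 := by positivity
    linarith
  have hlogL : 0 ≤ Real.log (1 + L) := Real.log_nonneg (by linarith)
  have hφ : ∀ q : ℕ, 1 ≤ q → q ≤ N → (q : ℝ) / Nat.totient q ≤ Cr * (1 + Real.log (1 + L)) := by
    intro q h3 h4
    rw [← hLe]
    exact hrho N q h3 h4
  have hρ : 0 < Cr * (1 + Real.log (1 + L)) := by positivity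
  generalize hρe : Cr * (1 + Real.log (1 + L)) = ρ at hφ hρ
  have hMpos : 0 < M := by have := hG.1; omega
  have hMr : (0 : ℝ) < M := by exact_mod_cast hMpos
  -- the index set
  set K : Finset ℕ := (range (N + 1)).filter
    (fun k => (2 : ℝ) ^ k < 2 * √(N : ℝ) ∧ (2 : ℝ) ^ k * Y < 2 * N * L ^ 2) with hK
  have hKmem : ∀ k ∈ K, (2 : ℝ) ^ k < 2 * √(N : ℝ) ∧ (2 : ℝ) ^ k * Y < 2 * N * L ^ 2 :=
    fun k hk => (Finset.mem_filter.mp hk).2
  have hsqrtN : ∀ n : ℕ, n ≤ Nat.sqrt N → (n : ℝ) ≤ √(N : ℝ) := by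
    intro n hn
    refine Real.le_sqrt_of_sq_le ?_
    have : n ^ 2 ≤ N := by rw [sq]; exact Nat.le_sqrt.mp hn
    exact_mod_cast this
  have hT := hgen N M ρ 2 (ε / 4 * L) K (fun k => ⌊√(2 ^ k * Y / (8 * L ^ 2))⌋₊)
    (fun k => 2 * L ^ 2 / (2 ^ k * Y))
    (fun k => (Sh M 0 1).filter (fun i => |(i : ℝ)| / M ≤ 2 * L ^ 2 / (2 ^ k * Y)))
    (fun k _ => 2 ^ k / 2) (fun k _ => 2 ^ k) (fun k => ρ * min 1 ((2 : ℝ) ^ k * ((Y : ℝ) / N))) (al N Y) hG
    (by
      intro k hk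
      obtain ⟨h3, h4⟩ := hKmem k hk
      have hpk : (0 : ℝ) < 2 ^ k := by positivity
      have hfl : ((⌊√(2 ^ k * Y / (8 * L ^ 2))⌋₊ : ℕ) : ℝ) ≤ √(2 ^ k * Y / (8 * L ^ 2)) :=
        Nat.floor_le (Real.sqrt_nonneg _)
      have hfl2 : ((⌊√(2 ^ k * Y / (8 * L ^ 2))⌋₊ : ℕ) : ℝ) ^ 2 ≤ 2 ^ k * Y / (8 * L ^ 2) := by
        refine (pow_le_pow_left₀ (Nat.cast_nonneg _) hfl 2).trans ?_
        rw [Real.sq_sqrt (by positivity)]
      refine ⟨?_, by positivity, ?_, ?_, by positivity⟩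
      · rw [Nat.le_sqrt, ← sq]
        have h5 : ((⌊√(2 ^ k * Y / (8 * L ^ 2))⌋₊ : ℕ) : ℝ) ^ 2 ≤ N := by
          refine hfl2.trans ?_
          rw [div_le_iff₀ (by positivity)]
          nlinarith [sq_nonneg L, mul_pos hNr (show 0 < L ^ 2 by positivity)]
        exact_mod_cast h5
      · calc 2 * (2 * L ^ 2 / (2 ^ k * Y)) * ((⌊√(2 ^ k * Y / (8 * L ^ 2))⌋₊ : ℕ) : ℝ) ^ 2 ≤
            2 * (2 * L ^ 2 / (2 ^ k * Y)) * (2 ^ k * Y / (8 * L ^ 2)) :=
              mul_le_mul_of_nonneg_left hfl2 (by positivity)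
          _ = 1 / 2 := by
              field_simp
              norm_num
          _ < 1 := by norm_num
      · intro i hi
        rw [Finset.mem_filter] at hi
        unfold Sh at hi ⊢
        rw [Finset.mem_filter] at hi ⊢
        exact ⟨hi.1.1, hi.1.2.1, hi.2⟩)
    (by positivity) hρ.le (by norm_num)
    (by
      intro k hk i hi
      obtain ⟨h3, h4⟩ := hKmem k hk
      have hpk : (0 : ℝ) < 2 ^ k := by positivity
      have hcast : ((2 ^ k : ℕ) : ℝ) = 2 ^ k := by push_cast; rfl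
      have hx : 2 * E * ((2 ^ k : ℕ) : ℝ) ≤ √(2 ^ k * Y / (8 * L ^ 2)) := by
        refine Real.le_sqrt_of_sq_le ?_
        rw [hcast, le_div_iff₀ (by positivity)]
        have h5 : E ^ 4 * 2 ^ k ≤ 2 * Y := by
          calc E ^ 4 * 2 ^ k ≤ E ^ 4 * (2 * √(N : ℝ)) :=
                mul_le_mul_of_nonneg_left h3.le (by positivity)
            _ = 2 * (√(N : ℝ) * E ^ 4) := by ring
            _ ≤ 2 * Y := by linarith
        have h6 : 64 * L ^ 2 ≤ E ^ 2 := by
          calc 64 * L ^ 2 ≤ (12 * L) ^ 2 := by nlinarith [sq_nonneg L]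
            _ ≤ E ^ 2 := pow_le_pow_left₀ (by positivity) hE12 2
        calc (2 * E * 2 ^ k) ^ 2 * (8 * L ^ 2) = (64 * L ^ 2) * (E ^ 2 * 2 ^ k * 2 ^ k / 2) := by ring
          _ ≤ E ^ 2 * (E ^ 2 * 2 ^ k * 2 ^ k / 2) :=
              mul_le_mul_of_nonneg_right h6 (by positivity)
          _ = 2 ^ k * ((E ^ 4 * 2 ^ k) / 2) := by ring
          _ ≤ 2 ^ k * ((2 * Y) / 2) := by
              refine mul_le_mul_of_nonneg_left ?_ hpk.le
              linarith
          _ = 2 ^ k * Y := by ring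
      obtain ⟨h5, h6⟩ := thx_ratio E _ (2 ^ k) hE1 Nat.one_le_two_pow hx
      refine ⟨by positivity, ?_, h5, ?_, ?_, ?_⟩
      · rw [hcast]
        linarith
      · rw [hcast]
        have h7 : (2 : ℝ) ^ k / (2 ^ k / 2) = 2 := by
          field_simp
        rw [h7]
        have := Real.log_two_lt_d9
        linarith
      · rw [← hEdef]
        exact h6
      · intro q hq
        rw [Finset.mem_Icc] at hq
        refine hφ q hq.1 ?_
        have h7 : (⌊√(2 ^ k * Y / (8 * L ^ 2))⌋₊ : ℝ) ≤ N := by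
          refine (Nat.floor_le (Real.sqrt_nonneg _)).trans ?_
          refine Real.sqrt_le_iff.mpr ⟨hNr.le, ?_⟩
          rw [div_le_iff₀ (by positivity)]
          have h8 : (1 : ℝ) ≤ N := by exact_mod_cast hN1
          nlinarith [mul_pos hNr (show 0 < L ^ 2 by positivity), mul_le_mul_of_nonneg_right h8 (show 0 ≤ N * L ^ 2 by positivity)]
        have h8 : ⌊√(2 ^ k * Y / (8 * L ^ 2))⌋₊ ≤ N := by exact_mod_cast h7
        omega)
    (by
      intro i hi r hr
      rw [Finset.mem_Icc] at hr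
      unfold al
      rw [hLe]
      split_ifs with h3
      · right
        obtain ⟨h4, h5⟩ := h3
        have hr1 : (1 : ℝ) ≤ r := by exact_mod_cast hr.1
        -- the dyadic block
        have hk1 : r ≤ 2 ^ (Nat.clog 2 r) := Nat.le_pow_clog (by norm_num) r
        have hk2 : 2 ^ (Nat.clog 2 r) < 2 * r := by
          rcases Nat.lt_or_ge 1 r with h6 | h6
          · have h7 := Nat.pow_pred_clog_lt_self (b := 2) (by norm_num) h6
            have h8 : 0 < Nat.clog 2 r := Nat.clog_pos (by norm_num) h6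
            have h9 : 2 ^ (Nat.clog 2 r) = 2 * 2 ^ (Nat.clog 2 r).pred := by
              conv_lhs => rw [← Nat.succ_pred_eq_of_pos h8]
              rw [pow_succ]; ring
            omega
          · have h7 : r = 1 := by omega
            subst h7
            norm_num
        have hk3 : Nat.clog 2 r ≤ N := by
          have h6 : Nat.clog 2 r ≤ r := Nat.clog_le_of_le_pow (Nat.lt_two_pow_self).le
          have h7 : r ≤ N := hr.2.trans (Nat.sqrt_le_self N)
          omega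
        generalize Nat.clog 2 r = k at hk1 hk2 hk3
        have hk1' : (r : ℝ) ≤ 2 ^ k := by exact_mod_cast hk1
        have hk2' : (2 : ℝ) ^ k < 2 * r := by exact_mod_cast hk2
        have hpk : (0 : ℝ) < 2 ^ k := by positivity
        refine ⟨k, ?_, ?_, ?_, hk1, ?_⟩
        · rw [hK, Finset.mem_filter, Finset.mem_range]
          refine ⟨by omega, ?_, ?_⟩
          · have := hsqrtN r hr.2
            linarith
          · calc (2 : ℝ) ^ k * Y < 2 * r * Y := mul_lt_mul_of_pos_right hk2' hYpos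
              _ = 2 * (r * Y) := by ring
              _ < 2 * (N * L ^ 2) := by linarith
              _ = 2 * N * L ^ 2 := by ring
        · rw [Finset.mem_filter]
          refine ⟨hi, ?_⟩
          rw [le_div_iff₀ (by positivity)]
          have h6 : |(i : ℝ) / M| = |(i : ℝ)| / M := by
            rw [abs_div, abs_of_pos hMr]
          rw [h6] at h5
          have h7 : 0 ≤ |(i : ℝ)| / M := by positivity
          calc |(i : ℝ)| / M * (2 ^ k * Y) ≤ |(i : ℝ)| / M * (2 * r * Y) :=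
                mul_le_mul_of_nonneg_left (mul_le_mul_of_nonneg_right hk2'.le hYpos.le) h7
            _ = 2 * (|(i : ℝ)| / M * (r * Y)) := by ring
            _ ≤ 2 * L ^ 2 := by linarith
        · linarith
        · have h6 := hφ r hr.1 (hr.2.trans (Nat.sqrt_le_self N))
          have h7 : min 1 ((r : ℝ) * Y / N) ≤ min 1 ((2 : ℝ) ^ k * ((Y : ℝ) / N)) := by
            refine min_le_min_left _ ?_
            rw [mul_div_assoc]
            exact mul_le_mul_of_nonneg_right hk1' (by positivity)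
          have h8 : 0 ≤ min 1 ((r : ℝ) * Y / N) := le_min (by norm_num) (by positivity)
          exact mul_le_mul h6 h7 h8 hρ.le
      · left
        rfl)
  refine hT.trans ?_
  have hA2 := thx_A2_nonneg N
  refine mul_le_mul_of_nonneg_right ?_ hA2
  rw [← Finset.mul_sum]
  have hS := tha_sum (N + 1) (Y / N) (2 * L ^ 2) (by positivity) (by positivity) K
    (Finset.filter_subset _ _) (by
      intro k hk
      obtain ⟨h3, h4⟩ := hKmem k hk
      rw [← mul_div_assoc, div_le_iff₀ hNr]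
      linarith)
  have hS2 : Real.log (1 + 2 * (2 * L ^ 2)) ≤ 1 + Real.log (1 + 16 * L ^ 2) := by
    have := Real.log_le_log (show 0 < 1 + 2 * (2 * L ^ 2) by positivity)
      (show 1 + 2 * (2 * L ^ 2) ≤ 1 + 16 * L ^ 2 by nlinarith [sq_nonneg L])
    linarith
  have hS3 : ∑ k ∈ K, min 1 ((2 : ℝ) ^ k * (Y / N)) ≤ 4 * (1 + Real.log (1 + 16 * L ^ 2)) := by
    linarith
  have hlpos : 0 ≤ 1 + Real.log (1 + 16 * L ^ 2) := by
    have := Real.log_nonneg (show 1 ≤ 1 + 16 * L ^ 2 by nlinarith [sq_nonneg L])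
    linarith
  calc ρ * (∑ k ∈ K, min 1 ((2 : ℝ) ^ k * (Y / N))) * (C * ρ * 2 / (ε / 4 * L)) ≤
      ρ * (4 * (1 + Real.log (1 + 16 * L ^ 2))) * (C * ρ * 2 / (ε / 4 * L)) := by
        refine mul_le_mul_of_nonneg_right ?_ (by positivity)
        exact mul_le_mul_of_nonneg_left hS3 hρ.le
    _ = η * (32 * C * Cr ^ 2 / (ε * η) * (1 + Real.log (1 + L)) ^ 2 *
        (1 + Real.log (1 + 16 * L ^ 2))) / L := by
        rw [← hρe]
        field_simp
        ring
    _ ≤ η * L / L := by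
        refine div_le_div_of_nonneg_right ?_ (by linarith)
        exact mul_le_mul_of_nonneg_left h1 hη.le
    _ = η := by field_simp

alias thin_a := thin_a_pr

end Pool.Agent.PV
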