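import Pool.Agent.Lib_helper92.PVF.Base
import Mathlib
import Pool.Agent.Lib_helper92.PVF.THX

set_option autoImplicit false

namespace Pool.Agent.PV

open Finset Complex Pool.Agent.Var35 Pool.Agent.Var73
open scoped ArithmeticFunction ArithmeticFunction.Moebius

theorem thg_block (Z : ℕ → ℝ) (b : ℝ) (n : ℕ) (h0 : Z 0 ≤ b) (h1 : b ≤ Z n) (hn : Z 0 < b ∨ 0 < n) :
    ∃ j < n, Z j ≤ b ∧ b ≤ Z (j + 1) := by
  induction n with
  | zero =>
    rcases hn with h | h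
    · linarith
    · omega
  | succ n ih =>
    rcases le_total b (Z n) with h | h
    · rcases Nat.eq_zero_or_pos n with h2 | h2
      · subst h2
        exact ⟨0, by omega, h0, h1⟩
      · obtain ⟨j, hj, h3⟩ := ih h (Or.inr h2)
        exact ⟨j, by omega, h3⟩
    · exact ⟨n, by omega, h, h1⟩

theorem thin_g_pr (ε η : ℝ) (hε : 0 < ε) (hη : 0 < η) : ∃ N0 : ℕ, ∀ N ≥ N0, ∀ M, Good N M → ∀ Y : ℕ,
    (N : ℝ) ^ (1 / 2 + ε) ≤ Y → Y ≤ N → Th (ga N Y) N M ≤ η * A2 N := by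
  obtain ⟨C, hC, hgen⟩ := thx_gen
  obtain ⟨Cr, hCr, hrho⟩ := thx_rho
  set J0 : ℕ := ⌈2 / ε⌉₊ with hJ0
  obtain ⟨L1, hL1, hasy1⟩ := thx_asy1 (4 * (J0 + 1) * C * Cr ^ 2 / (ε * η)) (by positivity)
  obtain ⟨L2, hL2, hasy2⟩ := thx_asy2 (ε / 4) (by positivity)
  obtain ⟨N0, hN08, hN0⟩ := thx_nat_log (max L1 L2)
  refine ⟨N0, ?_⟩
  intro N hN M hG Y hY1 hY2
  have hLL := hN0 N hN
  have hN1 : 1 ≤ N := by omega
  have hN8 : 8 ≤ N := by omega
  have hNr : (0 : ℝ) < N := by exact_mod_cast hN1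
  have hN8r : (8 : ℝ) ≤ N := by exact_mod_cast hN8
  obtain ⟨hp1, hp2⟩ := thx_pow N (by omega) ε
  have hWJ : 8 * (N : ℝ) ≤ ((N : ℝ) ^ ε) ^ J0 := by
    rw [← Real.rpow_natCast, ← Real.rpow_mul hNr.le]
    have h3 : (2 : ℝ) ≤ ε * J0 := by
      have h4 : 2 / ε ≤ J0 := Nat.le_ceil _
      rw [div_le_iff₀ hε] at h4
      linarith
    calc 8 * (N : ℝ) ≤ (N : ℝ) ^ (2 : ℝ) := by
          rw [Real.rpow_two]; nlinarith
      _ ≤ (N : ℝ) ^ (ε * J0) := Real.rpow_le_rpow_of_exponent_le (by linarith) h3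
  rw [hp2] at hWJ
  rw [hp1] at hY1
  generalize hLe : Real.log (N : ℝ) = L at hLL hY1 hp1 hp2 hWJ
  have hLa : L1 ≤ L := (le_max_left _ _).trans hLL
  have hLb : L2 ≤ L := (le_max_right _ _).trans hLL
  have hL : 1 ≤ L := hL1.trans hLa
  have h1 := hasy1 L hLa
  have h2 := hasy2 L hLb
  have hEdef : Real.log (Real.exp (ε / 4 * L)) = ε / 4 * L := Real.log_exp _
  generalize hEe : Real.exp (ε / 4 * L) = E at h2 hY1 hEdef hWJ
  have hE1 : 1 ≤ E := by nlinarith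
  have hE2 : 2 ≤ E := by nlinarith
  have hEp : 0 < E := by linarith
  have hW2 : 2 ≤ E ^ 4 := by
    have h3 : 1 ≤ E ^ 3 := one_le_pow₀ hE1
    calc (2 : ℝ) ≤ 1 * E := by linarith
      _ ≤ E ^ 3 * E := mul_le_mul_of_nonneg_right h3 hEp.le
      _ = E ^ 4 := by ring
  have hsq : 0 < √(N : ℝ) := Real.sqrt_pos.mpr hNr
  have hsq2 : √(N : ℝ) * √(N : ℝ) = N := Real.mul_self_sqrt hNr.le
  have hYpos : (0 : ℝ) < Y := by
    have : 0 < √(N : ℝ) * E ^ 4 := by positivity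
    linarith
  have hYsq : N * E ^ 8 ≤ (Y : ℝ) ^ 2 := by
    calc N * E ^ 8 = (√(N : ℝ) * √(N : ℝ)) * E ^ 8 := by rw [hsq2]
      _ = (√(N : ℝ) * E ^ 4) ^ 2 := by ring
      _ ≤ (Y : ℝ) ^ 2 := pow_le_pow_left₀ (by positivity) hY1 2
  have hlogL : 0 ≤ Real.log (1 + L) := Real.log_nonneg (by linarith)
  have hφ : ∀ q : ℕ, 1 ≤ q → q ≤ N → (q : ℝ) / Nat.totient q ≤ Cr * (1 + Real.log (1 + L)) := by
    intro q h3 h4
    rw [← hLe]
    exact hrho N q h3 h4
  have hρ : 0 < Cr * (1 + Real.log (1 + L)) := by positivity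
  generalize hρe : Cr * (1 + Real.log (1 + L)) = ρ at hφ hρ
  have hMpos : 0 < M := by have := hG.1; omega
  have hMr : (0 : ℝ) < M := by exact_mod_cast hMpos
  have hlpos : 1 ≤ 1 + Real.log (1 + 16 * L ^ 2) := by
    have := Real.log_nonneg (show 1 ≤ 1 + 16 * L ^ 2 by nlinarith [sq_nonneg L])
    linarith
  -- the blocks
  have hZ : ∀ j : ℕ, 1 / (8 * (N : ℝ)) ≤ (E ^ 4) ^ j / (8 * N) := by
    intro j
    exact div_le_div_of_nonneg_right (one_le_pow₀ (by linarith)) (by positivity)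
  have hZp : ∀ j : ℕ, 0 < (E ^ 4) ^ j / (8 * (N : ℝ)) := fun j => by positivity
  have hZs : ∀ j : ℕ, (E ^ 4) ^ (j + 1) / (8 * (N : ℝ)) = E ^ 4 * ((E ^ 4) ^ j / (8 * N)) := by
    intro j
    rw [pow_succ]
    ring
  generalize hZe : (fun j : ℕ => (E ^ 4) ^ j / (8 * (N : ℝ))) = Z
  have hZe' : ∀ j : ℕ, (E ^ 4) ^ j / (8 * (N : ℝ)) = Z j := fun j => by rw [← hZe]
  simp only [hZe'] at hZ hZp hZs
  have hZ0 : Z 0 = 1 / (8 * (N : ℝ)) := by rw [← hZe]; simp
  have hZJ : 1 ≤ Z J0 := by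
    rw [← hZe]
    simp only
    rw [le_div_iff₀ (by positivity)]
    linarith
  have hT := hgen N M ρ (1 + Real.log (1 + 16 * L ^ 2)) (ε / 4 * L) (range J0)
    (fun k => ⌊√(1 / (4 * Z (k + 1)))⌋₊)
    (fun k => Z (k + 1))
    (fun k => (Sh M 0 1).filter (fun i => Z k ≤ |(i : ℝ)| / M ∧ |(i : ℝ)| / M ≤ Z (k + 1) ∧
      1 / (16 * (|(i : ℝ)| / M * Y)) ≤ (⌊L ^ 2 / (|(i : ℝ)| / M * Y)⌋₊ : ℝ)))
    (fun _ i => 1 / (16 * (|(i : ℝ)| / M * Y))) (fun _ i => ⌊L ^ 2 / (|(i : ℝ)| / M * Y)⌋₊)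
    (fun _ => ρ) (ga N Y) hG
    (by
      intro k hk
      have hzk := hZp (k + 1)
      have hfl : ((⌊√(1 / (4 * Z (k + 1)))⌋₊ : ℕ) : ℝ) ≤ √(1 / (4 * Z (k + 1))) :=
        Nat.floor_le (Real.sqrt_nonneg _)
      have hfl2 : ((⌊√(1 / (4 * Z (k + 1)))⌋₊ : ℕ) : ℝ) ^ 2 ≤ 1 / (4 * Z (k + 1)) := by
        refine (pow_le_pow_left₀ (Nat.cast_nonneg _) hfl 2).trans ?_
        rw [Real.sq_sqrt (by positivity)]
      refine ⟨?_, hzk.le, ?_, ?_, hρ.le⟩
      · rw [Nat.le_sqrt, ← sq]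
        have h5 : ((⌊√(1 / (4 * Z (k + 1)))⌋₊ : ℕ) : ℝ) ^ 2 ≤ N := by
          refine hfl2.trans ?_
          rw [div_le_iff₀ (by positivity), hZs]
          have h6 := hZ k
          rw [div_le_iff₀ (by positivity)] at h6
          nlinarith [mul_le_mul hW2 h6 (by norm_num) (by positivity)]
        exact_mod_cast h5
      · calc 2 * Z (k + 1) * ((⌊√(1 / (4 * Z (k + 1)))⌋₊ : ℕ) : ℝ) ^ 2 ≤
            2 * Z (k + 1) * (1 / (4 * Z (k + 1))) :=
              mul_le_mul_of_nonneg_left hfl2 (by positivity)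
          _ = 1 / 2 := by
              field_simp
              norm_num
          _ < 1 := by norm_num
      · intro i hi
        rw [Finset.mem_filter] at hi
        unfold Sh at hi ⊢
        rw [Finset.mem_filter] at hi ⊢
        exact ⟨hi.1.1, hi.1.2.1, hi.2.2.1⟩)
    (by positivity) hρ.le (by linarith)
    (by
      intro k hk i hi
      rw [Finset.mem_filter] at hi
      obtain ⟨hi1, hi2, hi3, hi4⟩ := hi
      have hzk := hZp k
      have hb : 0 < |(i : ℝ)| / M := lt_of_lt_of_le hzk hi2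
      generalize |(i : ℝ)| / M = b at hb hi2 hi3 hi4
      have hR1 : 0 < 1 / (16 * (b * Y)) := by positivity
      have hR2r : (0 : ℝ) < ⌊L ^ 2 / (b * Y)⌋₊ := lt_of_lt_of_le hR1 hi4
      have hR2 : 0 < ⌊L ^ 2 / (b * Y)⌋₊ := by exact_mod_cast hR2r
      have hfl : (⌊L ^ 2 / (b * Y)⌋₊ : ℝ) ≤ L ^ 2 / (b * Y) := Nat.floor_le (by positivity)
      have hx : 2 * E * (⌊L ^ 2 / (b * Y)⌋₊ : ℝ) ≤ √(1 / (4 * Z (k + 1))) := by
        refine Real.le_sqrt_of_sq_le ?_
        rw [hZs, le_div_iff₀ (by positivity)]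
        have h5 : (⌊L ^ 2 / (b * Y)⌋₊ : ℝ) * (Z k * Y) ≤ L ^ 2 := by
          calc (⌊L ^ 2 / (b * Y)⌋₊ : ℝ) * (Z k * Y) ≤ (L ^ 2 / (b * Y)) * (b * Y) :=
                mul_le_mul hfl (mul_le_mul_of_nonneg_right hi2 hYpos.le) (by positivity)
                  (by positivity)
            _ = L ^ 2 := by field_simp
        have h6 : 128 * L ^ 4 ≤ E ^ 2 := by
          calc 128 * L ^ 4 ≤ (12 * L ^ 2) ^ 2 := by nlinarith [sq_nonneg (L ^ 2)]
            _ ≤ E ^ 2 := pow_le_pow_left₀ (by positivity) h2 2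
        have h7 : E ^ 8 ≤ 8 * (Z k * Y ^ 2) := by
          have h8 := hZ k
          rw [div_le_iff₀ (by positivity)] at h8
          calc E ^ 8 = 1 * E ^ 8 := by ring
            _ ≤ (Z k * (8 * N)) * E ^ 8 := mul_le_mul_of_nonneg_right h8 (by positivity)
            _ = 8 * (Z k * (N * E ^ 8)) := by ring
            _ ≤ 8 * (Z k * Y ^ 2) := by
                refine mul_le_mul_of_nonneg_left ?_ (by norm_num)
                exact mul_le_mul_of_nonneg_left hYsq hzk.le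
        have h9 : ((⌊L ^ 2 / (b * Y)⌋₊ : ℝ) * (Z k * Y)) ^ 2 ≤ L ^ 4 := by
          calc ((⌊L ^ 2 / (b * Y)⌋₊ : ℝ) * (Z k * Y)) ^ 2 ≤ (L ^ 2) ^ 2 :=
                pow_le_pow_left₀ (by positivity) h5 2
            _ = L ^ 4 := by ring
        -- multiply by `8 * Z k * Y ^ 2`
        have h10 : (2 * E * (⌊L ^ 2 / (b * Y)⌋₊ : ℝ)) ^ 2 * (4 * (E ^ 4 * Z k)) *
            (8 * (Z k * Y ^ 2)) ≤ 1 * (8 * (Z k * Y ^ 2)) := by
          calc (2 * E * (⌊L ^ 2 / (b * Y)⌋₊ : ℝ)) ^ 2 * (4 * (E ^ 4 * Z k)) *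
              (8 * (Z k * Y ^ 2)) =
              128 * E ^ 6 * ((⌊L ^ 2 / (b * Y)⌋₊ : ℝ) * (Z k * Y)) ^ 2 := by ring
            _ ≤ 128 * E ^ 6 * L ^ 4 := mul_le_mul_of_nonneg_left h9 (by positivity)
            _ = E ^ 6 * (128 * L ^ 4) := by ring
            _ ≤ E ^ 6 * E ^ 2 := mul_le_mul_of_nonneg_left h6 (by positivity)
            _ = E ^ 8 := by ring
            _ ≤ 1 * (8 * (Z k * Y ^ 2)) := by linarith
        exact le_of_mul_le_mul_right h10 (by positivity)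
      obtain ⟨h5, h6⟩ := thx_ratio E _ _ hE1 hR2 hx
      refine ⟨hR1, hi4, h5, ?_, ?_, ?_⟩
      · have h7 : Real.log ((⌊L ^ 2 / (b * Y)⌋₊ : ℝ) / (1 / (16 * (b * Y)))) ≤
            Real.log (1 + 16 * L ^ 2) := by
          refine Real.log_le_log (by positivity) ?_
          rw [div_div_eq_mul_div, div_one]
          calc (⌊L ^ 2 / (b * Y)⌋₊ : ℝ) * (16 * (b * Y)) ≤ (L ^ 2 / (b * Y)) * (16 * (b * Y)) :=
                mul_le_mul_of_nonneg_right hfl (by positivity)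
            _ = 16 * L ^ 2 := by field_simp
            _ ≤ 1 + 16 * L ^ 2 := by linarith
        linarith
      · rw [← hEdef]
        exact h6
      · intro q hq
        rw [Finset.mem_Icc] at hq
        refine hφ q hq.1 ?_
        have h7 : (⌊√(1 / (4 * Z (k + 1)))⌋₊ : ℝ) ≤ N := by
          refine (Nat.floor_le (Real.sqrt_nonneg _)).trans ?_
          refine Real.sqrt_le_iff.mpr ⟨hNr.le, ?_⟩
          have h8 := hZ (k + 1)
          rw [div_le_iff₀ (by positivity)] at h8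
          have h9 := hZp (k + 1)
          rw [div_le_iff₀ (by positivity)]
          nlinarith [mul_le_mul_of_nonneg_right hN8r (show 0 ≤ N * (4 * Z (k + 1)) by positivity)]
        have h8 : ⌊√(1 / (4 * Z (k + 1)))⌋₊ ≤ N := by exact_mod_cast h7
        omega)
    (by
      intro i hi r hr
      rw [Finset.mem_Icc] at hr
      unfold ga
      rw [hLe]
      split_ifs with h3
      · right
        obtain ⟨h4, h5, h6⟩ := h3
        have hr1 : (1 : ℝ) ≤ r := by exact_mod_cast hr.1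
        have h7 : |(i : ℝ) / M| = |(i : ℝ)| / M := by
          rw [abs_div, abs_of_pos hMr]
        rw [h7] at h5 h6
        have hi1 : |(i : ℝ)| / M ≤ 1 := by
          unfold Sh at hi
          exact (Finset.mem_filter.mp hi).2.2
        have hi0 : 0 ≤ |(i : ℝ)| / M := by positivity
        have hrY : 0 < (r : ℝ) * Y := by positivity
        have hbpos : 0 < |(i : ℝ)| / M := by
          rcases hi0.lt_or_eq with h8 | h8
          · exact h8
          · rw [← h8] at h5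
            simp at h5
            linarith
        have hb1 : Z 0 < |(i : ℝ)| / M := by
          rw [hZ0, div_lt_iff₀ (by positivity)]
          have h8 : |(i : ℝ)| / M * (r * Y) < |(i : ℝ)| / M * N := mul_lt_mul_of_pos_left h4 hbpos
          linarith
        obtain ⟨j, hj, hj1, hj2⟩ := thg_block Z (|(i : ℝ)| / M) J0 hb1.le (hi1.trans hZJ) (Or.inl hb1)
        have hlow : 1 / (16 * (|(i : ℝ)| / M * Y)) < r := by
          rw [div_lt_iff₀ (by positivity)]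
          nlinarith
        have hupp : r ≤ ⌊L ^ 2 / (|(i : ℝ)| / M * Y)⌋₊ := by
          refine Nat.le_floor ?_
          rw [le_div_iff₀ (by positivity)]
          nlinarith
        refine ⟨j, Finset.mem_range.mpr hj, ?_, hlow, hupp, ?_⟩
        · rw [Finset.mem_filter]
          refine ⟨hi, hj1, hj2, ?_⟩
          have h8 : (r : ℝ) ≤ ⌊L ^ 2 / (|(i : ℝ)| / M * Y)⌋₊ := by exact_mod_cast hupp
          linarith
        · exact hφ r hr.1 (hr.2.trans (Nat.sqrt_le_self N))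
      · left
        rfl)
  refine hT.trans ?_
  have hA2 := thx_A2_nonneg N
  refine mul_le_mul_of_nonneg_right ?_ hA2
  rw [Finset.sum_const, Finset.card_range, nsmul_eq_mul]
  calc (J0 : ℝ) * ρ * (C * ρ * (1 + Real.log (1 + 16 * L ^ 2)) / (ε / 4 * L)) ≤
      (J0 + 1 : ℝ) * ρ * (C * ρ * (1 + Real.log (1 + 16 * L ^ 2)) / (ε / 4 * L)) := by
        refine mul_le_mul_of_nonneg_right ?_ (by positivity)
        exact mul_le_mul_of_nonneg_right (by linarith) hρ.le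
    _ = η * (4 * (J0 + 1) * C * Cr ^ 2 / (ε * η) * (1 + Real.log (1 + L)) ^ 2 *
        (1 + Real.log (1 + 16 * L ^ 2))) / L := by
        rw [← hρe]
        field_simp
    _ ≤ η * L / L := by
        refine div_le_div_of_nonneg_right ?_ (by linarith)
        exact mul_le_mul_of_nonneg_left h1 hη.le
    _ = η := by field_simp

alias thin_g := thin_g_pr

end Pool.Agent.PV
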