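import Pool.Agent.Lib_helper92.PVF.Base

/-! PV, block TRF -/

set_option autoImplicit false

namespace Pool.Agent.PV

open Finset Complex Pool.Agent.Var35 Pool.Agent.Var73
open scoped ArithmeticFunction ArithmeticFunction.Moebius

lemma TRF_Fp_add_int (N : ℕ) (x : ℝ) (k : ℤ) : Fp N (x + k) = Fp N x := by
  unfold Fp Ps Bs
  congr 2
  apply Finset.sum_congr rfl
  intro n _
  congr 1
  have h : (n : ℝ) * (x + k) = (n : ℝ) * x + (((n : ℤ) * k : ℤ) : ℝ) := by
    push_cast; ring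
  rw [h, e_add_int]

lemma TRF_Fp_nonneg (N : ℕ) (x : ℝ) : 0 ≤ Fp N x := by
  unfold Fp; positivity

lemma TRF_core (N M : ℕ) (hM0 : 0 < M) (w : ℕ → ℝ → ℝ) (hw : ∀ r β, 0 ≤ w r β) (J : Finset ℕ)
    (hJ : J ⊆ range M) (rr : ℕ → ℕ) (cc : ℕ → ℤ) (R : ℕ) (hR : ∀ r, 1 ≤ r → r ≤ R → r ∣ M)
    (h : ∀ j ∈ J, 1 ≤ rr j ∧ rr j ≤ R ∧ IsCoprime (cc j) (rr j : ℤ) ∧
      |(j : ℝ) / M - cc j / rr j| ≤ 1) :
    ∑ j ∈ J, w (rr j) (j / M - cc j / rr j) * Fp N (j / M) ≤
      ∑ r ∈ Icc 1 R, ∑ i ∈ Sh M 0 1, ∑ c ∈ Cd r, w r (i / M) * Fp N (c / r + i / M) := by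
  classical
  have hMR : (0 : ℝ) < M := by exact_mod_cast hM0
  set g : ℕ → (Σ _ : ℕ, ℤ × ℕ) := fun j =>
    ⟨rr j, ((j : ℤ) - cc j * ((M / rr j : ℕ) : ℤ), (cc j % (rr j : ℤ)).toNat)⟩ with hg
  set F : (Σ _ : ℕ, ℤ × ℕ) → ℝ := fun p =>
    w p.1 ((p.2.1 : ℝ) / M) * Fp N ((p.2.2 : ℝ) / p.1 + (p.2.1 : ℝ) / M) with hF
  have hi : ∀ j ∈ J, (((j : ℤ) - cc j * ((M / rr j : ℕ) : ℤ) : ℤ) : ℝ) / M =
      (j : ℝ) / M - cc j / rr j := by
    intro j hj
    obtain ⟨h1, h2, h3, h4⟩ := h j hj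
    obtain ⟨q, hq⟩ := hR (rr j) h1 h2
    have hr0 : (rr j : ℝ) ≠ 0 := by
      have : 0 < rr j := h1
      positivity
    have hdiv : M / rr j = q := by
      rw [hq]; exact Nat.mul_div_cancel_left _ h1
    rw [hdiv]
    have hMq : (M : ℝ) = rr j * q := by exact_mod_cast hq
    have hq0 : (q : ℝ) ≠ 0 := by
      intro h0
      rw [h0, mul_zero] at hMq
      exact hMR.ne' hMq
    push_cast
    rw [hMq]
    field_simp
  have hc : ∀ j ∈ J, ∃ k : ℤ, cc j = k * (rr j : ℤ) + (((cc j % (rr j : ℤ)).toNat : ℕ) : ℤ) := by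
    intro j hj
    obtain ⟨h1, -, -, -⟩ := h j hj
    have hrpos : (0 : ℤ) < rr j := by exact_mod_cast h1
    refine ⟨cc j / (rr j : ℤ), ?_⟩
    rw [Int.toNat_of_nonneg (Int.emod_nonneg _ hrpos.ne')]
    have := Int.emod_add_mul_ediv (cc j) (rr j : ℤ)
    linarith [mul_comm (rr j : ℤ) (cc j / (rr j : ℤ))]
  have hterm : ∀ j ∈ J, w (rr j) (j / M - cc j / rr j) * Fp N (j / M) = F (g j) := by
    intro j hj
    obtain ⟨h1, h2, h3, h4⟩ := h j hj
    obtain ⟨k, hk⟩ := hc j hj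
    have hr0 : (rr j : ℝ) ≠ 0 := by
      have : 0 < rr j := h1
      positivity
    simp only [hF, hg]
    rw [hi j hj]
    congr 1
    have hkR : (cc j : ℝ) = k * rr j + (((cc j % (rr j : ℤ)).toNat : ℕ) : ℝ) := by
      exact_mod_cast hk
    have : (((cc j % (rr j : ℤ)).toNat : ℕ) : ℝ) / rr j + ((j : ℝ) / M - cc j / rr j) =
        (j : ℝ) / M + ((-k : ℤ) : ℝ) := by
      rw [hkR]
      push_cast
      field_simp
      ring
    rw [this, TRF_Fp_add_int]
  have hinj : Set.InjOn g J := by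
    intro j hj j' hj' hjj
    have hj := hj
    simp only [hg, Sigma.mk.injEq, heq_eq_eq, Prod.mk.injEq] at hjj
    obtain ⟨e1, e2, e3⟩ := hjj
    obtain ⟨h1, h2, h3, h4⟩ := h j hj
    obtain ⟨k, hk⟩ := hc j hj
    obtain ⟨k', hk'⟩ := hc j' hj'
    obtain ⟨q, hq⟩ := hR (rr j) h1 h2
    have hdiv : M / rr j = q := by
      rw [hq]; exact Nat.mul_div_cancel_left _ h1
    rw [← e3, ← e1] at hk'
    rw [← e1, hdiv] at e2
    -- e2 : j - cc j * q = j' - cc j' * q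
    have hdvd : (M : ℤ) ∣ (j : ℤ) - j' := by
      refine ⟨k - k', ?_⟩
      have hMq : (M : ℤ) = rr j * q := by exact_mod_cast hq
      rw [hMq]
      have : (j : ℤ) - j' = (cc j - cc j') * q := by linarith
      rw [this, hk, hk']
      have hh : ((k' * (rr j : ℤ) + (((cc j % (rr j : ℤ)).toNat : ℕ) : ℤ)) % (rr j : ℤ)).toNat =
          (cc j % (rr j : ℤ)).toNat := by
        rw [Int.toNat_of_nonneg (Int.emod_nonneg _ (by
          have : (0:ℤ) < rr j := by exact_mod_cast h1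
          exact this.ne'))]
        rw [Int.add_emod, Int.mul_emod_left, zero_add, Int.emod_emod_of_dvd _ (dvd_refl _),
          Int.emod_emod_of_dvd _ (dvd_refl _)]
      ring
    have hlt := Finset.mem_range.1 (hJ hj)
    have hlt' := Finset.mem_range.1 (hJ hj')
    have : (j : ℤ) - j' = 0 := by
      apply Int.eq_zero_of_abs_lt_dvd hdvd
      rw [abs_lt]
      constructor <;> omega
    omega
  have hmaps : J.image g ⊆ (Icc 1 R).sigma (fun r => Sh M 0 1 ×ˢ Cd r) := by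
    intro p hp
    obtain ⟨j, hj, rfl⟩ := Finset.mem_image.1 hp
    obtain ⟨h1, h2, h3, h4⟩ := h j hj
    simp only [hg, Finset.mem_sigma, Finset.mem_product]
    refine ⟨Finset.mem_Icc.2 ⟨h1, h2⟩, ?_, ?_⟩
    · unfold Sh
      rw [Finset.mem_filter, Finset.mem_Icc]
      have hh := hi j hj
      set i : ℤ := (j : ℤ) - cc j * ((M / rr j : ℕ) : ℤ) with hidef
      have habs : |(i : ℝ)| / M ≤ 1 := by
        have : |(i : ℝ)| / M = |(i : ℝ) / M| := by
          rw [abs_div, abs_of_pos hMR]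
        rw [this, hh]
        exact h4
      have habs2 : |(i : ℝ)| ≤ M := by
        rwa [div_le_one hMR] at habs
      have habs3 : |i| ≤ (M : ℤ) := by
        have : ((|i| : ℤ) : ℝ) ≤ ((M : ℤ) : ℝ) := by
          push_cast
          exact habs2
        exact_mod_cast this
      rw [abs_le] at habs3
      exact ⟨habs3, by positivity, habs⟩
    · unfold Cd
      rw [Finset.mem_filter, Finset.mem_range]
      have hrpos : (0 : ℤ) < rr j := by exact_mod_cast h1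
      constructor
      · rw [Int.toNat_lt (Int.emod_nonneg _ hrpos.ne')]
        exact Int.emod_lt_of_pos _ hrpos
      · rw [← Nat.isCoprime_iff_coprime, Int.toNat_of_nonneg (Int.emod_nonneg _ hrpos.ne')]
        have h5 := h3
        rw [← Int.emod_add_mul_ediv (cc j) (rr j : ℤ)] at h5
        exact h5.of_add_mul_left_left
  calc ∑ j ∈ J, w (rr j) (j / M - cc j / rr j) * Fp N (j / M) = ∑ j ∈ J, F (g j) :=
        Finset.sum_congr rfl hterm
    _ = ∑ p ∈ J.image g, F p := by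
        rw [Finset.sum_image]
        intro a ha b hb hab
        exact hinj ha hb hab
    _ ≤ ∑ p ∈ (Icc 1 R).sigma (fun r => Sh M 0 1 ×ˢ Cd r), F p := by
        apply Finset.sum_le_sum_of_subset_of_nonneg hmaps
        intro p _ _
        exact mul_nonneg (hw _ _) (TRF_Fp_nonneg _ _)
    _ = _ := by
        rw [Finset.sum_sigma]
        apply Finset.sum_congr rfl
        intro r _
        rw [Finset.sum_product]

/-- TRF : transfer from points to arcs -/
theorem transfer_pr (N M : ℕ) (hM : Good N M) (w : ℕ → ℝ → ℝ) (hw : ∀ r β, 0 ≤ w r β) (J : Finset ℕ)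
    (hJ : J ⊆ range M) (rr : ℕ → ℕ) (cc : ℕ → ℤ)
    (h : ∀ j ∈ J, 1 ≤ rr j ∧ rr j ≤ Nat.sqrt N ∧ IsCoprime (cc j) (rr j : ℤ) ∧
      |(j : ℝ) / M - cc j / rr j| ≤ 1) :
    (1 / (M : ℝ)) * ∑ j ∈ J, w (rr j) (j / M - cc j / rr j) * Fp N (j / M) ≤ Th w N M := by
  have hM0 : 0 < M := lt_of_le_of_lt (Nat.zero_le _) hM.1
  unfold Th
  apply mul_le_mul_of_nonneg_left _ (by positivity)
  exact TRF_core N M hM0 w hw J hJ rr cc _ hM.2 h

alias transfer := transfer_pr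

end Pool.Agent.PV
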