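import Pool.Agent.Lib_helper92.PVF.Base
import Pool.Agent.Lib_helper92.PVF.THA
import Pool.Agent.Lib_helper92.PVF.THG
import Pool.Agent.Lib_helper92.PVF.TRF
import Pool.Agent.Lib_helper92.PVF.DMA
import Pool.Agent.Lib_helper92.PVF.CSA0

/-! PV, block CSA, part 1: the sum over the arcs -/

set_option autoImplicit false

namespace Pool.Agent.PV

open Finset Complex Pool.Agent.Var35 Pool.Agent.Var73
open scoped ArithmeticFunction ArithmeticFunction.Moebius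

theorem CSA_al_nonneg (N Y r : ℕ) (β : ℝ) : 0 ≤ al N Y r β := by
  unfold al
  split_ifs
  · positivity
  · exact le_refl _

theorem CSA_ga_nonneg (N Y r : ℕ) (β : ℝ) : 0 ≤ ga N Y r β := by
  unfold ga
  split_ifs
  · positivity
  · exact le_refl _

theorem CSA_arcs (N M Y : ℕ) (hM : Good N M) (J : Finset ℕ) (hJ : J ⊆ range M) (D : ℝ) (hD : 0 ≤ D)
    (rr : ℕ → ℕ) (cc : ℕ → ℤ)
    (h : ∀ j ∈ J, 1 ≤ rr j ∧ rr j ≤ Nat.sqrt N ∧ IsCoprime (cc j) (rr j : ℤ) ∧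
      |(j : ℝ) / M - cc j / rr j| ≤ 1)
    (hd : ∀ j ∈ J, ∑ Q ∈ QQ Y, Ea N Q (j / M) ≤ D * (1 + al N Y (rr j) (j / M - cc j / rr j)
      + ga N Y (rr j) (j / M - cc j / rr j))) :
    ∑ Q ∈ QQ Y, mean M J (fun t => Fp N t * Ea N Q t)
      ≤ D * (mean M J (Fp N) + Th (al N Y) N M + Th (ga N Y) N M) := by
  have h1 := transfer N M hM (al N Y) (CSA_al_nonneg N Y) J hJ rr cc h
  have h2 := transfer N M hM (ga N Y) (CSA_ga_nonneg N Y) J hJ rr cc h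
  have h3 : ∑ Q ∈ QQ Y, mean M J (fun t => Fp N t * Ea N Q t)
      = (1 / (M : ℝ)) * ∑ j ∈ J, Fp N (j / M) * ∑ Q ∈ QQ Y, Ea N Q (j / M) := by
    unfold mean
    rw [← mul_sum, sum_comm]
    congr 1
    exact sum_congr rfl fun j _ => by rw [mul_sum]
  have h4 : ∑ j ∈ J, Fp N (j / M) * ∑ Q ∈ QQ Y, Ea N Q (j / M)
      ≤ ∑ j ∈ J, D * (Fp N (j / M) + al N Y (rr j) (j / M - cc j / rr j) * Fp N (j / M)
        + ga N Y (rr j) (j / M - cc j / rr j) * Fp N (j / M)) := by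
    refine sum_le_sum fun j hj => ?_
    have := mul_le_mul_of_nonneg_left (hd j hj) (CSA_Fp_nonneg N (j / M))
    linarith
  rw [h3]
  calc (1 / (M : ℝ)) * ∑ j ∈ J, Fp N (j / M) * ∑ Q ∈ QQ Y, Ea N Q (j / M)
      ≤ (1 / (M : ℝ)) * ∑ j ∈ J, D * (Fp N (j / M) + al N Y (rr j) (j / M - cc j / rr j) * Fp N (j / M)
        + ga N Y (rr j) (j / M - cc j / rr j) * Fp N (j / M)) :=
        mul_le_mul_of_nonneg_left h4 (by positivity)
    _ = D * (mean M J (Fp N) + (1 / (M : ℝ)) * ∑ j ∈ J, al N Y (rr j) (j / M - cc j / rr j) * Fp N (j / M)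
        + (1 / (M : ℝ)) * ∑ j ∈ J, ga N Y (rr j) (j / M - cc j / rr j) * Fp N (j / M)) := by
        unfold mean
        rw [← mul_sum, sum_add_distrib, sum_add_distrib]
        ring
    _ ≤ _ := by
        refine mul_le_mul_of_nonneg_left ?_ hD
        linarith

/-- the major arcs -/
theorem CSA_major : ∃ C : ℝ, 0 < C ∧ ∀ η : ℝ, 0 < η → ∃ N0 : ℕ, ∀ N ≥ N0, ∀ M, Good N M → ∀ Y : ℕ,
    (N : ℝ) ^ (19 / 20 : ℝ) ≤ Y → Y ≤ N → ∀ r0 : ℕ, 1 ≤ r0 → (r0 : ℝ) ^ 9 ≤ N →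
    ∑ Q ∈ QQ Y, mean M (MJ N M r0) (fun t => Fp N t * Ea N Q t)
      ≤ C * (Y / Real.log N) * (mean M (MJ N M r0) (Fp N) + η * A2 N) := by
  obtain ⟨C, hC, N1, h1⟩ := d_main (2 / 5) (by norm_num)
  refine ⟨C, hC, fun η hη => ?_⟩
  obtain ⟨N2, h2⟩ := thin_a (2 / 5) (η / 2) (by norm_num) (by positivity)
  obtain ⟨N3, h3⟩ := thin_g (2 / 5) (η / 2) (by norm_num) (by positivity)
  refine ⟨max (max N1 N2) (max N3 3), fun N hN M hM Y hY1 hY2 r0 hr0 hr9 => ?_⟩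
  have hN1 : N1 ≤ N := le_trans (le_trans (le_max_left _ _) (le_max_left _ _)) hN
  have hN2 : N2 ≤ N := le_trans (le_trans (le_max_right _ _) (le_max_left _ _)) hN
  have hN3 : N3 ≤ N := le_trans (le_trans (le_max_left _ _) (le_max_right _ _)) hN
  have hN4 : 3 ≤ N := le_trans (le_trans (le_max_right _ _) (le_max_right _ _)) hN
  have hNr : (1:ℝ) ≤ N := by exact_mod_cast (by omega : 1 ≤ N)
  have hNpos : (0:ℝ) < N := by linarith
  have hY0 : (N : ℝ) ^ (1 / 2 + 2 / 5 : ℝ) ≤ Y :=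
    le_trans (Real.rpow_le_rpow_of_exponent_le hNr (by norm_num)) hY1
  have hr0' : (1:ℝ) ≤ r0 := by exact_mod_cast hr0
  -- r0 is at most N^(1/9)
  have hr19 : (r0 : ℝ) ≤ (N : ℝ) ^ (1 / 9 : ℝ) := by
    have : (r0 : ℝ) = ((r0 : ℝ) ^ 9) ^ (1 / 9 : ℝ) := by
      rw [← Real.rpow_natCast, ← Real.rpow_mul (by positivity)]
      norm_num
    rw [this]
    exact Real.rpow_le_rpow (by positivity) hr9 (by norm_num)
  have hr0Y : (r0 : ℝ) * (N : ℝ) ^ (1 / 5 : ℝ) ≤ Y := by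
    calc (r0 : ℝ) * (N : ℝ) ^ (1 / 5 : ℝ) ≤ (N : ℝ) ^ (1 / 9 : ℝ) * (N : ℝ) ^ (1 / 5 : ℝ) :=
          mul_le_mul_of_nonneg_right hr19 (by positivity)
      _ = (N : ℝ) ^ (1 / 9 + 1 / 5 : ℝ) := by rw [Real.rpow_add hNpos]
      _ ≤ (N : ℝ) ^ (19 / 20 : ℝ) := Real.rpow_le_rpow_of_exponent_le hNr (by norm_num)
      _ ≤ Y := hY1
  have hsq : r0 ≤ Nat.sqrt N := by
    rw [Nat.le_sqrt']
    have h9 : r0 ^ 2 ≤ r0 ^ 9 := Nat.pow_le_pow_right hr0 (by norm_num)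
    have h10 : r0 ^ 9 ≤ N := by exact_mod_cast hr9
    exact le_trans h9 h10
  have hL : 0 < Real.log N := Real.log_pos (by exact_mod_cast (by omega : 1 < N))
  classical
  -- choice of the fractions
  have hex : ∀ j : ℕ, ∃ rc : ℕ × ℤ, j ∈ MJ N M r0 → (1 ≤ rc.1 ∧ rc.1 ≤ r0 ∧ IsCoprime rc.2 (rc.1 : ℤ) ∧
      |(j : ℝ) / M - rc.2 / rc.1| ≤ r0 / (rc.1 * N)) := by
    intro j
    by_cases hj : j ∈ MJ N M r0
    · obtain ⟨_, r, hr, c, hc1, hc2⟩ := CSA_mem_MJ N M r0 j hj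
      rw [mem_Icc] at hr
      exact ⟨(r, c), fun _ => ⟨hr.1, hr.2, hc1, hc2⟩⟩
    · exact ⟨(0, 0), fun h => absurd h hj⟩
  choose rc hrc using hex
  have key := CSA_arcs N M Y hM (MJ N M r0) (CSA_MJ_sub N M r0) (C * (Y / Real.log N)) (by positivity)
    (fun j => (rc j).1) (fun j => (rc j).2) ?_ ?_
  · refine le_trans key (mul_le_mul_of_nonneg_left ?_ (by positivity))
    have e1 := h2 N hN2 M hM Y hY0 hY2
    have e2 := h3 N hN3 M hM Y hY0 hY2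
    linarith
  · intro j hj
    obtain ⟨a1, a2, a3, a4⟩ := hrc j hj
    refine ⟨a1, le_trans a2 hsq, a3, le_trans a4 ?_⟩
    have hp : (1:ℝ) ≤ (rc j).1 := by exact_mod_cast a1
    rw [div_le_one (by positivity)]
    have hr1 : (r0 : ℝ) ≤ N := by
      have : r0 ≤ N := le_trans hsq (Nat.sqrt_le_self N)
      exact_mod_cast this
    nlinarith
  · intro j hj
    obtain ⟨a1, a2, a3, a4⟩ := hrc j hj
    have hp : (1:ℝ) ≤ (rc j).1 := by exact_mod_cast a1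
    have hp2 : ((rc j).1 : ℝ) ≤ r0 := by exact_mod_cast a2
    have e51 : (2 / 5 / 2 : ℝ) = 1 / 5 := by norm_num
    refine h1 N hN1 Y hY0 hY2 _ (rc j).2 (rc j).1 a1 a3 ?_ ?_
    · rw [e51]
      exact le_trans (mul_le_mul_of_nonneg_right hp2 (by positivity)) hr0Y
    · rw [e51, Real.rpow_add hNpos, Real.rpow_one]
      calc |(j : ℝ) / M - (rc j).2 / (rc j).1| * ((rc j).1 * (N * (N : ℝ) ^ (1 / 5 : ℝ)))
          ≤ (r0 / ((rc j).1 * N)) * ((rc j).1 * (N * (N : ℝ) ^ (1 / 5 : ℝ))) :=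
            mul_le_mul_of_nonneg_right a4 (by positivity)
        _ = (r0 : ℝ) * (N : ℝ) ^ (1 / 5 : ℝ) := by field_simp
        _ ≤ Y := hr0Y

end Pool.Agent.PV
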