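import Pool.Agent.Lib_helper92.PVF.Base
import Pool.Agent.Lib_helper92.PVF.LQA
import Pool.Agent.Lib_helper92.PVF.LQB
import Pool.Agent.Lib_helper92.PVF.LQC
import Pool.Agent.Lib_helper92.PVF.HF

/-! PV, block MLA: the mass of the fractions with small denominators -/

set_option autoImplicit false

namespace Pool.Agent.PV

open Finset Complex Pool.Agent.Var35 Pool.Agent.Var73

lemma mla_swap (R : ℕ) (f : ℕ → ℕ → ℝ) :
    ∑ r ∈ Icc 1 R, ∑ q ∈ r.divisors, f q (r / q) = ∑ q ∈ Icc 1 R, ∑ m ∈ Icc 1 (R / q), f q m := by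
  rw [Finset.sum_sigma', Finset.sum_sigma']
  refine Finset.sum_nbij' (fun x => (⟨x.2, x.1 / x.2⟩ : Σ _ : ℕ, ℕ))
    (fun y => (⟨y.1 * y.2, y.1⟩ : Σ _ : ℕ, ℕ)) ?_ ?_ ?_ ?_ ?_
  · rintro ⟨r, q⟩ h
    rw [Finset.mem_sigma, Finset.mem_Icc, Nat.mem_divisors] at h
    obtain ⟨⟨h1, h2⟩, h3, h4⟩ := h
    simp only at h1 h2 h3 h4
    have hq : 0 < q := Nat.pos_of_dvd_of_pos h3 h1
    have hqr : q ≤ r := Nat.le_of_dvd h1 h3
    rw [Finset.mem_sigma, Finset.mem_Icc, Finset.mem_Icc]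
    exact ⟨⟨hq, hqr.trans h2⟩, Nat.div_pos hqr hq, Nat.div_le_div_right h2⟩
  · rintro ⟨q, m⟩ h
    rw [Finset.mem_sigma, Finset.mem_Icc, Finset.mem_Icc] at h
    obtain ⟨⟨h1, h2⟩, h3, h4⟩ := h
    simp only at h1 h2 h3 h4
    rw [Finset.mem_sigma, Finset.mem_Icc, Nat.mem_divisors]
    refine ⟨⟨Nat.mul_pos h1 h3, ?_⟩, dvd_mul_right _ _, (Nat.mul_pos h1 h3).ne'⟩
    rw [Nat.le_div_iff_mul_le h1] at h4
    simp only
    rwa [mul_comm]
  · rintro ⟨r, q⟩ h
    rw [Finset.mem_sigma, Nat.mem_divisors] at h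
    simp only at h
    simp only [Sigma.mk.injEq, heq_eq_eq, and_true]
    exact Nat.mul_div_cancel' h.2.1
  · rintro ⟨q, m⟩ h
    rw [Finset.mem_sigma, Finset.mem_Icc] at h
    simp only at h
    simp only [Sigma.mk.injEq, heq_eq_eq, true_and]
    exact Nat.mul_div_cancel_left _ h.1.1
  · rintro ⟨r, q⟩ _
    rfl

lemma mla_Tp_nonneg (b : ℕ → ℂ) (N q : ℕ) : 0 ≤ Tp b N q := by
  unfold Tp
  exact Finset.sum_nonneg fun _ _ => by positivity

lemma mla_Lq_nonneg (q z : ℕ) : 0 ≤ Lq q z := by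
  unfold Lq
  exact Finset.sum_nonneg fun _ _ => by positivity

/-- the sum of the masses -/
lemma mla_sum (b : ℕ → ℂ) (N R : ℕ)
    (hb : ∀ n ∈ Icc 1 N, b n ≠ 0 → ∀ r ∈ Icc 1 R, Nat.Coprime n r) :
    ∑ r ∈ Icc 1 R, Hh b N r =
      ∑ q ∈ Icc 1 R, (q / Nat.totient q : ℝ) * Lq q (R / q) * Tp b N q := by
  have h1 : ∑ r ∈ Icc 1 R, Hh b N r = ∑ r ∈ Icc 1 R, ∑ q ∈ r.divisors,
      (fun q m : ℕ => (if Squarefree m ∧ Nat.Coprime m q then
        (q / Nat.totient q : ℝ) * (1 / (Nat.totient m : ℝ)) else 0) * Tp b N q) q (r / q) := by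
    refine Finset.sum_congr rfl fun r hr => ?_
    rw [Finset.mem_Icc] at hr
    rw [hf b N r hr.1 fun n hn h0 => hb n hn h0 r (Finset.mem_Icc.2 hr)]
  rw [h1, mla_swap R (fun q m : ℕ => (if Squarefree m ∧ Nat.Coprime m q then
        (q / Nat.totient q : ℝ) * (1 / (Nat.totient m : ℝ)) else 0) * Tp b N q)]
  refine Finset.sum_congr rfl fun q _ => ?_
  rw [← Finset.sum_mul]
  congr 1
  unfold Lq
  rw [Finset.mul_sum, Finset.sum_filter]

/-- lower bound -/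
lemma mla_lower (b : ℕ → ℂ) (N R z : ℕ)
    (hb : ∀ n ∈ Icc 1 N, b n ≠ 0 → ∀ r ∈ Icc 1 R, Nat.Coprime n r) (hz : 1 ≤ z) (hzR : z ≤ R) :
    Real.log (R / z) * ∑ q ∈ Icc 1 z, Tp b N q ≤ ∑ r ∈ Icc 1 R, Hh b N r := by
  rw [mla_sum b N R hb, Finset.mul_sum]
  calc ∑ q ∈ Icc 1 z, Real.log (R / z) * Tp b N q
      ≤ ∑ q ∈ Icc 1 z, (q / Nat.totient q : ℝ) * Lq q (R / q) * Tp b N q := by
        refine Finset.sum_le_sum fun q hq => ?_
        rw [Finset.mem_Icc] at hq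
        refine mul_le_mul_of_nonneg_right ?_ (mla_Tp_nonneg b N q)
        have hq0 : (0 : ℝ) < q := by exact_mod_cast hq.1
        have hφ : (0 : ℝ) < Nat.totient q := by exact_mod_cast Nat.totient_pos.2 hq.1
        have hR0 : (0 : ℝ) < R := by
          have : 0 < R := by omega
          exact_mod_cast this
        have hz0 : (0 : ℝ) < z := by exact_mod_cast hz
        have h1 := lq_lower q (R / q) hq.1
        have h2 := lq_one_lower (R / q)
        have h3 : (R : ℝ) / z ≤ ((R / q : ℕ) : ℝ) + 1 := by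
          have h4 : (R : ℝ) / q < ((R / q : ℕ) : ℝ) + 1 := by
            rw [div_lt_iff₀ hq0]
            have := Nat.lt_mul_of_div_lt (Nat.lt_succ_self (R / q)) hq.1
            have h5 : (R : ℝ) < ((Nat.succ (R / q) * q : ℕ) : ℝ) := by exact_mod_cast this
            push_cast at h5
            exact h5
          have h6 : (R : ℝ) / z ≤ R / q := by
            apply div_le_div_of_nonneg_left hR0.le hq0
            exact_mod_cast hq.2
          linarith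
        have h7 : Real.log (R / z) ≤ Lq 1 (R / q) :=
          (Real.log_le_log (by positivity) h3).trans h2
        calc Real.log (R / z) ≤ Lq 1 (R / q) := h7
          _ = (q / Nat.totient q : ℝ) * ((Nat.totient q / q : ℝ) * Lq 1 (R / q)) := by
              field_simp
          _ ≤ (q / Nat.totient q : ℝ) * Lq q (R / q) :=
              mul_le_mul_of_nonneg_left h1 (by positivity)
    _ ≤ ∑ q ∈ Icc 1 R, (q / Nat.totient q : ℝ) * Lq q (R / q) * Tp b N q := by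
        refine Finset.sum_le_sum_of_subset_of_nonneg (Finset.Icc_subset_Icc_right hzR) ?_
        intro q _ _
        exact mul_nonneg (mul_nonneg (by positivity) (mla_Lq_nonneg _ _)) (mla_Tp_nonneg _ _ _)

/-- MLA -/
theorem ml1_pr : ∃ C : ℝ, 0 < C ∧ ∀ (b : ℕ → ℂ) (N R r0 : ℕ),
    (∀ n ∈ Icc 1 N, b n ≠ 0 → ∀ r ∈ Icc 1 R, Nat.Coprime n r) → 1 ≤ r0 → r0 ≤ R →
    Real.log (R / r0) * ∑ r ∈ Icc 1 r0, Hh b N r ≤ (Real.log r0 + C) * ∑ r ∈ Icc 1 R, Hh b N r := by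
  obtain ⟨C, hC, hup⟩ := lq_one_upper
  refine ⟨C, hC, ?_⟩
  intro b N R r0 hb h1 hR
  have hr0 : (0 : ℝ) < r0 := by exact_mod_cast h1
  have hr1 : (1 : ℝ) ≤ r0 := by exact_mod_cast h1
  have hlog0 : 0 ≤ Real.log r0 := Real.log_nonneg hr1
  have hRr : (1 : ℝ) ≤ R / r0 := by
    rw [one_le_div hr0]
    exact_mod_cast hR
  have hlog1 : 0 ≤ Real.log (R / r0) := Real.log_nonneg hRr
  have hb' : ∀ n ∈ Icc 1 N, b n ≠ 0 → ∀ r ∈ Icc 1 r0, Nat.Coprime n r := by
    intro n hn h0 r hr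
    exact hb n hn h0 r (Finset.Icc_subset_Icc_right hR hr)
  have hupper : ∑ r ∈ Icc 1 r0, Hh b N r ≤ (Real.log r0 + C) * ∑ q ∈ Icc 1 r0, Tp b N q := by
    rw [mla_sum b N r0 hb', Finset.mul_sum]
    refine Finset.sum_le_sum fun q hq => ?_
    rw [Finset.mem_Icc] at hq
    refine mul_le_mul_of_nonneg_right ?_ (mla_Tp_nonneg b N q)
    have hq0 : (0 : ℝ) < q := by exact_mod_cast hq.1
    have hφ : (0 : ℝ) < Nat.totient q := by exact_mod_cast Nat.totient_pos.2 hq.1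
    have h2 := lq_upper q (r0 / q) hq.1
    have hz1 : 1 ≤ q * (r0 / q) := Nat.mul_pos hq.1 (Nat.div_pos hq.2 hq.1)
    have hz2 : q * (r0 / q) ≤ r0 := Nat.mul_div_le r0 q
    have h3 := hup (q * (r0 / q)) hz1
    have h4 : Real.log ((q * (r0 / q) : ℕ) : ℝ) ≤ Real.log r0 := by
      apply Real.log_le_log
      · exact_mod_cast hz1
      · exact_mod_cast hz2
    calc (q / Nat.totient q : ℝ) * Lq q (r0 / q)
        ≤ (q / Nat.totient q : ℝ) * ((Nat.totient q / q : ℝ) * Lq 1 (q * (r0 / q))) :=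
          mul_le_mul_of_nonneg_left h2 (by positivity)
      _ = Lq 1 (q * (r0 / q)) := by field_simp
      _ ≤ Real.log r0 + C := by linarith
  have hlower := mla_lower b N R r0 hb h1 hR
  calc Real.log (R / r0) * ∑ r ∈ Icc 1 r0, Hh b N r
      ≤ Real.log (R / r0) * ((Real.log r0 + C) * ∑ q ∈ Icc 1 r0, Tp b N q) :=
        mul_le_mul_of_nonneg_left hupper hlog1
    _ = (Real.log r0 + C) * (Real.log (R / r0) * ∑ q ∈ Icc 1 r0, Tp b N q) := by ring
    _ ≤ (Real.log r0 + C) * ∑ r ∈ Icc 1 R, Hh b N r :=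
        mul_le_mul_of_nonneg_left hlower (by linarith)

alias ml1 := ml1_pr

end Pool.Agent.PV
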