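import Pool.Agent.Lib_helper92.PVF.Base
import Pool.Agent.Lib_helper92.PVF.PAR
import Pool.Agent.Lib_helper92.PVF.MLA
import Pool.Agent.Lib_helper92.PVF.ARC

/-! PV block MAJ : mass of the major arcs -/

-- NEEDS: ml1, arcs, pars

set_option autoImplicit false

namespace Pool.Agent.PV

open Finset Complex Pool.Agent.Var35 Pool.Agent.Var73
open scoped ArithmeticFunction ArithmeticFunction.Moebius

lemma MAJ_Bs_add_int (b : ℕ → ℂ) (N : ℕ) (t : ℝ) (n : ℤ) : Bs b N (t + n) = Bs b N t := by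
  unfold Bs
  refine sum_congr rfl fun k _ => ?_
  congr 1
  have h : (k : ℝ) * (t + n) = k * t + ((k * n : ℤ) : ℝ) := by push_cast; ring
  rw [h, e_add_int]

lemma MAJ_Fp_add_int (N : ℕ) (t : ℝ) (n : ℤ) : Fp N (t + n) = Fp N t := by
  unfold Fp Ps
  rw [MAJ_Bs_add_int]

lemma MAJ_Fp_nonneg (N : ℕ) (t : ℝ) : 0 ≤ Fp N t := by unfold Fp; positivity

/-- the shifted coefficients -/
noncomputable def MAJ_b (N M : ℕ) (i : ℤ) (n : ℕ) : ℂ := (aS N n : ℂ) * e (n * ((i : ℝ) / M))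

lemma MAJ_shift (N M : ℕ) (i : ℤ) (x : ℝ) : Fp N (x + i / M) = ‖Bs (MAJ_b N M i) N x‖ ^ 2 := by
  unfold Fp Ps Bs MAJ_b
  congr 2
  refine sum_congr rfl fun n _ => ?_
  rw [mul_assoc, ← e_add]
  congr 2
  ring

lemma MAJ_supp (N M : ℕ) (i : ℤ) (R : ℕ) (hR : R ≤ Nat.sqrt N) :
    ∀ n ∈ Icc 1 N, MAJ_b N M i n ≠ 0 → ∀ r ∈ Icc 1 R, Nat.Coprime n r := by
  intro n _ hb r hr
  have h : aS N n ≠ 0 := by
    intro h0
    apply hb
    unfold MAJ_b
    rw [h0]
    simp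
  have h2 : n.Prime ∧ Nat.sqrt N < n := by
    by_contra hc
    apply h
    unfold aS
    rw [if_neg hc]
  rw [mem_Icc] at hr
  rw [Nat.Prime.coprime_iff_not_dvd h2.1]
  intro hd
  have := Nat.le_of_dvd (by omega) hd
  omega

lemma MAJ_sum (N M r0 : ℕ) (hM : Good N M) (hN : 1 ≤ N) (hr0 : 1 ≤ r0) (hr : r0 ≤ Nat.sqrt N) :
    ∑ j ∈ MJ N M r0, Fp N (j / M)
      ≤ ∑ i ∈ Sh M 0 ((r0 : ℝ) / N), ∑ r ∈ Icc 1 r0, ∑ c ∈ Cd r, Fp N (c / r + i / M) := by
  classical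
  obtain ⟨hM4, hdiv⟩ := hM
  have hMpos : 0 < M := by omega
  have hM0 : (0 : ℝ) < M := by exact_mod_cast hMpos
  have hN0 : (0 : ℝ) < N := by exact_mod_cast hN
  have hrN : r0 ≤ N := hr.trans (Nat.sqrt_le_self N)
  set S : Finset (ℤ × (Σ _ : ℕ, ℕ)) := (Sh M 0 ((r0 : ℝ) / N)) ×ˢ ((Icc 1 r0).sigma (fun r => Cd r)) with hS
  have hL : ∑ i ∈ Sh M 0 ((r0 : ℝ) / N), ∑ r ∈ Icc 1 r0, ∑ c ∈ Cd r, Fp N (c / r + i / M)
      = ∑ x ∈ S, Fp N ((x.2.2 : ℝ) / x.2.1 + x.1 / M) := by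
    rw [hS, sum_product]
    refine sum_congr rfl fun i _ => ?_
    rw [sum_sigma]
  rw [hL]
  have hch : ∀ j : ℕ, ∃ x : ℤ × (Σ _ : ℕ, ℕ), j ∈ MJ N M r0 →
      (x ∈ S ∧ ∃ n : ℤ, (j : ℝ) / M = (x.2.2 : ℝ) / x.2.1 + x.1 / M + n) := by
    intro j
    by_cases hj : j ∈ MJ N M r0
    · simp only [MJ, mem_filter] at hj
      obtain ⟨_, r, hr1, c, hc, hle⟩ := hj
      rw [mem_Icc] at hr1
      have hrpos : 0 < r := by omega
      have hr0' : (0 : ℝ) < r := by exact_mod_cast hrpos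
      have hrz : (0 : ℤ) < r := by exact_mod_cast hrpos
      have hrM : r ∣ M := hdiv r hr1.1 (hr1.2.trans hr)
      set c' : ℕ := (c % (r : ℤ)).toNat with hc'
      have h1 : ((c' : ℕ) : ℤ) = c % r := Int.toNat_of_nonneg (Int.emod_nonneg _ hrz.ne')
      have h2 : c = c' + r * (c / (r : ℤ)) := by
        rw [h1]; exact (Int.emod_add_mul_ediv c (r : ℤ)).symm
      set i : ℤ := (j : ℤ) - c * ((M / r : ℕ) : ℤ) with hi
      have h3 : (i : ℝ) / M = j / M - c / r := by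
        have hMr : ((M / r : ℕ) : ℝ) = M / r := Nat.cast_div hrM hr0'.ne'
        rw [hi, Int.cast_sub, Int.cast_mul, Int.cast_natCast, Int.cast_natCast, hMr]
        field_simp
      refine ⟨⟨i, ⟨r, c'⟩⟩, fun _ => ⟨?_, ⟨c / (r : ℤ), ?_⟩⟩⟩
      · rw [hS, mem_product, mem_sigma]
        have h4 : |(i : ℝ)| / M ≤ (r0 : ℝ) / N := by
          have h5 : |(i : ℝ)| / M = |(i : ℝ) / M| := by rw [abs_div, abs_of_pos hM0]
          rw [h5, h3]
          refine hle.trans ?_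
          have h6 : (1 : ℝ) ≤ r := by exact_mod_cast hr1.1
          have h7 : (0 : ℝ) ≤ r0 := by positivity
          rw [div_le_div_iff₀ (by positivity) hN0]
          have : (r0 : ℝ) * N * 1 ≤ r0 * N * r := mul_le_mul_of_nonneg_left h6 (by positivity)
          nlinarith
        have h8 : (r0 : ℝ) / N ≤ 1 := by
          rw [div_le_one hN0]; exact_mod_cast hrN
        have h9 : |(i : ℝ)| ≤ M := by
          have := h4.trans h8
          rwa [div_le_one hM0] at this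
        have h10 : |i| ≤ (M : ℤ) := by exact_mod_cast h9
        refine ⟨?_, ?_, ?_⟩
        · unfold Sh
          rw [mem_filter, mem_Icc]
          refine ⟨⟨?_, ?_⟩, ?_, h4⟩
          · exact (abs_le.mp h10).1
          · exact (abs_le.mp h10).2
          · positivity
        · exact mem_Icc.mpr hr1
        · simp only [Cd, mem_filter, mem_range]
          refine ⟨?_, ?_⟩
          · have := Int.emod_lt_of_pos c hrz
            omega
          · have h11 : IsCoprime ((c' : ℕ) : ℤ) (r : ℤ) := by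
              rw [h2] at hc
              exact (IsCoprime.add_mul_left_left_iff).mp hc
            exact Nat.isCoprime_iff_coprime.mp h11
      · simp only
        rw [h3]
        have h12 : (c : ℝ) = c' + r * ((c / (r : ℤ) : ℤ) : ℝ) := by exact_mod_cast h2
        have h13 : (c : ℝ) / r = c' / r + ((c / (r : ℤ) : ℤ) : ℝ) := by
          rw [div_add' _ _ _ hr0'.ne']
          congr 1
          rw [h12]
          ring
        rw [h13]; ring
    · exact ⟨⟨0, ⟨0, 0⟩⟩, fun h => absurd h hj⟩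
  choose φ hφ using hch
  have hinj : Set.InjOn φ (MJ N M r0 : Finset ℕ) := by
    intro j hj j' hj' he
    rw [mem_coe] at hj hj'
    obtain ⟨_, n, hn⟩ := hφ j hj
    obtain ⟨_, n', hn'⟩ := hφ j' hj'
    rw [he] at hn
    have h1 : (j : ℝ) / M - j' / M = ((n - n' : ℤ) : ℝ) := by push_cast; linarith
    have h2 : (j : ℝ) - j' = M * ((n - n' : ℤ) : ℝ) := by
      field_simp at h1
      linarith
    have h3 : (j : ℤ) - j' = M * (n - n') := by exact_mod_cast h2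
    have hjr : j < M := by
      simp only [MJ, mem_filter, mem_range] at hj
      exact hj.1
    have hjr' : j' < M := by
      simp only [MJ, mem_filter, mem_range] at hj'
      exact hj'.1
    have h4 : (M : ℤ) ∣ (j : ℤ) - j' := ⟨_, h3⟩
    have h5 : |(j : ℤ) - j'| < M := by
      rw [abs_lt]; constructor <;> omega
    have h6 := Int.eq_zero_of_abs_lt_dvd h4 h5
    omega
  have h1 : ∑ j ∈ MJ N M r0, Fp N (j / M)
      = ∑ j ∈ MJ N M r0, Fp N (((φ j).2.2 : ℝ) / (φ j).2.1 + (φ j).1 / M) := by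
    refine sum_congr rfl fun j hj => ?_
    obtain ⟨_, n, hn⟩ := hφ j hj
    rw [hn, MAJ_Fp_add_int]
  rw [h1, ← sum_image (f := fun x : ℤ × (Σ _ : ℕ, ℕ) => Fp N ((x.2.2 : ℝ) / x.2.1 + x.1 / M)) hinj]
  refine sum_le_sum_of_subset_of_nonneg ?_ fun _ _ _ => MAJ_Fp_nonneg _ _
  intro x hx
  rw [mem_image] at hx
  obtain ⟨j, hj, rfl⟩ := hx
  exact (hφ j hj).1

lemma MAJ_log (N r0 R : ℕ) (hN : 4 ^ 12 ≤ N) (hr0 : 1 ≤ r0) (h9 : r0 ^ 9 ≤ N)
    (hR : R = Nat.sqrt (N / (4 * r0))) : r0 ≤ R ∧ Real.log N / 4 ≤ Real.log (R / r0) := by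
  have hNpos : (0 : ℝ) < N := by
    have : 0 < N := by omega
    exact_mod_cast this
  have hr : (0 : ℝ) < r0 := by exact_mod_cast hr0
  set y : ℝ := (N : ℝ) ^ (1 / 36 : ℝ) with hy
  have hy0 : 0 < y := by positivity
  have hyN : y ^ 36 = N := by
    rw [hy, ← Real.rpow_natCast, ← Real.rpow_mul hNpos.le]
    norm_num
  have hN' : (4 : ℝ) ^ 12 ≤ N := by exact_mod_cast hN
  have hy3 : 4 ≤ y ^ 3 := by
    by_contra hlt
    push Not at hlt
    have h1 : (y ^ 3) ^ 12 < 4 ^ 12 := pow_lt_pow_left₀ hlt (by positivity) (by norm_num)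
    have h2 : (y ^ 3) ^ 12 = N := by rw [← pow_mul]; exact hyN
    rw [h2] at h1
    linarith
  have hr4 : (r0 : ℝ) ≤ y ^ 4 := by
    by_contra hlt
    push Not at hlt
    have h1 : (y ^ 4) ^ 9 < (r0 : ℝ) ^ 9 := pow_lt_pow_left₀ hlt (by positivity) (by norm_num)
    rw [← pow_mul] at h1
    norm_num at h1
    rw [hyN] at h1
    have h2 : (r0 : ℝ) ^ 9 ≤ N := by exact_mod_cast h9
    linarith
  have hy1 : 1 ≤ y := by
    by_contra hlt
    push Not at hlt
    have : y ^ 3 < 1 := pow_lt_one₀ hy0.le hlt (by norm_num)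
    linarith
  -- lower bound for R + 1
  have h1 : N / (4 * r0) < (R + 1) ^ 2 := by
    rw [hR]
    have := Nat.lt_succ_sqrt (N / (4 * r0))
    simpa [sq] using this
  have h2 : (N : ℝ) < 4 * r0 * (R + 1) ^ 2 := by
    have h3 : N < ((R + 1) ^ 2) * (4 * r0) := by
      exact (Nat.div_lt_iff_lt_mul (by positivity)).mp h1
    have h4 : (N : ℝ) < ((R + 1 : ℕ) ^ 2 * (4 * r0) : ℕ) := by exact_mod_cast h3
    push_cast at h4
    linarith
  have h5 : y ^ 16 / 2 < R + 1 := by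
    have h6 : y ^ 32 < 4 * ((R : ℝ) + 1) ^ 2 := by
      have h7 : y ^ 36 < 4 * y ^ 4 * ((R : ℝ) + 1) ^ 2 := by
        rw [hyN]
        refine lt_of_lt_of_le h2 ?_
        have : (4 : ℝ) * r0 ≤ 4 * y ^ 4 := by linarith
        exact mul_le_mul_of_nonneg_right this (by positivity)
      have h8 : y ^ 36 = y ^ 4 * y ^ 32 := by ring
      rw [h8] at h7
      have h9 : y ^ 4 * y ^ 32 < y ^ 4 * (4 * ((R : ℝ) + 1) ^ 2) := by linarith
      exact lt_of_mul_lt_mul_left h9 (by positivity)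
    by_contra hge
    push Not at hge
    have h10 : ((R : ℝ) + 1) ^ 2 ≤ (y ^ 16 / 2) ^ 2 := pow_le_pow_left₀ (by positivity) hge 2
    have h11 : (y ^ 16 / 2) ^ 2 = y ^ 32 / 4 := by ring
    rw [h11] at h10
    linarith
  have h16 : 4 ≤ y ^ 16 := by
    have : y ^ 16 = y ^ 3 * y ^ 13 := by ring
    rw [this]
    have h13 : 1 ≤ y ^ 13 := one_le_pow₀ hy1
    nlinarith
  have hRl : y ^ 16 / 4 ≤ R := by linarith
  have hRr : y ^ 9 ≤ (R : ℝ) / r0 := by
    rw [le_div_iff₀ hr]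
    have h12 : y ^ 9 * r0 ≤ y ^ 9 * y ^ 4 := mul_le_mul_of_nonneg_left hr4 (by positivity)
    have h13 : y ^ 9 * y ^ 4 = y ^ 13 := by ring
    have h14 : y ^ 16 = y ^ 3 * y ^ 13 := by ring
    have h15 : 4 * y ^ 13 ≤ y ^ 16 := by
      rw [h14]
      exact mul_le_mul_of_nonneg_right hy3 (by positivity)
    linarith
  have hy9 : 1 ≤ y ^ 9 := one_le_pow₀ hy1
  constructor
  · have : (1 : ℝ) ≤ (R : ℝ) / r0 := hy9.trans hRr
    rw [le_div_iff₀ hr, one_mul] at this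
    exact_mod_cast this
  · have h17 : Real.log (y ^ 9) ≤ Real.log (R / r0) := Real.log_le_log (by positivity) hRr
    rw [Real.log_pow] at h17
    have h18 : Real.log N = 36 * Real.log y := by
      rw [← hyN, Real.log_pow]; norm_num
    rw [h18]
    push_cast at h17
    linarith

theorem mass_major_pr : ∃ C : ℝ, 0 < C ∧ ∃ N0 : ℕ, ∀ N ≥ N0, ∀ M, Good N M → ∀ r0 : ℕ, 1 ≤ r0 → r0 ^ 9 ≤ N →
    mean M (MJ N M r0) (Fp N) ≤ C * ((1 + Real.log r0) / Real.log N) * A2 N := by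
  obtain ⟨C, hC, hml⟩ := ml1
  refine ⟨4 * (1 + C), by positivity, 4 ^ 12, ?_⟩
  intro N hN M hM r0 hr0 h9
  have hNpos : 0 < N := by omega
  have hN1 : 1 ≤ N := hNpos
  have hN0 : (0 : ℝ) < N := by exact_mod_cast hNpos
  have hMpos : 0 < M := by have := hM.1; omega
  have hM0 : (0 : ℝ) < M := by exact_mod_cast hMpos
  have hr : (0 : ℝ) < r0 := by exact_mod_cast hr0
  have hlogN : 0 < Real.log N := Real.log_pos (by exact_mod_cast (by omega : 1 < N))
  have hlr : 0 ≤ Real.log r0 := Real.log_nonneg (by exact_mod_cast hr0)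
  obtain ⟨hrR, hlog⟩ := MAJ_log N r0 _ hN hr0 h9 rfl
  set R : ℕ := Nat.sqrt (N / (4 * r0)) with hR
  have hRs : R ≤ Nat.sqrt N := Nat.sqrt_le_sqrt (Nat.div_le_self _ _)
  have hR1 : 1 ≤ R := hr0.trans hrR
  have hrs : r0 ≤ Nat.sqrt N := hrR.trans hRs
  set v : ℝ := (r0 : ℝ) / N with hv
  have hv0 : 0 ≤ v := by positivity
  have hR2 : R ^ 2 * (4 * r0) ≤ N := by
    have h1 : R ^ 2 ≤ N / (4 * r0) := by
      rw [hR, sq]; exact Nat.sqrt_le _
    exact (Nat.le_div_iff_mul_le (by positivity)).mp h1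
  have hv1 : 2 * v * (R : ℝ) ^ 2 < 1 := by
    have h1 : ((R ^ 2 * (4 * r0) : ℕ) : ℝ) ≤ N := by exact_mod_cast hR2
    push_cast at h1
    rw [hv]
    have h2 : 2 * ((r0 : ℝ) / N) * (R : ℝ) ^ 2 = (R ^ 2 * (4 * r0)) / N / 2 := by ring
    rw [h2]
    have h3 : ((R : ℝ) ^ 2 * (4 * r0)) / N ≤ 1 := (div_le_one hN0).mpr h1
    linarith
  have harc := arcs M R v (by omega) hR1 (fun r h1 h2 => hM.2 r h1 (h2.trans hRs)) hv0 hv1 (Fp N)
    (MAJ_Fp_nonneg N) (fun x => by have := MAJ_Fp_add_int N x 1; simpa using this)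
  have hpars : (1 / (M : ℝ)) * ∑ j ∈ range M, Fp N (j / M) = A2 N := by
    have := pars N M hM.1 (fun n => (aS N n : ℂ))
    unfold Fp Ps
    rw [this]
    unfold A2
    refine sum_congr rfl fun n _ => ?_
    rw [Complex.norm_real, Real.norm_eq_abs, sq_abs]
  have hH : ∀ (K : ℕ) (i : ℤ), ∑ r ∈ Icc 1 K, ∑ c ∈ Cd r, Fp N (c / r + i / M)
      = ∑ r ∈ Icc 1 K, Hh (MAJ_b N M i) N r := by
    intro K i
    refine sum_congr rfl fun r _ => ?_
    unfold Hh
    refine sum_congr rfl fun c _ => ?_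
    exact MAJ_shift N M i _
  have hmain : Real.log (R / r0) * ∑ i ∈ Sh M 0 v, ∑ r ∈ Icc 1 r0, ∑ c ∈ Cd r, Fp N (c / r + i / M)
      ≤ (Real.log r0 + C) * ∑ i ∈ Sh M 0 v, ∑ r ∈ Icc 1 R, ∑ c ∈ Cd r, Fp N (c / r + i / M) := by
    rw [mul_sum, mul_sum]
    refine sum_le_sum fun i _ => ?_
    rw [hH, hH]
    exact hml (MAJ_b N M i) N R r0 (MAJ_supp N M i R hRs) hr0 hrR
  have hsum := MAJ_sum N M r0 hM hN1 hr0 hrs
  have hA0 : 0 ≤ A2 N := by unfold A2; positivity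
  set S : ℝ := ∑ i ∈ Sh M 0 v, ∑ r ∈ Icc 1 r0, ∑ c ∈ Cd r, Fp N (c / r + i / M) with hSdef
  have hS0 : 0 ≤ S := by
    rw [hSdef]
    exact sum_nonneg fun _ _ => sum_nonneg fun _ _ => sum_nonneg fun _ _ => MAJ_Fp_nonneg _ _
  have h1 : (Real.log N / 4) * S ≤ (Real.log r0 + C) * (M * A2 N) := by
    have h2 : (Real.log N / 4) * S ≤ Real.log (R / r0) * S := mul_le_mul_of_nonneg_right hlog hS0
    have h3 : ∑ j ∈ range M, Fp N (j / M) = M * A2 N := by
      rw [← hpars]; field_simp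
    rw [h3] at harc
    have h4 : (Real.log r0 + C) * ∑ i ∈ Sh M 0 v, ∑ r ∈ Icc 1 R, ∑ c ∈ Cd r, Fp N (c / r + i / M)
        ≤ (Real.log r0 + C) * (M * A2 N) := mul_le_mul_of_nonneg_left harc (by positivity)
    linarith
  have h5 : mean M (MJ N M r0) (Fp N) ≤ (1 / (M : ℝ)) * S := by
    unfold mean
    exact mul_le_mul_of_nonneg_left hsum (by positivity)
  refine h5.trans ?_
  have h6 : (1 / (M : ℝ)) * S ≤ 4 * (Real.log r0 + C) / Real.log N * A2 N := by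
    have h7 : (1 / (M : ℝ)) * S = (4 / (M * Real.log N)) * ((Real.log N / 4) * S) := by
      field_simp
    have h8 : 4 * (Real.log r0 + C) / Real.log N * A2 N
        = (4 / (M * Real.log N)) * ((Real.log r0 + C) * (M * A2 N)) := by
      field_simp
    rw [h7, h8]
    exact mul_le_mul_of_nonneg_left h1 (by positivity)
  refine h6.trans ?_
  refine mul_le_mul_of_nonneg_right ?_ hA0
  rw [← mul_div_assoc]
  refine div_le_div_of_nonneg_right ?_ hlogN.le
  nlinarith [mul_nonneg hC.le hlr]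

alias mass_major := mass_major_pr

end Pool.Agent.PV
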