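import Pool.Agent.Lib_helper92.PVF.Base
import Pool.Agent.Lib_helper92.PVF.REP

set_option autoImplicit false

namespace Pool.Agent.PV

open Finset Complex Pool.Agent.Var35 Pool.Agent.Var73
open scoped ArithmeticFunction ArithmeticFunction.Moebius

/-- Fourier coefficients of `Fp` on the set `J` -/
noncomputable def mnr_r (N M : ℕ) (J : Finset ℕ) (h : ℤ) : ℂ :=
  (1 / (M : ℂ)) * ∑ j ∈ J, ((Fp N (j / M) : ℝ) : ℂ) * e (h * ((j : ℝ) / M))

lemma mnr_eq (N Q : ℕ) (hQ : 0 < Q) (t : ℝ) :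
    ((EQ N Q t : ℝ) : ℂ) = ∑ h ∈ (Ioo (-((2 * N : ℕ) : ℤ)) ((2 * N : ℕ) : ℤ)).filter (fun h : ℤ => (Q : ℤ) ∣ h),
      ((rep_w N h : ℝ) : ℂ) * e (h * t) := by
  have hQc : (Q : ℂ) ≠ 0 := by exact_mod_cast hQ.ne'
  unfold EQ
  rw [Complex.ofReal_mul, Complex.ofReal_sum]
  have h1 : ∀ b ∈ range Q, ((Wk N (t - b / Q) : ℝ) : ℂ)
      = ∑ h ∈ Ioo (-((2 * N : ℕ) : ℤ)) ((2 * N : ℕ) : ℤ),
        ((rep_w N h : ℝ) : ℂ) * e (h * t) * e (b * (((-h : ℤ) : ℝ) / Q)) := by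
    intro b _
    rw [rep_wk]
    refine sum_congr rfl fun h _ => ?_
    rw [mul_assoc, ← e_add]
    congr 2
    push_cast
    ring
  rw [sum_congr rfl h1, sum_comm, mul_sum, sum_filter]
  refine sum_congr rfl fun h _ => ?_
  rw [← mul_sum, sum_roots Q hQ]
  by_cases hd : (Q : ℤ) ∣ h
  · rw [if_pos hd, if_pos ((dvd_neg).mpr hd)]
    push_cast
    field_simp
  · rw [if_neg hd, if_neg (fun h' => hd ((dvd_neg).mp h')), mul_zero, mul_zero]

lemma mnr_eq1 (N Q : ℕ) (hN : 1 ≤ N) (hQ : 0 < Q) (t : ℝ) :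
    (((EQ N Q t - 1 : ℝ)) : ℂ)
      = ∑ h ∈ ((Ioo (-((2 * N : ℕ) : ℤ)) ((2 * N : ℕ) : ℤ)).erase 0).filter (fun h : ℤ => (Q : ℤ) ∣ h),
      ((rep_w N h : ℝ) : ℂ) * e (h * t) := by
  rw [Complex.ofReal_sub, mnr_eq N Q hQ t, Finset.filter_erase]
  have h0 : (0 : ℤ) ∈ (Ioo (-((2 * N : ℕ) : ℤ)) ((2 * N : ℕ) : ℤ)).filter (fun h : ℤ => (Q : ℤ) ∣ h) := by
    rw [mem_filter, mem_Ioo]
    refine ⟨by omega, dvd_zero _⟩
  rw [← Finset.add_sum_erase _ _ h0, rep_w_one N hN 0 (by simp)]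
  simp [e_zero]

lemma mnr_mean (N M Q : ℕ) (hN : 1 ≤ N) (hQ : 0 < Q) (J : Finset ℕ) :
    |mean M J (fun t => Fp N t * (EQ N Q t - 1))|
      ≤ ∑ h ∈ ((Ioo (-((2 * N : ℕ) : ℤ)) ((2 * N : ℕ) : ℤ)).erase 0).filter (fun h : ℤ => (Q : ℤ) ∣ h),
        ‖mnr_r N M J h‖ := by
  have h1 : ((mean M J (fun t => Fp N t * (EQ N Q t - 1)) : ℝ) : ℂ)
      = ∑ h ∈ ((Ioo (-((2 * N : ℕ) : ℤ)) ((2 * N : ℕ) : ℤ)).erase 0).filter (fun h : ℤ => (Q : ℤ) ∣ h),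
        ((rep_w N h : ℝ) : ℂ) * mnr_r N M J h := by
    unfold mean
    rw [Complex.ofReal_mul, Complex.ofReal_sum]
    have h2 : ∀ j ∈ J, ((Fp N (j / M) * (EQ N Q (j / M) - 1) : ℝ) : ℂ)
        = ∑ h ∈ ((Ioo (-((2 * N : ℕ) : ℤ)) ((2 * N : ℕ) : ℤ)).erase 0).filter (fun h : ℤ => (Q : ℤ) ∣ h),
          ((rep_w N h : ℝ) : ℂ) * (((Fp N (j / M) : ℝ) : ℂ) * e (h * ((j : ℝ) / M))) := by
      intro j _
      rw [Complex.ofReal_mul, mnr_eq1 N Q hN hQ, mul_sum]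
      refine sum_congr rfl fun h _ => ?_
      ring
    rw [sum_congr rfl h2, sum_comm, mul_sum]
    refine sum_congr rfl fun h _ => ?_
    unfold mnr_r
    rw [← mul_sum]
    push_cast
    ring
  have h3 : |mean M J (fun t => Fp N t * (EQ N Q t - 1))|
      = ‖((mean M J (fun t => Fp N t * (EQ N Q t - 1)) : ℝ) : ℂ)‖ := by
    rw [Complex.norm_real, Real.norm_eq_abs]
  rw [h3, h1]
  refine (norm_sum_le _ _).trans (sum_le_sum fun h _ => ?_)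
  rw [norm_mul, Complex.norm_real, Real.norm_of_nonneg (rep_w_nonneg N h)]
  exact mul_le_of_le_one_left (norm_nonneg _) (rep_w_le N hN h)

lemma mnr_card (Y : ℕ) (h : ℤ) (h0 : h ≠ 0) (hY : h.natAbs < Y ^ 2) :
    ((QQ Y).filter (fun Q : ℕ => (Q : ℤ) ∣ h)).card ≤ 1 := by
  rw [Finset.card_le_one]
  intro a ha b hb
  simp only [QQ, mem_filter, mem_Ioc] at ha hb
  by_contra hab
  have hc : Nat.Coprime a b := (Nat.coprime_primes ha.1.2 hb.1.2).mpr hab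
  have ha' : a ∣ h.natAbs := Int.natCast_dvd.mp ha.2
  have hb' : b ∣ h.natAbs := Int.natCast_dvd.mp hb.2
  have h1 : a * b ∣ h.natAbs := Nat.Coprime.mul_dvd_of_dvd_of_dvd hc ha' hb'
  have h2 : a * b ≤ h.natAbs := Nat.le_of_dvd (Int.natAbs_pos.mpr h0) h1
  have h3 : Y ^ 2 ≤ a * b := by
    rw [pow_two]
    exact Nat.mul_le_mul ha.1.1.1.le hb.1.1.1.le
  omega

lemma mnr_ft (N M : ℕ) (hM : 0 < M) (J : Finset ℕ) (hJ : J ⊆ range M) (h : ℤ) :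
    mnr_r N M J h = (1 / (M : ℂ)) * FT M (fun j => if j ∈ J then Fp N (j / M) else 0) (h % M).toNat := by
  classical
  unfold mnr_r FT
  congr 1
  rw [← sum_subset hJ]
  · refine sum_congr rfl fun j hj => ?_
    simp only [if_pos hj]
    congr 1
    have hz : (M : ℤ) ≠ 0 := by exact_mod_cast hM.ne'
    have h1 : (((h % M).toNat : ℕ) : ℤ) = h - M * (h / M) := by
      rw [Int.toNat_of_nonneg (Int.emod_nonneg h hz)]
      exact Int.emod_def h M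
    have h2 : (((h % M).toNat : ℕ) : ℝ) = (h : ℝ) - M * ((h / (M : ℤ) : ℤ) : ℝ) := by
      have := congrArg (Int.cast : ℤ → ℝ) h1
      push_cast at this
      exact this
    have hMr : (M : ℝ) ≠ 0 := by exact_mod_cast hM.ne'
    have h3 : (h : ℝ) * ((j : ℝ) / M) = (j : ℝ) * ((((h % M).toNat : ℕ) : ℝ) / M) + (((j : ℤ) * (h / (M : ℤ)) : ℤ) : ℝ) := by
      rw [h2]
      push_cast
      field_simp
      ring
    rw [h3, e_add_int]
  · intro j _ hj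
    simp only [if_neg hj]
    simp

lemma mnr_bessel (N M : ℕ) (hM : 4 * N < M) (J : Finset ℕ) (hJ : J ⊆ range M) :
    ∑ h ∈ (Ioo (-((2 * N : ℕ) : ℤ)) ((2 * N : ℕ) : ℤ)).erase 0, ‖mnr_r N M J h‖ ^ 2
      ≤ mean M J (fun t => Fp N t ^ 2) := by
  classical
  have hM0 : 0 < M := by omega
  have hMr : (M : ℝ) ≠ 0 := by exact_mod_cast hM0.ne'
  have hz : (M : ℤ) ≠ 0 := by exact_mod_cast hM0.ne'
  set v : ℕ → ℝ := fun j => if j ∈ J then Fp N (j / M) else 0 with hv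
  have hp := parseval M hM0 v
  have h1 : ∀ h ∈ (Ioo (-((2 * N : ℕ) : ℤ)) ((2 * N : ℕ) : ℤ)).erase 0, ‖mnr_r N M J h‖ ^ 2
      = (1 / (M : ℝ)) ^ 2 * ‖FT M v (h % M).toNat‖ ^ 2 := by
    intro h _
    rw [mnr_ft N M hM0 J hJ h, norm_mul, mul_pow]
    congr 2
    simp
  rw [sum_congr rfl h1, ← mul_sum]
  have hinj : Set.InjOn (fun h : ℤ => (h % (M : ℤ)).toNat)
      (((Ioo (-((2 * N : ℕ) : ℤ)) ((2 * N : ℕ) : ℤ)).erase 0 : Finset ℤ) : Set ℤ) := by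
    intro a ha b hb hab
    simp only [coe_erase, coe_Ioo, Set.mem_sdiff, Set.mem_Ioo, Set.mem_singleton_iff] at ha hb
    simp only at hab
    have h2 : a % M = b % M := by
      have ha' := Int.emod_nonneg a hz
      have hb' := Int.emod_nonneg b hz
      omega
    have h3 : (M : ℤ) ∣ a - b := Int.dvd_of_emod_eq_zero (by
      rw [Int.sub_emod, h2]; simp)
    have h4 := Int.eq_zero_of_abs_lt_dvd h3 (by rw [abs_lt]; push_cast at ha hb; omega)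
    omega
  have h5 : ∑ h ∈ (Ioo (-((2 * N : ℕ) : ℤ)) ((2 * N : ℕ) : ℤ)).erase 0, ‖FT M v (h % M).toNat‖ ^ 2
      ≤ ∑ b ∈ range M, ‖FT M v b‖ ^ 2 := by
    rw [← sum_image (f := fun c => ‖FT M v c‖ ^ 2) hinj]
    refine sum_le_sum_of_subset_of_nonneg ?_ fun _ _ _ => by positivity
    intro c hc
    rw [mem_image] at hc
    obtain ⟨i, hi, rfl⟩ := hc
    have h6 := Int.emod_nonneg i hz
    have h7 := Int.emod_lt_of_pos i (by exact_mod_cast hM0 : (0 : ℤ) < M)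
    rw [mem_range]
    omega
  rw [hp] at h5
  have h8 : ∑ a ∈ range M, v a ^ 2 = ∑ j ∈ J, Fp N (j / M) ^ 2 := by
    rw [← sum_subset hJ]
    · refine sum_congr rfl fun j hj => ?_
      rw [hv]
      simp only
      rw [if_pos hj]
    · intro j _ hj
      rw [hv]
      simp only
      rw [if_neg hj]
      simp
  rw [h8] at h5
  unfold mean
  calc (1 / (M : ℝ)) ^ 2 * ∑ h ∈ (Ioo (-((2 * N : ℕ) : ℤ)) ((2 * N : ℕ) : ℤ)).erase 0, ‖FT M v (h % M).toNat‖ ^ 2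
      ≤ (1 / (M : ℝ)) ^ 2 * (M * ∑ j ∈ J, Fp N (j / M) ^ 2) := by
        exact mul_le_mul_of_nonneg_left h5 (by positivity)
    _ = _ := by
        field_simp

theorem mnr_pr (N M Y : ℕ) (hN : 1 ≤ N) (hM : 4 * N < M) (hY : 2 * N < Y ^ 2) (J : Finset ℕ)
    (hJ : J ⊆ range M) :
    ∑ Q ∈ QQ Y, |mean M J (fun t => Fp N t * (EQ N Q t - 1))|
      ≤ 2 * Real.sqrt (2 * N) * Real.sqrt (mean M J (fun t => Fp N t ^ 2)) := by
  classical
  set H : Finset ℤ := (Ioo (-((2 * N : ℕ) : ℤ)) ((2 * N : ℕ) : ℤ)).erase 0 with hH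
  have hb := mnr_bessel N M hM J hJ
  rw [← hH] at hb
  have h1 : ∑ Q ∈ QQ Y, |mean M J (fun t => Fp N t * (EQ N Q t - 1))|
      ≤ ∑ Q ∈ QQ Y, ∑ h ∈ H.filter (fun h : ℤ => (Q : ℤ) ∣ h), ‖mnr_r N M J h‖ := by
    refine sum_le_sum fun Q hQ => mnr_mean N M Q hN ?_ J
    simp only [QQ, mem_filter] at hQ
    exact hQ.2.pos
  have h2 : ∑ Q ∈ QQ Y, ∑ h ∈ H.filter (fun h : ℤ => (Q : ℤ) ∣ h), ‖mnr_r N M J h‖
      ≤ ∑ h ∈ H, ‖mnr_r N M J h‖ := by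
    simp only [sum_filter]
    rw [sum_comm]
    refine sum_le_sum fun h hh => ?_
    rw [← sum_filter, sum_const, nsmul_eq_mul]
    rw [hH, mem_erase, mem_Ioo] at hh
    have hc := mnr_card Y h hh.1 (by omega)
    have hc' : (((QQ Y).filter (fun Q : ℕ => (Q : ℤ) ∣ h)).card : ℝ) ≤ 1 := by exact_mod_cast hc
    exact mul_le_of_le_one_left (norm_nonneg _) hc'
  have h3 : (∑ h ∈ H, ‖mnr_r N M J h‖) ^ 2 ≤ (H.card : ℝ) * ∑ h ∈ H, ‖mnr_r N M J h‖ ^ 2 :=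
    sq_sum_le_card_mul_sum_sq
  have h4 : (H.card : ℝ) ≤ 4 * (2 * N) := by
    have h5 : H.card ≤ 4 * N := by
      rw [hH]
      refine (Finset.card_erase_le).trans ?_
      rw [Int.card_Ioo]
      omega
    have h6 : (H.card : ℝ) ≤ 4 * N := by exact_mod_cast h5
    have h7 : (0 : ℝ) ≤ N := by positivity
    linarith
  have hmn : 0 ≤ mean M J (fun t => Fp N t ^ 2) := by
    unfold mean
    exact mul_nonneg (by positivity) (sum_nonneg fun _ _ => by positivity)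
  have h8 : (∑ h ∈ H, ‖mnr_r N M J h‖) ^ 2 ≤ (4 * (2 * N)) * mean M J (fun t => Fp N t ^ 2) := by
    refine h3.trans (mul_le_mul h4 hb (sum_nonneg fun _ _ => by positivity) (by positivity))
  refine (h1.trans h2).trans ?_
  have h9 : (2 * Real.sqrt (2 * N) * Real.sqrt (mean M J (fun t => Fp N t ^ 2))) ^ 2
      = (4 * (2 * N)) * mean M J (fun t => Fp N t ^ 2) := by
    rw [mul_pow, mul_pow, Real.sq_sqrt (by positivity), Real.sq_sqrt hmn]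
    ring
  rw [← h9] at h8
  exact le_of_sq_le_sq h8 (by positivity)

alias mnr := mnr_pr

end Pool.Agent.PV
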