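import Pool.Agent.Lib_helper92.PVF.Base

set_option autoImplicit false

namespace Pool.Agent.PV

open Finset Complex Pool.Agent.Var35 Pool.Agent.Var73
open scoped ArithmeticFunction ArithmeticFunction.Moebius

lemma vb_mn_nonneg (A x : ℝ) (hA : 0 ≤ A) : 0 ≤ mn A x := by
  unfold mn
  split_ifs with h
  · exact hA
  · exact div_nonneg zero_le_one (abs_nonneg _)

lemma vb_pos_of (A x : ℝ) (h : ¬ nn x * A ≤ 1) : 0 < nn x := by
  push Not at h
  have h0 : 0 ≤ nn x := abs_nonneg _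
  rcases h0.lt_or_eq with h2 | h2
  · exact h2
  · rw [← h2] at h; norm_num at h

lemma vb_mn_le (A x : ℝ) : mn A x ≤ A := by
  unfold mn
  split_ifs with h
  · exact le_rfl
  · have h1 : 0 < nn x := vb_pos_of A x h
    push Not at h
    rw [div_le_iff₀ h1]
    linarith [mul_comm A (nn x)]

lemma vb_mn_le_inv (A x : ℝ) (h : 0 < nn x) : mn A x ≤ 1 / nn x := by
  unfold mn
  split_ifs with h1
  · rw [le_div_iff₀ h]
    linarith [mul_comm A (nn x)]
  · exact le_rfl

lemma vb_mn_mono (A B x : ℝ) (hAB : A ≤ B) : mn A x ≤ mn B x := by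
  by_cases h1 : nn x * B ≤ 1
  · have : mn B x = B := by unfold mn; rw [if_pos h1]
    rw [this]
    exact (vb_mn_le A x).trans hAB
  · have h2 : mn B x = 1 / nn x := by unfold mn; rw [if_neg h1]
    rw [h2]
    exact vb_mn_le_inv A x (vb_pos_of B x h1)

lemma vb_harm {ι : Type*} (S : Finset ι) (r : ℕ) (k : ι → ℕ) (hk : ∀ j ∈ S, 1 ≤ k j ∧ k j ≤ r)
    (hinj : Set.InjOn k (S : Set ι)) :
    ∑ j ∈ S, 1 / ((k j : ℕ) : ℝ) ≤ 1 + Real.log r := by
  classical
  have h1 : ∑ j ∈ S, 1 / ((k j : ℕ) : ℝ) = ∑ n ∈ S.image k, 1 / (n : ℝ) := by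
    rw [sum_image hinj]
  have h2 : ∑ n ∈ S.image k, 1 / (n : ℝ) ≤ ∑ n ∈ Icc 1 r, 1 / (n : ℝ) := by
    refine sum_le_sum_of_subset_of_nonneg ?_ fun _ _ _ => by positivity
    intro n hn
    rw [mem_image] at hn
    obtain ⟨j, hj, rfl⟩ := hn
    rw [mem_Icc]
    exact hk j hj
  have h3 : ∑ n ∈ Icc 1 r, 1 / (n : ℝ) ≤ 1 + Real.log r := by
    have h4 := harmonic_le_one_add_log r
    rw [harmonic_eq_sum_Icc] at h4
    push_cast at h4
    refine le_trans (le_of_eq ?_) h4
    exact sum_congr rfl fun n _ => by rw [one_div]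
  linarith

lemma vb_nn (x : ℝ) (r : ℕ) (hr : 1 ≤ r) (k : ℤ) (y a b : ℝ) (hx : r * x = k * r + y)
    (ha : a ≤ y) (hb : b ≤ r - y) : min a b ≤ r * nn x := by
  have hr0 : (1:ℝ) ≤ r := by exact_mod_cast hr
  have hnn : (r:ℝ) * nn x = |r * x - r * (round x : ℝ)| := by
    unfold nn
    rw [← mul_sub, abs_mul, abs_of_nonneg (by linarith : (0:ℝ) ≤ r)]
  rw [hnn, hx]
  rcases le_or_gt (round x) k with h | h
  · have h1 : ((round x : ℤ) : ℝ) ≤ k := by exact_mod_cast h
    have h2 : 0 ≤ ((k:ℝ) - (round x : ℤ)) * r := by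
      apply mul_nonneg <;> linarith
    refine le_trans (min_le_left _ _) (le_trans ?_ (le_abs_self _))
    linarith
  · have h1 : (k:ℝ) + 1 ≤ ((round x : ℤ) : ℝ) := by exact_mod_cast h
    have h2 : 0 ≤ (((round x : ℤ) : ℝ) - k - 1) * r := by
      apply mul_nonneg <;> linarith
    refine le_trans (min_le_right _ _) (le_trans ?_ (neg_le_abs _))
    linarith

lemma vb_inv (x : ℝ) (r : ℕ) (hr : 1 ≤ r) (k : ℤ) (y a b : ℝ) (hx : r * x = k * r + y)
    (ha : a ≤ y) (hb : b ≤ r - y) (ha0 : 0 < a) (hb0 : 0 < b) (A : ℝ) :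
    mn A x ≤ r * (1 / a) + r * (1 / b) := by
  have hr0 : (1:ℝ) ≤ r := by exact_mod_cast hr
  have h1 := vb_nn x r hr k y a b hx ha hb
  have h2 : 0 < min a b := lt_min ha0 hb0
  have h3 : 0 < nn x := by
    by_contra hcon
    push Not at hcon
    have : (r:ℝ) * nn x ≤ 0 := mul_nonpos_of_nonneg_of_nonpos (by linarith) hcon
    linarith
  refine (vb_mn_le_inv A x h3).trans ?_
  have h4 : 1 / nn x ≤ r * (1 / min a b) := by
    rw [mul_one_div, div_le_div_iff₀ h3 h2]
    linarith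
  refine h4.trans ?_
  rcases min_choice a b with h5 | h5
  · rw [h5]
    have : 0 ≤ (r:ℝ) * (1 / b) := by positivity
    linarith
  · rw [h5]
    have : 0 ≤ (r:ℝ) * (1 / a) := by positivity
    linarith

/-- residues `(n0 + i c) mod r` are distinct for `i` in a range of length at most `r` -/
lemma vb_inj (c n0 : ℤ) (r : ℕ) (hr : 1 ≤ r) (hc : IsCoprime c (r:ℤ)) (i i' : ℕ) (hi : i < r)
    (hi' : i' < r) (h : ((n0 + i * c) % r).toNat = ((n0 + i' * c) % r).toNat) : i = i' := by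
  have hr0 : (r:ℤ) ≠ 0 := by exact_mod_cast (by omega : r ≠ 0)
  have h1 := Int.emod_nonneg (n0 + i * c) hr0
  have h2 := Int.emod_nonneg (n0 + i' * c) hr0
  have h3 : (n0 + i * c) % r = (n0 + i' * c) % r := by omega
  have h4 : (r:ℤ) ∣ (n0 + i * c) - (n0 + i' * c) := by
    have : (n0 + i * c) ≡ (n0 + i' * c) [ZMOD r] := h3
    exact (Int.ModEq.symm this).dvd
  have h5 : (n0 + i * c) - (n0 + i' * c) = ((i:ℤ) - i') * c := by ring
  rw [h5] at h4
  have h6 : (r:ℤ) ∣ (i:ℤ) - i' := hc.symm.dvd_of_dvd_mul_right h4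
  have h7 : ((i:ℤ) - i').natAbs < r := by omega
  have h8 : (i:ℤ) - i' = 0 := Int.eq_zero_of_dvd_of_natAbs_lt_natAbs h6 (by simpa using h7)
  omega

lemma vb_block (t : ℝ) (c : ℤ) (r : ℕ) (hr : 1 ≤ r) (hc : IsCoprime c (r:ℤ))
    (ht : |t - c / r| ≤ 1 / (r:ℝ) ^ 2) (m0 : ℕ) (A : ℝ) (hA : 0 ≤ A) :
    ∑ i ∈ range r, mn A (((m0 + i : ℕ) : ℝ) * t) ≤ 4 * A + 2 * r * (1 + Real.log r) := by
  classical
  have hr0 : (1:ℝ) ≤ r := by exact_mod_cast hr
  have hrz : (r:ℤ) ≠ 0 := by exact_mod_cast (by omega : r ≠ 0)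
  have hrzp : (0:ℤ) < (r:ℤ) := by exact_mod_cast (by omega : 0 < r)
  set n0 : ℤ := ⌊(r:ℝ) * (m0 * t)⌋ with hn0
  have hfl : (n0:ℝ) ≤ (r:ℝ) * (m0 * t) := Int.floor_le _
  have hfu : (r:ℝ) * (m0 * t) < n0 + 1 := Int.lt_floor_add_one _
  set J : ℕ → ℕ := fun i => ((n0 + i * c) % r).toNat with hJ
  set g : ℕ → ℝ := fun j => (if j < 2 ∨ r ≤ j + 2 then A else 0)
    + (if 2 ≤ j ∧ j + 2 < r then (r:ℝ) * (1 / ((j - 1 : ℕ) : ℝ)) + r * (1 / ((r - j - 2 : ℕ) : ℝ)) else 0) with hg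
  have hJr : ∀ i, J i < r := by
    intro i
    have h1 := Int.emod_lt_of_pos (n0 + i * c) hrzp
    have h2 := Int.emod_nonneg (n0 + i * c) hrz
    simp only [hJ]
    omega
  have hstep : ∀ i ∈ range r, mn A (((m0 + i : ℕ) : ℝ) * t) ≤ g (J i) := by
    intro i hi
    rw [mem_range] at hi
    by_cases hj : J i < 2 ∨ r ≤ J i + 2
    · have hj2 : ¬ (2 ≤ J i ∧ J i + 2 < r) := by omega
      simp only [hg]
      rw [if_pos hj, if_neg hj2, add_zero]
      exact vb_mn_le _ _
    · have hj2 : 2 ≤ J i ∧ J i + 2 < r := by omega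
      simp only [hg]
      rw [if_neg hj, if_pos hj2, zero_add]
      have h1 := Int.emod_nonneg (n0 + i * c) hrz
      have h2 : (r:ℤ) * ((n0 + i * c) / r) + (n0 + i * c) % r = n0 + i * c := Int.mul_ediv_add_emod _ _
      have h3 : ((J i : ℕ) : ℤ) = (n0 + i * c) % r := by
        simp only [hJ]; omega
      have h4 : (r:ℝ) * (((n0 + i * c) / r : ℤ) : ℝ) + (J i : ℝ) = n0 + i * c := by
        have : (r:ℤ) * ((n0 + i * c) / r) + (J i : ℤ) = n0 + i * c := by rw [h3]; exact h2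
        exact_mod_cast this
      have h5 : |(i:ℝ) * (r * (t - c / r))| ≤ 1 := by
        rw [abs_mul, abs_mul, abs_of_nonneg (by positivity : (0:ℝ) ≤ i), abs_of_nonneg (by positivity : (0:ℝ) ≤ r)]
        have h6 : (r:ℝ) * |t - c / r| ≤ 1 / r := by
          calc (r:ℝ) * |t - c / r| ≤ r * (1 / (r:ℝ) ^ 2) := mul_le_mul_of_nonneg_left ht (by positivity)
            _ = 1 / r := by field_simp
        have h7 : (i:ℝ) ≤ r := by exact_mod_cast hi.le
        calc (i:ℝ) * (r * |t - c / r|) ≤ r * (1 / r) := mul_le_mul h7 h6 (by positivity) (by positivity)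
          _ = 1 := by field_simp
      have h5a := (abs_le.mp h5).1
      have h5b := (abs_le.mp h5).2
      have h8 : (r:ℝ) * (((m0 + i : ℕ) : ℝ) * t) = r * (m0 * t) + i * c + i * (r * (t - c / r)) := by
        push_cast
        field_simp
        ring
      have hj1c : ((J i - 1 : ℕ) : ℝ) = (J i : ℝ) - 1 := by
        rw [Nat.cast_sub (by omega)]; norm_num
      have hj2c : ((r - J i - 2 : ℕ) : ℝ) = (r:ℝ) - J i - 2 := by
        rw [Nat.cast_sub (by omega), Nat.cast_sub (by omega)]; norm_num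
      have hpa : (2:ℝ) ≤ J i := by exact_mod_cast hj2.1
      have hpb : (J i : ℝ) + 2 + 1 ≤ r := by exact_mod_cast hj2.2
      refine vb_inv _ r hr ((n0 + i * c) / r) ((J i : ℝ) + (r * (m0 * t) - n0) + i * (r * (t - c / r))) _ _ ?_ ?_ ?_ ?_ ?_ A
      · rw [h8]; linarith
      · rw [hj1c]; linarith
      · rw [hj2c]; linarith
      · rw [hj1c]; linarith
      · rw [hj2c]; linarith
  have hg0 : ∀ j, 0 ≤ g j := by
    intro j
    simp only [hg]
    apply add_nonneg
    · split_ifs <;> first | exact hA | exact le_rfl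
    · split_ifs
      · positivity
      · exact le_rfl
  have hsum : ∑ i ∈ range r, g (J i) ≤ ∑ j ∈ range r, g j := by
    have hinj : Set.InjOn J (range r : Finset ℕ) := by
      intro i hi i' hi' h
      simp only [coe_range, Set.mem_Iio] at hi hi'
      exact vb_inj c n0 r hr hc i i' hi hi' h
    rw [← sum_image (f := g) hinj]
    refine sum_le_sum_of_subset_of_nonneg ?_ fun j _ _ => hg0 j
    intro j hj
    rw [mem_image] at hj
    obtain ⟨i, _, rfl⟩ := hj
    exact mem_range.mpr (hJr i)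
  have hgsum : ∑ j ∈ range r, g j ≤ 4 * A + 2 * r * (1 + Real.log r) := by
    simp only [hg]
    rw [sum_add_distrib, ← sum_filter, ← sum_filter, sum_add_distrib, ← mul_sum, ← mul_sum]
    have e1 : ∑ j ∈ (range r).filter (fun j => j < 2 ∨ r ≤ j + 2), A ≤ 4 * A := by
      rw [sum_const, nsmul_eq_mul]
      have h1 : ((range r).filter (fun j => j < 2 ∨ r ≤ j + 2)) ⊆ ({0, 1, r - 2, r - 1} : Finset ℕ) := by
        intro j hj
        rw [mem_filter, mem_range] at hj
        simp only [mem_insert, mem_singleton]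
        omega
      have h2 := (card_le_card h1).trans card_le_four
      have h3 : (((range r).filter (fun j => j < 2 ∨ r ≤ j + 2)).card : ℝ) ≤ 4 := by exact_mod_cast h2
      exact mul_le_mul_of_nonneg_right h3 hA
    have e2 : ∑ j ∈ (range r).filter (fun j => 2 ≤ j ∧ j + 2 < r), 1 / ((j - 1 : ℕ) : ℝ) ≤ 1 + Real.log r := by
      refine vb_harm _ r (fun j => j - 1) ?_ ?_
      · intro j hj
        rw [mem_filter, mem_range] at hj
        omega
      · intro j hj j' hj' h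
        simp only [coe_filter, mem_range, Set.mem_ofPred_eq] at hj hj' h
        omega
    have e3 : ∑ j ∈ (range r).filter (fun j => 2 ≤ j ∧ j + 2 < r), 1 / ((r - j - 2 : ℕ) : ℝ) ≤ 1 + Real.log r := by
      refine vb_harm _ r (fun j => r - j - 2) ?_ ?_
      · intro j hj
        rw [mem_filter, mem_range] at hj
        omega
      · intro j hj j' hj' h
        simp only [coe_filter, mem_range, Set.mem_ofPred_eq] at hj hj' h
        omega
    have e4 := mul_le_mul_of_nonneg_left e2 (by positivity : (0:ℝ) ≤ r)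
    have e5 := mul_le_mul_of_nonneg_left e3 (by positivity : (0:ℝ) ≤ r)
    linarith
  exact (sum_le_sum hstep).trans (hsum.trans hgsum)

lemma vb_first (t : ℝ) (c : ℤ) (r : ℕ) (hr : 1 ≤ r) (hc : IsCoprime c (r:ℤ))
    (ht : |t - c / r| ≤ 1 / (r:ℝ) ^ 2) (L : ℕ) (B : ℕ → ℝ) :
    ∑ m ∈ (Icc 1 L).filter (fun m => 2 * m ≤ r), mn (B m) (m * t) ≤ 4 * r * (1 + Real.log r) := by
  classical
  have hr0 : (1:ℝ) ≤ r := by exact_mod_cast hr
  have hrz : (r:ℤ) ≠ 0 := by exact_mod_cast (by omega : r ≠ 0)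
  have hrzp : (0:ℤ) < (r:ℤ) := by exact_mod_cast (by omega : 0 < r)
  set J : ℕ → ℕ := fun i => (((0:ℤ) + i * c) % r).toNat with hJ
  have hJz : ∀ i : ℕ, ((J i : ℕ) : ℤ) = (0 + i * c) % r := by
    intro i
    have h2 := Int.emod_nonneg (0 + i * c) hrz
    simp only [hJ]
    omega
  have hJr : ∀ i, J i < r := by
    intro i
    have h1 := Int.emod_lt_of_pos (0 + i * c) hrzp
    have h2 := hJz i
    omega
  have hJ1 : ∀ m, 1 ≤ m → 2 * m ≤ r → 1 ≤ J m := by
    intro m hm hmr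
    by_contra hcon
    have h0 : J m = 0 := by omega
    have h1 : (0 + (m:ℤ) * c) % r = 0 := by rw [← hJz, h0]; rfl
    rw [zero_add] at h1
    have h2 : (r:ℤ) ∣ m * c := Int.dvd_of_emod_eq_zero h1
    have h3 : (r:ℤ) ∣ m := hc.symm.dvd_of_dvd_mul_right h2
    have h4 : r ∣ m := by exact_mod_cast h3
    have h5 := Nat.le_of_dvd (by omega) h4
    omega
  have hstep : ∀ m ∈ (Icc 1 L).filter (fun m => 2 * m ≤ r), mn (B m) (m * t)
      ≤ 2 * r * (1 / ((J m : ℕ) : ℝ)) + 2 * r * (1 / ((r - J m : ℕ) : ℝ)) := by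
    intro m hm
    rw [mem_filter, mem_Icc] at hm
    obtain ⟨⟨hm1, hmL⟩, hmr⟩ := hm
    have h2 : (r:ℤ) * ((0 + m * c) / r) + (0 + m * c) % r = 0 + m * c := Int.mul_ediv_add_emod _ _
    have h4 : (r:ℝ) * (((0 + m * c) / r : ℤ) : ℝ) + (J m : ℝ) = 0 + m * c := by
      have : (r:ℤ) * ((0 + m * c) / r) + (J m : ℤ) = 0 + m * c := by rw [hJz]; exact h2
      exact_mod_cast this
    have h5 : |(m:ℝ) * (r * (t - c / r))| ≤ 1 / 2 := by
      rw [abs_mul, abs_mul, abs_of_nonneg (by positivity : (0:ℝ) ≤ m), abs_of_nonneg (by positivity : (0:ℝ) ≤ r)]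
      have h6 : (r:ℝ) * |t - c / r| ≤ 1 / r := by
        calc (r:ℝ) * |t - c / r| ≤ r * (1 / (r:ℝ) ^ 2) := mul_le_mul_of_nonneg_left ht (by positivity)
          _ = 1 / r := by field_simp
      have h7 : 2 * (m:ℝ) ≤ r := by exact_mod_cast hmr
      calc (m:ℝ) * (r * |t - c / r|) ≤ (r / 2) * (1 / r) :=
            mul_le_mul (by linarith) h6 (by positivity) (by positivity)
        _ = 1 / 2 := by field_simp
    have h5a := (abs_le.mp h5).1
    have h5b := (abs_le.mp h5).2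
    have h8 : (r:ℝ) * ((m : ℝ) * t) = m * c + m * (r * (t - c / r)) := by
      field_simp
      ring
    have hj1 := hJ1 m hm1 hmr
    have hjr := hJr m
    have hpa : (1:ℝ) ≤ J m := by exact_mod_cast hj1
    have hpb : (J m : ℝ) + 1 ≤ r := by exact_mod_cast hjr
    have hj2c : ((r - J m : ℕ) : ℝ) = (r:ℝ) - J m := by
      rw [Nat.cast_sub hjr.le]
    have h9 := vb_inv ((m:ℝ) * t) r hr ((0 + m * c) / r) ((J m : ℝ) + m * (r * (t - c / r)))
      ((J m : ℝ) / 2) (((r - J m : ℕ) : ℝ) / 2) (by rw [h8]; linarith) (by linarith)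
      (by rw [hj2c]; linarith) (by linarith) (by rw [hj2c]; linarith) (B m)
    refine h9.trans (le_of_eq ?_)
    rw [one_div_div, one_div_div]
    ring
  refine (sum_le_sum hstep).trans ?_
  rw [sum_add_distrib, ← mul_sum, ← mul_sum]
  have hinj : Set.InjOn J (((Icc 1 L).filter (fun m => 2 * m ≤ r) : Finset ℕ) : Set ℕ) := by
    intro i hi i' hi' h
    simp only [coe_filter, mem_Icc, Set.mem_ofPred_eq] at hi hi'
    exact vb_inj c 0 r hr hc i i' (by omega) (by omega) h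
  have e1 : ∑ m ∈ (Icc 1 L).filter (fun m => 2 * m ≤ r), 1 / ((J m : ℕ) : ℝ) ≤ 1 + Real.log r := by
    refine vb_harm _ r J ?_ hinj
    intro m hm
    rw [mem_filter, mem_Icc] at hm
    exact ⟨hJ1 m hm.1.1 hm.2, (hJr m).le⟩
  have e2 : ∑ m ∈ (Icc 1 L).filter (fun m => 2 * m ≤ r), 1 / ((r - J m : ℕ) : ℝ) ≤ 1 + Real.log r := by
    refine vb_harm _ r (fun m => r - J m) ?_ ?_
    · intro m hm
      rw [mem_filter, mem_Icc] at hm
      have := hJr m
      omega
    · intro m hm m' hm' h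
      have h1 := hJr m
      have h2 := hJr m'
      refine hinj hm hm' ?_
      simp only at h
      omega
  have e4 := mul_le_mul_of_nonneg_left e1 (by positivity : (0:ℝ) ≤ 2 * r)
  have e5 := mul_le_mul_of_nonneg_left e2 (by positivity : (0:ℝ) ≤ 2 * r)
  linarith

/-- VB -/
theorem vb_pr : ∃ C : ℝ, 0 < C ∧ ∀ (t : ℝ) (c : ℤ) (r : ℕ), 1 ≤ r → IsCoprime c (r : ℤ) →
    |t - c / r| ≤ 1 / (r : ℝ) ^ 2 → ∀ (L N : ℕ), 1 ≤ L → L ≤ N →
    ∑ m ∈ Icc 1 L, mn ((N : ℝ) / m) (m * t) ≤ C * (N / r + L + r) * (1 + Real.log N + Real.log r) := by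
  classical
  refine ⟨16, by norm_num, ?_⟩
  intro t c r hr hc ht L N hL hLN
  have hr0 : (1:ℝ) ≤ r := by exact_mod_cast hr
  have hL0 : (1:ℝ) ≤ L := by exact_mod_cast hL
  have hLN0 : (L:ℝ) ≤ N := by exact_mod_cast hLN
  have hlr : 0 ≤ Real.log r := Real.log_nonneg hr0
  have hlN : 0 ≤ Real.log N := Real.log_nonneg (by linarith)
  rw [← sum_filter_add_sum_filter_not (Icc 1 L) (fun m => 2 * m ≤ r)]
  have h1 := vb_first t c r hr hc ht L (fun m => (N:ℝ) / m)
  have h2 : ∑ m ∈ (Icc 1 L).filter (fun m => ¬ 2 * m ≤ r), mn ((N : ℝ) / m) (m * t)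
      ≤ ∑ h ∈ range (L / r + 1), (4 * (2 * N / ((h + 1 : ℕ) * r)) + 2 * r * (1 + Real.log r)) := by
    have hmap : ∀ m ∈ (Icc 1 L).filter (fun m => ¬ 2 * m ≤ r), m / r ∈ range (L / r + 1) := by
      intro m hm
      rw [mem_filter, mem_Icc] at hm
      rw [mem_range]
      have := Nat.div_le_div_right (c := r) hm.1.2
      omega
    rw [← sum_fiberwise_of_maps_to hmap]
    refine sum_le_sum fun h _ => ?_
    have h3 : ∀ m ∈ ((Icc 1 L).filter (fun m => ¬ 2 * m ≤ r)).filter (fun m => m / r = h),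
        mn ((N : ℝ) / m) (m * t) ≤ mn (2 * N / ((h + 1 : ℕ) * r)) (m * t) := by
      intro m hm
      rw [mem_filter, mem_filter, mem_Icc] at hm
      obtain ⟨⟨⟨hm1, hmL⟩, hmr⟩, hmh⟩ := hm
      refine vb_mn_mono _ _ _ ?_
      have hm0 : (1:ℝ) ≤ m := by exact_mod_cast hm1
      have h4 : (h + 1) * r ≤ 2 * m := by
        have h5 := Nat.div_add_mod m r
        have h6 := Nat.mod_lt m (by omega : r > 0)
        rw [hmh] at h5
        rcases Nat.eq_zero_or_pos h with h7 | h7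
        · subst h7; omega
        · have h8 : r * 1 ≤ r * h := Nat.mul_le_mul_left r h7
          have h9 : (h + 1) * r = r * h + r := by ring
          rw [h9]
          omega
      have h4r : (((h + 1 : ℕ) : ℝ) * r) ≤ 2 * m := by exact_mod_cast h4
      have hh : (1:ℝ) ≤ ((h + 1 : ℕ) : ℝ) := by
        push_cast
        have : (0:ℝ) ≤ h := by positivity
        linarith
      rw [div_le_div_iff₀ (by positivity) (by positivity)]
      have hN0 : (0:ℝ) ≤ N := by positivity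
      nlinarith
    refine (sum_le_sum h3).trans ?_
    have hA : (0:ℝ) ≤ 2 * N / ((h + 1 : ℕ) * r) := by positivity
    have h4 := vb_block t c r hr hc ht (h * r) (2 * N / ((h + 1 : ℕ) * r)) hA
    refine le_trans ?_ h4
    have h5 : ((Icc 1 L).filter (fun m => ¬ 2 * m ≤ r)).filter (fun m => m / r = h)
        ⊆ (range r).image (fun i => h * r + i) := by
      intro m hm
      rw [mem_filter, mem_filter, mem_Icc] at hm
      rw [mem_image]
      have h6 := Nat.div_add_mod m r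
      have h7 := Nat.mod_lt m (by omega : r > 0)
      rw [hm.2] at h6
      exact ⟨m % r, mem_range.mpr h7, by rw [mul_comm h r]; omega⟩
    refine (sum_le_sum_of_subset_of_nonneg h5 fun m _ _ => vb_mn_nonneg _ _ hA).trans ?_
    rw [sum_image (fun i _ i' _ h => by simpa using h)]
  have h3 : ∑ h ∈ range (L / r + 1), (4 * (2 * N / ((h + 1 : ℕ) * r)) + 2 * r * (1 + Real.log r))
      ≤ (8 * N / r) * (2 + Real.log N) + 2 * (L + r) * (1 + Real.log r) := by
    rw [sum_add_distrib, sum_const, card_range, nsmul_eq_mul]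
    have e1 : ∑ h ∈ range (L / r + 1), (4 * (2 * (N:ℝ) / ((h + 1 : ℕ) * r)))
        = (8 * N / r) * ∑ h ∈ range (L / r + 1), 1 / ((h + 1 : ℕ) : ℝ) := by
      rw [mul_sum]
      refine sum_congr rfl fun h _ => ?_
      have : ((h + 1 : ℕ) : ℝ) ≠ 0 := by positivity
      field_simp
      ring
    have e2 : ∑ h ∈ range (L / r + 1), 1 / ((h + 1 : ℕ) : ℝ) ≤ 1 + Real.log ((L / r + 1 : ℕ) : ℝ) := by
      refine vb_harm _ (L / r + 1) (fun h => h + 1) ?_ ?_
      · intro h hh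
        rw [mem_range] at hh
        omega
      · intro h _ h' _ hh
        simpa using hh
    have e3 : ((L / r : ℕ) : ℝ) ≤ L / r := Nat.cast_div_le
    have e3' : (L:ℝ) / r ≤ L := by
      rw [div_le_iff₀ (by linarith)]
      nlinarith
    have e4 : Real.log ((L / r + 1 : ℕ) : ℝ) ≤ 1 + Real.log N := by
      have h5 : ((L / r + 1 : ℕ) : ℝ) ≤ 2 * N := by
        push_cast
        linarith
      have h6 : Real.log ((L / r + 1 : ℕ) : ℝ) ≤ Real.log (2 * N) :=
        Real.log_le_log (by positivity) h5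
      rw [Real.log_mul (by norm_num) (by linarith)] at h6
      have h7 : Real.log 2 ≤ 1 := by
        have := Real.log_two_lt_d9
        linarith
      linarith
    rw [e1]
    have e5 : (8 * (N:ℝ) / r) * ∑ h ∈ range (L / r + 1), 1 / ((h + 1 : ℕ) : ℝ)
        ≤ (8 * N / r) * (2 + Real.log N) :=
      mul_le_mul_of_nonneg_left (by linarith) (by positivity)
    have e6 : ((L / r + 1 : ℕ) : ℝ) * (2 * r * (1 + Real.log r)) ≤ 2 * (L + r) * (1 + Real.log r) := by
      have h5 : ((L / r + 1 : ℕ) : ℝ) * r ≤ L + r := by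
        push_cast
        have : ((L / r : ℕ) : ℝ) * r ≤ L := by
          calc ((L / r : ℕ) : ℝ) * r ≤ (L / r) * r := mul_le_mul_of_nonneg_right e3 (by linarith)
            _ = L := by field_simp
        linarith
      calc ((L / r + 1 : ℕ) : ℝ) * (2 * r * (1 + Real.log r))
          = 2 * (((L / r + 1 : ℕ) : ℝ) * r) * (1 + Real.log r) := by ring
        _ ≤ 2 * (L + r) * (1 + Real.log r) := by
            apply mul_le_mul_of_nonneg_right _ (by linarith)
            linarith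
    linarith
  have hN0 : 0 ≤ (N:ℝ) / r := by positivity
  set X := (N:ℝ) / r with hX
  have e1 : (8 * (N:ℝ) / r) = 8 * X := by rw [hX]; ring
  rw [e1] at h3
  have p1 : 0 ≤ X * Real.log N := mul_nonneg hN0 hlN
  have p2 : 0 ≤ X * Real.log r := mul_nonneg hN0 hlr
  have p3 : 0 ≤ (L:ℝ) * Real.log N := mul_nonneg (by linarith) hlN
  have p4 : 0 ≤ (L:ℝ) * Real.log r := mul_nonneg (by linarith) hlr
  have p5 : 0 ≤ (r:ℝ) * Real.log N := mul_nonneg (by linarith) hlN
  have p6 : 0 ≤ (r:ℝ) * Real.log r := mul_nonneg (by linarith) hlr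
  nlinarith [h1, h2, h3]

alias vb := vb_pr

end Pool.Agent.PV
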