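import Pool.Agent.Lib_helper92.PVF.Base
import Pool.Agent.Lib_helper92.PVF.VB

set_option autoImplicit false

namespace Pool.Agent.PV

open Finset Complex Pool.Agent.Var35 Pool.Agent.Var73
open scoped ArithmeticFunction ArithmeticFunction.Moebius

lemma vi_geom (x : ℝ) (K : ℕ) (A : ℝ) (hK : (K:ℝ) ≤ A) : ‖∑ k ∈ Icc 1 K, e (k * x)‖ ≤ mn A x := by
  have h1 : ∑ k ∈ Icc 1 K, e (k * x) = e x * ∑ j ∈ range K, e (j * x) := by
    rw [mul_sum, ← Finset.Ico_add_one_right_eq_Icc, sum_Ico_eq_sum_range]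
    refine sum_congr (by simp) fun j _ => ?_
    rw [← e_add]
    congr 1
    push_cast
    ring
  rw [h1, norm_mul, norm_e, one_mul]
  unfold mn
  split_ifs with h
  · refine (norm_sum_le _ _).trans ?_
    simp only [norm_e, sum_const, card_range, nsmul_eq_mul, mul_one]
    exact hK
  · have h2 : 0 < nn x := by
      push Not at h
      have h0 : 0 ≤ nn x := abs_nonneg _
      rcases h0.lt_or_eq with h2 | h2
      · exact h2
      · rw [← h2] at h; norm_num at h
    have h3 : ∑ j ∈ range K, e (j * x) = ∑ j ∈ range K, e (j * (x - round x)) := by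
      refine sum_congr rfl fun j _ => ?_
      have : (j:ℝ) * (x - round x) = j * x + ((-(j * round x) : ℤ) : ℝ) := by push_cast; ring
      rw [this, e_add_int]
    rw [h3]
    have h4 : 0 < |x - round x| := h2
    have h5 := geom_bound h4 (abs_sub_round x) K
    refine h5.trans ?_
    unfold nn
    apply one_div_le_one_div_of_le h4
    linarith

lemma vi_mn_nonneg (A x : ℝ) (hA : 0 ≤ A) : 0 ≤ mn A x := by
  unfold mn
  split_ifs with h
  · exact hA
  · exact div_nonneg zero_le_one (abs_nonneg _)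

/-- Abel summation with the logarithm -/
lemma vi_abel (f : ℕ → ℂ) (T : ℝ) (K : ℕ) (hf : ∀ k ≤ K, ‖∑ j ∈ Icc 1 k, f j‖ ≤ T) (hK : 1 ≤ K) :
    ‖∑ k ∈ Icc 1 K, (Real.log k : ℂ) * f k‖ ≤ 2 * Real.log K * T := by
  have hT : 0 ≤ T := (norm_nonneg _).trans (hf 0 (by omega))
  have key : ∀ n, 1 ≤ n → n ≤ K → ∑ k ∈ Icc 1 n, (Real.log k : ℂ) * f k
      = (Real.log n : ℂ) * (∑ j ∈ Icc 1 n, f j)
        - ∑ k ∈ Ico 1 n, ((Real.log (k + 1 : ℕ) - Real.log k : ℝ) : ℂ) * (∑ j ∈ Icc 1 k, f j) := by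
    intro n hn
    induction n, hn using Nat.le_induction with
    | base => intro _; simp
    | succ n hn ih =>
      intro hnK
      rw [sum_Icc_succ_top (by omega), ih (by omega), sum_Ico_succ_top hn, sum_Icc_succ_top (by omega : 1 ≤ n + 1) f]
      push_cast
      ring
  rw [key K hK le_rfl]
  have hK1 : (1:ℝ) ≤ K := by exact_mod_cast hK
  have hlK : 0 ≤ Real.log K := Real.log_nonneg hK1
  have h1 : ‖(Real.log K : ℂ) * (∑ j ∈ Icc 1 K, f j)‖ ≤ Real.log K * T := by
    rw [norm_mul, Complex.norm_real, Real.norm_of_nonneg hlK]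
    exact mul_le_mul_of_nonneg_left (hf K le_rfl) hlK
  have h2 : ‖∑ k ∈ Ico 1 K, ((Real.log (k + 1 : ℕ) - Real.log k : ℝ) : ℂ) * (∑ j ∈ Icc 1 k, f j)‖
      ≤ Real.log K * T := by
    refine (norm_sum_le _ _).trans ?_
    have h3 : ∀ k ∈ Ico 1 K, ‖((Real.log (k + 1 : ℕ) - Real.log k : ℝ) : ℂ) * (∑ j ∈ Icc 1 k, f j)‖
        ≤ (Real.log (k + 1 : ℕ) - Real.log k) * T := by
      intro k hk
      rw [mem_Ico] at hk
      have hk1 : (1:ℝ) ≤ k := by exact_mod_cast hk.1
      have h4 : 0 ≤ Real.log (k + 1 : ℕ) - Real.log k := by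
        have : Real.log k ≤ Real.log (k + 1 : ℕ) := Real.log_le_log (by linarith) (by push_cast; linarith)
        linarith
      rw [norm_mul, Complex.norm_real, Real.norm_of_nonneg h4]
      exact mul_le_mul_of_nonneg_left (hf k hk.2.le) h4
    refine (sum_le_sum h3).trans ?_
    rw [← sum_mul]
    apply mul_le_mul_of_nonneg_right _ hT
    have h5 : ∀ n, 1 ≤ n → ∑ k ∈ Ico 1 n, (Real.log (k + 1 : ℕ) - Real.log k) = Real.log n := by
      intro n hn
      induction n, hn using Nat.le_induction with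
      | base => simp
      | succ n hn ih =>
        rw [sum_Ico_succ_top hn, ih]
        ring
    exact (h5 K hK).le
  refine (norm_sub_le _ _).trans ?_
  linarith

/-- VI : type I sums -/
theorem vt1_pr : ∃ C : ℝ, 0 < C ∧ ∀ (t : ℝ) (c : ℤ) (r : ℕ), 1 ≤ r → IsCoprime c (r : ℤ) →
    |t - c / r| ≤ 1 / (r : ℝ) ^ 2 → ∀ (L N : ℕ), 1 ≤ L → L ≤ N → ∀ (α : ℕ → ℂ) (A : ℝ), 0 ≤ A →
    (∀ m ∈ Icc 1 L, ‖α m‖ ≤ A) →
    ‖∑ m ∈ Icc 1 L, ∑ k ∈ Icc 1 (N / m), α m * e ((m * k : ℕ) * t)‖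
        ≤ C * A * (N / r + L + r) * (1 + Real.log N + Real.log r) ∧
    ‖∑ m ∈ Icc 1 L, ∑ k ∈ Icc 1 (N / m), α m * (Real.log k : ℂ) * e ((m * k : ℕ) * t)‖
        ≤ C * A * (N / r + L + r) * (1 + Real.log N + Real.log r) ^ 2 := by
  obtain ⟨C, hC, hvb⟩ := vb
  refine ⟨2 * C, by positivity, ?_⟩
  intro t c r hr hc ht L N hL hLN α A hA hα
  have h0 := hvb t c r hr hc ht L N hL hLN
  have hr0 : (1:ℝ) ≤ r := by exact_mod_cast hr
  have hL0 : (1:ℝ) ≤ L := by exact_mod_cast hL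
  have hLN0 : (L:ℝ) ≤ N := by exact_mod_cast hLN
  have hlr : 0 ≤ Real.log r := Real.log_nonneg hr0
  have hlN : 0 ≤ Real.log N := Real.log_nonneg (by linarith)
  set S := ∑ m ∈ Icc 1 L, mn ((N : ℝ) / m) (m * t) with hS
  have hS0 : 0 ≤ S := sum_nonneg fun m _ => vi_mn_nonneg _ _ (by positivity)
  set P := (N / r + L + r : ℝ) with hP
  have hP0 : 0 ≤ P := by rw [hP]; positivity
  set G := 1 + Real.log N + Real.log r with hG
  have hG1 : 1 ≤ G := by rw [hG]; linarith
  have hin : ∀ m ∈ Icc 1 L, ∀ k ≤ N / m, ‖∑ j ∈ Icc 1 k, e (j * (m * t))‖ ≤ mn ((N:ℝ) / m) (m * t) := by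
    intro m _ k hk
    refine vi_geom _ k _ ?_
    calc (k:ℝ) ≤ ((N / m : ℕ) : ℝ) := by exact_mod_cast hk
      _ ≤ N / m := Nat.cast_div_le
  constructor
  · have h1 : ‖∑ m ∈ Icc 1 L, ∑ k ∈ Icc 1 (N / m), α m * e ((m * k : ℕ) * t)‖ ≤ A * S := by
      refine (norm_sum_le _ _).trans ?_
      rw [hS, mul_sum]
      refine sum_le_sum fun m hm => ?_
      have h2 : ∑ k ∈ Icc 1 (N / m), α m * e ((m * k : ℕ) * t) = α m * ∑ k ∈ Icc 1 (N / m), e (k * (m * t)) := by
        rw [mul_sum]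
        refine sum_congr rfl fun k _ => ?_
        congr 2
        push_cast
        ring
      rw [h2, norm_mul]
      exact mul_le_mul (hα m hm) (hin m hm _ le_rfl) (norm_nonneg _) hA
    refine h1.trans ?_
    have h2 : A * S ≤ A * (C * P * G) := mul_le_mul_of_nonneg_left h0 hA
    have h3 : 0 ≤ A * (C * P * G) := by positivity
    have h4 : 2 * C * A * P * G = 2 * (A * (C * P * G)) := by ring
    rw [h4]
    linarith
  · have h1 : ‖∑ m ∈ Icc 1 L, ∑ k ∈ Icc 1 (N / m), α m * (Real.log k : ℂ) * e ((m * k : ℕ) * t)‖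
        ≤ A * (2 * Real.log N * S) := by
      refine (norm_sum_le _ _).trans ?_
      rw [hS, mul_sum, mul_sum]
      refine sum_le_sum fun m hm => ?_
      have h2 : ∑ k ∈ Icc 1 (N / m), α m * (Real.log k : ℂ) * e ((m * k : ℕ) * t)
          = α m * ∑ k ∈ Icc 1 (N / m), (Real.log k : ℂ) * e (k * (m * t)) := by
        rw [mul_sum]
        refine sum_congr rfl fun k _ => ?_
        rw [mul_assoc]
        congr 3
        push_cast
        ring
      have hm' := mem_Icc.mp hm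
      have hNm : 1 ≤ N / m := (Nat.one_le_div_iff (by omega)).mpr (by omega)
      have h3 := vi_abel (fun k => e (k * (m * t))) (mn ((N:ℝ) / m) (m * t)) (N / m) (hin m hm) hNm
      have h4 : Real.log ((N / m : ℕ) : ℝ) ≤ Real.log N := by
        apply Real.log_le_log
        · exact_mod_cast hNm
        · exact_mod_cast Nat.div_le_self N m
      have h5 : 0 ≤ mn ((N:ℝ) / m) (m * t) := vi_mn_nonneg _ _ (by positivity)
      rw [h2, norm_mul]
      have h6 : ‖∑ k ∈ Icc 1 (N / m), (Real.log k : ℂ) * e (k * (m * t))‖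
          ≤ 2 * Real.log N * mn ((N:ℝ) / m) (m * t) := by
        refine h3.trans ?_
        apply mul_le_mul_of_nonneg_right _ h5
        linarith
      exact mul_le_mul (hα m hm) h6 (norm_nonneg _) hA
    refine h1.trans ?_
    have h2 : 2 * Real.log N * S ≤ 2 * G * (C * P * G) := by
      apply mul_le_mul _ h0 hS0 (by positivity)
      rw [hG]
      linarith
    have h3 := mul_le_mul_of_nonneg_left h2 hA
    refine h3.trans (le_of_eq ?_)
    ring

alias vt1 := vt1_pr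

end Pool.Agent.PV
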