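import Pool.Agent.Lib_helper92.PVF.Base

/-! PV, block VA: sums of `min (A, 1/nn)` over blocks -/

set_option autoImplicit false

namespace Pool.Agent.PV

open Finset Complex Pool.Agent.Var35 Pool.Agent.Var73
open scoped ArithmeticFunction ArithmeticFunction.Moebius

theorem va_nn_nonneg (x : ℝ) : 0 ≤ nn x := abs_nonneg _

theorem va_mn_nonneg {A : ℝ} (hA : 0 ≤ A) (x : ℝ) : 0 ≤ mn A x := by
  unfold mn
  split_ifs with h
  · exact hA
  · exact div_nonneg zero_le_one (va_nn_nonneg x)

theorem va_mn_le {A : ℝ} (x : ℝ) : mn A x ≤ A := by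
  unfold mn
  split_ifs with h
  · exact le_rfl
  · rw [not_le] at h
    have h1 : 0 < nn x := by
      rcases (va_nn_nonneg x).lt_or_eq with h2 | h2
      · exact h2
      · rw [← h2, zero_mul] at h
        linarith
    rw [div_le_iff₀ h1, mul_comm]
    exact h.le

theorem va_mn_le' {A x δ : ℝ} (hδ : 0 < δ) (h : δ ≤ nn x) : mn A x ≤ 1 / δ := by
  have h1 : 0 < nn x := hδ.trans_le h
  have h2 : 1 / nn x ≤ 1 / δ := one_div_le_one_div_of_le hδ h
  unfold mn
  split_ifs with h3
  · refine le_trans ?_ h2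
    rw [le_div_iff₀ h1, mul_comm]
    exact h3
  · exact h2

/-- the bounding function -/
noncomputable def va_Bd (A : ℝ) (r s : ℕ) : ℝ :=
  (if s < 2 then A else 0) + (if r ≤ s + 2 then A else 0) + r * (1 / ((s - 1 : ℕ) : ℝ)) +
    r * (1 / ((r - 1 - s - 1 : ℕ) : ℝ))

theorem va_Bd_nonneg {A : ℝ} (hA : 0 ≤ A) (r s : ℕ) : 0 ≤ va_Bd A r s := by
  unfold va_Bd
  have h1 : 0 ≤ (if s < 2 then A else 0) := by split_ifs <;> simp [hA]
  have h2 : 0 ≤ (if r ≤ s + 2 then A else 0) := by split_ifs <;> simp [hA]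
  positivity

theorem va_harm (r : ℕ) : ∑ s ∈ range r, (1 : ℝ) / ((s - 1 : ℕ) : ℝ) ≤ 1 + Real.log r := by
  match r with
  | 0 => simp
  | 1 => simp
  | (r + 2) =>
    rw [sum_range_succ', sum_range_succ']
    have h1 : ∑ s ∈ range r, (1 : ℝ) / ((s + 1 + 1 - 1 : ℕ) : ℝ) = ((harmonic r : ℚ) : ℝ) := by
      unfold harmonic
      push_cast
      refine sum_congr rfl fun s _ => ?_
      rw [one_div]
    rw [h1]
    have h2 := harmonic_le_one_add_log r
    have h3 : Real.log r ≤ Real.log ((r + 2 : ℕ) : ℝ) := by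
      rcases Nat.eq_zero_or_pos r with rfl | hr
      · simp only [Nat.cast_zero, Real.log_zero]
        exact Real.log_nonneg (by norm_num)
      · exact Real.log_le_log (by exact_mod_cast hr) (by push_cast; linarith)
    simp only [Nat.zero_add, Nat.sub_self, Nat.cast_zero, div_zero, add_zero, Nat.zero_sub]
    linarith

theorem va_Bd_sum {A : ℝ} (hA : 0 ≤ A) (r : ℕ) :
    ∑ s ∈ range r, va_Bd A r s ≤ 4 * A + 2 * (r * (1 + Real.log r)) := by
  unfold va_Bd
  rw [sum_add_distrib, sum_add_distrib, sum_add_distrib, ← mul_sum, ← mul_sum]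
  have h1 : ∑ s ∈ range r, (if s < 2 then A else 0) ≤ 2 * A := by
    rw [← sum_filter, sum_const, nsmul_eq_mul]
    refine mul_le_mul_of_nonneg_right ?_ hA
    have : ((range r).filter (fun s => s < 2)).card ≤ (range 2).card := card_le_card (by
      intro s hs
      rw [mem_filter] at hs
      exact mem_range.2 hs.2)
    rw [card_range] at this
    exact_mod_cast this
  have h2 : ∑ s ∈ range r, (if r ≤ s + 2 then A else 0) ≤ 2 * A := by
    rw [← sum_filter, sum_const, nsmul_eq_mul]
    refine mul_le_mul_of_nonneg_right ?_ hA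
    have : ((range r).filter (fun s => r ≤ s + 2)).card ≤ (Ico (r - 2) r).card :=
      card_le_card (by
        intro s hs
        rw [mem_filter, mem_range] at hs
        rw [mem_Ico]
        omega)
    rw [Nat.card_Ico] at this
    have h3 : r - (r - 2) ≤ 2 := by omega
    exact_mod_cast this.trans h3
  have h3 := va_harm r
  have h4 : ∑ s ∈ range r, (1 : ℝ) / ((r - 1 - s - 1 : ℕ) : ℝ) =
      ∑ s ∈ range r, (1 : ℝ) / ((s - 1 : ℕ) : ℝ) :=
    sum_range_reflect (fun s => (1 : ℝ) / ((s - 1 : ℕ) : ℝ)) r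
  rw [h4]
  have h5 : (0 : ℝ) ≤ r := Nat.cast_nonneg r
  have h6 := mul_le_mul_of_nonneg_left h3 h5
  linarith

/-- one block of length `r` -/
theorem va_block {t : ℝ} {c : ℤ} {r : ℕ} (hr : 1 ≤ r) (hc : IsCoprime c (r : ℤ))
    (ht : |t - c / r| ≤ 1 / (r : ℝ) ^ 2) {A : ℝ} (hA : 0 ≤ A) (x0 : ℝ) :
    ∑ i ∈ range r, mn A (x0 + i * t) ≤ 4 * A + 2 * (r * (1 + Real.log r)) := by
  have hr0 : (0 : ℝ) < r := by exact_mod_cast hr
  have hrz : (0 : ℤ) < r := by exact_mod_cast hr
  set a : ℤ := ⌊(r : ℝ) * x0⌋ with ha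
  set f : ℝ := Int.fract ((r : ℝ) * x0) with hf
  have hf0 : 0 ≤ f := Int.fract_nonneg _
  have hf1 : f < 1 := Int.fract_lt_one _
  have haf : (r : ℝ) * x0 = a + f := (Int.floor_add_fract _).symm
  set s : ℕ → ℕ := fun i => ((a + i * c) % (r : ℤ)).toNat with hs
  have hsz : ∀ i, ((s i : ℕ) : ℤ) = (a + i * c) % (r : ℤ) := by
    intro i
    simp only [hs]
    exact Int.toNat_of_nonneg (Int.emod_nonneg _ hrz.ne')
  have hslt : ∀ i, s i < r := by
    intro i
    have h1 := Int.emod_lt_of_pos (a + i * c) hrz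
    rw [← hsz] at h1
    exact_mod_cast h1
  have hsinj : Set.InjOn s (range r : Set ℕ) := by
    intro i hi i' hi' h
    rw [coe_range, Set.mem_Iio] at hi hi'
    have h1 : (a + i * c) % (r : ℤ) = (a + i' * c) % (r : ℤ) := by
      rw [← hsz, ← hsz, h]
    have h2 : (r : ℤ) ∣ (i - i' : ℤ) * c := by
      have h3 := Int.emod_emod_of_dvd
      have h4 : (r : ℤ) ∣ (a + i * c) - (a + i' * c) := Int.ModEq.dvd (Eq.symm h1)
      have e : (a + i * c) - (a + i' * c) = (i - i' : ℤ) * c := by ring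
      rwa [e] at h4
    have h3 : (r : ℤ) ∣ (i - i' : ℤ) := hc.symm.dvd_of_dvd_mul_right h2
    have h4 : (i : ℤ) - i' = 0 := by
      apply Int.eq_zero_of_abs_lt_dvd h3
      rw [abs_lt]
      constructor <;> omega
    omega
  have key : ∀ i ∈ range r, mn A (x0 + i * t) ≤ va_Bd A r (s i) := by
    intro i hi
    have hir : (i : ℝ) ≤ r := by exact_mod_cast (mem_range.1 hi).le
    by_cases h1 : s i < 2
    · refine (va_mn_le _).trans ?_
      unfold va_Bd
      rw [if_pos h1]
      have h2 : 0 ≤ (if r ≤ s i + 2 then A else 0) := by split_ifs <;> simp [hA]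
      have h3 : 0 ≤ (r : ℝ) * (1 / ((s i - 1 : ℕ) : ℝ)) := by positivity
      have h4 : 0 ≤ (r : ℝ) * (1 / ((r - 1 - s i - 1 : ℕ) : ℝ)) := by positivity
      linarith
    by_cases h2 : r ≤ s i + 2
    · refine (va_mn_le _).trans ?_
      unfold va_Bd
      rw [if_neg h1, if_pos h2]
      have h3 : 0 ≤ (r : ℝ) * (1 / ((s i - 1 : ℕ) : ℝ)) := by positivity
      have h4 : 0 ≤ (r : ℝ) * (1 / ((r - 1 - s i - 1 : ℕ) : ℝ)) := by positivity
      linarith
    -- the main case
    rw [not_lt] at h1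
    rw [not_le] at h2
    set p : ℝ := ((s i - 1 : ℕ) : ℝ) with hp
    set q : ℝ := ((r - 1 - s i - 1 : ℕ) : ℝ) with hq
    have hp1 : 0 < p := by
      rw [hp]
      exact_mod_cast (by omega : 0 < s i - 1)
    have hq1 : 0 < q := by
      rw [hq]
      exact_mod_cast (by omega : 0 < r - 1 - s i - 1)
    have hpe : p = (s i : ℝ) - 1 := by
      rw [hp, Nat.cast_sub (by omega), Nat.cast_one]
    have hqe : q = (r : ℝ) - s i - 2 := by
      have e : (r - 1 - s i - 1) + (s i + 2) = r := by omega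
      have e2 : (((r - 1 - s i - 1) + (s i + 2) : ℕ) : ℝ) = (r : ℝ) := by rw [e]
      rw [Nat.cast_add, ← hq] at e2
      push_cast at e2
      linarith
    have hnn : min p q / r ≤ nn (x0 + i * t) := by
      unfold nn
      set n := round (x0 + i * t) with hn
      set k : ℤ := (a + i * c) / (r : ℤ) with hk
      have e1 : ((a + i * c : ℤ) : ℝ) = r * k + s i := by
        have e2 : (r : ℤ) * k + ((s i : ℕ) : ℤ) = a + i * c := by
          rw [hsz, hk]
          exact Int.mul_ediv_add_emod _ _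
        rw [← e2]
        push_cast
        ring
      push_cast at e1
      have herr : |(i : ℝ) * (t - c / r)| ≤ 1 / r := by
        rw [abs_mul, abs_of_nonneg (Nat.cast_nonneg i)]
        calc (i : ℝ) * |t - c / r| ≤ r * (1 / (r : ℝ) ^ 2) :=
              mul_le_mul hir ht (abs_nonneg _) hr0.le
          _ = 1 / r := by field_simp
      rw [abs_le] at herr
      have e3 : r * (x0 + i * t - n) = (s i + f) + r * (k - n : ℤ) +
          r * ((i : ℝ) * (t - c / r)) := by
        push_cast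
        have e4 : (r : ℝ) * ((i : ℝ) * (t - c / r)) = r * (i * t) - i * c := by
          field_simp
        rw [e4]
        have e5 : (r : ℝ) * (x0 + i * t - n) = r * x0 + r * (i * t) - r * n := by ring
        rw [e5, haf]
        linarith
      have herr1 : -1 ≤ (r : ℝ) * ((i : ℝ) * (t - c / r)) := by
        have := mul_le_mul_of_nonneg_left herr.1 hr0.le
        have e6 : (r : ℝ) * -(1 / r) = -1 := by field_simp
        linarith
      have herr2 : (r : ℝ) * ((i : ℝ) * (t - c / r)) ≤ 1 := by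
        have := mul_le_mul_of_nonneg_left herr.2 hr0.le
        have e6 : (r : ℝ) * (1 / r) = 1 := by field_simp
        linarith
      rw [div_le_iff₀ hr0, mul_comm, ← abs_of_pos hr0, ← abs_mul, e3]
      rcases le_or_gt 0 (k - n) with hkn | hkn
      · have h5 : (0 : ℝ) ≤ r * ((k - n : ℤ) : ℝ) := by
          have : (0 : ℝ) ≤ ((k - n : ℤ) : ℝ) := by exact_mod_cast hkn
          positivity
        refine (min_le_left _ _).trans (le_trans ?_ (le_abs_self _))
        rw [hpe]
        linarith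
      · have h5 : (r : ℝ) * ((k - n : ℤ) : ℝ) ≤ -r := by
          have : ((k - n : ℤ) : ℝ) ≤ -1 := by exact_mod_cast (by omega : k - n ≤ -1)
          nlinarith
        refine (min_le_right _ _).trans (le_trans ?_ (neg_le_abs _))
        rw [hqe]
        linarith
    have hmin : 0 < min p q / r := div_pos (lt_min hp1 hq1) hr0
    refine (va_mn_le' hmin hnn).trans ?_
    unfold va_Bd
    rw [if_neg (by omega), if_neg (by omega), ← hp, ← hq, one_div_div]
    rcases le_total p q with h6 | h6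
    · rw [min_eq_left h6]
      have h7 : 0 ≤ (r : ℝ) * (1 / q) := by positivity
      have h8 : (r : ℝ) / p = r * (1 / p) := by ring
      rw [h8]
      linarith
    · rw [min_eq_right h6]
      have h7 : 0 ≤ (r : ℝ) * (1 / p) := by positivity
      have h8 : (r : ℝ) / q = r * (1 / q) := by ring
      rw [h8]
      linarith
  calc ∑ i ∈ range r, mn A (x0 + i * t) ≤ ∑ i ∈ range r, va_Bd A r (s i) := sum_le_sum key
    _ = ∑ u ∈ (range r).image s, va_Bd A r u := by
        rw [sum_image]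
        exact fun x hx y hy h => hsinj hx hy h
    _ ≤ ∑ u ∈ range r, va_Bd A r u := by
        refine sum_le_sum_of_subset_of_nonneg ?_ fun u _ _ => va_Bd_nonneg hA r u
        intro u hu
        obtain ⟨i, _, rfl⟩ := mem_image.1 hu
        exact mem_range.2 (hslt i)
    _ ≤ _ := va_Bd_sum hA r

theorem va_pr : ∃ C : ℝ, 0 < C ∧ ∀ (t : ℝ) (c : ℤ) (r : ℕ), 1 ≤ r → IsCoprime c (r : ℤ) →
    |t - c / r| ≤ 1 / (r : ℝ) ^ 2 → ∀ (L : ℕ) (A : ℝ), 1 ≤ A →
    ∑ m ∈ Icc 1 L, mn A (m * t) ≤ C * (L / r + 1) * (A + r * (1 + Real.log r)) := by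
  refine ⟨4, by norm_num, ?_⟩
  intro t c r hr hc ht L A hA
  have hA0 : 0 ≤ A := by linarith
  have hr0 : (0 : ℝ) < r := by exact_mod_cast hr
  have hlog : 0 ≤ Real.log r := Real.log_nonneg (by exact_mod_cast hr)
  have h1 : ∀ k : ℕ, ∑ m ∈ range (k * r), mn A (((m + 1 : ℕ) : ℝ) * t) ≤
      k * (4 * A + 2 * (r * (1 + Real.log r))) := by
    intro k
    induction k with
    | zero => simp
    | succ k ih =>
      rw [Nat.succ_mul, sum_range_add]
      have h2 := va_block hr hc ht hA0 (((k * r + 1 : ℕ) : ℝ) * t)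
      have h3 : ∑ x ∈ range r, mn A (((k * r + x + 1 : ℕ) : ℝ) * t) =
          ∑ i ∈ range r, mn A (((k * r + 1 : ℕ) : ℝ) * t + i * t) := by
        refine sum_congr rfl fun i _ => ?_
        congr 1
        push_cast
        ring
      rw [h3]
      push_cast at ih h2 ⊢
      linarith
  have h2 : ∑ m ∈ Icc 1 L, mn A (m * t) ≤
      ∑ m ∈ range ((L / r + 1) * r), mn A (((m + 1 : ℕ) : ℝ) * t) := by
    have e1 : ∑ m ∈ Icc 1 L, mn A (m * t) = ∑ m ∈ range L, mn A (((m + 1 : ℕ) : ℝ) * t) := by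
      rw [range_eq_Ico, sum_Ico_add' (fun m : ℕ => mn A ((m : ℝ) * t)) 0 L 1]
      rfl
    rw [e1]
    refine sum_le_sum_of_subset_of_nonneg ?_ fun u _ _ => va_mn_nonneg hA0 _
    intro m hm
    rw [mem_range] at hm ⊢
    have h3 : L < (L / r + 1) * r := by
      rw [Nat.add_mul, one_mul]
      have := Nat.div_add_mod L r
      have h4 := Nat.mod_lt L (show r > 0 by omega)
      rw [Nat.mul_comm] at this
      omega
    omega
  refine (h2.trans (h1 _)).trans ?_
  have h3 : ((L / r + 1 : ℕ) : ℝ) ≤ L / r + 1 := by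
    push_cast
    have := Nat.cast_div_le (α := ℝ) (m := L) (n := r)
    linarith
  have h4 : 4 * A + 2 * (r * (1 + Real.log r)) ≤ 4 * (A + r * (1 + Real.log r)) := by
    have : 0 ≤ (r : ℝ) * (1 + Real.log r) := by positivity
    linarith
  have h5 : 0 ≤ 4 * A + 2 * (r * (1 + Real.log r)) := by positivity
  calc _ ≤ (L / r + 1 : ℝ) * (4 * (A + r * (1 + Real.log r))) :=
        mul_le_mul h3 h4 h5 (by positivity)
    _ = _ := by ring

alias va := va_pr

end Pool.Agent.PV
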