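import Pool.Agent.Lib_helper92.PVF.Base
import Pool.Agent.Lib_helper92.PVF.VA

set_option autoImplicit false

namespace Pool.Agent.PV

open Finset Complex Pool.Agent.Var35 Pool.Agent.Var73
open scoped ArithmeticFunction ArithmeticFunction.Moebius

lemma vii_nn_nonneg (x : ℝ) : 0 ≤ nn x := abs_nonneg _

lemma vii_mn_nonneg {A : ℝ} (hA : 0 ≤ A) (x : ℝ) : 0 ≤ mn A x := by
  unfold mn
  split_ifs
  · exact hA
  · have := vii_nn_nonneg x
    positivity

lemma vii_mn_mono {A A' : ℝ} (h : A ≤ A') (x : ℝ) : mn A x ≤ mn A' x := by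
  have h0 := vii_nn_nonneg x
  have h1 : nn x * A ≤ nn x * A' := mul_le_mul_of_nonneg_left h h0
  unfold mn
  split_ifs with h2 h3 h3
  · exact h
  · have h4 : 0 < nn x := by
      rcases h0.eq_or_lt with h5 | h5
      · rw [← h5, zero_mul] at h3
        exact absurd zero_le_one h3
      · exact h5
    rw [le_div_iff₀ h4, mul_comm]
    exact h2
  · exact absurd (h1.trans h3) h2
  · exact le_rfl

lemma vii_mn_zero {A : ℝ} : mn A 0 = A := by
  unfold mn nn
  simp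

/-- geometric sums over an interval -/
lemma vii_geo (x : ℝ) (a b : ℕ) (A : ℝ) (h : ((b - a : ℕ) : ℝ) ≤ A) :
    ‖∑ m ∈ Ioc a b, e (m * x)‖ ≤ mn A x := by
  have h1 : ∑ m ∈ Ioc a b, e (m * x) = e (((a + 1 : ℕ) : ℝ) * x) * Dk (b - a) x := by
    unfold Dk
    rw [mul_sum]
    refine Finset.sum_nbij' (fun m => m - (a + 1)) (fun j => j + (a + 1)) ?_ ?_ ?_ ?_ ?_
    · intro m hm
      rw [mem_Ioc] at hm
      rw [mem_range]
      omega
    · intro j hj
      rw [mem_range] at hj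
      rw [mem_Ioc]
      omega
    · intro m hm
      rw [mem_Ioc] at hm
      show m - (a + 1) + (a + 1) = m
      omega
    · intro j hj
      show j + (a + 1) - (a + 1) = j
      omega
    · intro m hm
      rw [mem_Ioc] at hm
      show e (m * x) = e (((a + 1 : ℕ) : ℝ) * x) * e (((m - (a + 1) : ℕ) : ℝ) * x)
      rw [← e_add, ← add_mul]
      congr 2
      rw [← Nat.cast_add]
      congr 1
      omega
  rw [h1, norm_mul, norm_e, one_mul]
  unfold mn
  split_ifs with h2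
  · exact (Dk_le _ _).trans h
  · have h3 : 0 < nn x := by
      rcases (vii_nn_nonneg x).eq_or_lt with h5 | h5
      · rw [← h5, zero_mul] at h2
        exact absurd zero_le_one h2
      · exact h5
    rw [← Dk_sub_int _ x (round x)]
    have h4 := geom_bound (a := x - round x) h3 (abs_sub_round x) (b - a)
    have h5 : ‖Dk (b - a) (x - round x)‖ ≤ 1 / (2 * nn x) := h4
    refine h5.trans ?_
    apply one_div_le_one_div_of_le h3
    linarith

/-- sums with the weight `m` -/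
lemma vii_abel (x : ℝ) (U M : ℕ) (A : ℝ) (h : (M : ℝ) ≤ A) :
    ‖∑ m ∈ Ioc U M, (m : ℂ) * e (m * x)‖ ≤ M * mn A x := by
  have h1 : ∑ m ∈ Ioc U M, (m : ℂ) * e (m * x) =
      ∑ i ∈ range M, ∑ m ∈ Ioc (max U i) M, e (m * x) := by
    have h2 : ∀ i ∈ range M, ∑ m ∈ Ioc (max U i) M, e (m * x) =
        ∑ m ∈ Ioc U M, if i < m then e (m * x) else 0 := by
      intro i _
      rw [← sum_filter]
      refine sum_congr ?_ fun _ _ => rfl
      ext m
      simp only [mem_Ioc, mem_filter, max_lt_iff]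
      tauto
    rw [sum_congr rfl h2, sum_comm]
    refine sum_congr rfl fun m hm => ?_
    rw [mem_Ioc] at hm
    rw [← sum_filter, sum_const, nsmul_eq_mul]
    congr 2
    have h3 : (range M).filter (fun i => i < m) = range m := by
      ext i
      simp only [mem_filter, mem_range]
      omega
    rw [h3, card_range]
  rw [h1]
  refine (norm_sum_le _ _).trans ?_
  have h2 : ∀ i ∈ range M, ‖∑ m ∈ Ioc (max U i) M, e (m * x)‖ ≤ mn A x := by
    intro i _
    apply vii_geo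
    refine le_trans ?_ h
    exact_mod_cast Nat.sub_le _ _
  refine (sum_le_sum h2).trans (le_of_eq ?_)
  rw [sum_const, card_range, nsmul_eq_mul]

/-- the correlation sums -/
noncomputable def vii_W (U N : ℕ) (t : ℝ) (k k' : ℕ) : ℂ :=
  ∑ m ∈ (Ioc U N).filter (fun m => m * k ≤ N ∧ m * k' ≤ N), (m : ℂ) * e (m * (((k : ℝ) - k') * t))

lemma vii_W_symm (U N : ℕ) (t : ℝ) (k k' : ℕ) : ‖vii_W U N t k k'‖ = ‖vii_W U N t k' k‖ := by
  have h : vii_W U N t k' k = (starRingEnd ℂ) (vii_W U N t k k') := by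
    unfold vii_W
    rw [map_sum]
    have h1 : (Ioc U N).filter (fun m => m * k' ≤ N ∧ m * k ≤ N) =
        (Ioc U N).filter (fun m => m * k ≤ N ∧ m * k' ≤ N) := by
      ext m
      simp only [mem_filter]
      tauto
    rw [h1]
    refine sum_congr rfl fun m _ => ?_
    rw [map_mul, ← e_neg, Complex.conj_natCast]
    congr 2
    ring
  rw [h, Complex.norm_conj]

lemma vii_W_le (U N : ℕ) (t : ℝ) (k k' : ℕ) (hk : 1 ≤ k) (hk' : k' ≤ k) :
    ‖vii_W U N t k k'‖ ≤ ((N : ℝ) / k) * mn ((N : ℝ) / k) (((k - k' : ℕ) : ℝ) * t) ∧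
    (N < k * U → vii_W U N t k k' = 0) := by
  have h1 : (Ioc U N).filter (fun m => m * k ≤ N ∧ m * k' ≤ N) = Ioc U (N / k) := by
    ext m
    simp only [mem_filter, mem_Ioc]
    rw [Nat.le_div_iff_mul_le (by omega)]
    constructor
    · rintro ⟨⟨h2, h3⟩, h4, h5⟩
      exact ⟨h2, h4⟩
    · rintro ⟨h2, h3⟩
      refine ⟨⟨h2, ?_⟩, h3, (Nat.mul_le_mul_left m hk').trans h3⟩
      exact (Nat.le_mul_of_pos_right m hk).trans h3
  have hk0 : (0 : ℝ) < k := by exact_mod_cast hk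
  have hdiv : ((N / k : ℕ) : ℝ) ≤ (N : ℝ) / k := Nat.cast_div_le
  have hnn : (0 : ℝ) ≤ (N : ℝ) / k := by positivity
  constructor
  · unfold vii_W
    rw [h1]
    have h2 : ∀ m ∈ Ioc U (N / k), (m : ℂ) * e (m * (((k : ℝ) - k') * t)) =
        (m : ℂ) * e (m * (((k - k' : ℕ) : ℝ) * t)) := by
      intro m _
      rw [Nat.cast_sub hk']
    rw [sum_congr rfl h2]
    refine (vii_abel _ U (N / k) ((N : ℝ) / k) hdiv).trans ?_
    exact mul_le_mul_of_nonneg_right hdiv (vii_mn_nonneg hnn _)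
  · intro h
    unfold vii_W
    rw [h1]
    have h2 : N / k ≤ U := by
      have : N / k < U := by
        rw [Nat.div_lt_iff_lt_mul (by omega), mul_comm]
        exact h
      omega
    rw [Finset.Ioc_eq_empty (by omega), sum_empty]

/-- expansion of the square -/
lemma vii_expand (U N : ℕ) (t : ℝ) (β : ℕ → ℂ) (B : ℝ) (hB : 0 ≤ B)
    (hβ : ∀ k ∈ Icc 1 N, ‖β k‖ ≤ B) (hβ0 : ∀ k ≤ U, β k = 0) :
    ∑ m ∈ Ioc U N, (m : ℝ) * ‖∑ k ∈ Icc 1 (N / m), β k * e ((m * k : ℕ) * t)‖ ^ 2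
      ≤ B ^ 2 * ∑ k ∈ Ioc U N, ∑ k' ∈ Ioc U N, ‖vii_W U N t k k'‖ := by
  have hIcc : ∀ f : ℕ → ℂ, (∀ k ≤ U, f k = 0) → ∑ k ∈ Icc 1 N, f k = ∑ k ∈ Ioc U N, f k := by
    intro f hf
    symm
    apply sum_subset
    · intro k hk
      rw [mem_Ioc] at hk
      rw [mem_Icc]
      omega
    · intro k hk hk2
      rw [mem_Icc] at hk
      rw [mem_Ioc] at hk2
      exact hf k (by omega)
  have hT : ∀ m ∈ Ioc U N, ∑ k ∈ Icc 1 (N / m), β k * e ((m * k : ℕ) * t) =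
      ∑ k ∈ Ioc U N, if m * k ≤ N then β k * e ((m * k : ℕ) * t) else 0 := by
    intro m hm
    rw [mem_Ioc] at hm
    rw [← hIcc _ (fun k hk => by rw [hβ0 k hk]; simp), ← sum_filter]
    refine sum_congr ?_ fun _ _ => rfl
    ext k
    simp only [mem_Icc, mem_filter]
    rw [Nat.le_div_iff_mul_le (by omega), mul_comm k m]
    constructor
    · rintro ⟨h1, h2⟩
      refine ⟨⟨h1, ?_⟩, h2⟩
      exact (Nat.le_mul_of_pos_left k (by omega)).trans h2
    · rintro ⟨⟨h1, h2⟩, h3⟩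
      exact ⟨h1, h3⟩
  have hQ : ((∑ m ∈ Ioc U N, (m : ℝ) * ‖∑ k ∈ Icc 1 (N / m), β k * e ((m * k : ℕ) * t)‖ ^ 2 : ℝ) : ℂ)
      = ∑ k ∈ Ioc U N, ∑ k' ∈ Ioc U N, β k * (starRingEnd ℂ) (β k') * vii_W U N t k k' := by
    rw [Complex.ofReal_sum]
    have h1 : ∀ m ∈ Ioc U N, (((m : ℝ) * ‖∑ k ∈ Icc 1 (N / m), β k * e ((m * k : ℕ) * t)‖ ^ 2 : ℝ) : ℂ)
        = ∑ k ∈ Ioc U N, ∑ k' ∈ Ioc U N, if m * k ≤ N ∧ m * k' ≤ N then
          β k * (starRingEnd ℂ) (β k') * ((m : ℂ) * e (m * (((k : ℝ) - k') * t))) else 0 := by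
      intro m hm
      rw [hT m hm]
      push_cast
      rw [← Complex.mul_conj', map_sum, sum_mul_sum, mul_sum]
      refine sum_congr rfl fun k _ => ?_
      rw [mul_sum]
      refine sum_congr rfl fun k' _ => ?_
      by_cases h2 : m * k ≤ N
      · by_cases h3 : m * k' ≤ N
        · rw [if_pos h2, if_pos h3, if_pos (show m * k ≤ N ∧ m * k' ≤ N from ⟨h2, h3⟩), map_mul]
          have h4 : (m : ℝ) * (((k : ℝ) - k') * t) = (m : ℝ) * k * t - (m : ℝ) * k' * t := by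
            ring
          rw [h4, e_sub]
          ring
        · rw [if_neg h3, map_zero, mul_zero, mul_zero,
            if_neg (show ¬ (m * k ≤ N ∧ m * k' ≤ N) from fun h => h3 h.2)]
      · rw [if_neg h2, zero_mul, mul_zero,
          if_neg (show ¬ (m * k ≤ N ∧ m * k' ≤ N) from fun h => h2 h.1)]
    rw [sum_congr rfl h1, sum_comm]
    refine sum_congr rfl fun k _ => ?_
    rw [sum_comm]
    refine sum_congr rfl fun k' _ => ?_
    unfold vii_W
    rw [← sum_filter, mul_sum]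
  have h0 : 0 ≤ ∑ m ∈ Ioc U N, (m : ℝ) * ‖∑ k ∈ Icc 1 (N / m), β k * e ((m * k : ℕ) * t)‖ ^ 2 :=
    sum_nonneg fun m _ => by positivity
  have h1 : ∑ m ∈ Ioc U N, (m : ℝ) * ‖∑ k ∈ Icc 1 (N / m), β k * e ((m * k : ℕ) * t)‖ ^ 2 =
      ‖∑ k ∈ Ioc U N, ∑ k' ∈ Ioc U N, β k * (starRingEnd ℂ) (β k') * vii_W U N t k k'‖ := by
    rw [← hQ, Complex.norm_real, Real.norm_of_nonneg h0]
  rw [h1]
  refine (norm_sum_le _ _).trans ?_
  rw [mul_sum]
  refine sum_le_sum fun k hk => ?_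
  refine (norm_sum_le _ _).trans ?_
  rw [mul_sum]
  refine sum_le_sum fun k' hk' => ?_
  rw [mem_Ioc] at hk hk'
  rw [norm_mul, norm_mul, Complex.norm_conj, sq]
  refine mul_le_mul_of_nonneg_right ?_ (norm_nonneg _)
  exact mul_le_mul (hβ k (by rw [mem_Icc]; omega)) (hβ k' (by rw [mem_Icc]; omega))
    (norm_nonneg _) hB

/-- reduction to `k' ≤ k` -/
lemma vii_half (U N : ℕ) (t : ℝ) :
    ∑ k ∈ Ioc U N, ∑ k' ∈ Ioc U N, ‖vii_W U N t k k'‖ ≤
      2 * ∑ k ∈ Ioc U N, ∑ k' ∈ Icc 1 k, ‖vii_W U N t k k'‖ := by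
  have h1 : ∀ k ∈ Ioc U N, ∀ k' ∈ Ioc U N, ‖vii_W U N t k k'‖ ≤
      (if k' ≤ k then ‖vii_W U N t k k'‖ else 0) + (if k ≤ k' then ‖vii_W U N t k' k‖ else 0) := by
    intro k _ k' _
    rw [vii_W_symm U N t k' k]
    have := norm_nonneg (vii_W U N t k k')
    split_ifs with h2 h3 h3
    · linarith
    · linarith
    · linarith
    · omega
  have h2 : ∑ k ∈ Ioc U N, ∑ k' ∈ Ioc U N, (if k' ≤ k then ‖vii_W U N t k k'‖ else 0) ≤
      ∑ k ∈ Ioc U N, ∑ k' ∈ Icc 1 k, ‖vii_W U N t k k'‖ := by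
    refine sum_le_sum fun k _ => ?_
    rw [← sum_filter]
    refine sum_le_sum_of_subset_of_nonneg ?_ fun _ _ _ => norm_nonneg _
    intro k' hk'
    rw [mem_filter, mem_Ioc] at hk'
    rw [mem_Icc]
    omega
  calc ∑ k ∈ Ioc U N, ∑ k' ∈ Ioc U N, ‖vii_W U N t k k'‖
      ≤ ∑ k ∈ Ioc U N, ∑ k' ∈ Ioc U N, ((if k' ≤ k then ‖vii_W U N t k k'‖ else 0) +
          (if k ≤ k' then ‖vii_W U N t k' k‖ else 0)) :=
        sum_le_sum fun k hk => sum_le_sum fun k' hk' => h1 k hk k' hk'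
    _ = ∑ k ∈ Ioc U N, ∑ k' ∈ Ioc U N, (if k' ≤ k then ‖vii_W U N t k k'‖ else 0) +
          ∑ k ∈ Ioc U N, ∑ k' ∈ Ioc U N, (if k ≤ k' then ‖vii_W U N t k' k‖ else 0) := by
        rw [← sum_add_distrib]
        refine sum_congr rfl fun k _ => ?_
        rw [← sum_add_distrib]
    _ = 2 * ∑ k ∈ Ioc U N, ∑ k' ∈ Ioc U N, (if k' ≤ k then ‖vii_W U N t k k'‖ else 0) := by
        rw [sum_comm (f := fun k k' => if k ≤ k' then ‖vii_W U N t k' k‖ else 0)]
        ring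
    _ ≤ _ := by linarith

lemma vii_harm (N : ℕ) : ∑ k ∈ Icc 1 N, 1 / (k : ℝ) ≤ 1 + Real.log N := by
  have h := harmonic_le_one_add_log N
  rw [harmonic_eq_sum_Icc] at h
  push_cast at h
  refine le_trans (le_of_eq ?_) h
  exact sum_congr rfl fun k _ => by rw [one_div]

/-- VII : type II sums -/
theorem vt2_pr : ∃ C : ℝ, 0 < C ∧ ∀ (t : ℝ) (c : ℤ) (r : ℕ), 1 ≤ r → IsCoprime c (r : ℤ) →
    |t - c / r| ≤ 1 / (r : ℝ) ^ 2 → ∀ (U N : ℕ), 1 ≤ U → 1 ≤ N → r ≤ N →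
    ∀ (α β : ℕ → ℂ) (A B : ℝ), 0 ≤ A → 0 ≤ B →
    (∀ m ∈ Icc 1 N, ‖α m‖ ≤ A) → (∀ k ∈ Icc 1 N, ‖β k‖ ≤ B) → (∀ m ≤ U, α m = 0) → (∀ k ≤ U, β k = 0) →
    ‖∑ m ∈ Icc 1 N, ∑ k ∈ Icc 1 (N / m), α m * β k * e ((m * k : ℕ) * t)‖
      ≤ C * A * B * (N / Real.sqrt r + N / Real.sqrt U + Real.sqrt (N * r)) * (1 + Real.log N) ^ 3 := by
  obtain ⟨C0, hC0, hva⟩ := va
  refine ⟨2 * (1 + 2 * C0), by positivity, ?_⟩
  intro t c r hr hc ht U N hU hN hrN α β A B hA hB hα hβ hα0 hβ0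
  have hr0 : (0 : ℝ) < r := by exact_mod_cast hr
  have hr1 : (1 : ℝ) ≤ r := by exact_mod_cast hr
  have hU0 : (0 : ℝ) < U := by exact_mod_cast hU
  have hN0 : (0 : ℝ) < N := by exact_mod_cast hN
  have hN1 : (1 : ℝ) ≤ N := by exact_mod_cast hN
  have hrN' : (r : ℝ) ≤ N := by exact_mod_cast hrN
  have hlr : 0 ≤ Real.log r := Real.log_nonneg hr1
  have hlN : 0 ≤ Real.log N := Real.log_nonneg hN1
  have hlrN : Real.log r ≤ Real.log N := Real.log_le_log hr0 hrN'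
  set Lg := 1 + Real.log N with hLg
  have hLg1 : 1 ≤ Lg := by linarith
  -- Cauchy-Schwarz
  set T : ℕ → ℂ := fun m => ∑ k ∈ Icc 1 (N / m), β k * e ((m * k : ℕ) * t) with hT
  have hS : ∑ m ∈ Icc 1 N, ∑ k ∈ Icc 1 (N / m), α m * β k * e ((m * k : ℕ) * t) =
      ∑ m ∈ Ioc U N, α m * T m := by
    have h1 : ∑ m ∈ Icc 1 N, ∑ k ∈ Icc 1 (N / m), α m * β k * e ((m * k : ℕ) * t) =
        ∑ m ∈ Icc 1 N, α m * T m := by
      refine sum_congr rfl fun m _ => ?_
      rw [hT, mul_sum]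
      exact sum_congr rfl fun k _ => by ring
    rw [h1]
    symm
    apply sum_subset
    · intro k hk
      rw [mem_Ioc] at hk
      rw [mem_Icc]
      omega
    · intro k hk hk2
      rw [mem_Icc] at hk
      rw [mem_Ioc] at hk2
      rw [hα0 k (by omega), zero_mul]
  have hCS : ‖∑ m ∈ Ioc U N, α m * T m‖ ^ 2 ≤ (A ^ 2 * Lg) *
      ∑ m ∈ Ioc U N, (m : ℝ) * ‖T m‖ ^ 2 := by
    have h1 : ‖∑ m ∈ Ioc U N, α m * T m‖ ≤
        ∑ m ∈ Ioc U N, (A / Real.sqrt m) * (Real.sqrt m * ‖T m‖) := by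
      refine (norm_sum_le _ _).trans (sum_le_sum fun m hm => ?_)
      rw [mem_Ioc] at hm
      have hm0 : (0 : ℝ) < m := by
        have : 0 < m := by omega
        exact_mod_cast this
      have hs : 0 < Real.sqrt m := Real.sqrt_pos.2 hm0
      rw [norm_mul]
      have h2 : (A / Real.sqrt m) * (Real.sqrt m * ‖T m‖) = A * ‖T m‖ := by
        field_simp
      rw [h2]
      exact mul_le_mul_of_nonneg_right (hα m (by rw [mem_Icc]; omega)) (norm_nonneg _)
    have h2 := pow_le_pow_left₀ (norm_nonneg _) h1 2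
    refine h2.trans ((Finset.sum_mul_sq_le_sq_mul_sq _ _ _).trans ?_)
    have h3 : ∑ m ∈ Ioc U N, (A / Real.sqrt m) ^ 2 ≤ A ^ 2 * Lg := by
      calc ∑ m ∈ Ioc U N, (A / Real.sqrt m) ^ 2 = A ^ 2 * ∑ m ∈ Ioc U N, 1 / (m : ℝ) := by
            rw [mul_sum]
            refine sum_congr rfl fun m _ => ?_
            rw [div_pow, Real.sq_sqrt (Nat.cast_nonneg m)]
            ring
        _ ≤ A ^ 2 * ∑ m ∈ Icc 1 N, 1 / (m : ℝ) := by
            refine mul_le_mul_of_nonneg_left ?_ (by positivity)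
            refine sum_le_sum_of_subset_of_nonneg ?_ fun _ _ _ => by positivity
            intro k hk
            rw [mem_Ioc] at hk
            rw [mem_Icc]
            omega
        _ ≤ A ^ 2 * Lg := mul_le_mul_of_nonneg_left (vii_harm N) (by positivity)
    have h4 : ∑ m ∈ Ioc U N, (Real.sqrt m * ‖T m‖) ^ 2 = ∑ m ∈ Ioc U N, (m : ℝ) * ‖T m‖ ^ 2 := by
      refine sum_congr rfl fun m _ => ?_
      rw [mul_pow, Real.sq_sqrt (Nat.cast_nonneg m)]
    rw [h4]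
    exact mul_le_mul_of_nonneg_right h3 (sum_nonneg fun m _ => by positivity)
  -- the correlation
  have hexp := vii_expand U N t β B hB hβ hβ0
  have hhalf := vii_half U N t
  -- for one k
  have hk1 : ∀ k ∈ Ioc U N, ∑ k' ∈ Icc 1 k, ‖vii_W U N t k k'‖ ≤
      if k * U ≤ N then
        (1 + C0) * (N : ℝ) ^ 2 * ((k : ℝ) ^ 2)⁻¹ + C0 * ((N : ℝ) ^ 2 / r + N * r * Lg) * (1 / (k : ℝ))
          + C0 * N * Lg
      else 0 := by
    intro k hk
    rw [mem_Ioc] at hk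
    have hk0 : (0 : ℝ) < k := by
      have : 0 < k := by omega
      exact_mod_cast this
    split_ifs with hkU
    · have h1 : ∑ k' ∈ Icc 1 k, ‖vii_W U N t k k'‖ ≤
          ∑ k' ∈ Icc 1 k, ((N : ℝ) / k) * mn ((N : ℝ) / k) (((k - k' : ℕ) : ℝ) * t) := by
        refine sum_le_sum fun k' hk' => ?_
        rw [mem_Icc] at hk'
        exact (vii_W_le U N t k k' (by omega) hk'.2).1
      have h2 : ∑ k' ∈ Icc 1 k, ((N : ℝ) / k) * mn ((N : ℝ) / k) (((k - k' : ℕ) : ℝ) * t) =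
          ∑ l ∈ range k, ((N : ℝ) / k) * mn ((N : ℝ) / k) ((l : ℝ) * t) := by
        refine Finset.sum_nbij' (fun k' => k - k') (fun l => k - l) ?_ ?_ ?_ ?_ ?_
        · intro k' hk'
          rw [mem_Icc] at hk'
          rw [mem_range]
          omega
        · intro l hl
          rw [mem_range] at hl
          rw [mem_Icc]
          omega
        · intro k' hk'
          rw [mem_Icc] at hk'
          show k - (k - k') = k'
          omega
        · intro l hl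
          rw [mem_range] at hl
          show k - (k - l) = l
          omega
        · intro k' _
          rfl
      have hAk : 1 ≤ (N : ℝ) / k := by
        rw [le_div_iff₀ hk0, one_mul]
        exact_mod_cast hk.2
      have h3 : ∑ l ∈ range k, mn ((N : ℝ) / k) ((l : ℝ) * t) ≤
          (N : ℝ) / k + C0 * (k / r + 1) * ((N : ℝ) / k + r * (1 + Real.log r)) := by
        have h4 : ∑ l ∈ range k, mn ((N : ℝ) / k) ((l : ℝ) * t) ≤
            mn ((N : ℝ) / k) (((0 : ℕ) : ℝ) * t) + ∑ l ∈ Icc 1 k, mn ((N : ℝ) / k) ((l : ℝ) * t) := by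
          have h5 : range k ⊆ insert 0 (Icc 1 k) := by
            intro l hl
            rw [mem_range] at hl
            rw [mem_insert, mem_Icc]
            omega
          refine (sum_le_sum_of_subset_of_nonneg h5 fun l _ _ =>
            vii_mn_nonneg (by linarith) _).trans (le_of_eq ?_)
          rw [sum_insert (by simp)]
        refine h4.trans (add_le_add ?_ (hva t c r hr hc ht k _ hAk))
        rw [Nat.cast_zero, zero_mul, vii_mn_zero]
      refine h1.trans ?_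
      rw [h2, ← mul_sum]
      have h6 : (0 : ℝ) ≤ (N : ℝ) / k := by positivity
      refine (mul_le_mul_of_nonneg_left h3 h6).trans ?_
      have h7 : ((N : ℝ) / k) * ((N : ℝ) / k + C0 * (k / r + 1) * ((N : ℝ) / k + r * (1 + Real.log r))) =
          (1 + C0) * (N : ℝ) ^ 2 * ((k : ℝ) ^ 2)⁻¹ +
            C0 * ((N : ℝ) ^ 2 / r + N * r * (1 + Real.log r)) * (1 / (k : ℝ))
          + C0 * N * (1 + Real.log r) := by
        field_simp
        ring
      rw [h7]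
      have h8 : 1 + Real.log r ≤ Lg := by linarith
      gcongr
    · have h1 : ∀ k' ∈ Icc 1 k, ‖vii_W U N t k k'‖ = 0 := by
        intro k' hk'
        rw [mem_Icc] at hk'
        rw [(vii_W_le U N t k k' (by omega) hk'.2).2 (by omega), norm_zero]
      rw [sum_congr rfl h1, sum_const_zero]
  -- sum over k
  have hsum : ∑ k ∈ Ioc U N, ∑ k' ∈ Icc 1 k, ‖vii_W U N t k k'‖ ≤
      (1 + 2 * C0) * Lg ^ 2 * ((N : ℝ) ^ 2 / U + (N : ℝ) ^ 2 / r + N * r) := by
    refine (sum_le_sum hk1).trans ?_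
    rw [← sum_filter, sum_add_distrib, sum_add_distrib, ← mul_sum, ← mul_sum, sum_const,
      nsmul_eq_mul]
    have hsub : (Ioc U N).filter (fun k => k * U ≤ N) ⊆ Ioc U N := filter_subset _ _
    have h1 : ∑ k ∈ (Ioc U N).filter (fun k => k * U ≤ N), ((k : ℝ) ^ 2)⁻¹ ≤ 1 / U := by
      refine (sum_le_sum_of_subset_of_nonneg hsub fun _ _ _ => by positivity).trans ?_
      rcases le_or_gt U N with h | h
      · refine (sum_Ioc_inv_sq_le_sub (by omega) h).trans ?_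
        rw [one_div]
        have : (0 : ℝ) ≤ ((N : ℝ))⁻¹ := by positivity
        linarith
      · rw [Finset.Ioc_eq_empty (by omega), sum_empty]
        positivity
    have h2 : ∑ k ∈ (Ioc U N).filter (fun k => k * U ≤ N), 1 / (k : ℝ) ≤ Lg := by
      refine (sum_le_sum_of_subset_of_nonneg (t := Icc 1 N) ?_ fun _ _ _ => by positivity).trans
        (vii_harm N)
      intro k hk
      rw [mem_filter, mem_Ioc] at hk
      rw [mem_Icc]
      omega
    have h3 : (((Ioc U N).filter (fun k => k * U ≤ N)).card : ℝ) ≤ N / U := by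
      have h4 : (Ioc U N).filter (fun k => k * U ≤ N) ⊆ Icc 1 (N / U) := by
        intro k hk
        rw [mem_filter, mem_Ioc] at hk
        rw [mem_Icc, Nat.le_div_iff_mul_le (by omega)]
        omega
      have h5 := card_le_card h4
      rw [Nat.card_Icc, Nat.add_sub_cancel] at h5
      have h6 : (((Ioc U N).filter (fun k => k * U ≤ N)).card : ℝ) ≤ ((N / U : ℕ) : ℝ) := by
        exact_mod_cast h5
      exact h6.trans Nat.cast_div_le
    have hLg2 : Lg ≤ Lg ^ 2 := by nlinarith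
    have hLg3 : 1 ≤ Lg ^ 2 := by nlinarith
    calc _ ≤ (1 + C0) * (N : ℝ) ^ 2 * (1 / U) + C0 * ((N : ℝ) ^ 2 / r + N * r * Lg) * Lg
          + (N / U) * (C0 * N * Lg) := by gcongr
      _ = (1 + C0) * ((N : ℝ) ^ 2 / U) * 1 + C0 * ((N : ℝ) ^ 2 / r) * Lg + C0 * (N * r) * Lg ^ 2
          + C0 * ((N : ℝ) ^ 2 / U) * Lg := by
          field_simp
          ring
      _ ≤ (1 + C0) * ((N : ℝ) ^ 2 / U) * Lg ^ 2 + C0 * ((N : ℝ) ^ 2 / r) * Lg ^ 2
          + C0 * (N * r) * Lg ^ 2 + C0 * ((N : ℝ) ^ 2 / U) * Lg ^ 2 := by gcongr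
      _ ≤ _ := by
          have p1 : 0 ≤ (N : ℝ) ^ 2 / U * Lg ^ 2 := by positivity
          have p2 : 0 ≤ (N : ℝ) ^ 2 / r * Lg ^ 2 := by positivity
          have p3 : 0 ≤ (N : ℝ) * r * Lg ^ 2 := by positivity
          nlinarith
  -- conclusion
  rw [hS]
  set X1 := (N : ℝ) / Real.sqrt r with hX1
  set X2 := (N : ℝ) / Real.sqrt U with hX2
  set X3 := Real.sqrt (N * r) with hX3
  have e1 : X1 ^ 2 = (N : ℝ) ^ 2 / r := by rw [hX1, div_pow, Real.sq_sqrt hr0.le]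
  have e2 : X2 ^ 2 = (N : ℝ) ^ 2 / U := by rw [hX2, div_pow, Real.sq_sqrt hU0.le]
  have e3 : X3 ^ 2 = (N : ℝ) * r := by rw [hX3, Real.sq_sqrt (by positivity)]
  have n1 : 0 ≤ X1 := by positivity
  have n2 : 0 ≤ X2 := by positivity
  have n3 : 0 ≤ X3 := by positivity
  have hfin : ‖∑ m ∈ Ioc U N, α m * T m‖ ^ 2 ≤
      (2 * (1 + 2 * C0) * A * B * (X1 + X2 + X3) * Lg ^ 3) ^ 2 := by
    have h1 : ∑ m ∈ Ioc U N, (m : ℝ) * ‖T m‖ ^ 2 ≤
        B ^ 2 * (2 * ((1 + 2 * C0) * Lg ^ 2 * (X2 ^ 2 + X1 ^ 2 + X3 ^ 2))) := by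
      rw [e1, e2, e3]
      refine hexp.trans (mul_le_mul_of_nonneg_left (hhalf.trans ?_) (by positivity))
      exact mul_le_mul_of_nonneg_left hsum (by norm_num)
    refine hCS.trans ((mul_le_mul_of_nonneg_left h1 (by positivity)).trans ?_)
    have h2 : X2 ^ 2 + X1 ^ 2 + X3 ^ 2 ≤ (X1 + X2 + X3) ^ 2 := by nlinarith [mul_nonneg n1 n2, mul_nonneg n1 n3, mul_nonneg n2 n3]
    have h3 : Lg ^ 3 ≤ Lg ^ 6 := pow_le_pow_right₀ hLg1 (by norm_num)
    have h4 : 2 * (1 + 2 * C0) ≤ (2 * (1 + 2 * C0)) ^ 2 := by nlinarith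
    calc A ^ 2 * Lg * (B ^ 2 * (2 * ((1 + 2 * C0) * Lg ^ 2 * (X2 ^ 2 + X1 ^ 2 + X3 ^ 2))))
        = (2 * (1 + 2 * C0)) * (A ^ 2 * B ^ 2) * (Lg ^ 3 * (X2 ^ 2 + X1 ^ 2 + X3 ^ 2)) := by ring
      _ ≤ (2 * (1 + 2 * C0)) ^ 2 * (A ^ 2 * B ^ 2) * (Lg ^ 6 * (X1 + X2 + X3) ^ 2) := by gcongr
      _ = _ := by ring
  have h5 := abs_le_of_sq_le_sq hfin (by positivity)
  rwa [abs_of_nonneg (norm_nonneg _)] at h5

alias vt2 := vt2_pr

end Pool.Agent.PV
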