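import Pool.Agent.Lib_helper92.PVF.Base
import Pool.Agent.Lib_helper92.PVF.VI
import Pool.Agent.Lib_helper92.PVF.VII

set_option autoImplicit false

namespace Pool.Agent.PV

open Finset Complex Pool.Agent.Var35 Pool.Agent.Var73
open scoped ArithmeticFunction ArithmeticFunction.Moebius ArithmeticFunction.zeta

/-- trivial bound -/
lemma vau_triv (N : ℕ) (M : ℕ) (hM : M ≤ N) (a : ℕ → ℝ) (ha : ∀ n, |a n| ≤ Λ n) (t : ℝ)
    (h0 : ∀ n, M < n → a n = 0) :
    ‖∑ n ∈ Icc 1 N, ((a n : ℝ) : ℂ) * e (n * t)‖ ≤ M * Real.log N := by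
  have h1 : ∑ n ∈ Icc 1 N, ((a n : ℝ) : ℂ) * e (n * t) = ∑ n ∈ Icc 1 M, ((a n : ℝ) : ℂ) * e (n * t) := by
    symm
    apply sum_subset
    · intro n hn
      rw [mem_Icc] at hn ⊢
      omega
    · intro n hn hn2
      rw [mem_Icc] at hn hn2
      rw [h0 n (by omega)]
      simp
  rw [h1]
  refine (norm_sum_le _ _).trans ?_
  have h2 : ∀ n ∈ Icc 1 M, ‖((a n : ℝ) : ℂ) * e (n * t)‖ ≤ Real.log N := by
    intro n hn
    rw [mem_Icc] at hn
    rw [norm_mul, norm_e, mul_one, Complex.norm_real, Real.norm_eq_abs]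
    refine (ha n).trans (ArithmeticFunction.vonMangoldt_le_log.trans ?_)
    exact Real.log_le_log (by exact_mod_cast hn.1) (by exact_mod_cast hn.2.trans hM)
  refine (sum_le_sum h2).trans (le_of_eq ?_)
  rw [sum_const, Nat.card_Icc, Nat.add_sub_cancel, nsmul_eq_mul]

/-- Vaughan's decomposition of the exponential sum -/
lemma vau_dec (U N : ℕ) (t : ℝ) : ∑ n ∈ Icc 1 N, ((Λ n : ℝ) : ℂ) * e (n * t)
    = ∑ n ∈ Icc 1 N, ((Ll U n : ℝ) : ℂ) * e (n * t)
      + ∑ m ∈ Icc 1 N, ∑ k ∈ Icc 1 (N / m), ((Ml U m : ℝ) : ℂ) * (Real.log k : ℂ) * e ((m * k : ℕ) * t)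
      - ∑ m ∈ Icc 1 N, ∑ k ∈ Icc 1 (N / m), (((Ml U * Ll U) m : ℝ) : ℂ) * e ((m * k : ℕ) * t)
      + ∑ m ∈ Icc 1 N, ∑ k ∈ Icc 1 (N / m),
        ((((μ : ArithmeticFunction ℝ) - Ml U) m : ℝ) : ℂ) *
          ((((Λ - Ll U) * (ζ : ArithmeticFunction ℝ)) k : ℝ) : ℂ) * e ((m * k : ℕ) * t) := by
  have h1 : ∑ n ∈ Icc 1 N, ((Λ n : ℝ) : ℂ) * e (n * t)
      = ∑ n ∈ Icc 1 N, ((Ll U n : ℝ) : ℂ) * e (n * t)
        + ∑ n ∈ Icc 1 N, (((Ml U * ArithmeticFunction.log) n : ℝ) : ℂ) * e (n * t)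
        - ∑ n ∈ Icc 1 N, ((((Ml U * Ll U) * (ζ : ArithmeticFunction ℝ)) n : ℝ) : ℂ) * e (n * t)
        + ∑ n ∈ Icc 1 N, (((((μ : ArithmeticFunction ℝ) - Ml U) *
          ((Λ - Ll U) * (ζ : ArithmeticFunction ℝ))) n : ℝ) : ℂ) * e (n * t) := by
    rw [← sum_add_distrib, ← sum_sub_distrib, ← sum_add_distrib]
    refine sum_congr rfl fun n _ => ?_
    have h2 := congrArg (fun F : ArithmeticFunction ℝ => F n) (vaughan U)
    have hsub : ∀ (F G : ArithmeticFunction ℝ) (n : ℕ), (F - G) n = F n - G n := fun _ _ _ => rfl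
    simp only [ArithmeticFunction.add_apply] at h2
    rw [hsub (Ll U + Ml U * ArithmeticFunction.log) (Ml U * Ll U * (ζ : ArithmeticFunction ℝ)),
      ArithmeticFunction.add_apply] at h2
    rw [h2]
    push_cast
    ring
  rw [h1, conv_sum _ _ (fun n : ℕ => e (n * t)), conv_sum _ _ (fun n : ℕ => e (n * t)),
    conv_sum _ _ (fun n : ℕ => e (n * t))]
  have h3 : ∑ m ∈ Icc 1 N, ∑ k ∈ Icc 1 (N / m),
        (((Ml U * Ll U) m : ℝ) : ℂ) * ((((ζ : ArithmeticFunction ℝ)) k : ℝ) : ℂ) *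
          e ((m * k : ℕ) * t)
      = ∑ m ∈ Icc 1 N, ∑ k ∈ Icc 1 (N / m),
        (((Ml U * Ll U) m : ℝ) : ℂ) * e ((m * k : ℕ) * t) := by
    refine sum_congr rfl fun m _ => sum_congr rfl fun k hk => ?_
    rw [mem_Icc] at hk
    have : ((ζ : ArithmeticFunction ℝ)) k = 1 := by
      rw [ArithmeticFunction.natCoe_apply, ArithmeticFunction.zeta_apply, if_neg (by omega)]
      simp
    rw [this, Complex.ofReal_one, mul_one]
  rw [h3]
  rfl

/-- restriction of a type I sum -/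
lemma vau_restrict (L N : ℕ) (hL : L ≤ N) (f : ℕ → ℂ) (hf : ∀ m, L < m → f m = 0) :
    ∑ m ∈ Icc 1 N, f m = ∑ m ∈ Icc 1 L, f m := by
  symm
  apply sum_subset
  · intro n hn
    rw [mem_Icc] at hn ⊢
    omega
  · intro n hn hn2
    rw [mem_Icc] at hn hn2
    exact hf n (by omega)

/-- VAU : Vaughan's estimate for the exponential sum over primes -/
theorem vau_pr : ∃ C : ℝ, 0 < C ∧ ∀ N : ℕ, 2 ≤ N → ∀ (t : ℝ) (c : ℤ) (r : ℕ), 1 ≤ r → IsCoprime c (r : ℤ) →
    |t - c / r| ≤ 1 / (r : ℝ) ^ 2 →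
    ‖∑ n ∈ Icc 1 N, ((Λ n : ℝ) : ℂ) * e (n * t)‖
      ≤ C * (N / Real.sqrt r + (N : ℝ) ^ (4 / 5 : ℝ) + Real.sqrt (N * r)) * (1 + Real.log N) ^ 6 := by
  obtain ⟨C1, hC1, hI⟩ := vt1
  obtain ⟨C2, hC2, hII⟩ := vt2
  refine ⟨1 + 6 * C1 + 2 * C2, by positivity, ?_⟩
  intro N hN t c r hr hc ht
  have hr0 : (0 : ℝ) < r := by exact_mod_cast hr
  have hr1 : (1 : ℝ) ≤ r := by exact_mod_cast hr
  have hN0 : (0 : ℝ) < N := by
    have : 0 < N := by omega
    exact_mod_cast this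
  have hN1 : (1 : ℝ) ≤ N := by
    have : 1 ≤ N := by omega
    exact_mod_cast this
  have hlr : 0 ≤ Real.log r := Real.log_nonneg hr1
  have hlN : 0 ≤ Real.log N := Real.log_nonneg hN1
  set Lg := 1 + Real.log N with hLg
  have hLg1 : 1 ≤ Lg := by linarith
  have hlNL : Real.log N ≤ Lg := by linarith
  set X1 := (N : ℝ) / Real.sqrt r with hX1
  set X2 := (N : ℝ) ^ (4 / 5 : ℝ) with hX2
  set X3 := Real.sqrt (N * r) with hX3
  have n1 : 0 ≤ X1 := by positivity
  have n2 : 0 ≤ X2 := by positivity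
  have n3 : 0 ≤ X3 := by positivity
  have hLg6 : Lg ≤ Lg ^ 6 := by
    calc Lg = Lg ^ 1 := (pow_one _).symm
      _ ≤ Lg ^ 6 := pow_le_pow_right₀ hLg1 (by norm_num)
  rcases lt_or_ge N r with hNr | hrN
  · -- trivial case
    have h1 := vau_triv N N le_rfl (fun n => Λ n)
      (fun n => by rw [abs_of_nonneg ArithmeticFunction.vonMangoldt_nonneg]) t
    have hNX : (N : ℝ) ≤ X3 := by
      rw [hX3]
      apply Real.le_sqrt_of_sq_le
      rw [sq]
      have : (N : ℝ) ≤ r := by exact_mod_cast hNr.le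
      exact mul_le_mul_of_nonneg_left this hN0.le
    have h2 : ‖∑ n ∈ Icc 1 N, ((Λ n : ℝ) : ℂ) * e (n * t)‖ ≤ N * Real.log N := by
      refine (norm_sum_le _ _).trans ?_
      have h3 : ∀ n ∈ Icc 1 N, ‖((Λ n : ℝ) : ℂ) * e (n * t)‖ ≤ Real.log N := by
        intro n hn
        rw [mem_Icc] at hn
        rw [norm_mul, norm_e, mul_one, Complex.norm_real,
          Real.norm_of_nonneg ArithmeticFunction.vonMangoldt_nonneg]
        refine ArithmeticFunction.vonMangoldt_le_log.trans ?_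
        exact Real.log_le_log (by exact_mod_cast hn.1) (by exact_mod_cast hn.2)
      refine (sum_le_sum h3).trans (le_of_eq ?_)
      rw [sum_const, Nat.card_Icc, Nat.add_sub_cancel, nsmul_eq_mul]
    refine h2.trans ?_
    calc (N : ℝ) * Real.log N ≤ X3 * Lg ^ 6 := mul_le_mul hNX (hlNL.trans hLg6) hlN n3
      _ ≤ (1 + 6 * C1 + 2 * C2) * (X1 + X2 + X3) * Lg ^ 6 := by
          refine mul_le_mul_of_nonneg_right ?_ (by positivity)
          have h4 : X3 ≤ X1 + X2 + X3 := by linarith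
          have h5 : (1 : ℝ) ≤ 1 + 6 * C1 + 2 * C2 := by linarith
          calc X3 = 1 * X3 := (one_mul _).symm
            _ ≤ _ := mul_le_mul h5 h4 n3 (by linarith)
  · -- main case
    have hrN' : (r : ℝ) ≤ N := by exact_mod_cast hrN
    have hlrN : Real.log r ≤ Real.log N := Real.log_le_log hr0 hrN'
    set Y := (N : ℝ) ^ (2 / 5 : ℝ) with hY
    have hY1 : 1 ≤ Y := Real.one_le_rpow hN1 (by norm_num)
    have hYY : Y * Y = X2 := by
      rw [hY, hX2, ← Real.rpow_add hN0]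
      norm_num
    set U := ⌊Y⌋₊ with hU
    have hU1 : 1 ≤ U := Nat.le_floor (by exact_mod_cast hY1)
    have hUY : (U : ℝ) ≤ Y := Nat.floor_le (by linarith)
    have hU0 : (0 : ℝ) < U := by exact_mod_cast hU1
    have hYU : Y ≤ 2 * U := by
      have h1 : Y < U + 1 := Nat.lt_floor_add_one Y
      have h2 : (1 : ℝ) ≤ U := by exact_mod_cast hU1
      linarith
    have hX2N : X2 ≤ N := by
      calc X2 ≤ (N : ℝ) ^ (1 : ℝ) := Real.rpow_le_rpow_of_exponent_le hN1 (by norm_num)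
        _ = N := Real.rpow_one _
    have hYX2 : Y ≤ X2 := by nlinarith
    have hUU : ((U * U : ℕ) : ℝ) ≤ X2 := by
      push_cast
      rw [← hYY]
      exact mul_le_mul hUY hUY hU0.le (by linarith)
    have hUUN : U * U ≤ N := by
      have : ((U * U : ℕ) : ℝ) ≤ N := hUU.trans hX2N
      exact_mod_cast this
    have hUN : U ≤ N := by nlinarith
    have hUX2 : (U : ℝ) ≤ X2 := hUY.trans hYX2
    -- N / sqrt U
    have hsU : (N : ℝ) / Real.sqrt U ≤ 2 * X2 := by
      have hsU0 : 0 < Real.sqrt U := Real.sqrt_pos.2 hU0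
      rw [div_le_iff₀ hsU0]
      have h1 : (N : ℝ) ≤ X2 * Real.sqrt Y := by
        rw [hX2, hY, Real.sqrt_eq_rpow, ← Real.rpow_mul hN0.le, ← Real.rpow_add hN0]
        norm_num
      have h2 : Real.sqrt Y ≤ 2 * Real.sqrt U := by
        have h3 : Real.sqrt Y ≤ Real.sqrt (2 * U) := Real.sqrt_le_sqrt hYU
        have h4 : Real.sqrt (2 * U) ≤ 2 * Real.sqrt U := by
          rw [Real.sqrt_mul (by norm_num)]
          refine mul_le_mul_of_nonneg_right ?_ hsU0.le
          rw [Real.sqrt_le_left (by norm_num)]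
          norm_num
        exact h3.trans h4
      calc (N : ℝ) ≤ X2 * Real.sqrt Y := h1
        _ ≤ X2 * (2 * Real.sqrt U) := mul_le_mul_of_nonneg_left h2 n2
        _ = 2 * X2 * Real.sqrt U := by ring
    have hNr1 : (N : ℝ) / r ≤ X1 := by
      rw [hX1]
      apply div_le_div_of_nonneg_left hN0.le (Real.sqrt_pos.2 hr0)
      rw [Real.sqrt_le_left hr0.le]
      nlinarith
    have hrX3 : (r : ℝ) ≤ X3 := by
      rw [hX3]
      apply Real.le_sqrt_of_sq_le
      rw [sq]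
      exact mul_le_mul_of_nonneg_right hrN' hr0.le
    have hlog2 : 1 + Real.log N + Real.log r ≤ 2 * Lg := by linarith
    have hlog0 : 0 ≤ 1 + Real.log N + Real.log r := by linarith
    set XX := X1 + X2 + X3 with hXX
    have hXX0 : 0 ≤ XX := by positivity
    have hX2XX : X2 ≤ XX := by linarith
    -- S0
    have hS0 : ‖∑ n ∈ Icc 1 N, ((Ll U n : ℝ) : ℂ) * e (n * t)‖ ≤ XX * Lg ^ 6 := by
      have h1 := vau_triv N U hUN (fun n => Ll U n) (fun n => by
        show |Ll U n| ≤ Λ n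
        rw [Ll_apply]
        split_ifs
        · rw [abs_of_nonneg ArithmeticFunction.vonMangoldt_nonneg]
        · rw [abs_zero]
          exact ArithmeticFunction.vonMangoldt_nonneg) t (fun n hn => by
        show Ll U n = 0
        rw [Ll_apply, if_neg (by omega)])
      refine h1.trans ?_
      exact mul_le_mul (hUX2.trans hX2XX) (hlNL.trans hLg6) hlN hXX0
    -- S1
    have hS1 : ‖∑ m ∈ Icc 1 N, ∑ k ∈ Icc 1 (N / m), ((Ml U m : ℝ) : ℂ) * (Real.log k : ℂ) *
        e ((m * k : ℕ) * t)‖ ≤ C1 * XX * (4 * Lg ^ 6) := by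
      rw [vau_restrict U N hUN _ (fun m hm => sum_eq_zero fun k _ => by
        rw [Ml_apply, if_neg (by omega)]
        simp)]
      have h1 := (hI t c r hr hc ht U N hU1 hUN (fun m => ((Ml U m : ℝ) : ℂ)) 1 zero_le_one
        (fun m _ => by
          rw [Complex.norm_real, Real.norm_eq_abs]
          exact abs_Ml_le U m)).2
      refine h1.trans ?_
      have h2 : (N : ℝ) / r + U + r ≤ XX := by linarith
      have h3 : (1 + Real.log N + Real.log r) ^ 2 ≤ 4 * Lg ^ 6 := by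
        have h4 := pow_le_pow_left₀ hlog0 hlog2 2
        have h5 : Lg ^ 2 ≤ Lg ^ 6 := pow_le_pow_right₀ hLg1 (by norm_num)
        calc _ ≤ (2 * Lg) ^ 2 := h4
          _ = 4 * Lg ^ 2 := by ring
          _ ≤ _ := by linarith
      rw [mul_one]
      gcongr
    -- S2
    have hS2 : ‖∑ m ∈ Icc 1 N, ∑ k ∈ Icc 1 (N / m), (((Ml U * Ll U) m : ℝ) : ℂ) *
        e ((m * k : ℕ) * t)‖ ≤ C1 * XX * (2 * Lg ^ 6) := by
      rw [vau_restrict (U * U) N hUUN _ (fun m hm => sum_eq_zero fun k _ => by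
        rw [lam_zero U m hm]
        simp)]
      have h1 := (hI t c r hr hc ht (U * U) N (Nat.mul_pos hU1 hU1) hUUN
        (fun m => (((Ml U * Ll U) m : ℝ) : ℂ)) (Real.log N) hlN
        (fun m hm => by
          rw [mem_Icc] at hm
          rw [Complex.norm_real, Real.norm_eq_abs]
          refine (lam_le U m).trans ?_
          exact Real.log_le_log (by exact_mod_cast hm.1) (by exact_mod_cast hm.2.trans hUUN))).1
      refine h1.trans ?_
      have h2 : (N : ℝ) / r + ((U * U : ℕ) : ℝ) + r ≤ XX := by linarith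
      have h5 : Lg ^ 2 ≤ Lg ^ 6 := pow_le_pow_right₀ hLg1 (by norm_num)
      calc C1 * Real.log N * ((N : ℝ) / r + ((U * U : ℕ) : ℝ) + r) * (1 + Real.log N + Real.log r)
          ≤ C1 * Lg * XX * (2 * Lg) := by gcongr
        _ = C1 * XX * (2 * Lg ^ 2) := by ring
        _ ≤ _ := by gcongr
    -- S3
    have hS3 : ‖∑ m ∈ Icc 1 N, ∑ k ∈ Icc 1 (N / m),
        ((((μ : ArithmeticFunction ℝ) - Ml U) m : ℝ) : ℂ) *
          ((((Λ - Ll U) * (ζ : ArithmeticFunction ℝ)) k : ℝ) : ℂ) * e ((m * k : ℕ) * t)‖ ≤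
        C2 * (2 * XX) * Lg ^ 6 := by
      have h1 := hII t c r hr hc ht U N hU1 (by omega) hrN
        (fun m => ((((μ : ArithmeticFunction ℝ) - Ml U) m : ℝ) : ℂ))
        (fun k => ((((Λ - Ll U) * (ζ : ArithmeticFunction ℝ)) k : ℝ) : ℂ)) 1 (Real.log N)
        zero_le_one hlN
        (fun m _ => by
          rw [Complex.norm_real, Real.norm_eq_abs]
          exact abs_mu_sub_Ml_le U m)
        (fun k hk => by
          rw [mem_Icc] at hk
          rw [Complex.norm_real, Real.norm_eq_abs]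
          refine (beta_le U k).trans ?_
          exact Real.log_le_log (by exact_mod_cast hk.1) (by exact_mod_cast hk.2))
        (fun m hm => by
          show ((((μ : ArithmeticFunction ℝ) - Ml U) m : ℝ) : ℂ) = 0
          rw [mu_sub_Ml_zero U m hm, Complex.ofReal_zero])
        (fun k hk => by
          show ((((Λ - Ll U) * (ζ : ArithmeticFunction ℝ)) k : ℝ) : ℂ) = 0
          rw [beta_zero U k hk, Complex.ofReal_zero])
      refine h1.trans ?_
      have h2 : X1 + (N : ℝ) / Real.sqrt U + X3 ≤ 2 * XX := by linarith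
      have h5 : Lg ^ 4 ≤ Lg ^ 6 := pow_le_pow_right₀ hLg1 (by norm_num)
      have h6 : 0 ≤ X1 + (N : ℝ) / Real.sqrt U + X3 := by positivity
      calc C2 * 1 * Real.log N * (X1 + (N : ℝ) / Real.sqrt U + X3) * Lg ^ 3
          ≤ C2 * 1 * Lg * (2 * XX) * Lg ^ 3 := by gcongr
        _ = C2 * (2 * XX) * Lg ^ 4 := by ring
        _ ≤ _ := by gcongr
    rw [vau_dec U N t]
    refine (norm_add_le _ _).trans ?_
    refine (add_le_add ((norm_sub_le _ _).trans (add_le_add ((norm_add_le _ _).trans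
      (add_le_add hS0 hS1)) hS2)) hS3).trans (le_of_eq ?_)
    ring

alias vau := vau_pr

end Pool.Agent.PV
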