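import Pool.Agent.Lib_helper92.PVF.Base
import Pool.Agent.Lib_helper92.PVF.VAU
import Pool.Agent.Lib_helper92.PVF.REM

set_option autoImplicit false

namespace Pool.Agent.PV

open Finset Complex Pool.Agent.Var35 Pool.Agent.Var73
open scoped ArithmeticFunction ArithmeticFunction.Moebius

/-- Dirichlet approximation on the minor arcs -/
theorem sup_dir (N M r0 j : ℕ) (h0 : 1 ≤ r0) (h1 : r0 ≤ N) (hj : j ∈ range M \ MJ N M r0) :
    ∃ (c : ℤ) (r : ℕ), 1 ≤ r ∧ IsCoprime c (r : ℤ) ∧ |(j : ℝ) / M - c / r| ≤ 1 / (r : ℝ) ^ 2 ∧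
      r0 < r ∧ (r : ℝ) * r0 ≤ N := by
  have hn : 0 < N / r0 := Nat.div_pos h1 h0
  obtain ⟨q, hq1, hq2⟩ := Real.exists_rat_abs_sub_le_and_den_le ((j : ℝ) / M) hn
  have hr0 : (0 : ℝ) < r0 := by exact_mod_cast h0
  have hN0 : (0 : ℝ) < N := by exact_mod_cast (h0.trans h1)
  have hd : (0 : ℝ) < q.den := by exact_mod_cast q.pos
  have hqc : (q : ℝ) = (q.num : ℝ) / (q.den : ℝ) := by
    exact_mod_cast (Rat.num_div_den q).symm
  rw [hqc] at hq1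
  have hn1 : (N : ℝ) / r0 ≤ ((N / r0 : ℕ) : ℝ) + 1 := (Nat.lt_floor_add_one _ |>.le).trans_eq (by
    rw [Nat.floor_div_eq_div])
  have hcop : IsCoprime q.num (q.den : ℤ) := Int.isCoprime_iff_gcd_eq_one.2 (by
    have := q.reduced
    simpa [Int.gcd, Nat.Coprime] using this)
  have hmj : |(j : ℝ) / M - q.num / q.den| ≤ r0 / (q.den * N) := by
    refine hq1.trans ?_
    rw [div_le_div_iff₀ (by positivity) (by positivity)]
    have h2 : (N : ℝ) ≤ (((N / r0 : ℕ) : ℝ) + 1) * r0 := by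
      rwa [div_le_iff₀ hr0] at hn1
    nlinarith
  refine ⟨q.num, q.den, q.pos, hcop, ?_, ?_, ?_⟩
  · refine hq1.trans ?_
    rw [div_le_div_iff₀ (by positivity) (by positivity)]
    have h3 : (q.den : ℝ) ≤ ((N / r0 : ℕ) : ℝ) := by exact_mod_cast hq2
    nlinarith
  · by_contra hcon
    push Not at hcon
    have hjr := (mem_sdiff.1 hj).1
    apply (mem_sdiff.1 hj).2
    unfold MJ
    exact (@mem_filter _ _ (_) _ _).2 ⟨hjr, q.den, mem_Icc.2 ⟨q.pos, hcon⟩, q.num, hcop, hmj⟩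
  · have h3 : (q.den : ℝ) ≤ ((N / r0 : ℕ) : ℝ) := by exact_mod_cast hq2
    have h4 : ((N / r0 : ℕ) : ℝ) * r0 ≤ N := by
      exact_mod_cast Nat.div_mul_le_self N r0
    nlinarith

/-- SUP -/
theorem sup_minor_pr : ∃ C : ℝ, 0 < C ∧ ∀ N : ℕ, 2 ≤ N → ∀ M r0 : ℕ, 4 * N < M → 1 ≤ r0 → r0 ≤ N →
    ∀ j ∈ range M \ MJ N M r0,
    ‖Ps N (j / M)‖ ≤ C * (N / Real.sqrt r0 + (N : ℝ) ^ (4 / 5 : ℝ)) * (1 + Real.log N) ^ 6 := by
  obtain ⟨C1, hC1, hv⟩ := vau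
  obtain ⟨C2, hC2, hrem⟩ := rem_sum
  refine ⟨2 * C1 + C2, by positivity, fun N hN M r0 _ h0 h1 j hj => ?_⟩
  obtain ⟨c, r, hr, hcop, happ, hrr, hrN⟩ := sup_dir N M r0 j h0 h1 hj
  have hv1 := hv N hN _ c r hr hcop happ
  obtain ⟨hr1, hr2⟩ := hrem N hN
  have hN1 : (1 : ℝ) ≤ N := by exact_mod_cast (by omega : 1 ≤ N)
  have hr0 : (0 : ℝ) < r0 := by exact_mod_cast h0
  have hrpos : (0 : ℝ) < r := by exact_mod_cast hr
  have hlog : 0 ≤ Real.log N := Real.log_nonneg hN1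
  have hL : (1 : ℝ) ≤ 1 + Real.log N := by linarith
  -- the two comparisons
  have e1 : (N : ℝ) / Real.sqrt r ≤ N / Real.sqrt r0 := by
    apply div_le_div_of_nonneg_left (by positivity) (Real.sqrt_pos.2 hr0)
    exact Real.sqrt_le_sqrt (by exact_mod_cast hrr.le)
  have e2 : Real.sqrt (N * r) ≤ N / Real.sqrt r0 := by
    rw [le_div_iff₀ (Real.sqrt_pos.2 hr0), ← Real.sqrt_mul (by positivity)]
    rw [Real.sqrt_le_left (by positivity)]
    nlinarith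
  have e3 : Real.sqrt N ≤ (N : ℝ) ^ (4 / 5 : ℝ) := by
    rw [Real.sqrt_eq_rpow]
    exact Real.rpow_le_rpow_of_exponent_le hN1 (by norm_num)
  have e4 : (1 + Real.log N) ^ 2 ≤ (1 + Real.log N) ^ 6 := pow_le_pow_right₀ hL (by norm_num)
  have hdiff : ‖Ps N (j / M) - ∑ n ∈ Icc 1 N, ((Λ n : ℝ) : ℂ) * e (n * ((j : ℝ) / M))‖
      ≤ C2 * Real.sqrt N * (1 + Real.log N) ^ 2 := by
    unfold Ps Bs
    rw [← Finset.sum_sub_distrib]
    refine (norm_sum_le _ _).trans ?_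
    refine le_trans (Finset.sum_le_sum fun n _ => ?_) hr2
    rw [← sub_mul, norm_mul, norm_e, mul_one, ← ofReal_sub, norm_real, Real.norm_eq_abs,
      abs_sub_comm, abs_of_nonneg (sub_nonneg.2 (hr1 n))]
  have hX : 0 ≤ (N : ℝ) / Real.sqrt r0 := by positivity
  have hZ : 0 ≤ (N : ℝ) ^ (4 / 5 : ℝ) := by positivity
  have hL6 : 0 ≤ (1 + Real.log N) ^ 6 := by positivity
  have h5 : ‖Ps N (j / M)‖ ≤ C2 * Real.sqrt N * (1 + Real.log N) ^ 2 +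
      C1 * (N / Real.sqrt r + (N : ℝ) ^ (4 / 5 : ℝ) + Real.sqrt (N * r)) * (1 + Real.log N) ^ 6 := by
    have := norm_sub_norm_le (Ps N (j / M)) (∑ n ∈ Icc 1 N, ((Λ n : ℝ) : ℂ) * e (n * ((j : ℝ) / M)))
    linarith
  have h6 : C2 * Real.sqrt N * (1 + Real.log N) ^ 2 ≤
      C2 * (N : ℝ) ^ (4 / 5 : ℝ) * (1 + Real.log N) ^ 6 := by
    apply mul_le_mul (mul_le_mul_of_nonneg_left e3 hC2.le) e4 (by positivity) (by positivity)
  have h7 : C1 * (N / Real.sqrt r + (N : ℝ) ^ (4 / 5 : ℝ) + Real.sqrt (N * r)) *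
      (1 + Real.log N) ^ 6 ≤ C1 * (2 * (N / Real.sqrt r0) + (N : ℝ) ^ (4 / 5 : ℝ)) *
      (1 + Real.log N) ^ 6 := by
    apply mul_le_mul_of_nonneg_right _ hL6
    apply mul_le_mul_of_nonneg_left _ hC1.le
    linarith
  refine h5.trans ((add_le_add h6 h7).trans ?_)
  rw [← add_mul]
  apply mul_le_mul_of_nonneg_right _ hL6
  have h8 : 0 ≤ C2 * (N / Real.sqrt r0) := by positivity
  have h9 : 0 ≤ C1 * (N : ℝ) ^ (4 / 5 : ℝ) := by positivity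
  nlinarith

alias sup_minor := sup_minor_pr

end Pool.Agent.PV
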