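import Pool.Agent.Lib_helper92.PVF.Base
import Pool.Agent.Lib_helper73.Var.Pnt
import Pool.Agent.Lib_helper92.PVF.MNR
import Pool.Agent.Lib_helper92.PVF.SUP
import Pool.Agent.Lib_helper92.PVF.MAJ
import Pool.Agent.Lib_helper92.PVF.QCA
import Pool.Agent.Lib_helper92.PVF.ASY
import Pool.Agent.Lib_helper92.PVF.CSA1

/-! PV, block CSA: the two-sided estimate near `N` -/

set_option autoImplicit false

namespace Pool.Agent.PV

open Finset Complex Pool.Agent.Var35 Pool.Agent.Var73 Filter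
open scoped ArithmeticFunction ArithmeticFunction.Moebius

theorem CSA_sup (N M : ℕ) (hM : 4 * N < M) (J : Finset ℕ) (S : ℝ) (hS : 0 ≤ S)
    (hJ : J ⊆ range M) (h : ∀ j ∈ J, ‖Ps N (j / M)‖ ≤ S) :
    mean M J (fun t => Fp N t ^ 2) ≤ S ^ 2 * A2 N := by
  rw [← CSA_pars N M hM]
  refine le_trans ?_ (mul_le_mul_of_nonneg_left (CSA_mean_mono M J (range M) hJ _ (CSA_Fp_nonneg N)) (sq_nonneg S))
  unfold mean
  rw [← mul_assoc, mul_comm (S ^ 2) (1 / (M : ℝ)), mul_assoc]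
  refine mul_le_mul_of_nonneg_left ?_ (by positivity)
  rw [mul_sum]
  refine sum_le_sum fun j hj => ?_
  have h1 : Fp N (j / M) ≤ S ^ 2 := by
    unfold Fp
    exact pow_le_pow_left₀ (norm_nonneg _) (h j hj) 2
  have h0 := CSA_Fp_nonneg N (j / M)
  calc Fp N (j / M) ^ 2 = Fp N (j / M) * Fp N (j / M) := by ring
    _ ≤ S ^ 2 * Fp N (j / M) := mul_le_mul_of_nonneg_right h1 h0

theorem CSA_QQ_card (Y : ℕ) : ((QQ Y).card : ℝ) ≤ 3 * Y := by
  have h : (QQ Y).card ≤ (Ioc Y (4 * Y)).card := card_le_card (filter_subset _ _)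
  rw [Nat.card_Ioc] at h
  have h2 : (QQ Y).card ≤ 3 * Y := by omega
  exact_mod_cast h2

/-- the purely numerical part -/
theorem CSA_num (L K r0 NN : ℝ) (hL : 1 ≤ L) (hK : 1 ≤ K) (hr1 : K ^ 2 * L ^ 16 ≤ r0)
    (hr2 : r0 ≤ K ^ 2 * L ^ 16 + 1) (hNN : 0 < NN) :
    NN / Real.sqrt r0 ≤ NN / K / L ^ 8 ∧ K * L ^ 2 ≤ r0 ^ 2 ∧ 1 + Real.log r0 ≤ 2 + 2 * Real.log K + 16 * Real.log L := by
  have hK0 : 0 < K := by linarith
  have hL0 : 0 < L := by linarith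
  have hp : 1 ≤ K ^ 2 * L ^ 16 := by
    have h1 : 1 ≤ K ^ 2 := one_le_pow₀ hK
    have h2 : 1 ≤ L ^ 16 := one_le_pow₀ hL
    nlinarith
  have hr0 : 1 ≤ r0 := le_trans hp hr1
  refine ⟨?_, ?_, ?_⟩
  · have h1 : K * L ^ 8 ≤ Real.sqrt r0 := by
      apply Real.le_sqrt_of_sq_le
      calc (K * L ^ 8) ^ 2 = K ^ 2 * L ^ 16 := by ring
        _ ≤ r0 := hr1
    rw [div_div]
    exact div_le_div_of_nonneg_left hNN.le (by positivity) h1
  · have h1 : K * L ^ 2 ≤ K ^ 2 * L ^ 16 := by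
      have h2 : K ≤ K ^ 2 := by nlinarith
      have h3 : L ^ 2 ≤ L ^ 16 := pow_le_pow_right₀ hL (by norm_num)
      exact mul_le_mul h2 h3 (by positivity) (by positivity)
    have h4 : r0 ≤ r0 ^ 2 := by nlinarith
    linarith
  · have h1 : r0 ≤ 2 * (K ^ 2 * L ^ 16) := by linarith
    have h2 : Real.log r0 ≤ Real.log (2 * (K ^ 2 * L ^ 16)) := Real.log_le_log (by linarith) h1
    rw [Real.log_mul (by norm_num) (by positivity), Real.log_mul (by positivity) (by positivity), Real.log_pow, Real.log_pow] at h2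
    have h3 : Real.log 2 ≤ 1 := by
      have := Real.log_two_lt_d9
      linarith
    push_cast at h2
    linarith

theorem case_a_pr : ∃ C : ℝ, 0 < C ∧ ∀ η : ℝ, 0 < η → ∃ N0 : ℕ, ∀ N ≥ N0, ∀ Y : ℕ,
    (N : ℝ) ^ (19 / 20 : ℝ) ≤ Y → Y ≤ N →
    ∑ Q ∈ QQ Y, |SQ N Q - A2 N| ≤ (C * Real.log (N / Y) + η * Real.log N) * N * (Y / Real.log N) := by
  obtain ⟨C1, hC1, h1⟩ := qq_card
  obtain ⟨C2, hC2, h2⟩ := sup_minor
  obtain ⟨C3, hC3, N3, h3⟩ := mass_major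
  obtain ⟨C4, hC4, h4⟩ := CSA_major
  refine ⟨8 * C1 * C3 + 4 * C3 * C4, by positivity, fun η hη => ?_⟩
  obtain ⟨N4, h4'⟩ := h4 (η / (4 * C4)) (by positivity)
  obtain ⟨N5, h5⟩ := a2_asym 1 one_pos
  set B0 : ℝ := 512 * C2 + 6 + (4 * C1 * C3 + 2 * C3 * C4) * 2 with hB0
  set B1 : ℝ := (4 * C1 * C3 + 2 * C3 * C4) * 16 with hB1
  have hB0p : 0 < B0 := by positivity
  have hB1p : 0 < B1 := by positivity
  have e1 := ev_log_ge (4 * B0 / η)
  have e2 := ev_loglog B1 (η / 4) (by positivity) hB1p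
  have e3 := ev_log_ge 1
  have e4 := ev_nat 8 (3 / 20) 1 (by norm_num) one_pos
  have e5 := ev_nat 144 (1 / 10) 512 (by norm_num) (by norm_num)
  have e6 := eventually_ge_atTop (max (max N3 N4) (max N5 16))
  obtain ⟨N0, hN0⟩ := eventually_atTop.mp ((((((e1.and e2).and e3).and e4).and e5).and e6))
  refine ⟨N0, fun N hN Y hY1 hY2 => ?_⟩
  obtain ⟨⟨⟨⟨⟨f1, f2⟩, f3⟩, f4⟩, f5⟩, f6⟩ := hN0 N hN
  have hN3 : N3 ≤ N := le_trans (le_trans (le_max_left _ _) (le_max_left _ _)) f6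
  have hN4 : N4 ≤ N := le_trans (le_trans (le_max_right _ _) (le_max_left _ _)) f6
  have hN5 : N5 ≤ N := le_trans (le_trans (le_max_left _ _) (le_max_right _ _)) f6
  have hN16 : 16 ≤ N := le_trans (le_trans (le_max_right _ _) (le_max_right _ _)) f6
  have hNr : (16:ℝ) ≤ N := by exact_mod_cast hN16
  have hNpos : (0:ℝ) < N := by linarith
  set L := Real.log N with hLdef
  have hL0 : 0 < L := by linarith
  have hYpos : (0:ℝ) < Y := lt_of_lt_of_le (by positivity) hY1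
  have hY2r : (Y:ℝ) ≤ N := by exact_mod_cast hY2
  set K : ℝ := N / Y with hKdef
  have hK : 1 ≤ K := by rw [hKdef, le_div_iff₀ hYpos]; linarith
  have hKpos : 0 < K := by linarith
  have hKN : K ≤ (N:ℝ) ^ (1 / 20 : ℝ) := by
    rw [hKdef, div_le_iff₀ hYpos]
    calc (N:ℝ) = (N:ℝ) ^ (1 / 20 + 19 / 20 : ℝ) := by norm_num
      _ = (N:ℝ) ^ (1 / 20 : ℝ) * (N:ℝ) ^ (19 / 20 : ℝ) := by rw [Real.rpow_add hNpos]
      _ ≤ (N:ℝ) ^ (1 / 20 : ℝ) * Y := mul_le_mul_of_nonneg_left hY1 (by positivity)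
  set r0 : ℕ := ⌈K ^ 2 * L ^ 16⌉₊ with hr0def
  have hr1 : K ^ 2 * L ^ 16 ≤ r0 := Nat.le_ceil _
  have hr2 : (r0:ℝ) ≤ K ^ 2 * L ^ 16 + 1 := (Nat.ceil_lt_add_one (by positivity)).le
  have hp : 1 ≤ K ^ 2 * L ^ 16 := by
    have h1 : 1 ≤ K ^ 2 := one_le_pow₀ hK
    have h2 : 1 ≤ L ^ 16 := one_le_pow₀ f3
    nlinarith
  have hr0r : (1:ℝ) ≤ r0 := le_trans hp hr1
  have hr0 : 1 ≤ r0 := by exact_mod_cast hr0r
  obtain ⟨n1, n2, n3⟩ := CSA_num L K r0 N f3 hK hr1 hr2 hNpos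
  -- r0 ^ 9 <= N
  have hr9 : (r0:ℝ) ^ 9 ≤ N := by
    have g1 : (r0:ℝ) ≤ 2 * ((N:ℝ) ^ (1 / 10 : ℝ) * L ^ 16) := by
      have : K ^ 2 ≤ (N:ℝ) ^ (1 / 10 : ℝ) := by
        calc K ^ 2 ≤ ((N:ℝ) ^ (1 / 20 : ℝ)) ^ 2 := pow_le_pow_left₀ hKpos.le hKN 2
          _ = (N:ℝ) ^ (1 / 10 : ℝ) := by
            rw [← Real.rpow_natCast, ← Real.rpow_mul hNpos.le]; norm_num
      have g2 : K ^ 2 * L ^ 16 ≤ (N:ℝ) ^ (1 / 10 : ℝ) * L ^ 16 := mul_le_mul_of_nonneg_right this (by positivity)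
      linarith
    calc (r0:ℝ) ^ 9 ≤ (2 * ((N:ℝ) ^ (1 / 10 : ℝ) * L ^ 16)) ^ 9 := pow_le_pow_left₀ (by linarith) g1 9
      _ = ((N:ℝ) ^ (1 / 10 : ℝ)) ^ 9 * (512 * L ^ 144) := by ring
      _ ≤ ((N:ℝ) ^ (1 / 10 : ℝ)) ^ 9 * (N:ℝ) ^ (1 / 10 : ℝ) := mul_le_mul_of_nonneg_left f5 (by positivity)
      _ = (N:ℝ) := by
        rw [← Real.rpow_natCast, ← Real.rpow_mul hNpos.le, ← Real.rpow_add hNpos]
        norm_num
  have hr9n : r0 ^ 9 ≤ N := by exact_mod_cast hr9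
  have hr0N : r0 ≤ N := le_trans (Nat.le_self_pow (by norm_num) r0) hr9n
  obtain ⟨M, hM⟩ := CSA_good N
  have hM4 := hM.1
  have hA2 : A2 N ≤ 2 * (N * L) := by
    have := abs_le.mp (h5 N hN5)
    linarith [this.2]
  have hA2nn := CSA_A2_nonneg N
  -- log Y >= L / 2
  have hlogY : L / 2 ≤ Real.log Y := by
    have : Real.log ((N:ℝ) ^ (19 / 20 : ℝ)) ≤ Real.log Y := Real.log_le_log (by positivity) hY1
    rw [Real.log_rpow hNpos] at this
    linarith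
  have hY16 : 2 ≤ Y := by
    have g1 : (16:ℝ) ^ (19 / 20 : ℝ) ≤ Y := le_trans (Real.rpow_le_rpow (by norm_num) hNr (by norm_num)) hY1
    have g2 : (16:ℝ) ^ (1 / 4 : ℝ) ≤ (16:ℝ) ^ (19 / 20 : ℝ) := Real.rpow_le_rpow_of_exponent_le (by norm_num) (by norm_num)
    have g3 : (16:ℝ) ^ (1 / 4 : ℝ) = 2 := by
      rw [show (16:ℝ) = 2 ^ (4:ℝ) by norm_num, ← Real.rpow_mul (by norm_num)]; norm_num
    have g4 : (2:ℝ) ≤ Y := by rw [g3] at g2; linarith
    exact_mod_cast g4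
  have hcard : ((QQ Y).card : ℝ) ≤ 2 * C1 * (Y / L) := by
    refine le_trans (h1 Y hY16) ?_
    have : (Y:ℝ) / Real.log Y ≤ Y / (L / 2) := div_le_div_of_nonneg_left hYpos.le (by positivity) hlogY
    calc C1 * (Y / Real.log Y) ≤ C1 * (Y / (L / 2)) := mul_le_mul_of_nonneg_left this hC1.le
      _ = 2 * C1 * (Y / L) := by field_simp
  -- 2 N < Y ^ 2
  have hYsq : 2 * N < Y ^ 2 := by
    have g1 : ((N:ℝ) ^ (19 / 20 : ℝ)) ^ 2 ≤ (Y:ℝ) ^ 2 := pow_le_pow_left₀ (by positivity) hY1 2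
    have g2 : ((N:ℝ) ^ (19 / 20 : ℝ)) ^ 2 = N * (N:ℝ) ^ (9 / 10 : ℝ) := by
      rw [← Real.rpow_natCast, ← Real.rpow_mul hNpos.le]
      nth_rewrite 2 [← Real.rpow_one (N:ℝ)]
      rw [← Real.rpow_add hNpos]; norm_num
    have g3 : (2:ℝ) < (N:ℝ) ^ (9 / 10 : ℝ) := by
      calc (2:ℝ) = (16:ℝ) ^ (1 / 4 : ℝ) := by
            rw [show (16:ℝ) = 2 ^ (4:ℝ) by norm_num, ← Real.rpow_mul (by norm_num)]; norm_num
        _ < (16:ℝ) ^ (9 / 10 : ℝ) := Real.rpow_lt_rpow_of_exponent_lt (by norm_num) (by norm_num)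
        _ ≤ (N:ℝ) ^ (9 / 10 : ℝ) := Real.rpow_le_rpow (by norm_num) hNr (by norm_num)
    have g4 : (2:ℝ) * N < (Y:ℝ) ^ 2 := by
      rw [g2] at g1
      nlinarith
    exact_mod_cast g4
  set J := MJ N M r0 with hJdef
  have hJsub : J ⊆ range M := CSA_MJ_sub N M r0
  -- the supremum on the minor arcs
  set S : ℝ := 128 * C2 * Y / L ^ 2 with hSdef
  have hSnn : 0 ≤ S := by positivity
  have hsup : ∀ j ∈ range M \ J, ‖Ps N (j / M)‖ ≤ S := by
    intro j hj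
    refine le_trans (h2 N (by omega) M r0 hM4 hr0 hr0N j hj) ?_
    have g1 : (N:ℝ) / Real.sqrt r0 ≤ Y / L ^ 8 := by
      refine le_trans n1 (le_of_eq ?_)
      rw [hKdef]; field_simp
    have g2 : (N:ℝ) ^ (4 / 5 : ℝ) ≤ Y / L ^ 8 := by
      rw [le_div_iff₀ (by positivity)]
      calc (N:ℝ) ^ (4 / 5 : ℝ) * L ^ 8 ≤ (N:ℝ) ^ (4 / 5 : ℝ) * (N:ℝ) ^ (3 / 20 : ℝ) := by
            refine mul_le_mul_of_nonneg_left ?_ (by positivity)
            linarith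
        _ = (N:ℝ) ^ (19 / 20 : ℝ) := by rw [← Real.rpow_add hNpos]; norm_num
        _ ≤ Y := hY1
    have g3 : (1 + Real.log N) ^ 6 ≤ 64 * L ^ 6 := by
      calc (1 + Real.log N) ^ 6 ≤ (2 * L) ^ 6 := pow_le_pow_left₀ (by linarith) (by linarith) 6
        _ = 64 * L ^ 6 := by ring
    calc C2 * (N / Real.sqrt r0 + (N : ℝ) ^ (4 / 5 : ℝ)) * (1 + Real.log N) ^ 6
        ≤ C2 * (Y / L ^ 8 + Y / L ^ 8) * (64 * L ^ 6) := by
          refine mul_le_mul (mul_le_mul_of_nonneg_left (add_le_add g1 g2) hC2.le) g3 (by positivity) (by positivity)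
      _ = S := by rw [hSdef]; field_simp; ring
  -- term 1
  have t1 : ∑ Q ∈ QQ Y, |mean M (range M \ J) (fun t => Fp N t * (EQ N Q t - 1))| ≤ 512 * C2 * (N * Y / L) := by
    refine le_trans (mnr N M Y (by omega) hM4 hYsq _ sdiff_subset) ?_
    have g1 := CSA_sup N M hM4 (range M \ J) S hSnn sdiff_subset hsup
    have g2 : Real.sqrt (mean M (range M \ J) (fun t => Fp N t ^ 2)) ≤ S * Real.sqrt (2 * (N * L)) := by
      calc Real.sqrt (mean M (range M \ J) (fun t => Fp N t ^ 2)) ≤ Real.sqrt (S ^ 2 * (2 * (N * L))) :=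
            Real.sqrt_le_sqrt (le_trans g1 (mul_le_mul_of_nonneg_left hA2 (sq_nonneg _)))
        _ = S * Real.sqrt (2 * (N * L)) := by
            rw [Real.sqrt_mul (sq_nonneg _), Real.sqrt_sq hSnn]
    have g3 : Real.sqrt (2 * N) * Real.sqrt (2 * (N * L)) = 2 * N * Real.sqrt L := by
      rw [← Real.sqrt_mul (by positivity)]
      have : 2 * (N:ℝ) * (2 * (N * L)) = (2 * N) ^ 2 * L := by ring
      rw [this, Real.sqrt_mul (sq_nonneg _), Real.sqrt_sq (by positivity)]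
    have g4 : Real.sqrt L ≤ L := by
      rw [Real.sqrt_le_left (by linarith)]
      nlinarith
    calc 2 * Real.sqrt (2 * N) * Real.sqrt (mean M (range M \ J) (fun t => Fp N t ^ 2))
        ≤ 2 * Real.sqrt (2 * N) * (S * Real.sqrt (2 * (N * L))) := mul_le_mul_of_nonneg_left g2 (by positivity)
      _ = 2 * S * (Real.sqrt (2 * N) * Real.sqrt (2 * (N * L))) := by ring
      _ = 2 * S * (2 * N * Real.sqrt L) := by rw [g3]
      _ ≤ 2 * S * (2 * N * L) := mul_le_mul_of_nonneg_left (mul_le_mul_of_nonneg_left g4 (by positivity)) (by positivity)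
      _ = 512 * C2 * (N * Y / L) := by rw [hSdef]; field_simp; ring
  -- term 2
  have t2 : ∑ Q ∈ QQ Y, (1 / (Q : ℝ)) * (N / (r0 : ℝ) ^ 2) * A2 N ≤ 6 * (N * Y / L) := by
    have g1 : ∀ Q ∈ QQ Y, (1 / (Q : ℝ)) * (N / (r0 : ℝ) ^ 2) * A2 N ≤ (1 / (Y:ℝ)) * (N / (K * L ^ 2)) * (2 * (N * L)) := by
      intro Q hQ
      have hQY : Y < Q := (mem_Ioc.mp (mem_filter.mp hQ).1).1
      have hQY' : (Y:ℝ) ≤ Q := by exact_mod_cast hQY.le
      have g2 : (1:ℝ) / Q ≤ 1 / Y := one_div_le_one_div_of_le hYpos hQY'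
      have g3 : (N:ℝ) / (r0:ℝ) ^ 2 ≤ N / (K * L ^ 2) := div_le_div_of_nonneg_left hNpos.le (by positivity) n2
      exact mul_le_mul (mul_le_mul g2 g3 (by positivity) (by positivity)) hA2 hA2nn (by positivity)
    calc ∑ Q ∈ QQ Y, (1 / (Q : ℝ)) * (N / (r0 : ℝ) ^ 2) * A2 N
        ≤ ∑ Q ∈ QQ Y, (1 / (Y:ℝ)) * (N / (K * L ^ 2)) * (2 * (N * L)) := sum_le_sum g1
      _ = (QQ Y).card * ((1 / (Y:ℝ)) * (N / (K * L ^ 2)) * (2 * (N * L))) := by rw [sum_const, nsmul_eq_mul]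
      _ ≤ (3 * Y) * ((1 / (Y:ℝ)) * (N / (K * L ^ 2)) * (2 * (N * L))) :=
          mul_le_mul_of_nonneg_right (CSA_QQ_card Y) (by positivity)
      _ = 6 * (N * Y / L) := by rw [hKdef]; field_simp; ring
  -- mass
  have hmass : mean M J (Fp N) ≤ 2 * C3 * (1 + Real.log r0) * N := by
    have hlog0 : 0 ≤ Real.log r0 := Real.log_nonneg hr0r
    calc mean M J (Fp N) ≤ C3 * ((1 + Real.log r0) / Real.log N) * A2 N := h3 N hN3 M hM r0 hr0 hr9n
      _ ≤ C3 * ((1 + Real.log r0) / Real.log N) * (2 * (N * L)) := mul_le_mul_of_nonneg_left hA2 (by positivity)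
      _ = 2 * C3 * (1 + Real.log r0) * N := by rw [← hLdef]; field_simp
  have hmass0 : 0 ≤ mean M J (Fp N) := by
    unfold mean
    exact mul_nonneg (by positivity) (sum_nonneg fun _ _ => CSA_Fp_nonneg N _)
  have hlogr0 : 0 ≤ 1 + Real.log r0 := by
    have := Real.log_nonneg hr0r
    linarith
  -- term 3
  have t3 : ∑ Q ∈ QQ Y, mean M J (Fp N) ≤ 4 * C1 * C3 * (1 + Real.log r0) * (N * Y / L) := by
    rw [sum_const, nsmul_eq_mul]
    calc ((QQ Y).card : ℝ) * mean M J (Fp N) ≤ (2 * C1 * (Y / L)) * (2 * C3 * (1 + Real.log r0) * N) :=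
          mul_le_mul hcard hmass hmass0 (by positivity)
      _ = 4 * C1 * C3 * (1 + Real.log r0) * (N * Y / L) := by ring
  -- term 4
  have t4 : ∑ Q ∈ QQ Y, mean M J (fun t => Fp N t * Ea N Q t)
      ≤ 2 * C3 * C4 * (1 + Real.log r0) * (N * Y / L) + (η / 2) * (N * Y) := by
    calc ∑ Q ∈ QQ Y, mean M J (fun t => Fp N t * Ea N Q t)
        ≤ C4 * (Y / Real.log N) * (mean M J (Fp N) + (η / (4 * C4)) * A2 N) :=
          h4' N hN4 M hM Y hY1 hY2 r0 hr0 hr9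
      _ ≤ C4 * (Y / L) * (2 * C3 * (1 + Real.log r0) * N + (η / (4 * C4)) * (2 * (N * L))) := by
          rw [← hLdef]
          refine mul_le_mul_of_nonneg_left (add_le_add hmass (mul_le_mul_of_nonneg_left hA2 (by positivity))) (by positivity)
      _ = 2 * C3 * C4 * (1 + Real.log r0) * (N * Y / L) + (η / 2) * (N * Y) := by
          field_simp; ring
  have hsum : ∑ Q ∈ QQ Y, |SQ N Q - A2 N| ≤ 512 * C2 * (N * Y / L) + 6 * (N * Y / L)
      + 4 * C1 * C3 * (1 + Real.log r0) * (N * Y / L)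
      + (2 * C3 * C4 * (1 + Real.log r0) * (N * Y / L) + (η / 2) * (N * Y)) := by
    calc ∑ Q ∈ QQ Y, |SQ N Q - A2 N|
        ≤ ∑ Q ∈ QQ Y, (|mean M (range M \ J) (fun t => Fp N t * (EQ N Q t - 1))|
          + (1 / (Q : ℝ)) * (N / (r0 : ℝ) ^ 2) * A2 N + mean M J (Fp N)
          + mean M J (fun t => Fp N t * Ea N Q t)) := by
          refine sum_le_sum fun Q hQ => ?_
          have hQY : Y < Q := (mem_Ioc.mp (mem_filter.mp hQ).1).1
          exact CSA_point N M Q r0 (by omega) hM4 (by omega) hr0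
      _ ≤ _ := by
          rw [sum_add_distrib, sum_add_distrib, sum_add_distrib]
          linarith
  refine le_trans hsum ?_
  have hW : 0 < (N:ℝ) * Y / L := by positivity
  have hlogK : 0 ≤ Real.log K := Real.log_nonneg hK
  have hBL : B0 + B1 * Real.log L ≤ (η / 2) * L := by
    have g1 : B0 ≤ (η / 4) * L := by
      rw [div_le_iff₀ hη] at f1
      linarith
    have g2 : Real.log L ≤ Real.log (L + 1) := Real.log_le_log hL0 (by linarith)
    have g3 : B1 * Real.log L ≤ B1 * Real.log (L + 1) := mul_le_mul_of_nonneg_left g2 hB1p.le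
    have f2' : B1 * Real.log (L + 1) ≤ η / 4 * L := f2
    linarith
  have hNY : (N:ℝ) * Y = L * (N * Y / L) := by field_simp
  calc 512 * C2 * (N * Y / L) + 6 * (N * Y / L)
      + 4 * C1 * C3 * (1 + Real.log r0) * (N * Y / L)
      + (2 * C3 * C4 * (1 + Real.log r0) * (N * Y / L) + (η / 2) * (N * Y))
      = (512 * C2 + 6 + (4 * C1 * C3 + 2 * C3 * C4) * (1 + Real.log r0) + (η / 2) * L) * (N * Y / L) := by
        rw [hNY]; ring_nf; field_simp; ring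
    _ ≤ (512 * C2 + 6 + (4 * C1 * C3 + 2 * C3 * C4) * (2 + 2 * Real.log K + 16 * Real.log L) + (η / 2) * L) * (N * Y / L) := by
        refine mul_le_mul_of_nonneg_right ?_ hW.le
        have : (4 * C1 * C3 + 2 * C3 * C4) * (1 + Real.log r0) ≤ (4 * C1 * C3 + 2 * C3 * C4) * (2 + 2 * Real.log K + 16 * Real.log L) :=
          mul_le_mul_of_nonneg_left n3 (by positivity)
        linarith
    _ = ((8 * C1 * C3 + 4 * C3 * C4) * Real.log K + (B0 + B1 * Real.log L) + (η / 2) * L) * (N * Y / L) := by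
        rw [hB0, hB1]; ring
    _ ≤ ((8 * C1 * C3 + 4 * C3 * C4) * Real.log K + η * L) * (N * Y / L) := by
        refine mul_le_mul_of_nonneg_right ?_ hW.le
        linarith
    _ = ((8 * C1 * C3 + 4 * C3 * C4) * Real.log K + η * L) * N * (Y / L) := by ring

alias case_a := case_a_pr

end Pool.Agent.PV
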