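import Pool.Agent.Lib_helper92.PVF.Base
import Pool.Agent.Lib_helper92.PVF.PAR
import Pool.Agent.Lib_helper92.PVF.IDN
import Pool.Agent.Lib_helper92.PVF.THA
import Pool.Agent.Lib_helper92.PVF.THG
import Pool.Agent.Lib_helper92.PVF.TRF
import Pool.Agent.Lib_helper92.PVF.DMA
import Pool.Agent.Lib_helper92.PVF.ASY

/-! PV block CSB : the case of small `Y` (upper bound of the right order). -/

set_option autoImplicit false

namespace Pool.Agent.PV

open Finset Complex Pool.Agent.Var35 Pool.Agent.Var73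
open scoped ArithmeticFunction ArithmeticFunction.Moebius

theorem CSB_good (N : ℕ) : Good N ((4 * N + 1) * (Nat.sqrt N).factorial) := by
  constructor
  · have h := Nat.factorial_pos (Nat.sqrt N)
    calc 4 * N < (4 * N + 1) * 1 := by omega
      _ ≤ (4 * N + 1) * (Nat.sqrt N).factorial := Nat.mul_le_mul_left _ h
  · intro r h1 h2
    exact Dvd.dvd.mul_left (Nat.dvd_factorial (by omega) h2) _

theorem CSB_dir (N M : ℕ) (hN : 1 ≤ N) (j : ℕ) : ∃ (r : ℕ) (c : ℤ), 1 ≤ r ∧ r ≤ Nat.sqrt N ∧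
    IsCoprime c (r : ℤ) ∧ |(j : ℝ) / M - c / r| ≤ 1 / ((Nat.sqrt N + 1 : ℝ) * r) := by
  have hn : 0 < Nat.sqrt N := Nat.sqrt_pos.mpr (by omega)
  obtain ⟨q, hq1, hq2⟩ := Real.exists_rat_abs_sub_le_and_den_le ((j : ℝ) / M) hn
  refine ⟨q.den, q.num, q.den_pos, hq2, ?_, ?_⟩
  · rw [Int.isCoprime_iff_gcd_eq_one]
    have := q.reduced
    rwa [Nat.Coprime] at this
  · have hcast : (q : ℝ) = (q.num : ℝ) / (q.den : ℝ) := by
      exact Rat.cast_def q
    rw [hcast] at hq1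
    exact hq1

theorem CSB_al_nonneg (N Y r : ℕ) (β : ℝ) : 0 ≤ al N Y r β := by
  unfold al
  split_ifs
  · apply mul_nonneg (by positivity)
    exact le_min zero_le_one (by positivity)
  · exact le_rfl

theorem CSB_ga_nonneg (N Y r : ℕ) (β : ℝ) : 0 ≤ ga N Y r β := by
  unfold ga
  split_ifs
  · positivity
  · exact le_rfl

theorem CSB_Fp_nonneg (N : ℕ) (t : ℝ) : 0 ≤ Fp N t := by unfold Fp; positivity

theorem CSB_meanFp (N M : ℕ) (hM : 4 * N < M) :
    (1 / (M : ℝ)) * ∑ j ∈ range M, Fp N (j / M) = A2 N := by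
  have h := pars N M hM (fun n => (aS N n : ℂ))
  unfold Fp Ps A2
  rw [h]
  apply Finset.sum_congr rfl
  intro n _
  rw [Complex.norm_real, Real.norm_eq_abs, sq_abs]

theorem CSB_Eo_le (N Q : ℕ) (t : ℝ) : Eo N Q t ≤ Ea N Q t := by
  unfold Eo Ea
  apply mul_le_mul_of_nonneg_left _ (by positivity)
  exact Finset.sum_le_sum (fun b _ => le_abs_self _)

/-- CSB -/
theorem case_b_pr (ε : ℝ) (hε : 0 < ε) : ∃ C : ℝ, 0 < C ∧ ∃ N0 : ℕ, ∀ N ≥ N0, ∀ Y : ℕ,
    (N : ℝ) ^ (1 / 2 + ε) ≤ Y → Y ≤ N →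
    ∑ Q ∈ QQ Y, SQ N Q ≤ C * (Y / Real.log N) * (N * Real.log N) := by
  classical
  obtain ⟨C1, hC1, N1, hmain⟩ := d_main ε hε
  obtain ⟨N2, hthA⟩ := thin_a ε 1 hε one_pos
  obtain ⟨N3, hthG⟩ := thin_g ε 1 hε one_pos
  obtain ⟨N4, hasym⟩ := a2_asym 1 one_pos
  refine ⟨6 * C1, by positivity, max (max N1 N2) (max (max N3 N4) 2), ?_⟩
  intro N hN Y hY1 hY2
  have hN1 : N1 ≤ N := le_trans (le_trans (le_max_left _ _) (le_max_left _ _)) hN
  have hN2 : N2 ≤ N := le_trans (le_trans (le_max_right _ _) (le_max_left _ _)) hN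
  have hN3 : N3 ≤ N :=
    le_trans (le_trans (le_trans (le_max_left _ _) (le_max_left _ _)) (le_max_right _ _)) hN
  have hN4 : N4 ≤ N :=
    le_trans (le_trans (le_trans (le_max_right _ _) (le_max_left _ _)) (le_max_right _ _)) hN
  have hN5 : 2 ≤ N := le_trans (le_trans (le_max_right _ _) (le_max_right _ _)) hN
  set M := (4 * N + 1) * (Nat.sqrt N).factorial with hMdef
  have hgood : Good N M := CSB_good N
  have hM4 : 4 * N < M := hgood.1
  have hNr : (2 : ℝ) ≤ N := by exact_mod_cast hN5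
  have hlogN : 0 < Real.log N := Real.log_pos (by linarith)
  -- choice of rational approximations
  choose rr cc h1 h2 h3 h4 using fun j => CSB_dir N M (by omega) j
  -- bound of the kernel at the points
  have hsq : Real.sqrt N < (Nat.sqrt N : ℝ) + 1 := by
    have : N < (Nat.sqrt N + 1) * (Nat.sqrt N + 1) := Nat.lt_succ_sqrt N
    have h : (N : ℝ) < ((Nat.sqrt N : ℝ) + 1) ^ 2 := by
      have : ((N : ℕ) : ℝ) < (((Nat.sqrt N + 1) * (Nat.sqrt N + 1) : ℕ) : ℝ) := by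
        exact_mod_cast this
      push_cast at this
      nlinarith
    rw [← Real.sqrt_sq (show (0 : ℝ) ≤ (Nat.sqrt N : ℝ) + 1 by positivity)]
    exact Real.sqrt_lt_sqrt (by positivity) h
  have hsq0 : 0 < Real.sqrt N := Real.sqrt_pos.mpr (by linarith)
  have hsqle : (Nat.sqrt N : ℝ) ≤ Real.sqrt N := Real.nat_sqrt_le_real_sqrt
  have hpow1 : (N : ℝ) ^ (1 / 2 + ε / 2) ≤ Y := by
    refine le_trans (Real.rpow_le_rpow_of_exponent_le (by linarith) (by linarith)) hY1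
  have hsqrtpow : Real.sqrt N * (N : ℝ) ^ (ε / 2) = (N : ℝ) ^ (1 / 2 + ε / 2) := by
    rw [Real.sqrt_eq_rpow, ← Real.rpow_add (by linarith)]
  have hker : ∀ j : ℕ, ∑ Q ∈ QQ Y, Ea N Q ((j : ℝ) / M) ≤ C1 * (Y / Real.log N) *
      (1 + al N Y (rr j) ((j : ℝ) / M - cc j / rr j) + ga N Y (rr j) ((j : ℝ) / M - cc j / rr j)) := by
    intro j
    have hr1 : (1 : ℝ) ≤ rr j := by exact_mod_cast h1 j
    apply hmain N hN1 Y hY1 hY2 _ _ _ (h1 j) (h3 j)
    · calc (rr j : ℝ) * (N : ℝ) ^ (ε / 2) ≤ Real.sqrt N * (N : ℝ) ^ (ε / 2) := by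
            apply mul_le_mul_of_nonneg_right _ (by positivity)
            have : (rr j : ℝ) ≤ Nat.sqrt N := by exact_mod_cast h2 j
            linarith
        _ = (N : ℝ) ^ (1 / 2 + ε / 2) := hsqrtpow
        _ ≤ Y := hpow1
    · have hx : (N : ℝ) ^ (1 + ε / 2) = Real.sqrt N * (N : ℝ) ^ (1 / 2 + ε / 2) := by
        rw [Real.sqrt_eq_rpow, ← Real.rpow_add (by linarith)]
        congr 1; ring
      calc |(j : ℝ) / M - cc j / rr j| * (rr j * (N : ℝ) ^ (1 + ε / 2))
          ≤ (1 / ((Nat.sqrt N + 1 : ℝ) * rr j)) * (rr j * (N : ℝ) ^ (1 + ε / 2)) :=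
            mul_le_mul_of_nonneg_right (h4 j) (by positivity)
        _ = (Real.sqrt N / (Nat.sqrt N + 1 : ℝ)) * (N : ℝ) ^ (1 / 2 + ε / 2) := by
            rw [hx]; field_simp
        _ ≤ 1 * (N : ℝ) ^ (1 / 2 + ε / 2) := by
            apply mul_le_mul_of_nonneg_right _ (by positivity)
            rw [div_le_one (by positivity)]
            exact hsq.le
        _ ≤ Y := by rw [one_mul]; exact hpow1
  -- transfer
  have hle1 : ∀ j ∈ range M, 1 ≤ rr j ∧ rr j ≤ Nat.sqrt N ∧ IsCoprime (cc j) (rr j : ℤ) ∧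
      |(j : ℝ) / M - cc j / rr j| ≤ 1 := by
    intro j _
    refine ⟨h1 j, h2 j, h3 j, (h4 j).trans ?_⟩
    have hr1 : (1 : ℝ) ≤ rr j := by exact_mod_cast h1 j
    rw [div_le_one (by positivity)]
    have : (1 : ℝ) ≤ Nat.sqrt N + 1 := by
      have : (0 : ℝ) ≤ Nat.sqrt N := by positivity
      linarith
    nlinarith
  have htA := (transfer N M hgood (al N Y) (CSB_al_nonneg N Y) (range M) (Finset.Subset.refl _)
    rr cc hle1).trans (hthA N hN2 M hgood Y hY1 hY2)
  have htG := (transfer N M hgood (ga N Y) (CSB_ga_nonneg N Y) (range M) (Finset.Subset.refl _)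
    rr cc hle1).trans (hthG N hN3 M hgood Y hY1 hY2)
  have hmean := CSB_meanFp N M hM4
  -- A2 bound
  have hA2 : A2 N ≤ 2 * (N * Real.log N) := by
    have := (abs_le.mp (hasym N hN4)).2
    linarith
  have hstep : ∑ Q ∈ QQ Y, SQ N Q ≤ (1 / (M : ℝ)) * ∑ j ∈ range M,
      Fp N (j / M) * ∑ Q ∈ QQ Y, Ea N Q ((j : ℝ) / M) := by
    have e1 : ∑ Q ∈ QQ Y, SQ N Q = (1 / (M : ℝ)) * ∑ j ∈ range M,
        ∑ Q ∈ QQ Y, Fp N (j / M) * Eo N Q ((j : ℝ) / M) := by
      rw [Finset.sum_comm, Finset.mul_sum]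
      apply Finset.sum_congr rfl
      intro Q hQ
      have hQp : Q.Prime := (mem_filter.mp hQ).2
      rw [idn N M Q (by omega) hM4 hQp.one_lt.le]
      rfl
    rw [e1]
    apply mul_le_mul_of_nonneg_left _ (by positivity)
    apply Finset.sum_le_sum
    intro j _
    rw [Finset.mul_sum]
    apply Finset.sum_le_sum
    intro Q _
    exact mul_le_mul_of_nonneg_left (CSB_Eo_le _ _ _) (CSB_Fp_nonneg _ _)
  have hYl : 0 ≤ (Y : ℝ) / Real.log N := by positivity
  have hstep2 : (1 / (M : ℝ)) * ∑ j ∈ range M,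
      Fp N (j / M) * ∑ Q ∈ QQ Y, Ea N Q ((j : ℝ) / M) ≤ C1 * (Y / Real.log N) * (3 * A2 N) := by
    calc (1 / (M : ℝ)) * ∑ j ∈ range M, Fp N (j / M) * ∑ Q ∈ QQ Y, Ea N Q ((j : ℝ) / M)
        ≤ (1 / (M : ℝ)) * ∑ j ∈ range M, Fp N (j / M) * (C1 * (Y / Real.log N) *
      (1 + al N Y (rr j) ((j : ℝ) / M - cc j / rr j)
        + ga N Y (rr j) ((j : ℝ) / M - cc j / rr j))) := by
          apply mul_le_mul_of_nonneg_left _ (by positivity)
          apply Finset.sum_le_sum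
          intro j _
          exact mul_le_mul_of_nonneg_left (hker j) (CSB_Fp_nonneg _ _)
      _ = C1 * (Y / Real.log N) * ((1 / (M : ℝ)) * ∑ j ∈ range M, Fp N (j / M)
          + (1 / (M : ℝ)) * ∑ j ∈ range M,
              al N Y (rr j) ((j : ℝ) / M - cc j / rr j) * Fp N (j / M)
          + (1 / (M : ℝ)) * ∑ j ∈ range M,
              ga N Y (rr j) ((j : ℝ) / M - cc j / rr j) * Fp N (j / M)) := by
          rw [← mul_add, ← mul_add, ← Finset.sum_add_distrib, ← Finset.sum_add_distrib,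
            Finset.mul_sum, Finset.mul_sum, Finset.mul_sum]
          apply Finset.sum_congr rfl
          intro j _
          ring
      _ ≤ C1 * (Y / Real.log N) * (A2 N + 1 * A2 N + 1 * A2 N) := by
          apply mul_le_mul_of_nonneg_left _ (by positivity)
          rw [hmean]
          linarith
      _ = C1 * (Y / Real.log N) * (3 * A2 N) := by ring
  calc ∑ Q ∈ QQ Y, SQ N Q ≤ C1 * (Y / Real.log N) * (3 * A2 N) := hstep.trans hstep2
    _ ≤ C1 * (Y / Real.log N) * (3 * (2 * (N * Real.log N))) := by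
        apply mul_le_mul_of_nonneg_left _ (by positivity)
        linarith
    _ = 6 * C1 * (Y / Real.log N) * (N * Real.log N) := by ring

alias case_b := case_b_pr

end Pool.Agent.PV
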