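import Pool.Agent.Lib_helper92.PVF.Base
import Pool.Agent.Lib_helper73.Var.Pnt
import Pool.Agent.Lib_helper92.PVF.QCA
import Pool.Agent.Lib_helper92.PVF.ASY
import Pool.Agent.Lib_helper92.PVF.CMP
import Pool.Agent.Lib_helper92.PVF.CSB
import Pool.Agent.Lib_helper92.PVF.CSA0
import Pool.Agent.Lib_helper92.PVF.CSA

/-! PV, block MAI: the main theorem for natural numbers -/

set_option autoImplicit false

namespace Pool.Agent.PV

open Finset Complex Pool.Agent.Var35 Pool.Agent.Var73 Filter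
open scoped ArithmeticFunction ArithmeticFunction.Moebius

theorem MAI_SQ_nonneg (N Q : ℕ) (hQ : 1 ≤ Q) : 0 ≤ SQ N Q := by
  unfold SQ
  have h1 : ∑ n ∈ Icc 1 N, aS N n = ∑ a ∈ range Q, ∑ n ∈ (Icc 1 N).filter (fun n => n % Q = a), aS N n := by
    rw [sum_fiberwise_of_maps_to]
    intro n _
    exact mem_range.mpr (Nat.mod_lt _ hQ)
  rw [h1]
  have h2 := sq_sum_le_card_mul_sum_sq (s := range Q)
    (f := fun a => ∑ n ∈ (Icc 1 N).filter (fun n => n % Q = a), aS N n)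
  rw [card_range] at h2
  have hQ0 : (0:ℝ) < Q := by exact_mod_cast hQ
  rw [sub_nonneg, div_le_iff₀ hQ0]
  linarith

theorem MAI_small (ε : ℝ) (hε : 0 < ε) (c : ℝ) (hc : 0 < c) : ∀ᶠ N : ℕ in atTop,
    (N : ℝ) ^ (1 - ε) ≤ c * N := by
  have h := ev_nat 0 ε (1 / c) hε (by positivity)
  filter_upwards [h, eventually_ge_atTop 1] with N h1 h2
  have hN : (0:ℝ) < N := by exact_mod_cast h2
  rw [pow_zero, mul_one] at h1
  rw [Real.rpow_sub hN, Real.rpow_one, div_le_iff₀ (by positivity)]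
  have : 1 ≤ c * (N:ℝ) ^ ε := by
    rw [div_le_iff₀ hc] at h1
    linarith
  nlinarith

theorem main_nat_pr (ε : ℝ) (hε : 0 < ε) : ∃ C : ℝ, 0 < C ∧ ∀ η : ℝ, 0 < η → ∃ N0 : ℕ, ∀ N ≥ N0, ∀ Y : ℕ,
    (N : ℝ) ^ (1 / 2 + ε) ≤ Y → Y ≤ N →
    ∑ Q ∈ QQ Y, |VV N Q - N * Real.log N| ≤ (C * Real.log (N / Y) + η * Real.log N) * N * (Y / Real.log N) := by
  obtain ⟨C1, hC1, h1⟩ := qq_card
  obtain ⟨Ca, hCa, ha⟩ := case_a
  obtain ⟨Cb, hCb, Nb, hb⟩ := case_b ε hε
  refine ⟨Ca + 20 * (Cb + 4 * C1), by positivity, fun η hη => ?_⟩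
  obtain ⟨Na, ha'⟩ := ha (η / 3) (by positivity)
  obtain ⟨N1, h1'⟩ := a2_asym (min 1 (η / (6 * C1))) (by positivity)
  obtain ⟨Nc, hc⟩ := cmp ε hε
  have e1 := MAI_small (ε / 8) (by positivity) (η / 3) (by positivity)
  have e2 := ev_log_ge 1
  have e3 := eventually_ge_atTop (max (max Na Nb) (max N1 (max Nc 16)))
  obtain ⟨N0, hN0⟩ := eventually_atTop.mp ((e1.and e2).and e3)
  refine ⟨N0, fun N hN Y hY1 hY2 => ?_⟩
  obtain ⟨⟨f1, f2⟩, f3⟩ := hN0 N hN
  simp only [max_le_iff] at f3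
  obtain ⟨⟨g1, g2⟩, g3, g4, g5⟩ := f3
  have hNr : (16:ℝ) ≤ N := by exact_mod_cast g5
  have hNpos : (0:ℝ) < N := by linarith
  set L := Real.log N with hLdef
  have hL0 : 0 < L := by linarith
  have hYpos : (0:ℝ) < Y := lt_of_lt_of_le (by positivity) hY1
  have hY2r : (Y:ℝ) ≤ N := by exact_mod_cast hY2
  have hK : 1 ≤ (N:ℝ) / Y := by rw [le_div_iff₀ hYpos]; linarith
  have hlogK : 0 ≤ Real.log ((N:ℝ) / Y) := Real.log_nonneg hK
  have hYhalf : (N:ℝ) ^ (1 / 2 : ℝ) ≤ Y := le_trans (Real.rpow_le_rpow_of_exponent_le (by linarith) (by linarith)) hY1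
  have hlogY : L / 2 ≤ Real.log Y := by
    have : Real.log ((N:ℝ) ^ (1 / 2 : ℝ)) ≤ Real.log Y := Real.log_le_log (by positivity) hYhalf
    rw [Real.log_rpow hNpos] at this
    linarith
  have hY16 : 2 ≤ Y := by
    have k1 : (16:ℝ) ^ (1 / 2 : ℝ) ≤ Y := le_trans (Real.rpow_le_rpow (by norm_num) hNr (by norm_num)) hYhalf
    have k3 : (16:ℝ) ^ (1 / 2 : ℝ) = 4 := by
      rw [show (16:ℝ) = 4 ^ (2:ℝ) by norm_num, ← Real.rpow_mul (by norm_num)]; norm_num
    have k4 : (2:ℝ) ≤ Y := by rw [k3] at k1; linarith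
    exact_mod_cast k4
  have hcard : ((QQ Y).card : ℝ) ≤ 2 * C1 * (Y / L) := by
    refine le_trans (h1 Y hY16) ?_
    have : (Y:ℝ) / Real.log Y ≤ Y / (L / 2) := div_le_div_of_nonneg_left hYpos.le (by positivity) hlogY
    calc C1 * (Y / Real.log Y) ≤ C1 * (Y / (L / 2)) := mul_le_mul_of_nonneg_left this hC1.le
      _ = 2 * C1 * (Y / L) := by field_simp
  have hA := h1' N g3
  have hA1 : |A2 N - N * L| ≤ 1 * (N * L) := le_trans hA (mul_le_mul_of_nonneg_right (min_le_left _ _) (by positivity))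
  have hA2 : |A2 N - N * L| ≤ η / (6 * C1) * (N * L) := le_trans hA (mul_le_mul_of_nonneg_right (min_le_right _ _) (by positivity))
  have hA3 : A2 N ≤ 2 * (N * L) := by
    have := (abs_le.mp hA1).2
    linarith
  -- the three pieces
  have hsplit : ∑ Q ∈ QQ Y, |VV N Q - N * L| ≤ ∑ Q ∈ QQ Y, |VV N Q - SQ N Q| + ∑ Q ∈ QQ Y, |SQ N Q - A2 N|
      + (QQ Y).card * |A2 N - N * L| := by
    have hcs : ((QQ Y).card : ℝ) * |A2 N - N * L| = ∑ Q ∈ QQ Y, |A2 N - N * L| := by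
      rw [sum_const, nsmul_eq_mul]
    rw [hcs, ← sum_add_distrib, ← sum_add_distrib]
    refine sum_le_sum fun Q _ => ?_
    have := abs_add_three (VV N Q - SQ N Q) (SQ N Q - A2 N) (A2 N - N * L)
    have e : VV N Q - SQ N Q + (SQ N Q - A2 N) + (A2 N - N * L) = VV N Q - N * L := by ring
    rw [e] at this
    exact this
  have p1 : ∑ Q ∈ QQ Y, |VV N Q - SQ N Q| ≤ (η / 3) * (N * Y) := by
    refine le_trans (hc N g4 Y hY1 hY2) ?_
    calc (Y:ℝ) * (N : ℝ) ^ (1 - ε / 8) ≤ Y * ((η / 3) * N) := mul_le_mul_of_nonneg_left f1 hYpos.le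
      _ = (η / 3) * (N * Y) := by ring
  have p3 : (QQ Y).card * |A2 N - N * L| ≤ (η / 3) * (N * Y) := by
    calc (QQ Y).card * |A2 N - N * L| ≤ (2 * C1 * (Y / L)) * (η / (6 * C1) * (N * L)) :=
          mul_le_mul hcard hA2 (abs_nonneg _) (by positivity)
      _ = (η / 3) * (N * Y) := by field_simp; ring
  have hW : 0 < (N:ℝ) * Y / L := by positivity
  have hNY : (N:ℝ) * Y = L * (N * Y / L) := by field_simp
  by_cases hcase : (N : ℝ) ^ (19 / 20 : ℝ) ≤ Y
  · have p2 := ha' N g1 Y hcase hY2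
    calc ∑ Q ∈ QQ Y, |VV N Q - N * L|
        ≤ (η / 3) * (N * Y) + (Ca * Real.log (N / Y) + η / 3 * Real.log N) * N * (Y / Real.log N) + (η / 3) * (N * Y) := by
          linarith
      _ = (Ca * Real.log (N / Y) + η * L) * (N * Y / L) := by
          rw [← hLdef]
          have : (η / 3) * ((N:ℝ) * Y) = (η / 3) * L * (N * Y / L) := by rw [hNY]; field_simp
          rw [this]; ring
      _ ≤ ((Ca + 20 * (Cb + 4 * C1)) * Real.log (N / Y) + η * L) * (N * Y / L) := by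
          refine mul_le_mul_of_nonneg_right ?_ hW.le
          have : 0 ≤ 20 * (Cb + 4 * C1) * Real.log ((N:ℝ) / Y) := by positivity
          linarith
      _ = _ := by ring
  · push Not at hcase
    have hlogK2 : L / 20 ≤ Real.log ((N:ℝ) / Y) := by
      have k1 : Real.log Y ≤ Real.log ((N : ℝ) ^ (19 / 20 : ℝ)) := Real.log_le_log hYpos hcase.le
      rw [Real.log_rpow hNpos] at k1
      rw [Real.log_div hNpos.ne' hYpos.ne']
      linarith
    have p2 : ∑ Q ∈ QQ Y, |SQ N Q - A2 N| ≤ (Cb + 4 * C1) * (N * Y) := by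
      calc ∑ Q ∈ QQ Y, |SQ N Q - A2 N| ≤ ∑ Q ∈ QQ Y, (SQ N Q + A2 N) := by
            refine sum_le_sum fun Q hQ => ?_
            have hQY : Y < Q := (mem_Ioc.mp (mem_filter.mp hQ).1).1
            have k1 := MAI_SQ_nonneg N Q (by omega)
            have k2 := CSA_A2_nonneg N
            rw [abs_le]
            constructor <;> linarith
        _ = ∑ Q ∈ QQ Y, SQ N Q + (QQ Y).card * A2 N := by rw [sum_add_distrib, sum_const, nsmul_eq_mul]
        _ ≤ Cb * (Y / L) * (N * L) + (2 * C1 * (Y / L)) * (2 * (N * L)) :=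
            add_le_add (hb N g2 Y hY1 hY2) (mul_le_mul hcard hA3 (CSA_A2_nonneg N) (by positivity))
        _ = (Cb + 4 * C1) * (N * Y) := by field_simp; ring
    calc ∑ Q ∈ QQ Y, |VV N Q - N * L|
        ≤ (η / 3) * (N * Y) + (Cb + 4 * C1) * (N * Y) + (η / 3) * (N * Y) := by linarith
      _ = ((2 * η / 3) * L + (Cb + 4 * C1) * L) * (N * Y / L) := by rw [hNY]; field_simp; ring
      _ ≤ ((Ca + 20 * (Cb + 4 * C1)) * Real.log (N / Y) + η * L) * (N * Y / L) := by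
          refine mul_le_mul_of_nonneg_right ?_ hW.le
          have k1 : (Cb + 4 * C1) * L ≤ 20 * (Cb + 4 * C1) * Real.log (N / Y) := by
            have := mul_le_mul_of_nonneg_left hlogK2 (by positivity : 0 ≤ 20 * (Cb + 4 * C1))
            linarith
          have k2 : 0 ≤ Ca * Real.log ((N:ℝ) / Y) := by positivity
          have k3 : 0 ≤ η * L := by positivity
          linarith
      _ = _ := by ring

alias main_nat := main_nat_pr

end Pool.Agent.PV
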