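import Pool.Agent.Lib_helper92.PVF.Base
import Pool.Agent.Lib_helper92.PVF.QCA
import Pool.Agent.Lib_helper92.PVF.MAI

set_option autoImplicit false

namespace Pool.Agent.PV

open Finset Complex Pool.Agent.Var35 Pool.Agent.Var73
open scoped ArithmeticFunction ArithmeticFunction.Moebius

theorem fin_sq (A : Finset ℕ) (f : ℕ → ℝ) (c : ℝ) :
    ∑ a ∈ A, (f a - c) ^ 2 = ∑ a ∈ A, f a ^ 2 - 2 * c * ∑ a ∈ A, f a + A.card * c ^ 2 := by
  have : ∀ a ∈ A, (f a - c) ^ 2 = f a ^ 2 - 2 * c * f a + c ^ 2 := fun a _ => by ring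
  rw [sum_congr rfl this, sum_add_distrib, sum_sub_distrib, ← mul_sum, sum_const, nsmul_eq_mul]

theorem fin_total (N Q : ℕ) (hQ : 1 ≤ Q) :
    ∑ a ∈ (range Q).filter (fun a => Nat.Coprime a Q),
      ∑ n ∈ (Icc 1 N).filter (fun n => n ≡ a [MOD Q]), Λ n
      = ∑ n ∈ (Icc 1 N).filter (fun n => Nat.Coprime n Q), Λ n := by
  rw [← sum_fiberwise_of_maps_to (s := (Icc 1 N).filter (fun n => Nat.Coprime n Q))
    (t := (range Q).filter (fun a => Nat.Coprime a Q)) (g := fun n => n % Q)]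
  · refine sum_congr rfl fun a ha => ?_
    rw [mem_filter, mem_range] at ha
    refine sum_congr ?_ fun _ _ => rfl
    ext n
    simp only [mem_filter, mem_Icc]
    constructor
    · rintro ⟨h1, h2⟩
      have h3 : n % Q = a := by
        have := h2
        unfold Nat.ModEq at this
        rw [this, Nat.mod_eq_of_lt ha.1]
      refine ⟨⟨h1, ?_⟩, h3⟩
      have h4 : Nat.gcd n Q = Nat.gcd (n % Q) Q := by
        rw [Nat.gcd_comm, Nat.gcd_rec, ]
      unfold Nat.Coprime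
      rw [h4, h3]; exact ha.2
    · rintro ⟨⟨h1, _⟩, h3⟩
      refine ⟨h1, ?_⟩
      unfold Nat.ModEq
      rw [Nat.mod_eq_of_lt ha.1]; exact h3
  · intro n hn
    rw [mem_filter] at hn
    rw [mem_filter, mem_range]
    refine ⟨Nat.mod_lt _ (by omega), ?_⟩
    have h4 : Nat.gcd n Q = Nat.gcd (n % Q) Q := by
      rw [Nat.gcd_comm, Nat.gcd_rec]
    have h5 : Nat.gcd n Q = 1 := hn.2
    unfold Nat.Coprime
    rw [← h4]; exact h5

theorem fin_card (Q : ℕ) : ((range Q).filter (fun a => Nat.Coprime a Q)).card = Nat.totient Q := by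
  rw [Nat.totient_eq_card_coprime]
  congr 1
  ext a
  simp only [mem_filter, Nat.coprime_comm]

theorem fin_ident (N Q : ℕ) (X : ℝ) (hQ : 1 ≤ Q) :
    (∑ a ∈ (range Q).filter (fun a => Nat.Coprime a Q),
        ((∑ n ∈ (Icc 1 N).filter (fun n => n ≡ a [MOD Q]), Λ n) - X / Nat.totient Q) ^ 2)
      - ((∑ n ∈ (Icc 1 N).filter (fun n => Nat.Coprime n Q), Λ n) - X) ^ 2 / Nat.totient Q
      = VV N Q := by
  have hφ : (0 : ℝ) < Nat.totient Q := by exact_mod_cast Nat.totient_pos.mpr hQ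
  unfold VV
  rw [fin_sq, fin_sq, fin_total N Q hQ, fin_card]
  field_simp
  ring

theorem fin_pr (ε : ℝ) (hε : 0 < ε) : ∃ C : ℝ, ∀ η : ℝ, 0 < η → ∃ X₀ : ℝ, ∀ X Y : ℝ, X₀ ≤ X →
    X ^ (1 / 2 + ε) ≤ Y → Y ≤ X →
    ∑ Q ∈ (Icc 1 ⌊2 * Y⌋₊).filter (fun Q : ℕ => Q.Prime ∧ Y < Q),
      |(∑ a ∈ (range Q).filter (fun a => Nat.Coprime a Q),
          ((∑ n ∈ (Icc 1 ⌊X⌋₊).filter (fun n => n ≡ a [MOD Q]), Λ n) - X / Nat.totient Q) ^ 2)
        - ((∑ n ∈ (Icc 1 ⌊X⌋₊).filter (fun n => Nat.Coprime n Q), Λ n) - X) ^ 2 / Nat.totient Q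
        - X * Real.log Q|
      ≤ (C * Real.log (X / Y) + η * Real.log X) * X * (Y / Real.log Y) := by
  obtain ⟨C1, hC1, H⟩ := main_nat (ε / 2) (by linarith)
  obtain ⟨C2, hC2, K⟩ := qq_card
  refine ⟨2 * C1 + 2 * C2, fun η hη => ?_⟩
  obtain ⟨N0, hN0⟩ := H (η / 4) (by linarith)
  have e1 : ∀ᶠ X : ℝ in Filter.atTop, 2 ≤ X ^ (ε / 2) :=
    (tendsto_rpow_atTop (by linarith)).eventually_ge_atTop 2
  have e2 : ∀ᶠ X : ℝ in Filter.atTop, (2 / η) * (2 * C1 + 8 * C2) ≤ Real.log X :=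
    Real.tendsto_log_atTop.eventually_ge_atTop _
  have e3 : ∀ᶠ X : ℝ in Filter.atTop, (N0 : ℝ) + 1 ≤ X := Filter.eventually_ge_atTop _
  have e4 : ∀ᶠ X : ℝ in Filter.atTop, (16 : ℝ) ≤ X := Filter.eventually_ge_atTop _
  obtain ⟨X₀, hX₀⟩ := Filter.eventually_atTop.mp (e1.and (e2.and (e3.and e4)))
  refine ⟨X₀, fun X Y hX hY1 hY2 => ?_⟩
  obtain ⟨a1, a2, a3, a4⟩ := hX₀ X hX
  set N : ℕ := ⌊X⌋₊ with hN
  set Y' : ℕ := ⌊Y⌋₊ with hY'
  have hXpos : 0 < X := by linarith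
  have hNX : (N : ℝ) ≤ X := Nat.floor_le hXpos.le
  have hXN : X < N + 1 := Nat.lt_floor_add_one X
  have hp1 : X ^ (1 / 2 + ε) = X ^ (1 / 2 + ε / 2) * X ^ (ε / 2) := by
    rw [← Real.rpow_add hXpos]; congr 1; ring
  have hp2 : (4 : ℝ) ≤ X ^ (1 / 2 + ε / 2) := by
    have h1 : (4 : ℝ) = 16 ^ (1 / 2 : ℝ) := by
      rw [← Real.sqrt_eq_rpow, show (16 : ℝ) = 4 ^ 2 by norm_num, Real.sqrt_sq (by norm_num)]
    rw [h1]
    calc (16 : ℝ) ^ (1 / 2 : ℝ) ≤ X ^ (1 / 2 : ℝ) := Real.rpow_le_rpow (by norm_num) a4 (by norm_num)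
      _ ≤ X ^ (1 / 2 + ε / 2) := Real.rpow_le_rpow_of_exponent_le (by linarith) (by linarith)
  have hp3 : X ^ (1 / 2 + ε / 2) + 1 ≤ Y := by
    refine le_trans ?_ hY1
    rw [hp1]
    nlinarith
  have hY5 : 5 ≤ Y := by linarith
  have hYpos : 0 < Y := by linarith
  have hY'Y : (Y' : ℝ) ≤ Y := Nat.floor_le hYpos.le
  have hYY' : Y < Y' + 1 := Nat.lt_floor_add_one Y
  have hcond : (N : ℝ) ^ (1 / 2 + ε / 2) ≤ Y' := by
    calc (N : ℝ) ^ (1 / 2 + ε / 2) ≤ X ^ (1 / 2 + ε / 2) :=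
          Real.rpow_le_rpow (Nat.cast_nonneg _) hNX (by linarith)
      _ ≤ Y' := by linarith
  have hY'N : Y' ≤ N := Nat.floor_le_floor hY2
  have hNN0 : N ≥ N0 := by
    have : (N0 : ℝ) < N + 1 := by linarith
    have h2 : N0 < N + 1 := by exact_mod_cast this
    omega
  have hmain := hN0 N hNN0 Y' hcond hY'N
  have hY'4 : (4 : ℝ) ≤ Y' := by linarith
  have hY'4n : 4 ≤ Y' := by exact_mod_cast hY'4
  have hcardQ := K Y' (by omega)
  -- logarithms
  have hlogX : 0 < Real.log X := Real.log_pos (by linarith)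
  have hlogY : 0 < Real.log Y := Real.log_pos (by linarith)
  have hlogYX : Real.log Y ≤ Real.log X := Real.log_le_log hYpos hY2
  have hNge : (15 : ℝ) ≤ N := by linarith
  have hlogN : Real.log X / 2 ≤ Real.log N := by
    have h1 : Real.log X ≤ Real.log ((N : ℝ) ^ 2) := by
      apply Real.log_le_log hXpos; nlinarith
    rw [Real.log_pow] at h1; push_cast at h1; linarith
  have hlogN0 : 0 < Real.log N := by linarith
  have hlogY' : Real.log Y / 2 ≤ Real.log Y' := by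
    have h1 : Real.log Y ≤ Real.log ((Y' : ℝ) ^ 2) := by
      apply Real.log_le_log hYpos; nlinarith
    rw [Real.log_pow] at h1; push_cast at h1; linarith
  have hlogY'0 : 0 < Real.log Y' := by linarith
  have hlogXN : Real.log N ≤ Real.log X := Real.log_le_log (by linarith) hNX
  set LL : ℝ := Real.log (X / Y) with hLL
  have hLL' : LL = Real.log X - Real.log Y := Real.log_div hXpos.ne' hYpos.ne'
  have hLL0 : 0 ≤ LL := by rw [hLL']; linarith
  have hlogYY' : Real.log Y ≤ Real.log Y' + 1 := by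
    have h1 : Real.log (Y / Y') ≤ Y / Y' - 1 := Real.log_le_sub_one_of_pos (by positivity)
    rw [Real.log_div hYpos.ne' (by positivity)] at h1
    have h2 : Y / Y' ≤ 2 := by rw [div_le_iff₀ (by positivity)]; linarith
    linarith
  have hlogNY' : Real.log (N / Y') ≤ LL + 1 := by
    rw [Real.log_div (by positivity) (by positivity), hLL']; linarith
  have hlogNY'0 : 0 ≤ Real.log (N / Y') := by
    apply Real.log_nonneg
    rw [le_div_iff₀ (by positivity)]
    have : (Y' : ℝ) ≤ N := by exact_mod_cast hY'N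
    linarith
  have hlog2 : Real.log 2 ≤ 1 := by
    have := Real.log_two_lt_d9; linarith
  -- individual terms
  have hterm : ∀ Q ∈ (Icc 1 ⌊2 * Y⌋₊).filter (fun Q : ℕ => Q.Prime ∧ Y < Q),
      |(∑ a ∈ (range Q).filter (fun a => Nat.Coprime a Q),
          ((∑ n ∈ (Icc 1 N).filter (fun n => n ≡ a [MOD Q]), Λ n) - X / Nat.totient Q) ^ 2)
        - ((∑ n ∈ (Icc 1 N).filter (fun n => Nat.Coprime n Q), Λ n) - X) ^ 2 / Nat.totient Q
        - X * Real.log Q| ≤ |VV N Q - N * Real.log N| + X * (LL + 4) := by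
    intro Q hQ
    rw [mem_filter, mem_Icc] at hQ
    obtain ⟨⟨hQ1, hQ2⟩, hQp, hYQ⟩ := hQ
    rw [fin_ident N Q X hQ1]
    have hQ2' : (Q : ℝ) ≤ 2 * Y := le_trans (by exact_mod_cast hQ2) (Nat.floor_le (by linarith))
    have hlQ1 : Real.log Q ≤ Real.log X + 1 := by
      have h1 : Real.log Q ≤ Real.log (2 * X) := Real.log_le_log (by linarith) (by linarith)
      rw [Real.log_mul (by norm_num) hXpos.ne'] at h1; linarith
    have hlQ2 : Real.log X - LL ≤ Real.log Q := by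
      have h1 : Real.log Y ≤ Real.log Q := Real.log_le_log hYpos hYQ.le
      rw [hLL']; linarith
    have h3 : X * Real.log X - N * Real.log N ≤ Real.log X + 1 := by
      have h1 : Real.log (X / N) ≤ X / N - 1 := Real.log_le_sub_one_of_pos (by positivity)
      rw [Real.log_div hXpos.ne' (by positivity)] at h1
      have h2 : (N : ℝ) * (Real.log X - Real.log N) ≤ X - N := by
        calc (N : ℝ) * (Real.log X - Real.log N) ≤ N * (X / N - 1) :=
              mul_le_mul_of_nonneg_left h1 (by linarith)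
          _ = X - N := by field_simp
      nlinarith
    have h4 : 0 ≤ X * Real.log X - N * Real.log N := by
      have : (N : ℝ) * Real.log N ≤ X * Real.log X := mul_le_mul hNX hlogXN hlogN0.le hXpos.le
      linarith
    have h5 : Real.log X ≤ X := (Real.log_le_sub_one_of_pos hXpos).trans (by linarith)
    have h6 : |(N : ℝ) * Real.log N - X * Real.log Q| ≤ X * (LL + 4) := by
      rw [abs_le]; constructor
      · nlinarith
      · nlinarith
    calc |VV N Q - X * Real.log Q| = |(VV N Q - N * Real.log N) + (N * Real.log N - X * Real.log Q)| := by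
          congr 1; ring
      _ ≤ _ := (abs_add_le _ _).trans (by linarith)
  have hsub : (Icc 1 ⌊2 * Y⌋₊).filter (fun Q : ℕ => Q.Prime ∧ Y < Q) ⊆ QQ Y' := by
    intro Q hQ
    rw [mem_filter, mem_Icc] at hQ
    obtain ⟨⟨hQ1, hQ2⟩, hQp, hYQ⟩ := hQ
    unfold QQ
    rw [mem_filter, mem_Ioc]
    have hQ2' : (Q : ℝ) ≤ 2 * Y := le_trans (by exact_mod_cast hQ2) (Nat.floor_le (by linarith))
    refine ⟨⟨?_, ?_⟩, hQp⟩
    · have : (Y' : ℝ) < Q := by linarith
      exact_mod_cast this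
    · have : (Q : ℝ) ≤ 4 * Y' := by linarith
      exact_mod_cast this
  have hsum : ∑ Q ∈ (Icc 1 ⌊2 * Y⌋₊).filter (fun Q : ℕ => Q.Prime ∧ Y < Q),
      |(∑ a ∈ (range Q).filter (fun a => Nat.Coprime a Q),
          ((∑ n ∈ (Icc 1 N).filter (fun n => n ≡ a [MOD Q]), Λ n) - X / Nat.totient Q) ^ 2)
        - ((∑ n ∈ (Icc 1 N).filter (fun n => Nat.Coprime n Q), Λ n) - X) ^ 2 / Nat.totient Q
        - X * Real.log Q| ≤ ∑ Q ∈ QQ Y', |VV N Q - N * Real.log N| + (QQ Y').card * (X * (LL + 4)) := by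
    refine (sum_le_sum hterm).trans ?_
    refine (sum_le_sum_of_subset_of_nonneg hsub fun Q _ _ => by positivity).trans ?_
    rw [sum_add_distrib, sum_const, nsmul_eq_mul]
  refine hsum.trans ?_
  have hb1 : ∑ Q ∈ QQ Y', |VV N Q - N * Real.log N|
      ≤ (C1 * (LL + 1) + η / 4 * Real.log X) * X * (2 * (Y / Real.log Y)) := by
    refine hmain.trans ?_
    have g1 : C1 * Real.log (N / Y') + η / 4 * Real.log N ≤ C1 * (LL + 1) + η / 4 * Real.log X := by
      have := mul_le_mul_of_nonneg_left hlogNY' hC1.le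
      have := mul_le_mul_of_nonneg_left hlogXN (by linarith : 0 ≤ η / 4)
      linarith
    have g0 : 0 ≤ C1 * Real.log (N / Y') + η / 4 * Real.log N := by positivity
    have g2 : (Y' : ℝ) / Real.log N ≤ 2 * (Y / Real.log Y) := by
      rw [← mul_div_assoc, div_le_div_iff₀ hlogN0 hlogY]
      nlinarith
    have g3 : 0 ≤ (Y' : ℝ) / Real.log N := by positivity
    exact mul_le_mul (mul_le_mul g1 hNX (Nat.cast_nonneg _) (g0.trans g1)) g2 g3
      (mul_nonneg (g0.trans g1) hXpos.le)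
  have hb2 : ((QQ Y').card : ℝ) * (X * (LL + 4)) ≤ (2 * C2 * (Y / Real.log Y)) * (X * (LL + 4)) := by
    refine mul_le_mul_of_nonneg_right (hcardQ.trans ?_) (by positivity)
    have g2 : (Y' : ℝ) / Real.log Y' ≤ 2 * (Y / Real.log Y) := by
      rw [← mul_div_assoc, div_le_div_iff₀ hlogY'0 hlogY]
      nlinarith
    nlinarith
  refine (add_le_add hb1 hb2).trans ?_
  have hZ : 0 ≤ X * (Y / Real.log Y) := by positivity
  have hfin : 2 * C1 + 8 * C2 ≤ η / 2 * Real.log X := by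
    have h1 : (η / 2) * ((2 / η) * (2 * C1 + 8 * C2)) ≤ η / 2 * Real.log X :=
      mul_le_mul_of_nonneg_left a2 (by linarith)
    have h2 : (η / 2) * ((2 / η) * (2 * C1 + 8 * C2)) = 2 * C1 + 8 * C2 := by field_simp
    linarith
  have hE : (C1 * (LL + 1) + η / 4 * Real.log X) * X * (2 * (Y / Real.log Y))
      + (2 * C2 * (Y / Real.log Y)) * (X * (LL + 4))
      = ((2 * C1 + 2 * C2) * LL + (2 * C1 + 8 * C2) + η / 2 * Real.log X) * (X * (Y / Real.log Y)) := by
    ring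
  rw [hE]
  have hF : ((2 * C1 + 2 * C2) * LL + η * Real.log X) * X * (Y / Real.log Y)
      = ((2 * C1 + 2 * C2) * LL + η * Real.log X) * (X * (Y / Real.log Y)) := by ring
  rw [hF]
  exact mul_le_mul_of_nonneg_right (by linarith) hZ

alias fin := fin_pr

end Pool.Agent.PV
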