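import Pool.Agent.Lib_helper35.Var.Vaughan
import Pool.Agent.Lib_helper35.Var.MV
import Pool.Agent.Lib_helper73.Var.LS

/-! PV : variance of primes in progressions for almost all prime moduli. Definitions. -/

set_option autoImplicit false

namespace Pool.Agent.PV

open Finset Complex Pool.Agent.Var35 Pool.Agent.Var73
open scoped ArithmeticFunction ArithmeticFunction.Moebius

/-- distance to the nearest integer -/
noncomputable def nn (x : ℝ) : ℝ := |x - round x|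

/-- `min (A, 1/nn x)` -/
noncomputable def mn (A x : ℝ) : ℝ := if nn x * A ≤ 1 then A else 1 / nn x

/-- exponential polynomial -/
noncomputable def Bs (b : ℕ → ℂ) (N : ℕ) (t : ℝ) : ℂ := ∑ n ∈ Icc 1 N, b n * e (n * t)

/-- `log p` on the primes `p > sqrt N` -/
noncomputable def aS (N n : ℕ) : ℝ := if n.Prime ∧ Nat.sqrt N < n then Real.log n else 0

/-- the exponential sum over the primes in `(sqrt N, N]` -/
noncomputable def Ps (N : ℕ) (t : ℝ) : ℂ := Bs (fun n => (aS N n : ℂ)) N t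

/-- its square -/
noncomputable def Fp (N : ℕ) (t : ℝ) : ℝ := ‖Ps N t‖ ^ 2

/-- the sum of the squares of the coefficients -/
noncomputable def A2 (N : ℕ) : ℝ := ∑ n ∈ Icc 1 N, aS N n ^ 2

/-- the moduli -/
def QQ (Y : ℕ) : Finset ℕ := (Ioc Y (4 * Y)).filter Nat.Prime

/-- de la Vallee Poussin kernel, spectrum in `(-2N, 2N)`, equal to one on `[-N, N]` -/
noncomputable def Wk (N : ℕ) (t : ℝ) : ℝ := (‖Dk (2 * N) t‖ ^ 2 - ‖Dk N t‖ ^ 2) / N

/-- full kernel of the modulus `Q` -/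
noncomputable def EQ (N Q : ℕ) (t : ℝ) : ℝ := (1 / (Q : ℝ)) * ∑ b ∈ range Q, Wk N (t - b / Q)

/-- kernel of the modulus `Q` without the fraction `0` -/
noncomputable def Eo (N Q : ℕ) (t : ℝ) : ℝ := (1 / (Q : ℝ)) * ∑ b ∈ Ico 1 Q, Wk N (t - b / Q)

/-- the same with absolute values -/
noncomputable def Ea (N Q : ℕ) (t : ℝ) : ℝ := (1 / (Q : ℝ)) * ∑ b ∈ Ico 1 Q, |Wk N (t - b / Q)|

/-- the variance of the sequence `aS N` over all residues modulo `Q` -/
noncomputable def SQ (N Q : ℕ) : ℝ :=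
  ∑ a ∈ range Q, (∑ n ∈ (Icc 1 N).filter (fun n => n % Q = a), aS N n) ^ 2
    - (∑ n ∈ Icc 1 N, aS N n) ^ 2 / Q

/-- the variance of the von Mangoldt function over the reduced residues modulo `Q` -/
noncomputable def VV (N Q : ℕ) : ℝ :=
  ∑ a ∈ (range Q).filter (fun a => Nat.Coprime a Q),
    (∑ n ∈ (Icc 1 N).filter (fun n => n ≡ a [MOD Q]), Λ n
      - (∑ n ∈ (Icc 1 N).filter (fun n => Nat.Coprime n Q), Λ n) / Nat.totient Q) ^ 2

/-- the discretisation modulus -/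
def Good (N M : ℕ) : Prop := 4 * N < M ∧ ∀ r, 1 ≤ r → r ≤ Nat.sqrt N → r ∣ M

/-- mean value over the points `j / M` -/
noncomputable def mean (M : ℕ) (J : Finset ℕ) (F : ℝ → ℝ) : ℝ := (1 / (M : ℝ)) * ∑ j ∈ J, F (j / M)

/-- mean square of the exponential sum over the reduced fractions of denominator `r` -/
noncomputable def Hh (b : ℕ → ℂ) (N r : ℕ) : ℝ := ∑ c ∈ Cd r, ‖Bs b N (c / r)‖ ^ 2

/-- the primitive part modulo `q` -/
noncomputable def Tp (b : ℕ → ℂ) (N q : ℕ) : ℝ :=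
  ∑ ψ ∈ Pr q, ‖∑ n ∈ Icc 1 N, b n * ψ (n : ZMod q)‖ ^ 2

/-- `sum over m <= z, (m, q) = 1, m squarefree of 1 / phi m` -/
noncomputable def Lq (q z : ℕ) : ℝ :=
  ∑ m ∈ (Icc 1 z).filter (fun m => Squarefree m ∧ Nat.Coprime m q), 1 / (Nat.totient m : ℝ)

/-- number of `m <= x` coprime to `r` -/
noncomputable def Ph (r : ℕ) (x : ℝ) : ℝ := (((Icc 1 ⌊x⌋₊).filter (fun m => Nat.Coprime m r)).card : ℝ)

/-- the major arcs: `|j/M - c/r| <= r0/(r N)`, `r <= r0` -/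
noncomputable def MJ (N M r0 : ℕ) : Finset ℕ := by
  classical exact (range M).filter (fun j => ∃ r ∈ Icc 1 r0, ∃ c : ℤ, IsCoprime c (r : ℤ) ∧
    |(j : ℝ) / M - c / r| ≤ r0 / (r * N))

/-- the shifts `i / M` with `u <= |i| / M <= v` -/
noncomputable def Sh (M : ℕ) (u v : ℝ) : Finset ℤ :=
  (Icc (-(M : ℤ)) M).filter (fun i => u ≤ |(i : ℝ)| / M ∧ |(i : ℝ)| / M ≤ v)

/-- the arcs around the fractions of denominator `r` -/
noncomputable def Arc (N M r : ℕ) (u v : ℝ) : ℝ :=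
  ∑ i ∈ Sh M u v, ∑ c ∈ Cd r, Fp N (c / r + i / M)

/-- weight of the first thin set -/
noncomputable def al (N Y r : ℕ) (β : ℝ) : ℝ :=
  if (r : ℝ) * Y < N * Real.log N ^ 2 ∧ |β| * (r * Y) < Real.log N ^ 2 then
    (r / Nat.totient r : ℝ) * min 1 ((r : ℝ) * Y / N) else 0

/-- weight of the second thin set -/
noncomputable def ga (N Y r : ℕ) (β : ℝ) : ℝ :=
  if (r : ℝ) * Y < N ∧ 1 ≤ 8 * (|β| * (r * Y)) ∧ |β| * (r * Y) < Real.log N ^ 2 then
    (r / Nat.totient r : ℝ) else 0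

/-- number of pairs `(Q, b)` with `b / Q` within `T / N` of `t` -/
noncomputable def cN (N Y : ℕ) (t T : ℝ) : ℝ :=
  ∑ Q ∈ QQ Y, (((Ico 1 Q).filter (fun b : ℕ => nn (t - b / Q) ≤ T / N)).card : ℝ)

/-- the sum over all arcs with a weight -/
noncomputable def Th (w : ℕ → ℝ → ℝ) (N M : ℕ) : ℝ :=
  (1 / (M : ℝ)) * ∑ r ∈ Icc 1 (Nat.sqrt N), ∑ i ∈ Sh M 0 1, ∑ c ∈ Cd r,
    w r (i / M) * Fp N (c / r + i / M)

end Pool.Agent.PV
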